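import Pool.Agent.Lib.MP_43065d_gt.Pl.SecInt

/-!
# Module SecAdd: sections of convex sets

PROOF.  `exists_height`: the image of the convex compact nonempty `S` under `inner n` is a compact interval (`Convex.isPreconnected`, intermediate value).
`sec_add`: the sections `I = {u | s • n + u • rot n ∈ A}` and `J = {u | t • n + u • rot n ∈ B}` are nonempty (use `coord`) compact convex subsets of `ℝ`, i.e.
`I = Icc i₀ i₁`, `J = Icc j₀ j₁`, and `α u + β v ∈ K = {u | (αs+βt) • n + u • rot n ∈ T}` for `u ∈ I`, `v ∈ J`.  The set `{α u + β v}` contains (is) a closed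
interval of length `|α|(i₁-i₀) + |β|(j₁-j₀)` (image of a connected set under a continuous map; its extreme values are attained), so
`volume K ≥` this length, and `volume K` is finite.
`sec_concave`: `sec_add` with `A = B = T = S`, `α, β ≥ 0`, `α + β = 1`.
`sec_ge_dist`: the segment `[A,B]` is in the section, `dist = |difference of the rot n coordinates|`.  `sec_eq_dist`: equality.
-/

open MeasureTheory Set Filter Topology Metric
open scoped ENNReal NNReal Pointwise

namespace Pool.Agent.Lib.MP_43065d_gt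

theorem exists_height (n : E2) {S : Set E2} (hS : Convex ℝ S) (hc : IsCompact S)
    (hne : S.Nonempty) {s : ℝ} (hs : s ∈ Icc (lo n S) (hi n S)) : ∃ p ∈ S, inner ℝ n p = s := by
  have h1 : IsPreconnected ((fun y : E2 => (inner ℝ n y : ℝ)) '' S) :=
    hS.isPreconnected.image _ (continuous_const.inner continuous_id).continuousOn
  obtain ⟨y0, hy0, h0⟩ := exists_lo n hc hne
  obtain ⟨y1, hy1, h2⟩ := exists_hi n hc hne
  have h3 : s ∈ (fun y : E2 => (inner ℝ n y : ℝ)) '' S :=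
    h1.Icc_subset ⟨y0, hy0, h0⟩ ⟨y1, hy1, h2⟩ hs
  obtain ⟨p, hp, hps⟩ := h3
  exact ⟨p, hp, hps⟩

private theorem secAdd_rot {n : E2} (hn : ‖n‖ = 1) (s t : ℝ) :
    inner ℝ (rot n) (s • n + t • rot n) = t := by
  rw [inner_add_right, inner_smul_right, inner_smul_right, real_inner_comm, inner_rot,
    real_inner_self_eq_norm_sq, norm_rot, hn]
  ring

private theorem secAdd_comb (n : E2) (s t u v α β : ℝ) :
    α • (s • n + u • rot n) + β • (t • n + v • rot n) =
      (α * s + β * t) • n + (α * u + β * v) • rot n := by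
  module

/-- the section as an interval -/
private theorem secAdd_Icc {n : E2} (hn : ‖n‖ = 1) {A : Set E2} (hA : Convex ℝ A)
    (hAc : IsCompact A) {s : ℝ} (hA0 : ∃ p ∈ A, inner ℝ n p = s) :
    ∃ i j : ℝ, i ≤ j ∧ {u : ℝ | s • n + u • rot n ∈ A} = Icc i j := by
  have hcont : Continuous fun u : ℝ => s • n + u • rot n := by fun_prop
  have hcl : IsClosed {u : ℝ | s • n + u • rot n ∈ A} := hAc.isClosed.preimage hcont
  have hbd : Bornology.IsBounded {u : ℝ | s • n + u • rot n ∈ A} := by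
    obtain ⟨R, hR⟩ := hAc.isBounded.subset_closedBall 0
    refine (Metric.isBounded_Icc (-R) R).subset ?_
    intro t ht
    have h1 : ‖s • n + t • rot n‖ ≤ R := by
      have := hR ht
      rwa [mem_closedBall_zero_iff] at this
    have h2 : |t| ≤ R := by
      calc |t| = |inner ℝ (rot n) (s • n + t • rot n)| := by rw [secAdd_rot hn]
        _ ≤ ‖rot n‖ * ‖s • n + t • rot n‖ := abs_real_inner_le_norm _ _
        _ = ‖s • n + t • rot n‖ := by rw [norm_rot, hn, one_mul]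
        _ ≤ R := h1
    exact abs_le.1 h2
  have hne : {u : ℝ | s • n + u • rot n ∈ A}.Nonempty := by
    obtain ⟨p, hp, hps⟩ := hA0
    refine ⟨inner ℝ (rot n) p, ?_⟩
    show s • n + (inner ℝ (rot n) p) • rot n ∈ A
    rw [← hps, ← coord hn p]
    exact hp
  have hconv : Convex ℝ {u : ℝ | s • n + u • rot n ∈ A} := by
    intro u hu v hv a b ha hb hab
    show s • n + (a • u + b • v) • rot n ∈ A
    have h := hA hu hv ha hb hab
    rw [secAdd_comb] at h
    have h2 : a * s + b * s = s := by rw [← add_mul, hab, one_mul]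
    rw [h2] at h
    exact h
  have hK : IsCompact {u : ℝ | s • n + u • rot n ∈ A} :=
    Metric.isCompact_of_isClosed_isBounded hcl hbd
  have hE := eq_Icc_of_connected_compact ⟨hne, hconv.isPreconnected⟩ hK
  refine ⟨_, _, ?_, hE⟩
  obtain ⟨x, hx⟩ := hne
  rw [hE] at hx
  exact hx.1.trans hx.2

private theorem secAdd_sum {i0 i1 j0 j1 : ℝ} (hi : i0 ≤ i1) (hj : j0 ≤ j1) (α β : ℝ) :
    ∃ m : ℝ, ∀ w ∈ Icc m (m + (|α| * (i1 - i0) + |β| * (j1 - j0))),
      ∃ u ∈ Icc i0 i1, ∃ v ∈ Icc j0 j1, α * u + β * v = w := by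
  have key : ∀ (γ : ℝ) {k0 k1 : ℝ}, k0 ≤ k1 → ∃ u0 ∈ Icc k0 k1, ∃ u1 ∈ Icc k0 k1,
      γ * (u1 - u0) = |γ| * (k1 - k0) := by
    intro γ k0 k1 hk
    rcases le_total 0 γ with h | h
    · exact ⟨k0, ⟨le_rfl, hk⟩, k1, ⟨hk, le_rfl⟩, by rw [abs_of_nonneg h]⟩
    · exact ⟨k1, ⟨hk, le_rfl⟩, k0, ⟨le_rfl, hk⟩, by rw [abs_of_nonpos h]; ring⟩
  obtain ⟨u0, hu0, u1, hu1, hu⟩ := key α hi
  obtain ⟨v0, hv0, v1, hv1, hv⟩ := key β hj
  refine ⟨α * u0 + β * v0, ?_⟩
  intro w hw
  rw [← hu, ← hv] at hw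
  obtain ⟨t, ht0, ht1, htw⟩ : ∃ t : ℝ, 0 ≤ t ∧ t ≤ 1 ∧
      w = α * u0 + β * v0 + t * (α * (u1 - u0) + β * (v1 - v0)) := by
    rcases (hw.1.trans hw.2 : α * u0 + β * v0 ≤ _).lt_or_eq with h | h
    · have hpos : 0 < α * (u1 - u0) + β * (v1 - v0) := by linarith
      refine ⟨(w - (α * u0 + β * v0)) / (α * (u1 - u0) + β * (v1 - v0)),
        div_nonneg (by linarith [hw.1]) hpos.le, (div_le_one hpos).2 (by linarith [hw.2]), ?_⟩
      rw [div_mul_cancel₀ _ hpos.ne']
      ring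
    · exact ⟨0, le_rfl, zero_le_one, by
        have h1 := hw.1
        have h2 := hw.2
        linarith⟩
  have hcv : ∀ {k0 k1 x0 x1 : ℝ}, x0 ∈ Icc k0 k1 → x1 ∈ Icc k0 k1 →
      (1 - t) * x0 + t * x1 ∈ Icc k0 k1 := by
    intro k0 k1 x0 x1 h0 h1
    have := (convex_Icc k0 k1) h0 h1 (sub_nonneg.2 ht1) ht0 (by ring)
    simpa using this
  refine ⟨(1 - t) * u0 + t * u1, hcv hu0 hu1, (1 - t) * v0 + t * v1, hcv hv0 hv1, ?_⟩
  rw [htw]
  ring

theorem sec_add {n : E2} (hn : ‖n‖ = 1) {A B T : Set E2} (hA : Convex ℝ A) (hAc : IsCompact A)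
    (hB : Convex ℝ B) (hBc : IsCompact B) {s t α β : ℝ} (hA0 : ∃ p ∈ A, inner ℝ n p = s)
    (hB0 : ∃ p ∈ B, inner ℝ n p = t)
    (hT : ∀ p ∈ A, ∀ q ∈ B, inner ℝ n p = s → inner ℝ n q = t → α • p + β • q ∈ T)
    (hfin : volume {u : ℝ | (α * s + β * t) • n + u • rot n ∈ T} ≠ ⊤) :
    |α| * sec n A s + |β| * sec n B t ≤ sec n T (α * s + β * t) := by
  obtain ⟨i0, i1, hi, hI⟩ := secAdd_Icc hn hA hAc hA0
  obtain ⟨j0, j1, hj, hJ⟩ := secAdd_Icc hn hB hBc hB0
  obtain ⟨m, hm⟩ := secAdd_sum hi hj α β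
  have h1 : Icc m (m + (|α| * (i1 - i0) + |β| * (j1 - j0))) ⊆
      {u : ℝ | (α * s + β * t) • n + u • rot n ∈ T} := by
    intro w hw
    obtain ⟨u, hu, v, hv, rfl⟩ := hm w hw
    rw [← hI] at hu
    rw [← hJ] at hv
    have := hT _ hu _ hv (inner_coord hn s u) (inner_coord hn t v)
    rw [secAdd_comb] at this
    exact this
  have h2 := measureReal_mono h1 hfin
  have h0 : 0 ≤ |α| * (i1 - i0) + |β| * (j1 - j0) :=
    add_nonneg (mul_nonneg (abs_nonneg _) (sub_nonneg.2 hi))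
      (mul_nonneg (abs_nonneg _) (sub_nonneg.2 hj))
  rw [Real.volume_real_Icc_of_le (by linarith)] at h2
  unfold sec
  rw [hI, hJ, Real.volume_real_Icc_of_le hi, Real.volume_real_Icc_of_le hj]
  linarith

theorem sec_concave {n : E2} (hn : ‖n‖ = 1) {S : Set E2} (hS : Convex ℝ S) (hc : IsCompact S) :
    ConcaveOn ℝ (Icc (lo n S) (hi n S)) (sec n S) := by
  refine ⟨convex_Icc _ _, ?_⟩
  intro x hx y hy a b ha hb hab
  rcases S.eq_empty_or_nonempty with rfl | hne
  · simp [sec]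
  · have h := sec_add hn hS hc hS hc (T := S) (α := a) (β := b) (exists_height n hS hc hne hx)
      (exists_height n hS hc hne hy) (fun p hp q hq _ _ => hS hp hq ha hb hab)
      (sec_ne_top hn hc.isBounded _)
    rw [abs_of_nonneg ha, abs_of_nonneg hb] at h
    exact h

private theorem secAdd_dist {n : E2} (hn : ‖n‖ = 1) (s a b : ℝ) :
    dist (s • n + a • rot n) (s • n + b • rot n) = |a - b| := by
  rw [dist_add_left, dist_eq_norm, ← sub_smul, norm_smul, norm_rot, hn, mul_one,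
    Real.norm_eq_abs]

private theorem secAdd_seg {n : E2} (hn : ‖n‖ = 1) (s a b t : ℝ) :
    s • n + t • rot n ∈ segment ℝ (s • n + a • rot n) (s • n + b • rot n) ↔ t ∈ uIcc a b := by
  rw [← segment_eq_uIcc]
  constructor
  · rintro ⟨α, β, hα, hβ, hαβ, h⟩
    refine ⟨α, β, hα, hβ, hαβ, ?_⟩
    rw [secAdd_comb] at h
    have := congrArg (fun y => inner ℝ (rot n) y) h
    simp only [secAdd_rot hn] at this
    simpa using this
  · rintro ⟨α, β, hα, hβ, hαβ, h⟩
    refine ⟨α, β, hα, hβ, hαβ, ?_⟩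
    rw [secAdd_comb, ← add_mul, hαβ, one_mul]
    simp only [smul_eq_mul] at h
    rw [h]

private theorem secAdd_vol (a b : ℝ) : volume.real (uIcc a b) = |a - b| := by
  rcases le_total a b with h | h
  · rw [uIcc_of_le h, Real.volume_real_Icc_of_le h, abs_sub_comm, abs_of_nonneg (sub_nonneg.2 h)]
  · rw [uIcc_of_ge h, Real.volume_real_Icc_of_le h, abs_of_nonneg (sub_nonneg.2 h)]

theorem sec_ge_dist {n : E2} (hn : ‖n‖ = 1) {S : Set E2} (hS : Convex ℝ S)
    (hb : Bornology.IsBounded S) {A B : E2} {s : ℝ} (hA : A ∈ S) (hB : B ∈ S)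
    (hnA : inner ℝ n A = s) (hnB : inner ℝ n B = s) : dist A B ≤ sec n S s := by
  have h1 := coord hn A
  have h2 := coord hn B
  rw [hnA] at h1
  rw [hnB] at h2
  rw [h1, h2, secAdd_dist hn, ← secAdd_vol]
  refine measureReal_mono ?_ (sec_ne_top hn hb s)
  intro t ht
  have h3 := (secAdd_seg hn s _ _ t).2 ht
  rw [← h1, ← h2] at h3
  exact hS.segment_subset hA hB h3

theorem sec_eq_dist {n : E2} (hn : ‖n‖ = 1) {S : Set E2} {A B : E2} {s : ℝ}
    (hAB : {y | y ∈ S ∧ inner ℝ n y = s} = segment ℝ A B) : sec n S s = dist A B := by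
  have hA : A ∈ {y | y ∈ S ∧ inner ℝ n y = s} := by rw [hAB]; exact left_mem_segment _ _ _
  have hB : B ∈ {y | y ∈ S ∧ inner ℝ n y = s} := by rw [hAB]; exact right_mem_segment _ _ _
  have h1 := coord hn A
  have h2 := coord hn B
  rw [hA.2] at h1
  rw [hB.2] at h2
  have h3 : {t : ℝ | s • n + t • rot n ∈ S} = uIcc (inner ℝ (rot n) A) (inner ℝ (rot n) B) := by
    ext t
    rw [← secAdd_seg hn s, ← h1, ← h2, ← hAB]
    simp only [mem_ofPred_eq, inner_coord hn, and_true]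
  unfold sec
  rw [h3, secAdd_vol]
  conv_rhs => rw [h1, h2]
  rw [secAdd_dist hn]

end Pool.Agent.Lib.MP_43065d_gt
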