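import Pool.Agent.Lib.MP_43065d_gt.Pl.PDefs

/-!
# Module NormP: normalisation by translation and scaling

PROOF.  `A = volume.real F > 0`, `s = √A`, `c i = A⁻¹ * ∫_F y i` (centroid; then `∫_F inner v y = A * inner v c`, as `inner v y = v 0 * y 0 + v 1 * y 1`).  `F' = {z | c + s • z ∈ F}`, `q' z = q (c + s • z)`;
`F' ∩ {q' ≤ 1}` is the preimage of `G = F ∩ {q ≤ 1}` under `T z = c + s • z`.  Change of variables: `∫_{T⁻¹ D} φ (T z) dz = s⁻² ∫_D φ` (`T` is a homeomorphism, scaling by `s² = A`): e.g.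
`MeasureTheory.integral_comp_smul`-type lemmas and translation invariance, applied to indicator functions.  So
`volume.real F' = 1`, `∫_{F'} inner v z = s⁻² ∫_F inner v (s⁻¹ (y-c)) = 0`, `volume.real (F' ∩ {q' ≤ 1}) = volume.real G/A = x²` with `x = √(volume.real G/A)`, `0 < x ≤ 1/2` (`pos`, `area`), `momG` from `moment`
(`∫_G inner v (y-c) = (|G|/A) ∫_F inner v y - |G| inner v c = 0`), `cut`: `inner v z - b = s⁻¹ inner v (y - c) - b = s⁻¹ (inner v y + c')`, `c' = - inner v c - s b`, positive factor `s⁻¹`, `cx`.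
`{q' ≤ 1}` convex and closed.  `key`: `T` is affine: `(1+l) • T z - l • T y = T ((1+l) • z - l • y)`.  Last claim: change of variables.
-/

open MeasureTheory Set Filter Topology Metric
open scoped ENNReal NNReal Pointwise

namespace Pool.Agent.Lib.MP_43065d_gt

private theorem normP_cov (c : E2) {s : ℝ} (hs : 0 < s) {D : Set E2} (hD : MeasurableSet D)
    (φ : E2 → ℝ) :
    ∫ z in {z : E2 | c + s • z ∈ D}, φ (c + s • z) = (s ^ 2)⁻¹ * ∫ y in D, φ y := by
  have hT : Measurable (fun z : E2 => c + s • z) := by fun_prop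
  have hm : MeasurableSet {z : E2 | c + s • z ∈ D} := hT hD
  rw [← integral_indicator hm, ← integral_indicator hD]
  have h1 : ({z : E2 | c + s • z ∈ D}).indicator (fun z => φ (c + s • z)) =
      fun z => D.indicator φ (c + s • z) := by
    funext z
    by_cases hz : c + s • z ∈ D
    · simp [Set.indicator, hz]
    · simp [Set.indicator, hz]
  rw [h1]
  have h2 := Measure.integral_comp_smul volume (fun z : E2 => D.indicator φ (c + z)) s
  have h3 : ∫ z : E2, D.indicator φ (c + z) = ∫ z : E2, D.indicator φ z :=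
    integral_add_left_eq_self (fun z => D.indicator φ z) c
  rw [h3, finrank_euclideanSpace_fin, abs_of_pos (by positivity), smul_eq_mul] at h2
  exact h2

private theorem normP_vol (c : E2) {s : ℝ} (hs : 0 < s) {D : Set E2} (hD : MeasurableSet D) :
    volume.real {z : E2 | c + s • z ∈ D} = (s ^ 2)⁻¹ * volume.real D := by
  have h := normP_cov c hs hD (fun _ => (1 : ℝ))
  simpa using h

private theorem normP_lin (c : E2) {s : ℝ} (hs : 0 < s) {D : Set E2} (hD : IsCompact D) (v : E2) :
    ∫ z in {z : E2 | c + s • z ∈ D}, inner ℝ v z =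
      (s ^ 2)⁻¹ * (s⁻¹ * ((∫ y in D, inner ℝ v y) - volume.real D * inner ℝ v c)) := by
  have h := normP_cov c hs hD.measurableSet (fun y => s⁻¹ * (inner ℝ v y - inner ℝ v c))
  have h1 : ∀ z : E2, s⁻¹ * (inner ℝ v (c + s • z) - inner ℝ v c) = inner ℝ v z := by
    intro z
    rw [inner_add_right, inner_smul_right]
    field_simp
    ring
  simp only [h1] at h
  rw [h, integral_const_mul, integral_sub, setIntegral_const, smul_eq_mul]
  · exact (by fun_prop : Continuous fun y : E2 => inner ℝ v y).continuousOn.integrableOn_compact hD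
  · exact (by fun_prop : Continuous fun _ : E2 => inner ℝ v c).continuousOn.integrableOn_compact hD

private theorem normP_max (c : E2) {s : ℝ} (hs : 0 < s) {D : Set E2} (hD : IsCompact D) (v : E2)
    (b : ℝ) :
    ∫ z in {z : E2 | c + s • z ∈ D}, max (inner ℝ v z - b) 0 =
      (s ^ 2)⁻¹ * (s⁻¹ * ∫ y in D, max (inner ℝ v y + (-inner ℝ v c - s * b)) 0) := by
  have h := normP_cov c hs hD.measurableSet
    (fun y => s⁻¹ * max (inner ℝ v y + (-inner ℝ v c - s * b)) 0)
  have h1 : ∀ z : E2, s⁻¹ * max (inner ℝ v (c + s • z) + (-inner ℝ v c - s * b)) 0 =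
      max (inner ℝ v z - b) 0 := by
    intro z
    rw [mul_max_of_nonneg _ _ (inv_pos.2 hs).le, mul_zero, inner_add_right, inner_smul_right]
    congr 1
    field_simp
    ring
  simp only [h1] at h
  rw [h, integral_const_mul]

theorem normalise {F : Set E2} {q : E2 → ℝ} (h : PQ F q) : ∃ (c : E2) (s : ℝ), 0 < s ∧
    s ^ 2 = volume.real F ∧
    QN {z | c + s • z ∈ F} (fun z => q (c + s • z))
      (√(volume.real (F ∩ {y | q y ≤ 1}) / volume.real F)) ∧
    ∫ z in {z | c + s • z ∈ F} ∩ {z | q (c + s • z) ≤ 1}, (q (c + s • z))⁻¹ ^ 3 =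
      (∫ y in F ∩ {y | q y ≤ 1}, (q y)⁻¹ ^ 3) / volume.real F := by
  have hqc : Continuous q := by
    obtain ⟨L, hL⟩ := h.q_lip
    exact hL.continuous
  set A : ℝ := volume.real F with hAd
  set G : Set E2 := F ∩ {y | q y ≤ 1} with hGd
  have hA : 0 < A := by
    have h1 := h.pos
    have h2 := h.area
    linarith
  have hGc : IsCompact G := h.isCompact.inter_right (isClosed_le hqc continuous_const)
  set c : E2 := A⁻¹ • ∫ y in F, y with hcd
  have hc : ∀ v : E2, ∫ y in F, inner ℝ v y = A * inner ℝ v c := by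
    intro v
    have hint : IntegrableOn (fun y : E2 => y) F volume :=
      continuous_id.continuousOn.integrableOn_compact h.isCompact
    rw [integral_inner hint v, hcd, inner_smul_right, ← mul_assoc, mul_inv_cancel₀ hA.ne', one_mul]
  set s : ℝ := √A with hsd
  have hs : 0 < s := Real.sqrt_pos.2 hA
  have hs2 : s ^ 2 = A := Real.sq_sqrt hA.le
  set V : ℝ := volume.real G with hVd
  have hx2 : √(V / A) ^ 2 = V / A := Real.sq_sqrt (div_nonneg h.pos.le hA.le)
  have hFs : {z : E2 | c + s • z ∈ F} ∩ {z : E2 | q (c + s • z) ≤ 1} = {z : E2 | c + s • z ∈ G} := by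
    ext z
    exact Iff.rfl
  have hT : ∀ (z w : E2) (a b : ℝ), a + b = 1 →
      c + s • (a • z + b • w) = a • (c + s • z) + b • (c + s • w) := by
    intro z w a b hab
    have h1 : c = (a + b) • c := by rw [hab, one_smul]
    calc c + s • (a • z + b • w) = (a + b) • c + s • (a • z + b • w) := by rw [← h1]
      _ = a • (c + s • z) + b • (c + s • w) := by module
  have hTc : Continuous fun z : E2 => c + s • z := by fun_prop
  have hconv : ConvexOn ℝ univ (fun z : E2 => q (c + s • z)) := by
    refine ⟨convex_univ, fun z _ w _ a b ha hb hab => ?_⟩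
    show q (c + s • (a • z + b • w)) ≤ _
    rw [hT z w a b hab]
    exact h.q_convex.2 (mem_univ _) (mem_univ _) ha hb hab
  refine ⟨c, s, hs, hs2, ⟨⟨?_, ?_, ?_, ?_, ?_, ?_, ?_, ?_, ?_, ?_, ?_⟩, hconv, hqc.comp hTc,
    fun y => h.q_pos _, ?_⟩, ?_⟩
  · intro z hz w hw a b ha hb hab
    show c + s • (a • z + b • w) ∈ F
    rw [hT z w a b hab]
    exact h.convex hz hw ha hb hab
  · have h1 : {z : E2 | c + s • z ∈ F} = (fun y : E2 => s⁻¹ • (y - c)) '' F := by
      ext z
      constructor
      · intro hz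
        refine ⟨c + s • z, hz, ?_⟩
        show s⁻¹ • (c + s • z - c) = z
        rw [add_sub_cancel_left, smul_smul, inv_mul_cancel₀ hs.ne', one_smul]
      · rintro ⟨y, hy, rfl⟩
        show c + s • s⁻¹ • (y - c) ∈ F
        rw [smul_smul, mul_inv_cancel₀ hs.ne', one_smul, add_sub_cancel]
        exact hy
    rw [h1]
    exact h.isCompact.image (by fun_prop)
  · rw [normP_vol c hs h.isCompact.measurableSet, hs2]
    exact inv_mul_cancel₀ hA.ne'
  · intro v
    rw [normP_lin c hs h.isCompact v, hc v, ← hAd, sub_self, mul_zero, mul_zero]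
  · have h1 := hconv.convex_le 1
    simpa using h1
  · exact isClosed_le (hqc.comp hTc) continuous_const
  · exact Real.sqrt_pos.2 (div_pos h.pos hA)
  · rw [Real.sqrt_le_left (by norm_num)]
    rw [div_le_iff₀ hA]
    have := h.area
    linarith
  · rw [hFs, normP_vol c hs hGc.measurableSet, hs2, hx2]
    rw [div_eq_inv_mul]
  · intro v
    rw [hFs, normP_lin c hs hGc v]
    have h1 := h.moment v
    rw [hc v] at h1
    have h2 : ∫ y in G, inner ℝ v y = V * inner ℝ v c := by
      have h3 : A * ∫ y in G, inner ℝ v y = A * (V * inner ℝ v c) := by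
        rw [h1]
        ring
      exact mul_left_cancel₀ hA.ne' h3
    rw [h2, sub_self, mul_zero, mul_zero]
  · intro v b
    rw [hFs, normP_max c hs hGc v b, normP_max c hs h.isCompact v b, hx2]
    have h1 := h.cx v (-inner ℝ v c - s * b)
    have h2 : ∫ y in G, max (inner ℝ v y + (-inner ℝ v c - s * b)) 0 ≤
        V / A * ∫ y in F, max (inner ℝ v y + (-inner ℝ v c - s * b)) 0 := by
      rw [div_mul_eq_mul_div, le_div_iff₀ hA, mul_comm]
      exact h1
    calc (s ^ 2)⁻¹ * (s⁻¹ * ∫ y in G, max (inner ℝ v y + (-inner ℝ v c - s * b)) 0) ≤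
        (s ^ 2)⁻¹ * (s⁻¹ * (V / A * ∫ y in F, max (inner ℝ v y + (-inner ℝ v c - s * b)) 0)) := by
          gcongr
      _ = _ := by ring
  · intro z hz y hy
    have h1 := h.key (c + s • z) hz (c + s • y) hy
    set l : ℝ := (1 - q (c + s • z)) / (1 + q (c + s • z)) with hl
    have h2 : c + s • ((1 + l) • z - l • y) = (1 + l) • (c + s • z) - l • (c + s • y) := by module
    show q (c + s • ((1 + l) • z - l • y)) ≤ 1
    rw [h2]
    exact h1
  · rw [hFs, normP_cov c hs hGc.measurableSet (fun y => (q y)⁻¹ ^ 3), hs2, div_eq_inv_mul]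

end Pool.Agent.Lib.MP_43065d_gt
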