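import Pool.Agent.Lib.MP_43065d_gt.Pl.QMain
import Pool.Agent.Lib.MP_43065d_gt.Pl.NormP

/-!
# Module PMain: the planar lemma

PROOF.  `normalise` and `q_main` for `F' = {z | c + s • z ∈ F}`, `q'`, `x² = |G|/|F|`.  First claim: multiply by `|F|`.  Equality with `4|G| = |F|`: `x = 1/2`; `q' 0 = q c ≤ 1/3`, `c ∈ F` because `0 ∈ F'`
(`q' 0 ≤ 1/3 ≤ 1` gives `(-2) • 0 ∈ F'`).  For `q y ≤ 1`: `y = c + s • z`, `q' z ≤ 1`, `(-2) • z ∈ F'`, i.e. `y' = c - 2 • (y - c) ∈ F` and `y = c - (1/2) • (y' - c)`.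
-/

open MeasureTheory Set Filter Topology Metric
open scoped ENNReal NNReal Pointwise

namespace Pool.Agent.Lib.MP_43065d_gt

theorem planar_main {F : Set E2} {q : E2 → ℝ} (h : PQ F q) :
    (∫ y in F ∩ {y | q y ≤ 1}, (q y)⁻¹ ^ 3 ≤ 3 * volume.real (F ∩ {y | q y ≤ 1})) ∧
    (4 * volume.real (F ∩ {y | q y ≤ 1}) = volume.real F →
      ∫ y in F ∩ {y | q y ≤ 1}, (q y)⁻¹ ^ 3 = 3 * volume.real (F ∩ {y | q y ≤ 1}) →
      ∃ c ∈ F, q c ≤ 1 / 3 ∧ ∀ y, q y ≤ 1 → ∃ y' ∈ F, y = c - (1 / 2 : ℝ) • (y' - c)) := by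
  obtain ⟨c, s, hs, hsA, hQN, hint⟩ := normalise h
  have hG0 : 0 < volume.real (F ∩ {y | q y ≤ 1}) := h.pos
  obtain ⟨h1, h2⟩ := q_main hQN
  beta_reduce at h1 h2
  rw [hint] at h1 h2
  set A := volume.real F with hA
  set G := volume.real (F ∩ {y | q y ≤ 1}) with hG
  have hA0 : 0 < A := by rw [← hsA]; positivity
  have hsq : √(G / A) ^ 2 = G / A := Real.sq_sqrt (by positivity)
  rw [hsq] at h1 h2
  constructor
  · rw [div_le_iff₀ hA0] at h1
    have e1 : 3 * (G / A) * A = 3 * G := by field_simp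
    rwa [e1] at h1
  · intro h4 h5
    have h6 : √(G / A) = 1 / 2 := by
      have e1 : G / A = (1 / 2 : ℝ) ^ 2 := by
        rw [← h4]
        field_simp
        norm_num
      rw [e1, Real.sqrt_sq (by norm_num)]
    have h7 := h2 h6 (by rw [h5]; ring)
    obtain ⟨h8, h9⟩ := h7
    rw [smul_zero, add_zero] at h8
    have hcF : c ∈ F := by
      have h10 := h9 0 (by rw [smul_zero, add_zero]; linarith)
      have h11 : c + s • ((-2 : ℝ) • (0 : E2)) ∈ F := h10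
      rwa [smul_zero, smul_zero, add_zero] at h11
    refine ⟨c, hcF, h8, fun y hy => ?_⟩
    have e2 : c + s • (s⁻¹ • (y - c)) = y := by
      rw [smul_smul, mul_inv_cancel₀ hs.ne', one_smul]
      abel
    have h12 : c + s • ((-2 : ℝ) • (s⁻¹ • (y - c))) ∈ F := h9 (s⁻¹ • (y - c)) (by rw [e2]; exact hy)
    have e3 : s • ((-2 : ℝ) • (s⁻¹ • (y - c))) = (-2 : ℝ) • (y - c) := by
      rw [smul_smul, smul_smul]
      congr 1
      field_simp
    rw [e3] at h12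
    refine ⟨_, h12, ?_⟩
    rw [add_sub_cancel_left, smul_smul]
    norm_num

end Pool.Agent.Lib.MP_43065d_gt
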