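import Pool.Agent.Lib.MP_43065d_gt.Pl.PDefs

/-!
# Module Arith (lemma L8) and the combination of two edges

PROOF of `arith`.  `K = (J-x-2c²)/2 > (1 + (10/3)c² - 1/2 - 2c²)/2 = 1/4 + (2/3)c²`.  Dividing by `x` and using `x ≤ 1/2`:
`x²/(3K) < 1/(12K) < 1/(3+8c²)`, and `16x²c²(2-3c)/(9(1-c)) ≤ 4c²(2-3c)/(9(1-c))`; so it is enough (multiply by 2; `(2/3)x² / x * ...`):
`x³/(3K) + 2E < (2/3)x²` follows from `2/(3+8c²) + 8c²(2-3c)/(9(1-c)) ≤ 2/3` (multiply by `x² * 1` and use `x ≤ 1/2` once in each term: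
`x³/(3K) ≤ x²/(6K) < x² * 2/(3+8c²)`, `2E = 16x³c²(2-3c)/(9(1-c)) ≤ x² * 8c²(2-3c)/(9(1-c))`).
The inequality is equivalent to `(2-3c)(3+8c²) ≤ 6(1-c)`, i.e. `c(24c²-16c+3) ≥ 0`, true because `256 < 288`.
PROOF of `arith_two`: `1/((K₁+K₂)/2) ≤ (1/K₁+1/K₂)/2` (AM-HM), so `x³/(3K) + E₁ + E₂ ≤ (1/2) Σ (x³/(3K_i) + 2E_i) < (2/3)x²`.
-/

open MeasureTheory Set Filter Topology Metric
open scoped ENNReal NNReal Pointwise

namespace Pool.Agent.Lib.MP_43065d_gt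

theorem arith {x c J : ℝ} (hx : 0 < x) (hx' : x ≤ 1 / 2) (hc : 0 < c) (hc' : c ≤ 1 / 2)
    (hJ : 1 + 10 / 3 * c ^ 2 < J) :
    0 < (J - x - 2 * c ^ 2) / 2 ∧
      x ^ 3 / (3 * ((J - x - 2 * c ^ 2) / 2)) +
        2 * ((2 * x) ^ 3 * c ^ 2 * (2 - 3 * c) / (9 * (1 - c))) < 2 / 3 * x ^ 2 := by
  set K : ℝ := (J - x - 2 * c ^ 2) / 2 with hKd
  have hc2 : 0 < c ^ 2 := by positivity
  have hK : 1 / 4 + 2 / 3 * c ^ 2 < K := by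
    rw [hKd]
    linarith
  have hK0 : 0 < K := by linarith
  have hx2 : 0 < x ^ 2 := by positivity
  refine ⟨hK0, ?_⟩
  have hc1 : 0 < 9 * (1 - c) := by linarith
  have hc3 : 0 < 2 - 3 * c := by linarith
  have h1 : x ^ 3 / (3 * K) < 2 * x ^ 2 / (3 + 8 * c ^ 2) := by
    rw [div_lt_div_iff₀ (by positivity) (by positivity)]
    have e1 : x ^ 3 * (3 + 8 * c ^ 2) < x ^ 3 * (12 * K) :=
      mul_lt_mul_of_pos_left (by linarith) (by positivity)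
    have e2 : x ^ 2 * K * (12 * x) ≤ x ^ 2 * K * 6 :=
      mul_le_mul_of_nonneg_left (by linarith) (by positivity)
    nlinarith
  have h2 : 2 * ((2 * x) ^ 3 * c ^ 2 * (2 - 3 * c) / (9 * (1 - c))) ≤
      x ^ 2 * (8 * c ^ 2 * (2 - 3 * c) / (9 * (1 - c))) := by
    have e1 : 2 * ((2 * x) ^ 3 * c ^ 2 * (2 - 3 * c) / (9 * (1 - c))) =
        (x ^ 2 * (8 * c ^ 2 * (2 - 3 * c) / (9 * (1 - c)))) * (2 * x) := by ring
    rw [e1]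
    have e2 : 0 ≤ x ^ 2 * (8 * c ^ 2 * (2 - 3 * c) / (9 * (1 - c))) := by positivity
    have e3 := mul_le_mul_of_nonneg_left (show 2 * x ≤ 1 by linarith) e2
    rwa [mul_one] at e3
  have h3 : 2 / (3 + 8 * c ^ 2) + 8 * c ^ 2 * (2 - 3 * c) / (9 * (1 - c)) ≤ 2 / 3 := by
    rw [div_add_div _ _ (by positivity) hc1.ne', div_le_div_iff₀ (by positivity) (by norm_num)]
    have e1 : 0 ≤ c ^ 3 * (24 * c ^ 2 - 16 * c + 3) := by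
      have : 0 ≤ 24 * c ^ 2 - 16 * c + 3 := by nlinarith [sq_nonneg (3 * c - 1)]
      positivity
    nlinarith
  have h4 : 2 * x ^ 2 / (3 + 8 * c ^ 2) + x ^ 2 * (8 * c ^ 2 * (2 - 3 * c) / (9 * (1 - c))) ≤
      2 / 3 * x ^ 2 := by
    have e1 : 2 * x ^ 2 / (3 + 8 * c ^ 2) + x ^ 2 * (8 * c ^ 2 * (2 - 3 * c) / (9 * (1 - c))) =
        x ^ 2 * (2 / (3 + 8 * c ^ 2) + 8 * c ^ 2 * (2 - 3 * c) / (9 * (1 - c))) := by ring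
    rw [e1, mul_comm (2 / 3 : ℝ)]
    exact mul_le_mul_of_nonneg_left h3 hx2.le
  linarith

theorem arith_two {x K₁ K₂ E₁ E₂ : ℝ} (hx : 0 < x) (h₁ : 0 < K₁) (h₂ : 0 < K₂)
    (h₁' : x ^ 3 / (3 * K₁) + 2 * E₁ < 2 / 3 * x ^ 2)
    (h₂' : x ^ 3 / (3 * K₂) + 2 * E₂ < 2 / 3 * x ^ 2) :
    x ^ 3 / (3 * ((K₁ + K₂) / 2)) + (E₁ + E₂) < 2 / 3 * x ^ 2 := by
  have h3 : x ^ 3 / (3 * ((K₁ + K₂) / 2)) ≤ (x ^ 3 / (3 * K₁) + x ^ 3 / (3 * K₂)) / 2 := by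
    have e1 : (x ^ 3 / (3 * K₁) + x ^ 3 / (3 * K₂)) / 2 =
        x ^ 3 * ((K₁ + K₂) / (6 * (K₁ * K₂))) := by
      field_simp
      ring
    have e2 : x ^ 3 / (3 * ((K₁ + K₂) / 2)) = x ^ 3 * (2 / (3 * (K₁ + K₂))) := by
      field_simp
    rw [e1, e2]
    refine mul_le_mul_of_nonneg_left ?_ (by positivity)
    rw [div_le_div_iff₀ (by positivity) (by positivity)]
    nlinarith [sq_nonneg (K₁ - K₂)]
  linarith

end Pool.Agent.Lib.MP_43065d_gt
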