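import Pool.Agent.Lib.MP_43065d_gt.Pl.PDefs

/-!
# Module IntZero (P1): the centroid is an interior point

PROOF of `zero_mem_interior`.  Suppose `0 ∉ interior S`.  `S` is convex; `interior S` is convex and open, so by Hahn-Banach
(`geometric_hahn_banach_open_point`, in the Hilbert space `E2` functionals are inner products, or keep a continuous linear functional `ℓ`) there is a nonzero `ℓ` with
`ℓ ≤ 0` on `interior S`, hence (closure; `S` convex with positive volume so `interior S` is nonempty - otherwise `S ⊆ frontier S` has volume `0`,
`Convex.addHaar_frontier` - and `S ⊆ closure (interior S)`, `Convex.closure_interior_eq_closure_of_nonempty_interior`) `ℓ ≤ 0` on `S`, and `ℓ < 0` on `interior S`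
(open map).  But `∫_S ℓ = 0` (write `ℓ = inner v`, `InnerProductSpace.toDual`), so `ℓ = 0` a.e. on `S`, in particular a.e. on the nonempty open set
`interior S`, contradiction.
Consequences: `0` is interior to `F ∩ L`, hence to `F` and `L`.
-/

open MeasureTheory Set Filter Topology Metric
open scoped ENNReal NNReal Pointwise

namespace Pool.Agent.Lib.MP_43065d_gt

theorem zero_mem_interior {S : Set E2} (hS : Convex ℝ S) (hc : IsCompact S)
    (hv : 0 < volume.real S) (hm : ∀ v : E2, ∫ y in S, inner ℝ v y = 0) : (0 : E2) ∈ interior S := by
  by_contra h0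
  have hne : (interior S).Nonempty := by
    by_contra hcn
    rw [Set.not_nonempty_iff_eq_empty] at hcn
    have h1 : volume (frontier S) = 0 := hS.addHaar_frontier volume
    rw [hc.isClosed.frontier_eq, hcn, Set.diff_empty] at h1
    rw [Measure.real, h1, ENNReal.toReal_zero] at hv
    exact lt_irrefl _ hv
  obtain ⟨f, hf⟩ := geometric_hahn_banach_open_point hS.interior isOpen_interior h0
  set v : E2 := (InnerProductSpace.toDual ℝ E2).symm f with hvd
  have hin : ∀ y : E2, inner ℝ v y = f y := fun y => InnerProductSpace.toDual_symm_apply
  have hlt : ∀ a ∈ interior S, inner ℝ v a < 0 := by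
    intro a ha
    rw [hin a]
    have := hf a ha
    rwa [map_zero] at this
  have hcont : Continuous fun y : E2 => inner ℝ v y := by fun_prop
  have hle : ∀ y ∈ S, inner ℝ v y ≤ 0 := by
    intro y hy
    have h1 : y ∈ closure (interior S) := by
      rw [hS.closure_interior_eq_closure_of_nonempty_interior hne]
      exact subset_closure hy
    have h2 : closure (interior S) ⊆ {y : E2 | inner ℝ v y ≤ 0} :=
      closure_minimal (fun a ha => (hlt a ha).le) (isClosed_le hcont continuous_const)
    exact h2 h1
  have hpos : 0 < ∫ y in S, -inner ℝ v y := by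
    rw [setIntegral_pos_iff_support_of_nonneg_ae]
    · refine lt_of_lt_of_le (isOpen_interior.measure_pos volume hne) (measure_mono ?_)
      intro a ha
      refine ⟨?_, interior_subset ha⟩
      rw [Function.mem_support]
      have := hlt a ha
      linarith
    · rw [Filter.EventuallyLE, ae_restrict_iff' hc.isClosed.measurableSet]
      refine Filter.Eventually.of_forall fun y hy => ?_
      have := hle y hy
      show (0 : ℝ) ≤ -inner ℝ v y
      linarith
    · exact (hcont.neg.continuousOn).integrableOn_compact hc
  rw [integral_neg, hm v, neg_zero] at hpos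
  exact lt_irrefl _ hpos

theorem zero_int {F L : Set E2} {x : ℝ} (h : PN F L x) : (0 : E2) ∈ interior (F ∩ L) := by
  refine zero_mem_interior (h.convF.inter h.convL) (h.cptF.inter_right h.closedL) ?_ h.momG
  rw [h.volG]
  have := h.x_pos
  positivity

theorem zero_intF {F L : Set E2} {x : ℝ} (h : PN F L x) : (0 : E2) ∈ interior F :=
  interior_mono Set.inter_subset_left (zero_int h)

theorem zero_intL {F L : Set E2} {x : ℝ} (h : PN F L x) : (0 : E2) ∈ interior L :=
  interior_mono Set.inter_subset_right (zero_int h)

end Pool.Agent.Lib.MP_43065d_gt
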