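import Pool.Agent.Lib.MP_43065d_gt.Pl.OneK

/-!
# Module OneM (lemma L2): mass beyond a chord

Notation: `χ = f 0 > 0`, `p = ∫_0^d f > 0`, total mass one, `h = 2p/χ`, `r = √p` (so `0 < r ≤ 1`).
PROOF.
(a) `∫_0^d v f v ≤ (2/3) p²/χ = χ h²/6`: this is `one_k'` for `g = f` on `[0,d]`, `c = χ`.
(b) `f (-u) ≤ χ (1+u/h)` for `0 ≤ u ≤ b`.  Otherwise `f (-u0) > χ (1+u0/h)`, `u0 > 0`; for `0 < v ≤ d`, `0` is the convex combination
`(v/(u0+v)) (-u0) + (u0/(u0+v)) v`, so `f v ≤ χ - (v/u0) (f (-u0) - χ) < χ (1 - v/h)` ; hence (as `f v ≥ 0`)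
`p = ∫_0^d f < χ h/2 = p` (integral of `max (χ(1-v/h)) 0` over `[0,∞)`; or: if `d ≤ h` then `∫_0^d χ(1-v/h) ≤ χh/2`;
if `d > h` then `f d < 0`, impossible), contradiction.
(c) `η = (1-r)/r`, `B u = χ (1+u/h)`: `∫_0^{ηh} B = (χh/2)((1+η)²-1) = p (1/p - 1) = 1-p = ∫_0^b f(-u) du`.
`(u - ηh) (f(-u) 1_{u ≤ b} - B u 1_{u ≤ ηh}) ≥ 0` for all `u ≥ 0` (if `u ≤ ηh` the second factor is `≤ 0` by (b)), so
`∫_0^b u f(-u) du ≥ ∫_0^{ηh} u B u du = χ h² (η²/2+η³/3)`.  Subtract (a), use `χ h² = 4 r⁴/χ`: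
`-∫_{-b}^d v f v = ∫_0^b u f(-u) du - ∫_0^d v f v ≥ (4r⁴/χ)(η²/2+η³/3-1/6) = ((4/3) r - 2 r²)/χ` (identity in `r`).
To avoid indicator functions one may compare as follows: case `b ≤ ηh`:
`∫_0^b (u-ηh)(f(-u)-B u) ≥ 0` and `∫_b^{ηh} (ηh-u) B u ≥ 0`; case `b ≥ ηh`: similarly with `∫_{ηh}^b (u-ηh) f(-u) ≥ 0`.
(d) `∫_{-b}^d max (v+h) 0 * f v ≤ ∫_0^d v f + h p + ∫_0^{min b h} (h-u) f(-u) du ≤ χh²/6 + χh²/2 + ∫_0^h (h-u) χ (1+u/h) du`
`= χh²/6 + χh²/2 + (2/3) χh² = (4/3) χ h²`.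
-/

open MeasureTheory Set Filter Topology Metric
open scoped ENNReal NNReal Pointwise

namespace Pool.Agent.Lib.MP_43065d_gt

private theorem om_poly (χ k T : ℝ) :
    ∫ u in (0 : ℝ)..T, (T - u) * (χ + k * u) = χ * T ^ 2 / 2 + k * T ^ 3 / 6 := by
  have hi : IntervalIntegrable (fun u => (T - u) * (χ + k * u)) volume 0 T :=
    (by fun_prop : Continuous fun u : ℝ => (T - u) * (χ + k * u)).intervalIntegrable _ _
  have hd : ∀ u ∈ uIcc 0 T, HasDerivAt
      (fun u : ℝ => T * χ * u + (k * T - χ) * (u ^ 2 / 2) - k * (u ^ 3 / 3))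
      ((T - u) * (χ + k * u)) u := by
    intro u _
    have e1 : HasDerivAt (fun u : ℝ => u ^ 2 / 2) u u :=
      ((hasDerivAt_pow 2 u).div_const 2).congr_deriv (by norm_num)
    have e2 : HasDerivAt (fun u : ℝ => u ^ 3 / 3) (u ^ 2) u :=
      ((hasDerivAt_pow 3 u).div_const 3).congr_deriv (by norm_num)
    have e3 := (((hasDerivAt_id u).const_mul (T * χ)).add (e1.const_mul (k * T - χ))).sub
      (e2.const_mul k)
    exact e3.congr_deriv (by ring)
  rw [intervalIntegral.integral_eq_sub_of_hasDerivAt hd hi]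
  ring

private theorem om_cut {b h χ k : ℝ} {w : ℝ → ℝ} (hb : 0 ≤ b) (hh : 0 ≤ h) (hχ : 0 ≤ χ)
    (hk : 0 ≤ k) (hint : IntervalIntegrable w volume 0 b)
    (hwB : ∀ u ∈ Icc 0 b, w u ≤ χ + k * u) :
    ∫ u in (0 : ℝ)..b, max (h - u) 0 * w u ≤ χ * h ^ 2 / 2 + k * h ^ 3 / 6 := by
  have hc : Continuous fun u : ℝ => max (h - u) 0 := by fun_prop
  have hc2 : Continuous fun u : ℝ => max (h - u) 0 * (χ + k * u) := by fun_prop
  have hi : ∀ s t : ℝ, IntervalIntegrable (fun u => max (h - u) 0 * (χ + k * u)) volume s t :=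
    fun s t => hc2.intervalIntegrable _ _
  have h1 : ∫ u in (0 : ℝ)..b, max (h - u) 0 * w u ≤
      ∫ u in (0 : ℝ)..b, max (h - u) 0 * (χ + k * u) := by
    refine intervalIntegral.integral_mono_on hb (hint.continuousOn_mul hc.continuousOn) (hi _ _) ?_
    intro u hu
    exact mul_le_mul_of_nonneg_left (hwB u hu) (le_max_right _ _)
  have h2 : ∫ u in (0 : ℝ)..h, max (h - u) 0 * (χ + k * u) = χ * h ^ 2 / 2 + k * h ^ 3 / 6 := by
    rw [← om_poly]
    refine intervalIntegral.integral_congr fun u hu => ?_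
    rw [uIcc_of_le hh] at hu
    rw [max_eq_left (sub_nonneg.2 hu.2)]
  have h3 : ∫ u in (0 : ℝ)..b, max (h - u) 0 * (χ + k * u) ≤
      ∫ u in (0 : ℝ)..h, max (h - u) 0 * (χ + k * u) := by
    rcases le_total b h with hbh | hbh
    · rw [← intervalIntegral.integral_add_adjacent_intervals (hi 0 b) (hi b h)]
      have h4 : 0 ≤ ∫ u in b..h, max (h - u) 0 * (χ + k * u) := by
        refine intervalIntegral.integral_nonneg hbh fun u hu => ?_
        have h5 : 0 ≤ u := hb.trans hu.1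
        exact mul_nonneg (le_max_right _ _) (by positivity)
      linarith
    · rw [← intervalIntegral.integral_add_adjacent_intervals (hi 0 h) (hi h b)]
      have h4 : ∫ u in h..b, max (h - u) 0 * (χ + k * u) = ∫ u in h..b, (0 : ℝ) := by
        refine intervalIntegral.integral_congr fun u hu => ?_
        rw [uIcc_of_le hbh] at hu
        rw [max_eq_right (sub_nonpos.2 hu.1), zero_mul]
      rw [h4, intervalIntegral.integral_zero, add_zero]
  linarith

private theorem om_bound {b d p : ℝ} {f : ℝ → ℝ} (hb : 0 ≤ b) (hd : 0 ≤ d)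
    (hf : ConcaveOn ℝ (Icc (-b) d) f) (hint : IntervalIntegrable f volume 0 d) (hχ : 0 < f 0)
    (hp : ∫ v in (0 : ℝ)..d, f v = p) (hp0 : 0 < p) {u : ℝ} (hu : u ∈ Icc 0 b) :
    f (-u) ≤ f 0 + f 0 ^ 2 / (2 * p) * u := by
  rcases hu.1.eq_or_lt with h0 | h0
  · rw [← h0, neg_zero, mul_zero, add_zero]
  · by_contra hc
    push Not at hc
    obtain ⟨δ, hδ⟩ : ∃ δ, δ = (f (-u) - f 0) / u := ⟨_, rfl⟩
    have h1 : δ * u = f (-u) - f 0 := by
      rw [hδ]
      field_simp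
    have h2 : f 0 ^ 2 / (2 * p) < δ := by
      rw [hδ, lt_div_iff₀ h0]
      linarith
    have h3 : f 0 ^ 2 < δ * (2 * p) := by
      rwa [div_lt_iff₀ (by positivity)] at h2
    have h4 : ∀ v ∈ Icc 0 d, f v ≤ f 0 - δ * v := by
      intro v hv
      have huv : 0 < u + v := by linarith [hv.1]
      have hx : -u ∈ Icc (-b) d := ⟨neg_le_neg hu.2, by linarith⟩
      have hy : v ∈ Icc (-b) d := ⟨by linarith [hv.1], hv.2⟩
      have h5 := hf.2 hx hy (div_nonneg hv.1 huv.le) (div_nonneg h0.le huv.le)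
        (by field_simp; ring)
      simp only [smul_eq_mul] at h5
      have e1 : v / (u + v) * -u + u / (u + v) * v = 0 := by
        field_simp
        ring
      rw [e1] at h5
      have h6 : v * f (-u) + u * f v ≤ (u + v) * f 0 := by
        have h7 := mul_le_mul_of_nonneg_left h5 huv.le
        have e2 : (u + v) * (v / (u + v) * f (-u) + u / (u + v) * f v) =
            v * f (-u) + u * f v := by
          field_simp
        rwa [e2] at h7
      have h8 : f (-u) = f 0 + δ * u := by linarith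
      rw [h8] at h6
      have h9 : u * f v ≤ u * (f 0 - δ * v) := by nlinarith
      exact le_of_mul_le_mul_left h9 h0
    have hi : IntervalIntegrable (fun v => f 0 - δ * v) volume 0 d :=
      (by fun_prop : Continuous fun v : ℝ => f 0 - δ * v).intervalIntegrable _ _
    have h5 := intervalIntegral.integral_mono_on hd hint hi h4
    have h6 : ∫ v in (0 : ℝ)..d, (f 0 - δ * v) = f 0 * d - δ * (d ^ 2 / 2) := by
      rw [intervalIntegral.integral_sub (by simp) ((by fun_prop :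
        Continuous fun v : ℝ => δ * v).intervalIntegrable _ _),
        intervalIntegral.integral_const, intervalIntegral.integral_const_mul, integral_id]
      simp only [smul_eq_mul]
      ring
    rw [hp, h6] at h5
    have hδ0 : 0 < δ := by
      have : 0 < f 0 ^ 2 / (2 * p) := by positivity
      linarith
    nlinarith [sq_nonneg (f 0 - δ * d), mul_le_mul_of_nonneg_left h5 hδ0.le]

private theorem om_split {b d : ℝ} {f : ℝ → ℝ} (hb : 0 ≤ b) (hd : 0 ≤ d)
    (hint : IntervalIntegrable f volume (-b) d) :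
    IntervalIntegrable f volume 0 d ∧ IntervalIntegrable f volume (-b) 0 ∧
      IntervalIntegrable (fun u => f (-u)) volume 0 b := by
  have h1 : IntervalIntegrable f volume 0 d := by
    refine hint.mono_set ?_
    rw [uIcc_of_le hd, uIcc_of_le (by linarith)]
    exact Icc_subset_Icc (by linarith) le_rfl
  have h2 : IntervalIntegrable f volume (-b) 0 := by
    refine hint.mono_set ?_
    rw [uIcc_of_le (by linarith : -b ≤ 0), uIcc_of_le (by linarith)]
    exact Icc_subset_Icc le_rfl hd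
  refine ⟨h1, h2, ?_⟩
  have h3 := (IntervalIntegrable.iff_comp_neg (f := f) (a := (0 : ℝ)) (b := -b)).1 h2.symm
  simpa using h3

private theorem om_neg {b : ℝ} (F : ℝ → ℝ) :
    ∫ v in (-b)..0, F v = ∫ u in (0 : ℝ)..b, F (-u) := by
  rw [intervalIntegral.integral_comp_neg, neg_zero]

theorem one_m_mean {b d p : ℝ} {f : ℝ → ℝ} (hb : 0 ≤ b) (hd : 0 ≤ d)
    (hf : ConcaveOn ℝ (Icc (-b) d) f) (h0 : ∀ v ∈ Icc (-b) d, 0 ≤ f v)
    (hint : IntervalIntegrable f volume (-b) d) (hχ : 0 < f 0)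
    (hp : ∫ v in (0 : ℝ)..d, f v = p) (hp0 : 0 < p) (h1 : ∫ v in (-b)..d, f v = 1) :
    4 / 3 * √p - 2 * p ≤ f 0 * -(∫ v in (-b)..d, v * f v) := by
  obtain ⟨hi1, hi2, hi3⟩ := om_split hb hd hint
  have ha : ∫ v in (0 : ℝ)..d, v * f v ≤ 2 / 3 * p ^ 2 / f 0 := by
    have h2 := one_k' (H := d) (c := f 0) (g := f) hd
      (hf.subset (Icc_subset_Icc (by linarith) le_rfl) (convex_Icc _ _)) hi1 hχ le_rfl
    rwa [hp] at h2
  -- the mass on the left
  have hq : ∫ u in (0 : ℝ)..b, f (-u) = 1 - p := by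
    rw [← om_neg f]
    have h2 := intervalIntegral.integral_add_adjacent_intervals hi2 hi1
    rw [hp, h1] at h2
    linarith
  have hq0 : 0 ≤ 1 - p := by
    rw [← hq]
    refine intervalIntegral.integral_nonneg hb fun u hu => h0 _ ⟨neg_le_neg hu.2, ?_⟩
    linarith [hu.1]
  obtain ⟨r, hr0, hr⟩ : ∃ r : ℝ, 0 < r ∧ p = r ^ 2 :=
    ⟨√p, Real.sqrt_pos.2 hp0, (Real.sq_sqrt hp0.le).symm⟩
  have hr1 : r ≤ 1 := by nlinarith
  obtain ⟨T, hT⟩ : ∃ T, T = 2 * r * (1 - r) / f 0 := ⟨_, rfl⟩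
  have hT0 : 0 ≤ T := by
    rw [hT]
    exact div_nonneg (mul_nonneg (by positivity) (by linarith)) hχ.le
  have hcut := om_cut (h := T) (χ := f 0) (k := f 0 ^ 2 / (2 * p)) (w := fun u => f (-u)) hb hT0
    hχ.le (by positivity) hi3 (fun u hu => om_bound hb hd hf hi1 hχ hp hp0 hu)
  have hi4 : IntervalIntegrable (fun u => u * f (-u)) volume 0 b :=
    hi3.continuousOn_mul continuousOn_id
  have h2 : ∫ u in (0 : ℝ)..b, (T - u) * f (-u) ≤ ∫ u in (0 : ℝ)..b, max (T - u) 0 * f (-u) := by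
    refine intervalIntegral.integral_mono_on hb (hi3.continuousOn_mul (by fun_prop))
      (hi3.continuousOn_mul (by fun_prop)) ?_
    intro u hu
    exact mul_le_mul_of_nonneg_right (le_max_left _ _)
      (h0 _ ⟨neg_le_neg hu.2, by linarith [hu.1]⟩)
  have h3 : ∫ u in (0 : ℝ)..b, (T - u) * f (-u) =
      T * (1 - p) - ∫ u in (0 : ℝ)..b, u * f (-u) := by
    rw [← hq, ← intervalIntegral.integral_const_mul, ← intervalIntegral.integral_sub
      (hi3.const_mul T) hi4]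
    refine intervalIntegral.integral_congr fun u _ => ?_
    ring
  have hid1 : IntervalIntegrable (fun v => v * f v) volume 0 d :=
    hi1.continuousOn_mul continuousOn_id
  have hid2 : IntervalIntegrable (fun v => v * f v) volume (-b) 0 :=
    hi2.continuousOn_mul continuousOn_id
  have h4 : ∫ v in (-b)..d, v * f v =
      -(∫ u in (0 : ℝ)..b, u * f (-u)) + ∫ v in (0 : ℝ)..d, v * f v := by
    rw [← intervalIntegral.integral_add_adjacent_intervals hid2 hid1,
      om_neg (fun v => v * f v), ← intervalIntegral.integral_neg]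
    congr 1
    refine intervalIntegral.integral_congr fun u _ => ?_
    ring
  have h5 : T * (1 - p) - (f 0 * T ^ 2 / 2 + f 0 ^ 2 / (2 * p) * T ^ 3 / 6) ≤
      ∫ u in (0 : ℝ)..b, u * f (-u) := by linarith
  have h6 : f 0 * (T * (1 - p) - (f 0 * T ^ 2 / 2 + f 0 ^ 2 / (2 * p) * T ^ 3 / 6) -
      2 / 3 * p ^ 2 / f 0) = 4 / 3 * r - 2 * p := by
    rw [hT, hr]
    field_simp
    ring
  have h7 : √p = r := by
    rw [hr, Real.sqrt_sq hr0.le]
  rw [h7, h4, ← h6]
  refine mul_le_mul_of_nonneg_left ?_ hχ.le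
  linarith

theorem one_m_cut {b d p : ℝ} {f : ℝ → ℝ} (hb : 0 ≤ b) (hd : 0 ≤ d)
    (hf : ConcaveOn ℝ (Icc (-b) d) f) (h0 : ∀ v ∈ Icc (-b) d, 0 ≤ f v)
    (hint : IntervalIntegrable f volume (-b) d) (hχ : 0 < f 0)
    (hp : ∫ v in (0 : ℝ)..d, f v = p) (hp0 : 0 < p) :
    ∫ v in (-b)..d, max (v + 2 * p / f 0) 0 * f v ≤ 4 / 3 * f 0 * (2 * p / f 0) ^ 2 := by
  obtain ⟨hi1, hi2, hi3⟩ := om_split hb hd hint
  obtain ⟨h, hh⟩ : ∃ h, h = 2 * p / f 0 := ⟨_, rfl⟩
  have hh0 : 0 < h := by rw [hh]; positivity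
  have ha : ∫ v in (0 : ℝ)..d, v * f v ≤ 2 / 3 * p ^ 2 / f 0 := by
    have h2 := one_k' (H := d) (c := f 0) (g := f) hd
      (hf.subset (Icc_subset_Icc (by linarith) le_rfl) (convex_Icc _ _)) hi1 hχ le_rfl
    rwa [hp] at h2
  have hcut := om_cut (h := h) (χ := f 0) (k := f 0 ^ 2 / (2 * p)) (w := fun u => f (-u)) hb
    hh0.le hχ.le (by positivity) hi3 (fun u hu => om_bound hb hd hf hi1 hχ hp hp0 hu)
  have hc : Continuous fun v : ℝ => max (v + h) 0 := by fun_prop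
  rw [← hh, ← intervalIntegral.integral_add_adjacent_intervals
    (hi2.continuousOn_mul hc.continuousOn) (hi1.continuousOn_mul hc.continuousOn),
    om_neg (fun v => max (v + h) 0 * f v)]
  have e1 : ∫ u in (0 : ℝ)..b, max (-u + h) 0 * f (-u) =
      ∫ u in (0 : ℝ)..b, max (h - u) 0 * f (-u) := by
    refine intervalIntegral.integral_congr fun u _ => ?_
    beta_reduce
    rw [show -u + h = h - u by ring]
  have hid1 : IntervalIntegrable (fun v => v * f v) volume 0 d :=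
    hi1.continuousOn_mul continuousOn_id
  have e2 : ∫ v in (0 : ℝ)..d, max (v + h) 0 * f v = (∫ v in (0 : ℝ)..d, v * f v) + h * p := by
    rw [← hp, ← intervalIntegral.integral_const_mul, ← intervalIntegral.integral_add
      hid1 (hi1.const_mul h)]
    refine intervalIntegral.integral_congr fun v hv => ?_
    rw [uIcc_of_le hd] at hv
    beta_reduce
    rw [max_eq_left (by linarith [hv.1]), add_mul]
  rw [e1, e2]
  have h5 : f 0 * h ^ 2 / 2 + f 0 ^ 2 / (2 * p) * h ^ 3 / 6 + (2 / 3 * p ^ 2 / f 0 + h * p) =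
      4 / 3 * f 0 * h ^ 2 := by
    rw [hh]
    field_simp
    ring
  linarith

end Pool.Agent.Lib.MP_43065d_gt
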