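import Pool.Agent.Lib.MP_43065d_gt.Pl.LineSec
import Pool.Agent.Lib.MP_43065d_gt.Pl.IntZero
import Pool.Agent.Lib.MP_43065d_gt.Pl.OneM

/-!
# Module Bulge (P2): no bulges

PROOF.  `χ = dist A B = sec n F b = sec n (F ∩ L) b > 0` (`line_sec_L`).  `f v = sec n F (b+v)` on `[lo n F - b, hi n F - b] ∋ 0` (interior point by `hup`, `hdn`),
concave (`sec_concave`), `f 0 = χ`; `p = ∫_0^{hi-b} f = volume.real (F ∩ {b < inner n})` (this is `integral_sec`/`volume_eq_lintegral_sec` for the part above, the line has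
measure zero), `p > 0` because `F` has interior points above (or: `f` is concave, `f 0 = χ > 0` and the interval `(0, hi-b)` is nonempty).  Total mass one, and
`∫ v f v = ∫_F (inner n y - b) = -b` (`momF`, `volF`).  `one_m_mean`: with `r = √p`:  (1) `(4/3) r - 2 r² ≤ χ b`.
Case `b < 0`: `r > 2/3`, `p > 4/9`.
Case `b ≥ 0`.  `g u = sec n (F∩L) (b-u)` on `[0,H]`, `H = b - lo n (F ∩ L)`; `H > b` because `0 ∈ interior (F ∩ L)` (`zero_int`), `g` is concave and `g 0 = χ`.
`x² b = ∫_{F∩L} (b - inner n y) ≤ ∫_{(F∩L) ∩ {inner n ≤ b}} (b - inner n y) = ∫_0^H u g u ≤ (2/3)(∫_0^H g)²/χ ≤ (2/3) x⁴/χ` (`one_k'`; `∫_0^H g ≤ volume.real (F∩L) = x²`).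
So `χ b ≤ (2/3)x² ≤ 1/6`, with (1): `12r² - 8r + 1 ≥ 0`, i.e. `(6r-1)(2r-1) ≥ 0`: `r ≤ 1/6` or `r ≥ 1/2`.  If `r ≥ 1/2` we are done.
If `r ≤ 1/6`: `h = 2p/χ > 0`; `χ h = 2r² ≤ (4/3) r - 2r² ≤ χ b`, so `h ≤ b < H`.  Condition (C) (`h.cut n (b-h)`): left side `≥`
`∫_0^h (h-u) g u ≥ ∫_0^h (h-u) χ (1-u/H) = χ(h²/2 - h³/(6H)) > χh²/3` (`g u ≥ χ(1-u/H)` by concavity, `g H ≥ 0`), while
`∫_F max (inner n y - b + h) 0 = ∫ max (v+h) 0 f v ≤ (4/3) χ h²` (`one_m_cut`), so the right side is `≤ x² (4/3) χ h² ≤ χh²/3`.  Contradiction.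
-/

open MeasureTheory Set Filter Topology Metric
open scoped ENNReal NNReal Pointwise

namespace Pool.Agent.Lib.MP_43065d_gt

private theorem lin_lower {f : ℝ → ℝ} {d c : ℝ} (hd : 0 < d) (hf : ConcaveOn ℝ (Icc 0 d) f)
    (h0 : f 0 = c) (h1 : 0 ≤ f d) {v : ℝ} (hv : v ∈ Icc 0 d) : c * (1 - v / d) ≤ f v := by
  have h2 := hf.2 (left_mem_Icc.mpr hd.le) (right_mem_Icc.mpr hd.le)
    (sub_nonneg.mpr ((div_le_one hd).mpr hv.2)) (div_nonneg hv.1 hd.le) (by ring)
  have h3 : (1 - v / d) • (0 : ℝ) + (v / d) • d = v := by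
    simp only [smul_eq_mul]
    field_simp
    ring
  rw [h3] at h2
  simp only [smul_eq_mul] at h2
  rw [h0] at h2
  have h4 : 0 ≤ v / d * f d := mul_nonneg (div_nonneg hv.1 hd.le) h1
  nlinarith

private theorem mass_pos {f : ℝ → ℝ} {d c : ℝ} (hd : 0 < d) (hf : ConcaveOn ℝ (Icc 0 d) f)
    (h0 : f 0 = c) (h1 : 0 ≤ f d) (hi : IntervalIntegrable f volume 0 d) :
    c * d / 2 ≤ ∫ v in (0 : ℝ)..d, f v := by
  have e : ∫ v in (0 : ℝ)..d, c * (1 - v / d) = c * d / 2 := by
    have hder : ∀ v ∈ uIcc 0 d, HasDerivAt (fun v => c * (v - v ^ 2 / (2 * d)))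
        (c * (1 - v / d)) v := by
      intro v _
      have h := (((hasDerivAt_id v).sub (((hasDerivAt_id v).pow 2).div_const (2 * d))).const_mul c)
      refine h.congr_deriv ?_
      push_cast
      simp
      field_simp
      simp
    rw [intervalIntegral.integral_eq_sub_of_hasDerivAt hder
      (Continuous.intervalIntegrable (by fun_prop) _ _)]
    field_simp
    ring
  rw [← e]
  exact intervalIntegral.integral_mono_on hd.le (Continuous.intervalIntegrable (by fun_prop) _ _)
    hi (fun v hv => lin_lower hd hf h0 h1 hv)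

private theorem cut_lower {g : ℝ → ℝ} {H h c : ℝ} (hH : 0 < H) (hh : 0 ≤ h) (hhH : h ≤ H)
    (hg : ConcaveOn ℝ (Icc 0 H) g) (h0 : g 0 = c) (h1 : 0 ≤ g H)
    (hi : IntervalIntegrable g volume 0 h) :
    c * (h ^ 2 / 2 - h ^ 3 / (6 * H)) ≤ ∫ u in (0 : ℝ)..h, (h - u) * g u := by
  have e : ∫ u in (0 : ℝ)..h, (h - u) * (c * (1 - u / H)) = c * (h ^ 2 / 2 - h ^ 3 / (6 * H)) := by
    have hder : ∀ u ∈ uIcc 0 h, HasDerivAt
        (fun u => c * (h * u - u ^ 2 / 2 - h * u ^ 2 / (2 * H) + u ^ 3 / (3 * H)))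
        ((h - u) * (c * (1 - u / H))) u := by
      intro u _
      have h := ((((((hasDerivAt_id u).const_mul h).sub (((hasDerivAt_id u).pow 2).div_const 2)).sub
        ((((hasDerivAt_id u).pow 2).const_mul h).div_const (2 * H))).add
        (((hasDerivAt_id u).pow 3).div_const (3 * H))).const_mul c)
      refine h.congr_deriv ?_
      push_cast
      simp
      field_simp
      ring
    rw [intervalIntegral.integral_eq_sub_of_hasDerivAt hder
      (Continuous.intervalIntegrable (by fun_prop) _ _)]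
    field_simp
    ring
  rw [← e]
  refine intervalIntegral.integral_mono_on hh (Continuous.intervalIntegrable (by fun_prop) _ _)
    (hi.continuousOn_mul (by fun_prop)) (fun u hu => ?_)
  exact mul_le_mul_of_nonneg_left (lin_lower hH hg h0 h1 ⟨hu.1, hu.2.trans hhH⟩)
    (sub_nonneg.mpr hu.2)

private theorem vol_above {F : Set E2} (hcF : IsCompact F) {n A : E2} {b : ℝ} (hn : ‖n‖ = 1)
    (hA : A ∈ F) (hnA : inner ℝ n A = b) (hbhi : b < hi n F) :
    ∫ s in b..(hi n F), sec n F s = volume.real {y | y ∈ F ∧ b < inner ℝ n y} := by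
  have hcont : Continuous fun y : E2 => inner ℝ n y := by fun_prop
  have hTc : IsCompact {y : E2 | y ∈ F ∧ b ≤ inner ℝ n y} :=
    hcF.inter_right (isClosed_le continuous_const hcont)
  set T : Set E2 := {y : E2 | y ∈ F ∧ b ≤ inner ℝ n y} with hT
  have hAT : A ∈ T := ⟨hA, hnA.ge⟩
  have hne : F.Nonempty := ⟨A, hA⟩
  have hloT : lo n T = b := by
    obtain ⟨y, hy, hye⟩ := exists_lo n hTc ⟨A, hAT⟩
    have h1 : lo n T ≤ b := by rw [← hnA]; exact (mem_Icc_lo_hi n hTc hAT).1
    have h2 : b ≤ lo n T := by rw [← hye]; exact hy.2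
    exact le_antisymm h1 h2
  have hhiT : hi n T = hi n F := by
    obtain ⟨y, hy, hye⟩ := exists_hi n hcF hne
    obtain ⟨z, hz, hze⟩ := exists_hi n hTc ⟨A, hAT⟩
    have h1 : hi n F ≤ hi n T := by
      rw [← hye]
      exact (mem_Icc_lo_hi n hTc (show y ∈ T from ⟨hy, by rw [hye]; exact hbhi.le⟩)).2
    have h2 : hi n T ≤ hi n F := by
      rw [← hze]
      exact (mem_Icc_lo_hi n hcF hz.1).2
    exact le_antisymm h2 h1
  have h3 := volume_real_sec hn hTc
  rw [hloT, hhiT] at h3
  have h4 : ∫ s in b..(hi n F), sec n T s = ∫ s in b..(hi n F), sec n F s := by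
    refine intervalIntegral.integral_congr (fun s hs => ?_)
    rw [uIcc_of_le hbhi.le] at hs
    exact sec_congr hn (fun y hy => ⟨fun h => h.1, fun h => ⟨h, by rw [hy]; exact hs.1⟩⟩)
  rw [← h4, ← h3]
  have hline : volume {y : E2 | y ∈ F ∧ inner ℝ n y = b} = 0 := by
    have hm : MeasurableSet {y : E2 | y ∈ F ∧ inner ℝ n y = b} :=
      (hcF.inter_right (isClosed_eq hcont continuous_const)).measurableSet
    rw [volume_eq_lintegral_sec hn hm, lintegral_eq_zero_iff (measurable_sec_vol n hm)]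
    have : ∀ᵐ s : ℝ, s ≠ b := by
      rw [ae_iff]
      simp
    filter_upwards [this] with s hs
    have : {t : ℝ | s • n + t • rot n ∈ F ∧ inner ℝ n (s • n + t • rot n) = b} = ∅ := by
      refine eq_empty_of_forall_notMem (fun t ht => hs ?_)
      rw [← ht.2, inner_coord hn]
    change volume {t : ℝ | s • n + t • rot n ∈ F ∧ inner ℝ n (s • n + t • rot n) = b} = 0
    rw [this, measure_empty]
  have hsub : T = {y | y ∈ F ∧ b < inner ℝ n y} ∪ {y : E2 | y ∈ F ∧ inner ℝ n y = b} := by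
    ext y
    constructor
    · rintro ⟨h5, h6⟩
      rcases h6.lt_or_eq with h7 | h7
      · exact Or.inl ⟨h5, h7⟩
      · exact Or.inr ⟨h5, h7.symm⟩
    · rintro (⟨h5, h6⟩ | ⟨h5, h6⟩)
      · exact ⟨h5, h6.le⟩
      · exact ⟨h5, h6.ge⟩
  unfold Measure.real
  congr 1
  refine le_antisymm ?_ (measure_mono (by rw [hsub]; exact subset_union_left))
  rw [hsub]
  refine (measure_union_le _ _).trans ?_
  rw [hline, add_zero]

theorem no_bulge {F L : Set E2} {x : ℝ} (h : PN F L x) {n A B : E2} {b : ℝ} (hn : ‖n‖ = 1)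
    (hA : A ∈ frontier F) (hB : B ∈ frontier F) (hAB : A ≠ B) (hAL : A ∈ L) (hBL : B ∈ L)
    (hnA : inner ℝ n A = b) (hnB : inner ℝ n B = b) (hup : ∃ y ∈ F, b < inner ℝ n y)
    (hdn : ∃ y ∈ F, inner ℝ n y < b) : 1 / 4 ≤ volume.real {y | y ∈ F ∧ b < inner ℝ n y} := by
  have hFi : (interior F).Nonempty := ⟨0, zero_intF h⟩
  obtain ⟨hχF, hχG⟩ := line_sec_L h.convF h.cptF hFi h.convL hn hA hB hAB hAL hBL hnA hnB hup hdn
  have hχ : 0 < dist A B := dist_pos.mpr hAB
  generalize dist A B = χ at hχF hχG hχ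
  have cG : IsCompact (F ∩ L) := h.cptF.inter_right h.closedL
  have vG : Convex ℝ (F ∩ L) := h.convF.inter h.convL
  have hAF : A ∈ F := h.cptF.isClosed.frontier_subset hA
  obtain ⟨y1, hy1, hy1b⟩ := hup
  obtain ⟨y2, hy2, hy2b⟩ := hdn
  have hbhi : b < hi n F := lt_of_lt_of_le hy1b (mem_Icc_lo_hi n h.cptF hy1).2
  have hlob : lo n F < b := lt_of_le_of_lt (mem_Icc_lo_hi n h.cptF hy2).1 hy2b
  have hcF := sec_concave hn h.convF h.cptF
  have hiF : Integrable (sec n F) := integrable_sec hn h.cptF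
  have hcG := sec_concave hn vG cG
  have hiG : Integrable (sec n (F ∩ L)) := integrable_sec hn cG
  -- the function f
  have hf : ConcaveOn ℝ (Icc (-(b - lo n F)) (hi n F - b)) (fun v => sec n F (b + v)) := by
    refine ⟨convex_Icc _ _, fun u hu v hv s t hs ht hst => ?_⟩
    have hu' : b + u ∈ Icc (lo n F) (hi n F) := ⟨by linarith [hu.1], by linarith [hu.2]⟩
    have hv' : b + v ∈ Icc (lo n F) (hi n F) := ⟨by linarith [hv.1], by linarith [hv.2]⟩
    have h1 := hcF.2 hu' hv' hs ht hst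
    have h2 : s • (b + u) + t • (b + v) = b + (s • u + t • v) := by
      simp only [smul_eq_mul]
      linear_combination b * hst
    rw [h2] at h1
    exact h1
  have hint : IntervalIntegrable (fun v => sec n F (b + v)) volume (-(b - lo n F)) (hi n F - b) :=
    (hiF.comp_add_left b).intervalIntegrable
  have hint' : IntervalIntegrable (fun v => sec n F (b + v)) volume 0 (hi n F - b) :=
    (hiF.comp_add_left b).intervalIntegrable
  have hb0 : 0 ≤ b - lo n F := by linarith
  have hd0 : 0 < hi n F - b := by linarith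
  have hf0 : (fun v => sec n F (b + v)) 0 = χ := by simp [hχF]
  have hmass : ∫ v in (-(b - lo n F))..(hi n F - b), sec n F (b + v) = 1 := by
    rw [intervalIntegral.integral_comp_add_left (fun s => sec n F s) b]
    have e1 : b + -(b - lo n F) = lo n F := by ring
    have e2 : b + (hi n F - b) = hi n F := by ring
    rw [e1, e2, ← volume_real_sec hn h.cptF, h.volF]
  have hp : ∫ v in (0 : ℝ)..(hi n F - b), sec n F (b + v) =
      volume.real {y | y ∈ F ∧ b < inner ℝ n y} := by
    rw [intervalIntegral.integral_comp_add_left (fun s => sec n F s) b]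
    have e2 : b + (hi n F - b) = hi n F := by ring
    rw [e2, add_zero]
    exact vol_above h.cptF hn hAF hnA hbhi
  generalize volume.real {y | y ∈ F ∧ b < inner ℝ n y} = p at hp ⊢
  have hfd : ConcaveOn ℝ (Icc 0 (hi n F - b)) (fun v => sec n F (b + v)) :=
    hf.subset (Icc_subset_Icc_left (by linarith)) (convex_Icc _ _)
  have hp0 : 0 < p := by
    have h1 := mass_pos hd0 hfd hf0 (sec_nonneg _ _ _) hint'
    rw [hp] at h1
    have : 0 < χ * (hi n F - b) / 2 := by positivity
    linarith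
  -- the first moment of f
  have hmF : ∫ v in (-(b - lo n F))..(hi n F - b), v * sec n F (b + v) = -b := by
    have e3 := intervalIntegral.integral_comp_add_left (a := -(b - lo n F)) (b := hi n F - b)
      (fun s => (s - b) * sec n F s) b
    have e1 : b + -(b - lo n F) = lo n F := by ring
    have e2 : b + (hi n F - b) = hi n F := by ring
    rw [e1, e2] at e3
    have e4 : (fun v => (b + v - b) * sec n F (b + v)) = fun v => v * sec n F (b + v) := by
      funext v
      ring
    have e5 := integral_sec hn h.cptF (φ := fun s => s - b) (by fun_prop)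
    have e6 : ∫ y in F, (inner ℝ n y - b) = -b := by
      rw [integral_sub]
      · rw [h.momF n]
        simp [h.volF]
      · exact (Continuous.continuousOn (by fun_prop)).integrableOn_compact h.cptF
      · exact (Continuous.continuousOn (by fun_prop)).integrableOn_compact h.cptF
    rw [← e6, e5, ← e3]
    simp only [e4]
  have hmean := one_m_mean hb0 hd0.le hf (fun v _ => sec_nonneg _ _ _) hint
    (by simpa [hχF] using hχ) hp hp0 hmass
  have hcutF := one_m_cut hb0 hd0.le hf (fun v _ => sec_nonneg _ _ _) hint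
    (by simpa [hχF] using hχ) hp hp0
  simp only [add_zero, hχF] at hmean hcutF
  rw [hmF, neg_neg] at hmean
  -- r
  have hr0 : 0 < √p := Real.sqrt_pos.mpr hp0
  have hr2 : √p ^ 2 = p := Real.sq_sqrt hp0.le
  generalize √p = r at hmean hr0 hr2
  rcases lt_or_ge b 0 with hb | hb
  · have h1 : χ * b < 0 := mul_neg_of_pos_of_neg hχ hb
    have h2 : 2 / 3 < r := by
      by_contra h3
      push Not at h3
      nlinarith [mul_nonneg hr0.le (sub_nonneg.mpr h3)]
    nlinarith
  -- case b ≥ 0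
  have hAG : A ∈ F ∩ L := ⟨hAF, hAL⟩
  have hbG := mem_Icc_lo_hi n cG hAG
  rw [hnA] at hbG
  have hlG : lo n (F ∩ L) < 0 := by
    have h1 : ∀ᶠ t : ℝ in 𝓝 0, t • n ∈ F ∩ L := by
      have h2 : Tendsto (fun t : ℝ => t • n) (𝓝 0) (𝓝 0) := by
        have : Continuous fun t : ℝ => t • n := by fun_prop
        simpa using this.tendsto 0
      exact h2 (mem_interior_iff_mem_nhds.mp (zero_int h))
    obtain ⟨ε, hε, h3⟩ := Metric.eventually_nhds_iff.mp h1
    have h4 : (-(ε / 2)) • n ∈ F ∩ L := by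
      apply h3
      rw [Real.dist_eq, sub_zero, abs_neg, abs_of_pos (by positivity)]
      linarith
    have h5 := (mem_Icc_lo_hi n cG h4).1
    rw [inner_smul_right, real_inner_self_eq_norm_sq, hn] at h5
    linarith
  have hH : b < b - lo n (F ∩ L) := by linarith
  set H := b - lo n (F ∩ L) with hHdef
  have hH0 : 0 < H := by linarith
  have hg : ConcaveOn ℝ (Icc 0 H) (fun u => sec n (F ∩ L) (b - u)) := by
    refine ⟨convex_Icc _ _, fun u hu v hv s t hs ht hst => ?_⟩
    have hu' : b - u ∈ Icc (lo n (F ∩ L)) (hi n (F ∩ L)) :=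
      ⟨by linarith [hu.2], by linarith [hu.1, hbG.2]⟩
    have hv' : b - v ∈ Icc (lo n (F ∩ L)) (hi n (F ∩ L)) :=
      ⟨by linarith [hv.2], by linarith [hv.1, hbG.2]⟩
    have h1 := hcG.2 hu' hv' hs ht hst
    have h2 : s • (b - u) + t • (b - v) = b - (s • u + t • v) := by
      simp only [smul_eq_mul]
      linear_combination b * hst
    rw [h2] at h1
    exact h1
  have hg0 : (fun u => sec n (F ∩ L) (b - u)) 0 = χ := by simp [hχG]
  have hgi : ∀ s t : ℝ, IntervalIntegrable (fun u => sec n (F ∩ L) (b - u)) volume s t :=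
    fun s t => (hiG.comp_sub_left b).intervalIntegrable
  have hmG : ∫ u in (0 : ℝ)..H, sec n (F ∩ L) (b - u) ≤ x ^ 2 := by
    rw [intervalIntegral.integral_comp_sub_left (fun s => sec n (F ∩ L) s) b]
    have e1 : b - H = lo n (F ∩ L) := by rw [hHdef]; ring
    rw [e1, sub_zero, ← h.volG, volume_real_sec hn cG]
    rw [← intervalIntegral.integral_add_adjacent_intervals
      (hiG.intervalIntegrable (a := lo n (F ∩ L)) (b := b))
      (hiG.intervalIntegrable (a := b) (b := hi n (F ∩ L)))]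
    have : 0 ≤ ∫ s in b..(hi n (F ∩ L)), sec n (F ∩ L) s :=
      intervalIntegral.integral_nonneg hbG.2 (fun s _ => sec_nonneg _ _ _)
    linarith
  have hmG0 : 0 ≤ ∫ u in (0 : ℝ)..H, sec n (F ∩ L) (b - u) :=
    intervalIntegral.integral_nonneg hH0.le (fun s _ => sec_nonneg _ _ _)
  have hbx : x ^ 2 * b ≤ ∫ u in (0 : ℝ)..H, u * sec n (F ∩ L) (b - u) := by
    have e3 := intervalIntegral.integral_comp_sub_left (a := 0) (b := H)
      (fun s => (b - s) * sec n (F ∩ L) s) b
    have e1 : b - H = lo n (F ∩ L) := by rw [hHdef]; ring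
    rw [e1, sub_zero] at e3
    have e5 := integral_sec hn cG (φ := fun s => b - s) (by fun_prop)
    have e6 : ∫ y in F ∩ L, (b - inner ℝ n y) = x ^ 2 * b := by
      rw [integral_sub]
      · rw [h.momG n]
        simp [h.volG]
      · exact (Continuous.continuousOn (by fun_prop)).integrableOn_compact cG
      · exact (Continuous.continuousOn (by fun_prop)).integrableOn_compact cG
    have e7 : ∫ u in (0 : ℝ)..H, u * sec n (F ∩ L) (b - u) =
        ∫ s in (lo n (F ∩ L))..b, (b - s) * sec n (F ∩ L) s := by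
      rw [← e3]
      refine intervalIntegral.integral_congr (fun v _ => ?_)
      ring
    have hi1 : ∀ s t : ℝ, IntervalIntegrable (fun s => (b - s) * sec n (F ∩ L) s) volume s t :=
      fun s t => (hiG.intervalIntegrable (a := s) (b := t)).continuousOn_mul (by fun_prop)
    rw [e7, ← e6, e5]
    rw [← intervalIntegral.integral_add_adjacent_intervals
      (hi1 (lo n (F ∩ L)) b) (hi1 b (hi n (F ∩ L)))]
    have : 0 ≤ ∫ s in b..(hi n (F ∩ L)), -((b - s) * sec n (F ∩ L) s) :=
      intervalIntegral.integral_nonneg hbG.2 (fun s hs => by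
        rw [← neg_mul, neg_sub]
        exact mul_nonneg (by linarith [hs.1]) (sec_nonneg _ _ _))
    rw [intervalIntegral.integral_neg] at this
    linarith
  have hk := one_k' hH0.le hg (hgi 0 H) hχ hg0.ge
  have hχb : χ * b ≤ 1 / 6 := by
    have hx2 : x ^ 2 ≤ 1 / 4 := by nlinarith [h.x_pos, h.x_le]
    have hx0 : 0 < x ^ 2 := pow_pos h.x_pos 2
    have h1 : x ^ 2 * b ≤ 2 / 3 * (x ^ 2) ^ 2 / χ := by
      refine hbx.trans (hk.trans ?_)
      gcongr
    rw [le_div_iff₀ hχ] at h1
    have h2 : b * χ ≤ 2 / 3 * x ^ 2 := by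
      have h3 : x ^ 2 * (b * χ) ≤ x ^ 2 * (2 / 3 * x ^ 2) := by nlinarith
      exact le_of_mul_le_mul_left h3 hx0
    nlinarith
  rcases le_or_gt (1 / 2) r with hr | hr
  · nlinarith
  exfalso
  have hr6 : r ≤ 1 / 6 := by
    by_contra h3
    push Not at h3
    nlinarith [mul_pos (sub_pos.mpr h3) (sub_pos.mpr hr)]
  -- h = 2 p / χ
  obtain ⟨η, hη⟩ : ∃ η, η = 2 * p / χ := ⟨_, rfl⟩
  have hη0 : 0 < η := by rw [hη]; positivity
  have hχη : χ * η = 2 * p := by rw [hη]; field_simp
  rw [← hη] at hcutF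
  have hηb : η ≤ b := by
    have h1 : χ * η ≤ χ * b := by
      rw [hχη]
      nlinarith
    exact le_of_mul_le_mul_left h1 hχ
  have hηH : η < H := by linarith
  have hlow := cut_lower hH0 hη0.le hηH.le hg hg0 (sec_nonneg _ _ _) (hgi 0 η)
  -- the right hand side
  have hright : ∫ y in F, max (inner ℝ n y - (b - η)) 0 ≤ 4 / 3 * χ * η ^ 2 := by
    rw [integral_sec hn h.cptF (φ := fun s => max (s - (b - η)) 0) (by fun_prop)]
    have e3 := intervalIntegral.integral_comp_add_left (a := -(b - lo n F)) (b := hi n F - b)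
      (fun s => max (s - (b - η)) 0 * sec n F s) b
    have e1 : b + -(b - lo n F) = lo n F := by ring
    have e2 : b + (hi n F - b) = hi n F := by ring
    rw [e1, e2] at e3
    rw [← e3]
    refine le_trans (le_of_eq ?_) hcutF
    refine intervalIntegral.integral_congr (fun v _ => ?_)
    have : b + v - (b - η) = v + η := by ring
    simp only [this]
  have hleft : ∫ u in (0 : ℝ)..η, (η - u) * sec n (F ∩ L) (b - u) ≤
      ∫ y in F ∩ L, max (inner ℝ n y - (b - η)) 0 := by
    rw [integral_sec hn cG (φ := fun s => max (s - (b - η)) 0) (by fun_prop)]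
    have e3 := intervalIntegral.integral_comp_sub_left (a := 0) (b := η)
      (fun s => (s - (b - η)) * sec n (F ∩ L) s) b
    rw [sub_zero] at e3
    have e4 : ∫ u in (0 : ℝ)..η, (η - u) * sec n (F ∩ L) (b - u) =
        ∫ s in (b - η)..b, (s - (b - η)) * sec n (F ∩ L) s := by
      rw [← e3]
      refine intervalIntegral.integral_congr (fun v _ => ?_)
      ring
    have e5 : ∫ s in (b - η)..b, (s - (b - η)) * sec n (F ∩ L) s =
        ∫ s in (b - η)..b, max (s - (b - η)) 0 * sec n (F ∩ L) s := by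
      refine intervalIntegral.integral_congr (fun s hs => ?_)
      rw [uIcc_of_le (by linarith)] at hs
      have h8 : max (s - (b - η)) 0 = s - (b - η) := max_eq_left (by linarith [hs.1])
      simp only [h8]
    rw [e4, e5]
    refine intervalIntegral.integral_mono_interval (by linarith) (by linarith) hbG.2 ?_ ?_
    · refine Filter.Eventually.of_forall (fun s => ?_)
      exact mul_nonneg (le_max_right _ _) (sec_nonneg _ _ _)
    · exact (hiG.intervalIntegrable).continuousOn_mul (by fun_prop)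
  have hcut := h.cut n (b - η)
  have hx2 : x ^ 2 ≤ 1 / 4 := by nlinarith [h.x_pos, h.x_le]
  have hR : x ^ 2 * ∫ y in F, max (inner ℝ n y - (b - η)) 0 ≤ χ * η ^ 2 / 3 := by
    have h0 : 0 ≤ ∫ y in F, max (inner ℝ n y - (b - η)) 0 :=
      integral_nonneg (fun y => le_max_right _ _)
    have h1 : x ^ 2 * ∫ y in F, max (inner ℝ n y - (b - η)) 0 ≤
        1 / 4 * (4 / 3 * χ * η ^ 2) := mul_le_mul hx2 hright h0 (by norm_num)
    linarith
  have hL : χ * η ^ 2 / 3 < χ * (η ^ 2 / 2 - η ^ 3 / (6 * H)) := by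
    have h1 : η ^ 3 / (6 * H) < η ^ 2 / 6 := by
      rw [div_lt_div_iff₀ (by positivity) (by norm_num)]
      nlinarith [mul_pos (pow_pos hη0 2) (sub_pos.mpr hηH)]
    nlinarith
  linarith

end Pool.Agent.Lib.MP_43065d_gt
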