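import Pool.Agent.Lib.MP_43065d_gt.Pl.PDefs

/-!
# Module CostInt (lemma L5): integral of the cost

`cost t c τ = ∫⁻ u in (0,1-c), ofReal (e (t c - e (phi c u - t c)))`, `e = (τ-1)/2`.
PROOF of `cost_integral`.  Tonelli (`lintegral_lintegral_swap`; the integrand is jointly measurable).  For fixed `u ∈ (0,1-c)` put
`k = t c > 0`, `s = phi c u - t c`.  `phi c u ≥ 2c` on `(0,1-c)` (for `u ≤ 1/2` it is between `4c` and `1`, both `≥ 2c`; for `u > 1/2`
`2(1-u) ≥ 2c`), so `s ≥ phi c u - c ≥ c > 0`.  `∫⁻ τ in (1,∞), ofReal (e (k - e s)) = k³/(3 s²)`: the integrand vanishes for `e ≥ k/s`,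
and with `τ = 1+2e` it is `∫_0^{k/s} 2 e (k - e s) de = k³/s² - (2/3) k³/s² = k³/(3s²)` (an upper bound is enough).
Then `k³/(3s²) ≤ t³c³/(3 (phi c u - c)²)` and
`∫_0^{1/2} (3c + (2-8c)u)^{-2} du = 1/(6c(1-c))` (antiderivative `F u = u/(3c (3c+(2-8c)u))`, valid also for `c = 1/4`),
`∫_{1/2}^{1-c} (2-c-2u)^{-2} du = (1/2)(1/c - 1/(1-c))` (antiderivative `1/(2(2-c-2u))`); sum `(2-3c)/(3c(1-c))`; times `t³c³/3`.
-/

open MeasureTheory Set Filter Topology Metric
open scoped ENNReal NNReal Pointwise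

namespace Pool.Agent.Lib.MP_43065d_gt

private theorem measurable_phi (c : ℝ) : Measurable (phi c) := by
  unfold phi
  exact Measurable.ite measurableSet_Iic (by fun_prop) (by fun_prop)

private theorem measurable_integrand (t c : ℝ) :
    Measurable (fun p : ℝ × ℝ => ENNReal.ofReal
      ((p.1 - 1) / 2 * (t * c - (p.1 - 1) / 2 * (phi c p.2 - t * c)))) := by
  have h1 : Measurable fun p : ℝ × ℝ => phi c p.2 := (measurable_phi c).comp measurable_snd
  fun_prop

theorem measurable_cost (t c : ℝ) : Measurable (cost t c) := by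
  have h := (measurable_integrand t c).lintegral_prod_right' (ν := volume.restrict (Ioo 0 (1 - c)))
  exact h

private theorem lint_ftc {a b : ℝ} (hab : a ≤ b) {F f : ℝ → ℝ}
    (hF : ∀ x ∈ Icc a b, HasDerivAt F (f x) x) (hf : ContinuousOn f (Icc a b))
    (h0 : ∀ x ∈ Icc a b, 0 ≤ f x) :
    ∫⁻ x in Ioc a b, ENNReal.ofReal (f x) = ENNReal.ofReal (F b - F a) := by
  have hi : IntervalIntegrable f volume a b := by
    apply ContinuousOn.intervalIntegrable
    rwa [uIcc_of_le hab]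
  have hint : IntegrableOn f (Ioc a b) :=
    (intervalIntegrable_iff_integrableOn_Ioc_of_le hab).1 hi
  rw [← ofReal_integral_eq_lintegral_ofReal hint, ← intervalIntegral.integral_of_le hab,
    intervalIntegral.integral_eq_sub_of_hasDerivAt (fun x hx => hF x (by rwa [uIcc_of_le hab] at hx))
      hi]
  refine (ae_restrict_iff' measurableSet_Ioc).2 (Eventually.of_forall fun x hx => ?_)
  exact h0 x (Ioc_subset_Icc_self hx)

private theorem inner_bound {k s : ℝ} (hk : 0 < k) (hs : 0 < s) :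
    ∫⁻ τ in Ioi (1 : ℝ), ENNReal.ofReal ((τ - 1) / 2 * (k - (τ - 1) / 2 * s)) ≤
      ENNReal.ofReal (k ^ 3 / (3 * s ^ 2)) := by
  have hb : 1 ≤ 1 + 2 * (k / s) := by
    have : 0 < k / s := div_pos hk hs
    linarith
  have hsplit : Ioi (1 : ℝ) ⊆ Ioc 1 (1 + 2 * (k / s)) ∪ Ioi (1 + 2 * (k / s)) := by
    intro x hx
    rcases le_or_gt x (1 + 2 * (k / s)) with h | h
    · exact Or.inl ⟨hx, h⟩
    · exact Or.inr h
  refine (lintegral_mono_set hsplit).trans ((lintegral_union_le _ _ _).trans ?_)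
  have h2 : ∫⁻ τ in Ioi (1 + 2 * (k / s)),
      ENNReal.ofReal ((τ - 1) / 2 * (k - (τ - 1) / 2 * s)) = 0 := by
    rw [setLIntegral_congr_fun (g := fun _ => 0) measurableSet_Ioi]
    · simp
    · intro τ hτ
      rw [ENNReal.ofReal_eq_zero]
      have hτ' : 1 + 2 * (k / s) < τ := hτ
      have h3 : k / s < (τ - 1) / 2 := by linarith
      have h4 : k < (τ - 1) / 2 * s := by rwa [div_lt_iff₀ hs] at h3
      have h5 : 0 < k / s := div_pos hk hs
      exact mul_nonpos_of_nonneg_of_nonpos (by linarith) (by linarith)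
  have h1 : ∫⁻ τ in Ioc (1 : ℝ) (1 + 2 * (k / s)),
      ENNReal.ofReal ((τ - 1) / 2 * (k - (τ - 1) / 2 * s)) =
      ENNReal.ofReal ((fun τ => k * (τ - 1) ^ 2 / 4 - s * (τ - 1) ^ 3 / 12) (1 + 2 * (k / s)) -
        (fun τ => k * (τ - 1) ^ 2 / 4 - s * (τ - 1) ^ 3 / 12) 1) := by
    refine lint_ftc (F := fun τ => k * (τ - 1) ^ 2 / 4 - s * (τ - 1) ^ 3 / 12)
      (f := fun τ => (τ - 1) / 2 * (k - (τ - 1) / 2 * s)) hb ?_ ?_ ?_
    · intro x _
      have e1 : HasDerivAt (fun τ : ℝ => τ - 1) 1 x := (hasDerivAt_id x).sub_const 1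
      have e2 := ((e1.pow 2).const_mul k).div_const 4
      have e3 := ((e1.pow 3).const_mul s).div_const 12
      have e4 : HasDerivAt (fun τ : ℝ => k * (τ - 1) ^ 2 / 4 - s * (τ - 1) ^ 3 / 12) _ x :=
        e2.sub e3
      refine e4.congr_deriv ?_
      norm_num
      ring
    · fun_prop
    · intro x hx
      have h3 : (x - 1) / 2 ≤ k / s := by linarith [hx.2]
      have h4 : (x - 1) / 2 * s ≤ k := by rwa [le_div_iff₀ hs] at h3
      exact mul_nonneg (by linarith [hx.1]) (by linarith)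
  rw [h1, h2, add_zero]
  refine ENNReal.ofReal_le_ofReal (le_of_eq ?_)
  simp only
  field_simp
  ring

theorem cost_integral {c t : ℝ} (hc : 0 < c) (hc' : c ≤ 1 / 2) (ht : 0 < t) (ht' : t ≤ 1) :
    ∫⁻ τ in Ioi (1 : ℝ), cost t c τ ≤
      ENNReal.ofReal (t ^ 3 * c ^ 2 * (2 - 3 * c) / (9 * (1 - c))) := by
  have hswap : ∫⁻ τ in Ioi (1 : ℝ), cost t c τ = ∫⁻ u in Ioo (0 : ℝ) (1 - c),
      ∫⁻ τ in Ioi (1 : ℝ), ENNReal.ofReal
        ((τ - 1) / 2 * (t * c - (τ - 1) / 2 * (phi c u - t * c))) := by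
    unfold cost
    rw [lintegral_lintegral_swap]
    exact (measurable_integrand t c).aemeasurable
  rw [hswap]
  have hk : 0 < t * c := mul_pos ht hc
  have htc : t * c ≤ c := by nlinarith
  -- the two ranges
  have hpt1 : ∀ u ∈ Ioc (0 : ℝ) (1 / 2), ∫⁻ τ in Ioi (1 : ℝ), ENNReal.ofReal
        ((τ - 1) / 2 * (t * c - (τ - 1) / 2 * (phi c u - t * c))) ≤
      ENNReal.ofReal ((t * c) ^ 3 / 3 / (3 * c + (2 - 8 * c) * u) ^ 2) := by
    intro u hu
    have hφ : phi c u = 4 * c + (2 - 8 * c) * u := by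
      unfold phi
      rw [if_pos hu.2]
    have h1 : c ≤ phi c u - c := by
      rw [hφ]
      nlinarith [hu.1, hu.2]
    have h2 : phi c u - c ≤ phi c u - t * c := by linarith
    have h3 : 0 < phi c u - c := by linarith
    refine (inner_bound hk (by linarith)).trans (ENNReal.ofReal_le_ofReal ?_)
    have h4 : 3 * c + (2 - 8 * c) * u = phi c u - c := by rw [hφ]; ring
    rw [h4, div_div]
    have h5 : (phi c u - c) ^ 2 ≤ (phi c u - t * c) ^ 2 := by
      exact pow_le_pow_left₀ h3.le h2 2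
    exact div_le_div_of_nonneg_left (by positivity) (by positivity) (by linarith)
  have hpt2 : ∀ u ∈ Ioc (1 / 2 : ℝ) (1 - c), ∫⁻ τ in Ioi (1 : ℝ), ENNReal.ofReal
        ((τ - 1) / 2 * (t * c - (τ - 1) / 2 * (phi c u - t * c))) ≤
      ENNReal.ofReal ((t * c) ^ 3 / 3 / (2 - c - 2 * u) ^ 2) := by
    intro u hu
    have hφ : phi c u = 2 * (1 - u) := by
      unfold phi
      rw [if_neg (not_le.2 hu.1)]
    have h1 : c ≤ phi c u - c := by
      rw [hφ]
      linarith [hu.1, hu.2]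
    have h2 : phi c u - c ≤ phi c u - t * c := by linarith
    have h3 : 0 < phi c u - c := by linarith
    refine (inner_bound hk (by linarith)).trans (ENNReal.ofReal_le_ofReal ?_)
    have h4 : 2 - c - 2 * u = phi c u - c := by rw [hφ]; ring
    rw [h4, div_div]
    have h5 : (phi c u - c) ^ 2 ≤ (phi c u - t * c) ^ 2 := by
      exact pow_le_pow_left₀ h3.le h2 2
    exact div_le_div_of_nonneg_left (by positivity) (by positivity) (by linarith)
  have hsub : Ioo (0 : ℝ) (1 - c) ⊆ Ioc 0 (1 / 2) ∪ Ioc (1 / 2) (1 - c) := by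
    intro u hu
    rcases le_or_gt u (1 / 2) with h | h
    · exact Or.inl ⟨hu.1, h⟩
    · exact Or.inr ⟨h, hu.2.le⟩
  refine (lintegral_mono_set hsub).trans ((lintegral_union_le _ _ _).trans ?_)
  have hI1 : ∫⁻ u in Ioc (0 : ℝ) (1 / 2), ∫⁻ τ in Ioi (1 : ℝ), ENNReal.ofReal
        ((τ - 1) / 2 * (t * c - (τ - 1) / 2 * (phi c u - t * c))) ≤
      ENNReal.ofReal ((t * c) ^ 3 / 3 * (1 / (6 * c * (1 - c)))) := by
    refine (setLIntegral_mono' measurableSet_Ioc hpt1).trans ?_
    have hpos : ∀ u ∈ Icc (0 : ℝ) (1 / 2), 0 < 3 * c + (2 - 8 * c) * u := by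
      intro u hu
      nlinarith [hu.1, hu.2]
    rw [lint_ftc (f := fun u => (t * c) ^ 3 / 3 / (3 * c + (2 - 8 * c) * u) ^ 2)
      (F := fun u => (t * c) ^ 3 / 3 * (u / (3 * c * (3 * c + (2 - 8 * c) * u)))) (by norm_num)]
    · refine ENNReal.ofReal_le_ofReal (le_of_eq ?_)
      have h1c : (1 : ℝ) - c ≠ 0 := by linarith
      have e1 : 3 * c + (2 - 8 * c) * (1 / 2) = 1 - c := by ring
      rw [e1]
      field_simp
      ring
    · intro u hu
      have hp := hpos u hu
      have e1 : HasDerivAt (fun u : ℝ => 3 * c * (3 * c + (2 - 8 * c) * u))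
          (3 * c * (2 - 8 * c)) u := by
        have := (((hasDerivAt_id u).const_mul (2 - 8 * c)).const_add (3 * c)).const_mul (3 * c)
        simpa using this
      have e2 : HasDerivAt (fun u : ℝ => (t * c) ^ 3 / 3 *
          (u / (3 * c * (3 * c + (2 - 8 * c) * u)))) _ u :=
        ((hasDerivAt_id u).div e1 (by positivity)).const_mul ((t * c) ^ 3 / 3)
      refine e2.congr_deriv ?_
      simp only [id]
      field_simp
      ring
    · refine ContinuousOn.div (by fun_prop) (by fun_prop) fun u hu => ?_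
      have := hpos u hu
      positivity
    · intro u hu
      have := hpos u hu
      positivity
  have hI2 : ∫⁻ u in Ioc (1 / 2 : ℝ) (1 - c), ∫⁻ τ in Ioi (1 : ℝ), ENNReal.ofReal
        ((τ - 1) / 2 * (t * c - (τ - 1) / 2 * (phi c u - t * c))) ≤
      ENNReal.ofReal ((t * c) ^ 3 / 3 * ((1 - 2 * c) / (2 * c * (1 - c)))) := by
    refine (setLIntegral_mono' measurableSet_Ioc hpt2).trans ?_
    have hpos : ∀ u ∈ Icc (1 / 2 : ℝ) (1 - c), 0 < 2 - c - 2 * u := by
      intro u hu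
      linarith [hu.1, hu.2]
    rw [lint_ftc (f := fun u => (t * c) ^ 3 / 3 / (2 - c - 2 * u) ^ 2)
      (F := fun u => (t * c) ^ 3 / 3 * (1 / (2 * (2 - c - 2 * u)))) (by linarith)]
    · refine ENNReal.ofReal_le_ofReal (le_of_eq ?_)
      have h1c : (1 : ℝ) - c ≠ 0 := by linarith
      have e1 : 2 - c - 2 * (1 - c) = c := by ring
      have e2 : 2 - c - 2 * (1 / 2) = 1 - c := by ring
      rw [e1, e2]
      field_simp
      ring
    · intro u hu
      have hp := hpos u hu
      have e1 : HasDerivAt (fun u : ℝ => 2 * (2 - c - 2 * u)) (2 * (-2)) u := by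
        have := (((hasDerivAt_id u).const_mul 2).const_sub (2 - c)).const_mul 2
        simpa using this
      have e2 : HasDerivAt (fun u : ℝ => (t * c) ^ 3 / 3 * (1 / (2 * (2 - c - 2 * u)))) _ u :=
        ((hasDerivAt_const u (1 : ℝ)).div e1 (by positivity)).const_mul ((t * c) ^ 3 / 3)
      refine e2.congr_deriv ?_
      field_simp
      ring
    · refine ContinuousOn.div (by fun_prop) (by fun_prop) fun u hu => ?_
      have := hpos u hu
      positivity
    · intro u hu
      have := hpos u hu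
      positivity
  refine (add_le_add hI1 hI2).trans ?_
  have h1c : (0 : ℝ) < 1 - c := by linarith
  rw [← ENNReal.ofReal_add (by positivity)
    (mul_nonneg (by positivity) (div_nonneg (by linarith) (by positivity)))]
  refine ENNReal.ofReal_le_ofReal (le_of_eq ?_)
  field_simp
  ring

end Pool.Agent.Lib.MP_43065d_gt
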