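import Pool.Agent.Lib.MP_43065d_gt.Pl.PolyG

/-!
# Module DLem (lemma L7): the gain

PROOF.  `2h ≥ 1 + 2ch² > 1`, so `h > 1/2`.
Case A: `h > 1` and `c < 1/4`.  `r = 1`: `h + 1/(4h) ≥ 5/4 > 1 + (10/3)/16` (`Φ 1 = 1`; `h + 1/(4h)` is increasing for `h ≥ 1/2`).
Case B: `h ≤ 1` or `c ≥ 1/4`.  `β = 2h - 2ch² - 1 ≥ 3m - 1 ≥ 0`, `P = hβ`, `Q = c + h - 1/(4h) + P/4`, `S = c + 2h - 1 + P`, `K = (10/3)c²`.
For `r ∈ (0,1]` the left side minus one is `≥ c(1-r) + (h/r)(r(2-r) - β(1-r/2)²) + r/(4h) - 1 = S - rQ - P/r`.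
(1) `S > K`: `2h - 1 = β + 2ch² ≥ 2ch²`, so `S - K ≥ c (1 + 2h² - (10/3)c)`; for `c ≤ 9/20` use `h > 1/2`; for `c > 9/20`, `h ≥ 1/2 + ch² ≥ 1/2 + c/4 ≥ .61`.
(2) `P < Q` and `Q > 0`.  `Q ≥ c > 0` since `h ≥ 1/2`.  If `h ≤ 1`: `P ≤ h(2h-1)` and `(3/4)h(2h-1) ≤ h - 1/(4h)` (i.e. `3h²(2h-1) ≤ (2h-1)(2h+1)`, as
`3h² ≤ 2h+1` for `h ≤ 1`).  If `c ≥ 1/4`: `β ≤ 2h - 1 - h²/2` and `(3/4)h(2h-1-h²/2) < 1/4 + h - 1/(4h)`, i.e. `(3/2)h⁴ - 6h³ + 7h² + h - 1 > 0` for `h ≥ 1/2`.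
(3) `(S-K)² - 4PQ = (c+2h-1-K)² - β(2h(1+c+K) - 1) = c * (the polynomial of PolyG)` (put `β = 2h-1-2ch²`, `K = c * (10c/3)`), which is `> 0` by `polyG_pos`.
If `P > 0` take `r = √(P/Q) < 1`: `S - rQ - P/r = S - 2√(PQ) > K`.  If `P = 0` (`β = 0`) take `r ∈ (0,1]` with `rQ < S - K`.
-/

open MeasureTheory Set Filter Topology Metric
open scoped ENNReal NNReal Pointwise

namespace Pool.Agent.Lib.MP_43065d_gt

private theorem dl_gap {c h : ℝ} (hc : 0 < c) (hh : 1 / 2 ≤ h) (hcase : h ≤ 1 ∨ 1 / 4 ≤ c) :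
    0 < 4 * h * c + 4 * h ^ 2 - 1 - 3 * h ^ 2 * (2 * h - 1 - 2 * c * h ^ 2) := by
  have hh0 : 0 < h := by linarith
  rcases hcase with h1 | h1
  · have h2 : 0 ≤ (2 * h - 1) * (2 * h + 1 - 3 * h ^ 2) :=
      mul_nonneg (by linarith) (by nlinarith)
    have h3 : 0 < 4 * h * c := by positivity
    have h4 : 0 < 6 * c * h ^ 4 := by positivity
    nlinarith
  · have h3 : 0 ≤ (c - 1 / 4) * (4 * h + 6 * h ^ 4) :=
      mul_nonneg (sub_nonneg.2 h1) (by positivity)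
    have h4 : 0 < 3 / 2 * h ^ 4 - 6 * h ^ 3 + 7 * h ^ 2 + h - 1 := by
      rcases le_total h 1 with h5 | h5
      · nlinarith [mul_nonneg (sq_nonneg h) (mul_nonneg (sub_nonneg.2 h5)
          (by linarith : (0:ℝ) ≤ 3 - h)), mul_nonneg (sub_nonneg.2 hh) (sub_nonneg.2 hh)]
      · nlinarith [mul_nonneg (sq_nonneg h) (sq_nonneg (h - 2)), sq_nonneg (h - 1)]
    nlinarith

private theorem dl_S {c h : ℝ} (hc : 0 < c) (hc' : c ≤ 1 / 2) (hh : 1 / 2 ≤ h)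
    (hβ : 0 ≤ 2 * h - 2 * c * h ^ 2 - 1) : 0 < c + (2 * h - 1) - 10 / 3 * c ^ 2 := by
  have h1 : c * h ^ 2 ≥ c * (1 / 4) := by
    apply mul_le_mul_of_nonneg_left _ hc.le
    nlinarith
  have h2 : 0 < 1 + 2 * h ^ 2 - 10 / 3 * c := by
    rcases lt_or_ge c (9 / 20) with h3 | h3
    · nlinarith
    · have h4 : 61 / 100 ≤ h := by nlinarith
      nlinarith
  have h5 : 0 < c * (1 + 2 * h ^ 2 - 10 / 3 * c) := mul_pos hc h2
  nlinarith

theorem d_lemma {c h m : ℝ} {Φ : ℝ → ℝ} (hc : 0 < c) (hc' : c ≤ 1 / 2) (hh : 0 < h)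
    (hm : 1 ≤ 3 * m) (hK : 3 * m ≤ 2 * h - 2 * c * h ^ 2) (hΦ1 : Φ 1 = 1)
    (hΦ : ∀ r ∈ Ioc (0 : ℝ) 1, r * (2 - r) - (3 * m - 1) * (1 - r / 2) ^ 2 ≤ Φ r) :
    ∃ r ∈ Ioc (0 : ℝ) 1, 1 + 10 / 3 * c ^ 2 < c * (1 - r) + h / r * Φ r + r / (4 * h) := by
  have hch : 0 < c * h ^ 2 := by positivity
  have hh2 : 1 / 2 ≤ h := by nlinarith
  by_cases hA : 1 < h ∧ c < 1 / 4
  · refine ⟨1, ⟨one_pos, le_rfl⟩, ?_⟩
    rw [hΦ1, sub_self, mul_zero, zero_add, div_one, mul_one]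
    have h1 : 5 / 4 < h + 1 / (4 * h) := by
      have h2 : h + 1 / (4 * h) - 5 / 4 = (h - 1) * (4 * h - 1) / (4 * h) := by
        field_simp
        ring
      have h3 : 0 < (h - 1) * (4 * h - 1) / (4 * h) :=
        div_pos (mul_pos (by linarith) (by linarith)) (by positivity)
      linarith
    nlinarith
  · have hcase : h ≤ 1 ∨ 1 / 4 ≤ c := by
      by_contra hcon
      push Not at hcon
      exact hA hcon
    obtain ⟨β, hβ⟩ : ∃ β, β = 2 * h - 2 * c * h ^ 2 - 1 := ⟨_, rfl⟩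
    have hβm : 3 * m - 1 ≤ β := by rw [hβ]; linarith
    have hβ0 : 0 ≤ β := by linarith
    obtain ⟨P, hP⟩ : ∃ P, P = h * β := ⟨_, rfl⟩
    have hP0 : 0 ≤ P := by rw [hP]; positivity
    obtain ⟨Q, hQ⟩ : ∃ Q, Q = c + h - 1 / (4 * h) + P / 4 := ⟨_, rfl⟩
    obtain ⟨T, hT⟩ : ∃ T, T = c + 2 * h - 1 + P - 10 / 3 * c ^ 2 := ⟨_, rfl⟩
    have hinv : 1 / (4 * h) ≤ h := by
      rw [div_le_iff₀ (by positivity)]
      nlinarith
    have hQ0 : 0 < Q := by rw [hQ]; linarith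
    have hT0 : 0 < T := by
      have := dl_S hc hc' hh2 (by rw [← hβ]; exact hβ0)
      rw [hT]
      linarith
    have hPQ : P < Q := by
      have h1 := dl_gap hc hh2 hcase
      have h2 : Q - P = (4 * h * c + 4 * h ^ 2 - 1 - 3 * h ^ 2 * (2 * h - 1 - 2 * c * h ^ 2)) /
          (4 * h) := by
        rw [hQ, hP, hβ]
        field_simp
        ring
      have h3 : 0 < Q - P := by
        rw [h2]
        exact div_pos h1 (by positivity)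
      linarith
    have hD : 4 * P * Q < T ^ 2 := by
      have h1 := mul_pos hc (polyG_pos hc hc' hh2)
      have h2 : T ^ 2 - 4 * P * Q = c * (2 * (2 * h - 1) * ((1 - h + h ^ 2) -
          10 * c / 3 * (1 + h)) + c * (1 - 10 * c / 3) ^ 2 +
          4 * h ^ 3 * c * (1 + 10 * c / 3)) := by
        rw [hT, hQ, hP, hβ]
        field_simp
        ring
      linarith
    -- the choice of `r`
    have key : ∃ r ∈ Ioc (0 : ℝ) 1, r ^ 2 * Q + P < r * T := by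
      rcases le_total T (2 * Q) with h1 | h1
      · refine ⟨T / (2 * Q), ⟨by positivity, ?_⟩, ?_⟩
        · rw [div_le_one (by positivity)]
          exact h1
        · have h2 : T / (2 * Q) * T - ((T / (2 * Q)) ^ 2 * Q + P) = (T ^ 2 - 4 * P * Q) / (4 * Q) := by
            field_simp
            ring
          have h3 : 0 < (T ^ 2 - 4 * P * Q) / (4 * Q) := div_pos (by linarith) (by positivity)
          linarith
      · exact ⟨1, ⟨one_pos, le_rfl⟩, by linarith⟩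
    obtain ⟨r, hr, hr2⟩ := key
    refine ⟨r, hr, ?_⟩
    have hr0 : 0 < r := hr.1
    have h1 : r * (2 - r) - β * (1 - r / 2) ^ 2 ≤ Φ r := by
      have h2 := hΦ r hr
      have h3 : (3 * m - 1) * (1 - r / 2) ^ 2 ≤ β * (1 - r / 2) ^ 2 :=
        mul_le_mul_of_nonneg_right hβm (sq_nonneg _)
      linarith
    have h2 : h / r * (r * (2 - r) - β * (1 - r / 2) ^ 2) ≤ h / r * Φ r :=
      mul_le_mul_of_nonneg_left h1 (by positivity)
    have h3 : c * (1 - r) + h / r * (r * (2 - r) - β * (1 - r / 2) ^ 2) + r / (4 * h) -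
        (1 + 10 / 3 * c ^ 2) = (r * T - (r ^ 2 * Q + P)) / r := by
      rw [hT, hQ, hP]
      field_simp
      ring
    have h4 : 0 < (r * T - (r ^ 2 * Q + P)) / r := div_pos (by linarith) hr0
    linarith

end Pool.Agent.Lib.MP_43065d_gt
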