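import Pool.Agent.Lib.MP_43065d_gt.Pl.PDefs

/-!
# Module OneHalf (lemma L4): pointwise lower bound of a concave probability density

PROOF.  Let `v ∈ [1/2,1)`.  For `t ∈ [0,1-v]` concavity gives `f (v+t) + f (v-t) ≤ 2 f v`; integrating,
`∫_{2v-1}^1 f ≤ 2 (1-v) f v` (substitutions `w = v+t`, `w = v-t`).  For `w ∈ [0,2v-1]`, `v` is a convex combination of `w` and `1` and
`f 1 ≥ 0`, so `f w ≤ f v (1-w)/(1-v)`, and `∫_0^{2v-1} (1-w)/(1-v) dw = (2v-1)(3-2v)/(2(1-v))`.  Total:
`1 ≤ f v (2(1-v) + (2v-1)(3-2v)/(2(1-v))) = f v/(2(1-v))`, because `4(1-v)² + (2v-1)(3-2v) = 1`.  For `v = 1`: `0 ≤ f 1`.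
-/

open MeasureTheory Set Filter Topology Metric
open scoped ENNReal NNReal Pointwise

namespace Pool.Agent.Lib.MP_43065d_gt

theorem one_half {f : ℝ → ℝ} (hf : ConcaveOn ℝ (Icc 0 1) f) (h0 : ∀ v ∈ Icc (0 : ℝ) 1, 0 ≤ f v)
    (hint : IntervalIntegrable f volume 0 1) (h1 : ∫ v in (0 : ℝ)..1, f v = 1) {v : ℝ}
    (hv : v ∈ Icc (1 / 2 : ℝ) 1) : 2 * (1 - v) ≤ f v := by
  obtain ⟨hv0, hv1⟩ := hv
  rcases eq_or_lt_of_le hv1 with h | hv1
  · have h2 := h0 1 ⟨by norm_num, le_rfl⟩
    rw [h]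
    linarith
  have hmem : v ∈ Icc (0 : ℝ) 1 := ⟨by linarith, hv1.le⟩
  have hi1 : IntervalIntegrable f volume 0 (2 * v - 1) := by
    refine hint.mono_set ?_
    rw [uIcc_of_le (by linarith : (0 : ℝ) ≤ 2 * v - 1), uIcc_of_le (by norm_num : (0 : ℝ) ≤ 1)]
    exact Icc_subset_Icc le_rfl (by linarith)
  have hi2 : IntervalIntegrable f volume (2 * v - 1) 1 := by
    refine hint.mono_set ?_
    rw [uIcc_of_le (by linarith : 2 * v - 1 ≤ (1 : ℝ)), uIcc_of_le (by norm_num : (0 : ℝ) ≤ 1)]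
    exact Icc_subset_Icc (by linarith) le_rfl
  have hA : ∫ w in (2 * v - 1)..1, f w ≤ 2 * (1 - v) * f v := by
    have hi3 : IntervalIntegrable (fun w => f (2 * v - w)) volume (2 * v - 1) 1 := by
      have h3 := (hi2.comp_sub_left (2 * v)).symm
      have e1 : 2 * v - (2 * v - 1) = 1 := by ring
      rw [e1] at h3
      exact h3
    have hr : ∫ w in (2 * v - 1)..1, f (2 * v - w) = ∫ w in (2 * v - 1)..1, f w := by
      rw [intervalIntegral.integral_comp_sub_left]
      have e1 : 2 * v - (2 * v - 1) = 1 := by ring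
      rw [e1]
    have h3 : ∫ w in (2 * v - 1)..1, (f w + f (2 * v - w)) ≤
        ∫ _ in (2 * v - 1)..1, 2 * f v := by
      refine intervalIntegral.integral_mono_on (by linarith) (hi2.add hi3)
        intervalIntegrable_const (fun w hw => ?_)
      have hw1 : w ∈ Icc (0 : ℝ) 1 := ⟨by linarith [hw.1], hw.2⟩
      have hw2 : 2 * v - w ∈ Icc (0 : ℝ) 1 := ⟨by linarith [hw.2], by linarith [hw.1]⟩
      have h4 := hf.2 hw1 hw2 (by norm_num : (0 : ℝ) ≤ 1 / 2) (by norm_num : (0 : ℝ) ≤ 1 / 2)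
        (by norm_num)
      simp only [smul_eq_mul] at h4
      have e2 : 1 / 2 * w + 1 / 2 * (2 * v - w) = v := by ring
      rw [e2] at h4
      linarith
    rw [intervalIntegral.integral_add hi2 hi3, hr, intervalIntegral.integral_const,
      smul_eq_mul] at h3
    linarith
  have hB : ∫ w in (0 : ℝ)..(2 * v - 1), f w ≤
      f v / (1 - v) * ((2 * v - 1) * (3 - 2 * v) / 2) := by
    have h3 : ∫ w in (0 : ℝ)..(2 * v - 1), f w ≤
        ∫ w in (0 : ℝ)..(2 * v - 1), f v / (1 - v) * (1 - w) := by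
      refine intervalIntegral.integral_mono_on (by linarith) hi1
        (Continuous.intervalIntegrable (by fun_prop) _ _) (fun w hw => ?_)
      have hw1 : w ∈ Icc (0 : ℝ) 1 := ⟨hw.1, by linarith [hw.2]⟩
      have hwv : w < 1 := by linarith [hw.2]
      have hpos : 0 < 1 - w := by linarith
      have h4 := hf.2 hw1 (⟨by norm_num, le_rfl⟩ : (1 : ℝ) ∈ Icc (0 : ℝ) 1)
        (div_nonneg (by linarith : (0 : ℝ) ≤ 1 - v) hpos.le)
        (div_nonneg (by linarith [hw.2] : (0 : ℝ) ≤ v - w) hpos.le)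
        (by rw [← add_div, div_eq_one_iff_eq hpos.ne']; ring)
      simp only [smul_eq_mul] at h4
      have e2 : (1 - v) / (1 - w) * w + (v - w) / (1 - w) * 1 = v := by
        field_simp
        ring
      rw [e2] at h4
      have h5 : 0 ≤ (v - w) / (1 - w) * f 1 :=
        mul_nonneg (div_nonneg (by linarith [hw.2]) hpos.le) (h0 1 ⟨by norm_num, le_rfl⟩)
      have h6 : (1 - v) / (1 - w) * f w ≤ f v := by linarith
      have h1v : 0 < 1 - v := by linarith
      rw [div_mul_eq_mul_div, div_le_iff₀ hpos] at h6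
      rw [div_mul_eq_mul_div, le_div_iff₀ h1v]
      linarith
    have h4 : ∫ w in (0 : ℝ)..(2 * v - 1), f v / (1 - v) * (1 - w) =
        f v / (1 - v) * ((2 * v - 1) * (3 - 2 * v) / 2) := by
      rw [intervalIntegral.integral_const_mul]
      congr 1
      rw [intervalIntegral.integral_sub intervalIntegrable_const
        (Continuous.intervalIntegrable (by fun_prop) _ _), intervalIntegral.integral_const,
        integral_id, smul_eq_mul]
      ring
    linarith
  have hsum : (∫ w in (0 : ℝ)..(2 * v - 1), f w) + ∫ w in (2 * v - 1)..1, f w = 1 := by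
    rw [intervalIntegral.integral_add_adjacent_intervals hi1 hi2, h1]
  have h1v : 0 < 1 - v := by linarith
  have h5 : 1 ≤ f v / (1 - v) * ((2 * v - 1) * (3 - 2 * v) / 2) + 2 * (1 - v) * f v := by
    linarith
  have h6 : f v / (1 - v) * ((2 * v - 1) * (3 - 2 * v) / 2) + 2 * (1 - v) * f v =
      f v / (2 * (1 - v)) := by
    field_simp
    ring
  rw [h6, le_div_iff₀ (by linarith)] at h5
  linarith

end Pool.Agent.Lib.MP_43065d_gt
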