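import Pool.Agent.Lib.MP_43065d_gt.Pl.EdgeFn
import Pool.Agent.Lib.MP_43065d_gt.Pl.OneHalf

/-!
# Module EdgeC (E2): consequence of condition (C) for the contact chord

Notation: `f = eF F n a` on `[0,1]` (`edge_fn`), `c = eC`, `c₀ = sec n L a = sec n G a`, `W = eW`, `G = F ∩ L`, `H = a - lo n G > 0`, `s₀ = c₀ W/x² = 2c/x ≥ 4c` (`x ≤ 1/2`).
CLAIM: `0 < u < u₂ ≤ 1` implies `f u ≥ s₀ (1 - u/u₂) + f u₂ * (u/u₂)`.
PROOF of the claim.  Otherwise let `ℓ` be the affine function through `(u₂, f u₂)` and `(u, f u)`; `ℓ 0 < s₀`.  Concavity: `f w ≤ ℓ w` for `0 ≤ w ≤ u` (`u` is between `w` and `u₂`).  So there are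
`s < s₀`, `C ≥ 0` with `f w ≤ s + C w` on `(0,u)`.  Condition (C) (`h.cut n (a - δ)`) for small `δ > 0` (`δ ≤ H`, `δ ≤ u W`): the left side is
`∫_0^δ (δ-t) sec n G (a-t) dt ≥ ∫_0^δ (δ-t) c₀ (1-t/H) dt = c₀ (δ²/2 - δ³/(6H))` (concavity of the section function of `G`, value `c₀` at height `a`, `≥ 0` at height `a-H`; `integral_sec`),
the integral on the right is `∫_0^δ (δ-t) sec n F (a-t) dt = ∫_0^δ (δ-t) f(t/W)/W dt ≤ s δ²/(2W) + C δ³/(6W²)`.  So `c₀(1/2 - δ/(6H)) ≤ x² (s/(2W) + C δ/(6W²))`; `δ → 0`: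
`c₀ ≤ x² s/W < x² s₀/W = c₀`, contradiction.
(1) `u₂ = 1` and `f 1 ≥ 0`: `f u ≥ 4c (1-u)` for `0 < u < 1`, so `1 = ∫ f ≥ 2c`.
(2) `0 < u ≤ 1/2`: `f (1/2) ≥ 1` (`one_half`), `u₂ = 1/2`: `f u ≥ 4c (1-2u) + 2u = phi c u` (for `u = 1/2`: `phi c (1/2) = 1`).
(3) `1/2 < u < 1 - c`: `one_half`.
-/

open MeasureTheory Set Filter Topology Metric
open scoped ENNReal NNReal Pointwise

namespace Pool.Agent.Lib.MP_43065d_gt

variable {F L : Set E2} {x : ℝ} {n : E2} {a : ℝ}

private theorem edgeC_tail {n : E2} (hn : ‖n‖ = 1) {S : Set E2} (hS : IsCompact S) {b : ℝ}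
    (h1 : lo n S ≤ b) (h2 : b ≤ hi n S) :
    ∫ y in S, max (inner ℝ n y - b) 0 = ∫ s in b..(hi n S), (s - b) * sec n S s := by
  have hc : Continuous fun s : ℝ => max (s - b) 0 := by fun_prop
  have h := integral_sec hn hS (φ := fun s => max (s - b) 0) hc
  have hi1 : ∀ p q : ℝ, IntervalIntegrable (fun s => max (s - b) 0 * sec n S s) volume p q :=
    fun p q => (integrable_sec hn hS).intervalIntegrable.continuousOn_mul hc.continuousOn
  have e1 : ∫ y in S, max (inner ℝ n y - b) 0 =
      ∫ s in (lo n S)..(hi n S), max (s - b) 0 * sec n S s := h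
  rw [e1, ← intervalIntegral.integral_add_adjacent_intervals (hi1 (lo n S) b) (hi1 b (hi n S))]
  have e2 : ∫ s in (lo n S)..b, max (s - b) 0 * sec n S s = 0 := by
    have e3 : ∫ s in (lo n S)..b, max (s - b) 0 * sec n S s = ∫ _ in (lo n S)..b, (0 : ℝ) := by
      refine intervalIntegral.integral_congr (fun s hs => ?_)
      rw [uIcc_of_le h1] at hs
      have : max (s - b) 0 = 0 := max_eq_right (by linarith [hs.2])
      simp only [this, zero_mul]
    rw [e3, intervalIntegral.integral_zero]
  rw [e2, zero_add]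
  refine intervalIntegral.integral_congr (fun s hs => ?_)
  rw [uIcc_of_le h2] at hs
  have : max (s - b) 0 = s - b := max_eq_left (by linarith [hs.1])
  simp only [this]

private theorem edgeC_poly (a δ A B : ℝ) :
    ∫ s in (a - δ)..a, (s - (a - δ)) * (A + B * (a - s)) = A * δ ^ 2 / 2 + B * δ ^ 3 / 6 := by
  have hd : ∀ s ∈ uIcc (a - δ) a,
      HasDerivAt (fun s => A * (s - (a - δ)) ^ 2 / 2 +
        B * ((s - (a - δ)) ^ 2 * δ / 2 - (s - (a - δ)) ^ 3 / 3))
        ((s - (a - δ)) * (A + B * (a - s))) s := by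
    intro s _
    have h0 : HasDerivAt (fun s : ℝ => s - (a - δ)) 1 s := (hasDerivAt_id s).sub_const _
    have h2 := h0.pow 2
    have h3 := h0.pow 3
    have h4 := ((h2.const_mul A).div_const 2).add
      ((((h2.mul_const δ).div_const 2).sub (h3.div_const 3)).const_mul B)
    refine (h4.congr_deriv ?_)
    simp only [Nat.cast_ofNat]
    ring
  rw [intervalIntegral.integral_eq_sub_of_hasDerivAt hd
    (Continuous.intervalIntegrable (by fun_prop) _ _)]
  ring

private theorem edgeC_key (h : PN F L x) (g : GEdge F L n a) {α β η : ℝ} (hη : 0 < η)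
    (hs : ∀ s ∈ Icc (a - η) a, sec n F s ≤ α + β * (a - s)) : sec n L a ≤ x ^ 2 * α := by
  have hn := g.unit
  have hGc : IsCompact (F ∩ L) := h.cptF.inter_right h.closedL
  have hGv : Convex ℝ (F ∩ L) := h.convF.inter h.convL
  have hW : 0 < a - lo n F := edge_W_pos h g
  have hH : 0 < a - lo n (F ∩ L) := by
    have := edge_loG h g
    have := g.pos
    linarith
  have hc0 : 0 ≤ sec n L a := sec_nonneg _ _ _
  by_contra hcon
  push Not at hcon
  set H : ℝ := a - lo n (F ∩ L) with hHd
  set D : ℝ := (sec n L a - x ^ 2 * α) / 2 with hD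
  set K : ℝ := sec n L a / (6 * H) + x ^ 2 * β / 6 with hK
  have hDpos : 0 < D := by rw [hD]; linarith
  have hmain : ∀ δ : ℝ, 0 < δ → δ ≤ η → δ ≤ H → δ ≤ a - lo n F → D ≤ δ * K := by
    intro δ hδ h1 h2 h3
    have hcut := h.cut n (a - δ)
    rw [edgeC_tail hn hGc (by linarith) (by rw [edge_hiG h g]; linarith),
      edgeC_tail hn h.cptF (by linarith) (by rw [edge_hi h g]; linarith), edge_hiG h g,
      edge_hi h g] at hcut
    have hiF : IntervalIntegrable (fun s => (s - (a - δ)) * sec n F s) volume (a - δ) a :=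
      (integrable_sec hn h.cptF).intervalIntegrable.continuousOn_mul
        (Continuous.continuousOn (by fun_prop))
    have hiG : IntervalIntegrable (fun s => (s - (a - δ)) * sec n (F ∩ L) s) volume (a - δ) a :=
      (integrable_sec hn hGc).intervalIntegrable.continuousOn_mul
        (Continuous.continuousOn (by fun_prop))
    have hF : ∫ s in (a - δ)..a, (s - (a - δ)) * sec n F s ≤
        α * δ ^ 2 / 2 + β * δ ^ 3 / 6 := by
      rw [← edgeC_poly a δ α β]
      refine intervalIntegral.integral_mono_on (by linarith) hiF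
        (Continuous.intervalIntegrable (by fun_prop) _ _) (fun s hs1 => ?_)
      exact mul_le_mul_of_nonneg_left (hs s ⟨by linarith [hs1.1], hs1.2⟩) (by linarith [hs1.1])
    have hG : sec n L a * δ ^ 2 / 2 + (-(sec n L a / H)) * δ ^ 3 / 6 ≤
        ∫ s in (a - δ)..a, (s - (a - δ)) * sec n (F ∩ L) s := by
      rw [← edgeC_poly a δ (sec n L a) (-(sec n L a / H))]
      refine intervalIntegral.integral_mono_on (by linarith)
        (Continuous.intervalIntegrable (by fun_prop) _ _) hiG (fun s hs1 => ?_)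
      refine mul_le_mul_of_nonneg_left ?_ (by linarith [hs1.1])
      have hcc := sec_concave hn hGv hGc
      rw [edge_hiG h g] at hcc
      have h4 := hcc.2 (show lo n (F ∩ L) ∈ Icc (lo n (F ∩ L)) a from ⟨le_rfl, by linarith⟩)
        (show a ∈ Icc (lo n (F ∩ L)) a from ⟨by linarith, le_rfl⟩)
        (show 0 ≤ (a - s) / H from div_nonneg (by linarith [hs1.2]) hH.le)
        (show 0 ≤ 1 - (a - s) / H by rw [sub_nonneg, div_le_one hH]; linarith [hs1.1])
        (by ring)
      have e : ((a - s) / H) • lo n (F ∩ L) + (1 - (a - s) / H) • a = s := by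
        simp only [smul_eq_mul]
        have hHne : H ≠ 0 := hH.ne'
        have e0 : lo n (F ∩ L) = a - H := by rw [hHd]; ring
        rw [e0]
        field_simp
        ring
      rw [e, edge_secG h g] at h4
      simp only [smul_eq_mul] at h4
      have h5 : 0 ≤ (a - s) / H * sec n (F ∩ L) (lo n (F ∩ L)) :=
        mul_nonneg (div_nonneg (by linarith [hs1.2]) hH.le) (sec_nonneg _ _ _)
      have h6 : sec n L a + -(sec n L a / H) * (a - s) = (1 - (a - s) / H) * sec n L a := by
        ring
      rw [h6]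
      linarith
    have hx2 : 0 ≤ x ^ 2 := sq_nonneg x
    have h7 : sec n L a * δ ^ 2 / 2 + (-(sec n L a / H)) * δ ^ 3 / 6 ≤
        x ^ 2 * (α * δ ^ 2 / 2 + β * δ ^ 3 / 6) :=
      hG.trans (hcut.trans (mul_le_mul_of_nonneg_left hF hx2))
    have h8 : δ ^ 2 * D ≤ δ ^ 2 * (δ * K) := by
      have e1 : δ ^ 2 * D = sec n L a * δ ^ 2 / 2 - x ^ 2 * (α * δ ^ 2 / 2) := by
        rw [hD]; ring
      have e2 : δ ^ 2 * (δ * K) = (sec n L a / H) * δ ^ 3 / 6 + x ^ 2 * (β * δ ^ 3 / 6) := by
        rw [hK]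
        have hHne : H ≠ 0 := hH.ne'
        field_simp
      rw [e1, e2]
      linarith
    exact le_of_mul_le_mul_left h8 (by positivity)
  have hKp : 0 < |K| + 1 := by positivity
  set δ : ℝ := min (min η H) (min (a - lo n F) (D / (2 * (|K| + 1)))) with hδ
  have hδpos : 0 < δ := by
    rw [hδ]
    exact lt_min (lt_min hη hH) (lt_min hW (by positivity))
  have h9 := hmain δ hδpos ((min_le_left _ _).trans (min_le_left _ _))
    ((min_le_left _ _).trans (min_le_right _ _)) ((min_le_right _ _).trans (min_le_left _ _))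
  have h10 : δ ≤ D / (2 * (|K| + 1)) := (min_le_right _ _).trans (min_le_right _ _)
  have h11 : δ * K ≤ D / (2 * (|K| + 1)) * (|K| + 1) := by
    calc δ * K ≤ δ * (|K| + 1) := by
          refine mul_le_mul_of_nonneg_left ?_ hδpos.le
          linarith [le_abs_self K]
      _ ≤ _ := mul_le_mul_of_nonneg_right h10 hKp.le
  have h12 : D / (2 * (|K| + 1)) * (|K| + 1) = D / 2 := by
    field_simp
  rw [h12] at h11
  linarith

private theorem edgeC_claim (h : PN F L x) (g : GEdge F L n a) {u v : ℝ} (hu : 0 < u)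
    (huv : u < v) (hv : v ≤ 1) :
    sec n L a * eW F n a / x ^ 2 * (v - u) ≤ v * eF F n a u - u * eF F n a v := by
  have hW : 0 < eW F n a := edge_W_pos h g
  obtain ⟨hcc, -, -, -, -⟩ := edge_fn h g
  have hvu : 0 < v - u := by linarith
  have hx := h.x_pos
  have hk := edgeC_key h g (η := u * eW F n a)
    (α := (v * eF F n a u - u * eF F n a v) / ((v - u) * eW F n a))
    (β := (eF F n a v - eF F n a u) / ((v - u) * eW F n a ^ 2)) (by positivity) (by
      intro s hs
      have hw0 : 0 ≤ (a - s) / eW F n a := div_nonneg (by linarith [hs.2]) hW.le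
      have hwu : (a - s) / eW F n a ≤ u := by
        rw [div_le_iff₀ hW]
        linarith [hs.1]
      set w : ℝ := (a - s) / eW F n a with hwd
      have e0 : a - s = w * eW F n a := by
        rw [hwd, div_mul_cancel₀ _ hW.ne']
      have e1 : eF F n a w = eW F n a * sec n F s := by
        unfold eF
        congr 2
        rw [mul_comm, ← e0]
        ring
      have hvw : 0 < v - w := by linarith
      have h4 := hcc.2 (show w ∈ Icc (0 : ℝ) 1 from ⟨hw0, by linarith⟩)
        (show v ∈ Icc (0 : ℝ) 1 from ⟨by linarith, hv⟩)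
        (show 0 ≤ (v - u) / (v - w) from div_nonneg hvu.le hvw.le)
        (show 0 ≤ (u - w) / (v - w) from div_nonneg (by linarith) hvw.le)
        (by rw [← add_div, div_eq_one_iff_eq hvw.ne']; ring)
      have e2 : ((v - u) / (v - w)) • w + ((u - w) / (v - w)) • v = u := by
        simp only [smul_eq_mul]
        field_simp
        ring
      rw [e2, e1] at h4
      simp only [smul_eq_mul] at h4
      have h5 : (v - u) * (eW F n a * sec n F s) + (u - w) * eF F n a v ≤
          (v - w) * eF F n a u := by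
        have h6 := mul_le_mul_of_nonneg_left h4 hvw.le
        have e3 : (v - w) * ((v - u) / (v - w) * (eW F n a * sec n F s) +
            (u - w) / (v - w) * eF F n a v) =
            (v - u) * (eW F n a * sec n F s) + (u - w) * eF F n a v := by
          field_simp
        rw [e3] at h6
        exact h6
      rw [e0]
      have e4 : (v * eF F n a u - u * eF F n a v) / ((v - u) * eW F n a) +
          (eF F n a v - eF F n a u) / ((v - u) * eW F n a ^ 2) * (w * eW F n a) =
          ((v - w) * eF F n a u - (u - w) * eF F n a v) / ((v - u) * eW F n a) := by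
        field_simp
        ring
      rw [e4, le_div_iff₀ (by positivity)]
      linarith)
  have h7 : sec n L a * ((v - u) * eW F n a) ≤
      x ^ 2 * (v * eF F n a u - u * eF F n a v) := by
    have h8 := mul_le_mul_of_nonneg_right hk (show 0 ≤ (v - u) * eW F n a by positivity)
    have e5 : x ^ 2 * ((v * eF F n a u - u * eF F n a v) / ((v - u) * eW F n a)) *
        ((v - u) * eW F n a) = x ^ 2 * (v * eF F n a u - u * eF F n a v) := by
      field_simp
    rw [e5] at h8
    exact h8
  rw [div_mul_eq_mul_div, div_le_iff₀ (by positivity)]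
  linarith

private theorem edgeC_s0 (h : PN F L x) :
    sec n L a * eW F n a / x ^ 2 = 2 * eC F L x n a / x := by
  have hx := h.x_pos
  unfold eC
  field_simp

private theorem edgeC_s0_ge (h : PN F L x) (g : GEdge F L n a) :
    4 * eC F L x n a ≤ sec n L a * eW F n a / x ^ 2 := by
  have hx := h.x_pos
  have hC := edge_C_pos h g
  rw [edgeC_s0 h, le_div_iff₀ hx]
  nlinarith [h.x_le]

theorem edge_C_le (h : PN F L x) (g : GEdge F L n a) : eC F L x n a ≤ 1 / 2 := by
  obtain ⟨-, h0, hint, h1, -⟩ := edge_fn h g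
  have hge := edgeC_s0_ge h g
  have h2 : ∫ u in (0 : ℝ)..1, 4 * eC F L x n a * (1 - u) ≤ ∫ u in (0 : ℝ)..1, eF F n a u := by
    refine intervalIntegral.integral_mono_on_of_le_Ioo (by norm_num)
      (Continuous.intervalIntegrable (by fun_prop) _ _) hint (fun u hu => ?_)
    have h3 := edgeC_claim h g hu.1 hu.2 le_rfl
    have h4 : 0 ≤ u * eF F n a 1 := mul_nonneg hu.1.le (h0 1 ⟨by norm_num, le_rfl⟩)
    have h5 : 4 * eC F L x n a * (1 - u) ≤ sec n L a * eW F n a / x ^ 2 * (1 - u) :=
      mul_le_mul_of_nonneg_right hge (by linarith [hu.2])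
    linarith
  have h3 : ∫ u in (0 : ℝ)..1, 4 * eC F L x n a * (1 - u) = 2 * eC F L x n a := by
    rw [intervalIntegral.integral_const_mul,
      intervalIntegral.integral_sub intervalIntegrable_const
        (Continuous.intervalIntegrable (by fun_prop) _ _), intervalIntegral.integral_const,
      integral_id, smul_eq_mul]
    ring
  rw [h3, h1] at h2
  linarith

theorem edge_phi_le (h : PN F L x) (g : GEdge F L n a) {u : ℝ}
    (hu : u ∈ Ioo (0 : ℝ) (1 - eC F L x n a)) : phi (eC F L x n a) u ≤ eF F n a u := by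
  obtain ⟨hcc, h0, hint, h1, -⟩ := edge_fn h g
  have hge := edgeC_s0_ge h g
  have hC := edge_C_pos h g
  have hu1 : u < 1 := by linarith [hu.2]
  unfold phi
  split_ifs with hle
  · have hhalf := one_half hcc h0 hint h1 (v := 1 / 2) ⟨le_rfl, by norm_num⟩
    rcases eq_or_lt_of_le hle with he | hlt
    · rw [he]
      linarith
    · have h3 := edgeC_claim h g hu.1 hlt (by norm_num)
      have h4 : 4 * eC F L x n a * (1 / 2 - u) ≤
          sec n L a * eW F n a / x ^ 2 * (1 / 2 - u) :=
        mul_le_mul_of_nonneg_right hge (by linarith)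
      have h5 : u * 1 ≤ u * eF F n a (1 / 2) :=
        mul_le_mul_of_nonneg_left (by linarith) hu.1.le
      linarith
  · push Not at hle
    exact one_half hcc h0 hint h1 ⟨hle.le, hu1.le⟩

end Pool.Agent.Lib.MP_43065d_gt
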