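import Pool.Agent.Lib.MP_43065d_gt.Pl.SecAdd
import Pool.Agent.Lib.MP_43065d_gt.Pl.IntZero

/-!
# Module EdgeFn: the normalised section function of `F` at an edge

PROOF.  `edge_hi`: `g.le` and `g.ex`.  `0 ∈ interior F` (`zero_intF`) gives `lo n F < 0`, so `eW F n a = a - lo n F > 0` (also `> a`).
`edge_secG`: for `z` with `inner n z = a`: `z ∈ F ∩ L ↔ z ∈ L` (`g.chord`), `sec_congr`.  `edge_C_pos`: `g.len`, `x > 0`.
`edge_loG`: `0 ∈ interior (F ∩ L)`.
`edge_fn`: `eF u = W * sec n F (a - W u)`; `u ↦ a - W u` maps `[0,1]` onto `[lo n F, hi n F]`; `sec_concave`.  Substitution `s = a - W u`: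
`∫_0^1 eF = ∫_{lo}^{a} sec n F = volume.real F = 1` (`volume_real_sec`), `∫_0^1 u eF u = ∫_{lo}^a ((a-s)/W) sec n F s = (a - ∫_F inner n y)/W = a/W`
(`integral_sec` with `φ s = (a-s)/W`, `momF`).
`edge_int`: `∫_0^r eF = ∫_0^{rW} sec n F (a - v) dv` (`v = W u`).
-/

open MeasureTheory Set Filter Topology Metric
open scoped ENNReal NNReal Pointwise

namespace Pool.Agent.Lib.MP_43065d_gt

variable {F L : Set E2} {x : ℝ} {n : E2} {a : ℝ}

private theorem lo_neg_aux {S : Set E2} (hS : IsCompact S) (hn : ‖n‖ = 1)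
    (h0 : (0 : E2) ∈ interior S) : lo n S < 0 := by
  obtain ⟨ε, hε, hb⟩ := Metric.isOpen_iff.1 isOpen_interior 0 h0
  have h1 : (-(ε / 2)) • n ∈ S := by
    apply interior_subset
    apply hb
    rw [mem_ball_zero_iff, norm_smul, hn, mul_one, Real.norm_eq_abs, abs_neg,
      abs_of_pos (by positivity)]
    linarith
  have h2 := (mem_Icc_lo_hi n hS h1).1
  rw [inner_smul_right, real_inner_self_eq_norm_sq, hn] at h2
  linarith

theorem edge_hi (h : PN F L x) (g : GEdge F L n a) : hi n F = a := by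
  obtain ⟨z, hz, hza⟩ := g.ex
  obtain ⟨y, hy, hya⟩ := exists_hi n h.cptF ⟨z, hz.1⟩
  apply le_antisymm
  · rw [← hya]
    exact g.le y hy
  · rw [← hza]
    exact (mem_Icc_lo_hi n h.cptF hz.1).2

theorem edge_hiG (h : PN F L x) (g : GEdge F L n a) : hi n (F ∩ L) = a := by
  have hc : IsCompact (F ∩ L) := h.cptF.inter_right h.closedL
  obtain ⟨z, hz, hza⟩ := g.ex
  obtain ⟨y, hy, hya⟩ := exists_hi n hc ⟨z, hz⟩
  apply le_antisymm
  · rw [← hya]
    exact g.le y hy.1
  · rw [← hza]
    exact (mem_Icc_lo_hi n hc hz).2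

theorem edge_W_pos (h : PN F L x) (g : GEdge F L n a) : 0 < eW F n a := by
  have h1 := lo_neg_aux h.cptF g.unit (zero_intF h)
  have h2 := g.pos
  unfold eW
  linarith

theorem edge_lo_neg (h : PN F L x) (g : GEdge F L n a) : lo n F < 0 :=
  lo_neg_aux h.cptF g.unit (zero_intF h)

theorem edge_loG (h : PN F L x) (g : GEdge F L n a) : lo n (F ∩ L) < 0 :=
  lo_neg_aux (h.cptF.inter_right h.closedL) g.unit (zero_int h)

theorem edge_C_pos (h : PN F L x) (g : GEdge F L n a) : 0 < eC F L x n a := by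
  have h1 := edge_W_pos h g
  have h2 := g.len
  have h3 := h.x_pos
  unfold eC
  positivity

theorem edge_secG (h : PN F L x) (g : GEdge F L n a) : sec n (F ∩ L) a = sec n L a :=
  sec_congr g.unit fun y hy => ⟨fun hz => hz.2, fun hz => ⟨g.chord y hz hy, hz⟩⟩

theorem edge_fn (h : PN F L x) (g : GEdge F L n a) :
    ConcaveOn ℝ (Icc 0 1) (eF F n a) ∧ (∀ u ∈ Icc (0 : ℝ) 1, 0 ≤ eF F n a u) ∧
      IntervalIntegrable (eF F n a) volume 0 1 ∧ ∫ u in (0 : ℝ)..1, eF F n a u = 1 ∧
      ∫ u in (0 : ℝ)..1, u * eF F n a u = a / eW F n a := by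
  have hW := edge_W_pos h g
  have hhi := edge_hi h g
  obtain ⟨W, hWd⟩ : ∃ W, W = eW F n a := ⟨_, rfl⟩
  have hlo : lo n F = a - W := by
    rw [hWd]
    unfold eW
    ring
  have hE : ∀ u, eF F n a u = W * sec n F (a - W * u) := by
    intro u
    rw [hWd]
    rfl
  rw [← hWd] at hW ⊢
  have hmem : ∀ u ∈ Icc (0 : ℝ) 1, a - W * u ∈ Icc (lo n F) (hi n F) := by
    intro u hu
    rw [hlo, hhi]
    constructor
    · nlinarith [hu.2]
    · nlinarith [hu.1]
  refine ⟨⟨convex_Icc _ _, ?_⟩, ?_, ?_, ?_, ?_⟩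
  · intro u hu v hv α β hα hβ hαβ
    have h1 := (sec_concave g.unit h.convF h.cptF).2 (hmem u hu) (hmem v hv) hα hβ hαβ
    have e : α • (a - W * u) + β • (a - W * v) = a - W * (α • u + β • v) := by
      simp only [smul_eq_mul]
      linear_combination a * hαβ
    rw [e] at h1
    rw [hE, hE, hE]
    simp only [smul_eq_mul] at h1 ⊢
    nlinarith [mul_le_mul_of_nonneg_left h1 hW.le]
  · intro u _
    rw [hE]
    exact mul_nonneg hW.le (sec_nonneg _ _ _)
  · apply Integrable.intervalIntegrable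
    have h1 : Integrable (fun t => sec n F (a - t)) :=
      (integrable_comp_sub_left (sec n F) a).2 (integrable_sec g.unit h.cptF)
    have h2 : Integrable (fun u => sec n F (a - W * u)) :=
      (integrable_comp_mul_left_iff (fun t => sec n F (a - t)) hW.ne').2 h1
    have h3 := h2.const_mul W
    refine h3.congr (Filter.Eventually.of_forall fun u => ?_)
    exact (hE u).symm
  · have h1 : ∫ u in (0 : ℝ)..1, eF F n a u = ∫ u in (0 : ℝ)..1, W * sec n F (a - W * u) :=
      intervalIntegral.integral_congr fun u _ => hE u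
    rw [h1, intervalIntegral.integral_const_mul,
      intervalIntegral.integral_comp_sub_mul (sec n F) hW.ne' a, mul_one, mul_zero, sub_zero,
      smul_eq_mul, ← mul_assoc, mul_inv_cancel₀ hW.ne', one_mul, ← hlo]
    conv_lhs => rw [← hhi]
    rw [← volume_real_sec g.unit h.cptF, h.volF]
  · have h1 : ∫ u in (0 : ℝ)..1, u * eF F n a u =
        ∫ u in (0 : ℝ)..1, (fun s => (a - s) * sec n F s) (a - W * u) := by
      refine intervalIntegral.integral_congr fun u _ => ?_
      show u * eF F n a u = (a - (a - W * u)) * sec n F (a - W * u)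
      rw [hE]
      ring
    have h2 : ∫ s in (lo n F)..(hi n F), (a - s) * sec n F s = a := by
      have h3 := integral_sec g.unit h.cptF (φ := fun s => a - s) (by fun_prop)
      rw [← h3, integral_sub, h.momF, sub_zero]
      · rw [setIntegral_const, h.volF]
        simp
      · exact integrableOn_const (hs := h.cptF.measure_lt_top.ne)
      · have hc : Continuous fun y : E2 => (inner ℝ n y : ℝ) := by fun_prop
        exact hc.continuousOn.integrableOn_compact h.cptF
    rw [hhi, hlo] at h2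
    rw [h1, intervalIntegral.integral_comp_sub_mul (fun s => (a - s) * sec n F s) hW.ne' a,
      mul_one, mul_zero, sub_zero, h2, smul_eq_mul, inv_mul_eq_div]

theorem edge_int (h : PN F L x) (g : GEdge F L n a) (r : ℝ) :
    ∫ u in (0 : ℝ)..r, eF F n a u = ∫ v in (0 : ℝ)..(r * eW F n a), sec n F (a - v) := by
  have hW := edge_W_pos h g
  have h1 : ∫ u in (0 : ℝ)..r, eF F n a u =
      ∫ u in (0 : ℝ)..r, eW F n a * (fun v => sec n F (a - v)) (eW F n a * u) :=
    intervalIntegral.integral_congr fun u _ => rfl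
  rw [h1, intervalIntegral.integral_const_mul,
    intervalIntegral.integral_comp_mul_left (fun v => sec n F (a - v)) hW.ne', mul_zero,
    smul_eq_mul, ← mul_assoc, mul_inv_cancel₀ hW.ne', one_mul, mul_comm r]

end Pool.Agent.Lib.MP_43065d_gt
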