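import Pool.Agent.Lib.MP_43065d_gt.Pl.PDefs

/-!
# Module OneL2 (lemma L3): mass near the end of a concave function with given mean

PROOF.  `f v/(1-v)` is nondecreasing on `[0,1)`: for `v < w < 1`, `w` is a convex combination of `v` and `1` and `f 1 ≥ 0`, so
`f w ≥ ((1-w)/(1-v)) f v`.
(a) `(3v-1) * (f v - (3/2) f(1/3) (1-v)) ≥ 0` on `[0,1]` (monotonicity, `v = 1` : `f 1 ≥ 0`); `∫_0^1 (3v-1)(1-v) dv = 0`, so
`3m - 1 = ∫ (3v-1) f ≥ 0`.
(b) case `r ≤ 2/3`.  `a = 2r/(2-r) ∈ [r,1]`, `X = (1-r/2)²` (so `X a = r(2-r)/2`, `X a² = r²`),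
`ψ v = (if v ≤ r then 1 else 0) - r(2-r) - X + 3 X v`.  Then (polynomial identities)
`∫_0^a ψ = 0`, `∫_0^a ψ v = 0`, `∫_a^1 ψ (1-v) = 0`.
Signs: on `[0,r]` `ψ` is affine increasing with `ψ 0 = -r + 3r²/4 ≤ 0`, `ψ r = (r/4)(8-9r+3r²) > 0`; let `v1 ∈ [0,r)` be its zero.
On `(r,1]` it is affine increasing with `ψ a = (2-r)(3r-2)/4 ≤ 0`, `ψ 1 = (2-r)(2-3r)/2 ≥ 0`; so `ψ ≤ 0` on `(r,a]`.
Let `ℓ` be the affine function with `ℓ v1 = f v1`, `ℓ r = f r`.  Concavity: `f ≤ ℓ` on `[0,v1]`, `f ≥ ℓ` on `[v1,r]`, `f ≤ ℓ` on `[r,1]`; so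
`ψ (f-ℓ) ≥ 0` on `[0,a]` and `∫_0^a ψ f ≥ ∫_0^a ψ ℓ = 0`.
On `[a,1]` (if `a < 1`, then `r < 2/3`, `ψ 1 > 0`): `vz ∈ [a,1)` the zero of the affine function; `R = f vz/(1-vz)`;
`ψ v (f v - R (1-v)) ≥ 0` on `(a,1]`, so `∫_a^1 ψ f ≥ R ∫_a^1 ψ (1-v) = 0`.
Sum: `0 ≤ ∫_0^1 ψ f = ∫_0^r f - r(2-r) - X + 3 X m`, which is the claim.
(b) case `r > 2/3`.  `X' = 2r(1-r)`, `ψ' v = (if v ≤ r then 1 else 0) - r(2-r) - X' + 3 X' v`; `∫_0^1 ψ' = 0`, `∫_0^1 ψ' v = 0`;
`ψ' 0 = (1-r)(1-3r) ≤ 0`, `ψ' r = (1-r)(1-3r+6r²) ≥ 0`, on `(r,1]` `ψ' ≤ ψ' 1 = r(2-3r) ≤ 0`.  As above (if `r < 1`; `v1` the zero in `[0,r]`;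
for `r = 1` the claim is `1 ≥ 1 - (3m-1)/4`) `∫_0^1 ψ' f ≥ 0`, i.e. `∫_0^r f ≥ r(2-r) - (3m-1) X'`; finally `X' ≤ (1-r/2)²` because
`(1-r/2)² - 2r(1-r) = (1-3r/2)²`, and `3m-1 ≥ 0`.
(When `v1 = r` would be needed: it is not, `ψ r > 0` resp. for `r<1`, `ψ' r > 0`.)
-/

open MeasureTheory Set Filter Topology Metric
open scoped ENNReal NNReal Pointwise

namespace Pool.Agent.Lib.MP_43065d_gt

private theorem onel2_conc {f : ℝ → ℝ} (hf : ConcaveOn ℝ (Icc 0 1) f) {x y z : ℝ} (hx : 0 ≤ x)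
    (hxy : x ≤ y) (hyz : y ≤ z) (hz : z ≤ 1) :
    (z - y) * f x + (y - x) * f z ≤ (z - x) * f y := by
  rcases eq_or_lt_of_le (hxy.trans hyz) with h | h
  · have e1 : y = x := le_antisymm (by linarith) hxy
    have e2 : z = x := h.symm
    rw [e1, e2]
    linarith
  have hpos : 0 < z - x := by linarith
  have h4 := hf.2 (⟨hx, by linarith⟩ : x ∈ Icc (0 : ℝ) 1) (⟨by linarith, hz⟩ : z ∈ Icc (0 : ℝ) 1)
    (div_nonneg (by linarith : (0 : ℝ) ≤ z - y) hpos.le)
    (div_nonneg (by linarith : (0 : ℝ) ≤ y - x) hpos.le)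
    (by rw [← add_div, div_eq_one_iff_eq hpos.ne']; ring)
  simp only [smul_eq_mul] at h4
  have e2 : (z - y) / (z - x) * x + (y - x) / (z - x) * z = y := by
    field_simp
    ring
  rw [e2] at h4
  have e3 : (z - y) / (z - x) * f x + (y - x) / (z - x) * f z =
      ((z - y) * f x + (y - x) * f z) / (z - x) := by ring
  rw [e3, div_le_iff₀ hpos] at h4
  linarith

private theorem onel2_ratio {f : ℝ → ℝ} (hf : ConcaveOn ℝ (Icc 0 1) f)
    (h0 : ∀ v ∈ Icc (0 : ℝ) 1, 0 ≤ f v) {v w : ℝ} (hv : 0 ≤ v) (hvw : v ≤ w) (hw : w ≤ 1) :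
    (1 - w) * f v ≤ (1 - v) * f w := by
  have h1 := onel2_conc hf hv hvw hw le_rfl
  have h2 : 0 ≤ (w - v) * f 1 := mul_nonneg (by linarith) (h0 1 ⟨by norm_num, le_rfl⟩)
  linarith

private theorem onel2_poly (a b c0 c1 c2 : ℝ) :
    ∫ v in a..b, (c0 + c1 * v + c2 * v ^ 2) =
      c0 * (b - a) + c1 * ((b ^ 2 - a ^ 2) / 2) + c2 * ((b ^ 3 - a ^ 3) / 3) := by
  have h : ∀ x ∈ uIcc a b, HasDerivAt (fun v : ℝ => c0 * v + c1 * (v ^ 2 / 2) + c2 * (v ^ 3 / 3))
      (c0 + c1 * x + c2 * x ^ 2) x := by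
    intro x _
    have h1 : HasDerivAt (fun v : ℝ => c0 * v) (c0 * 1) x := (hasDerivAt_id x).const_mul c0
    have h2 : HasDerivAt (fun v : ℝ => c1 * (v ^ 2 / 2)) (c1 * (((2 : ℕ) : ℝ) * x ^ (2 - 1) / 2)) x :=
      ((hasDerivAt_pow 2 x).div_const 2).const_mul c1
    have h3 : HasDerivAt (fun v : ℝ => c2 * (v ^ 3 / 3)) (c2 * (((3 : ℕ) : ℝ) * x ^ (3 - 1) / 3)) x :=
      ((hasDerivAt_pow 3 x).div_const 3).const_mul c2
    have h4 := (h1.add h2).add h3
    have e : c0 * 1 + c1 * (((2 : ℕ) : ℝ) * x ^ (2 - 1) / 2) +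
        c2 * (((3 : ℕ) : ℝ) * x ^ (3 - 1) / 3) = c0 + c1 * x + c2 * x ^ 2 := by
      push_cast
      ring
    rw [e] at h4
    exact h4
  rw [intervalIntegral.integral_eq_sub_of_hasDerivAt h
    (Continuous.intervalIntegrable (by fun_prop) _ _)]
  ring

private theorem onel2_sub {f : ℝ → ℝ} (hint : IntervalIntegrable f volume 0 1) {a b : ℝ}
    (ha : 0 ≤ a) (hab : a ≤ b) (hb : b ≤ 1) : IntervalIntegrable f volume a b := by
  refine hint.mono_set ?_
  rw [uIcc_of_le hab, uIcc_of_le (by norm_num : (0 : ℝ) ≤ 1)]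
  exact Icc_subset_Icc ha hb

private theorem onel2_int {f : ℝ → ℝ} {a b : ℝ} (h : IntervalIntegrable f volume a b)
    (c0 c1 : ℝ) : IntervalIntegrable (fun v => (c0 + c1 * v) * f v) volume a b :=
  h.continuousOn_mul (Continuous.continuousOn (by fun_prop))

/-- comparison of `(c0 + c1 v) f v` with `(c0 + c1 v) (p + q v)` -/
private theorem onel2_cmp {f : ℝ → ℝ} {a b : ℝ} (hab : a ≤ b) (h : IntervalIntegrable f volume a b)
    (c0 c1 p q : ℝ) (hs : ∀ v ∈ Icc a b, 0 ≤ (c0 + c1 * v) * (f v - (p + q * v))) :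
    c0 * p * (b - a) + (c0 * q + c1 * p) * ((b ^ 2 - a ^ 2) / 2) +
      c1 * q * ((b ^ 3 - a ^ 3) / 3) ≤ ∫ v in a..b, (c0 + c1 * v) * f v := by
  rw [← onel2_poly a b (c0 * p) (c0 * q + c1 * p) (c1 * q)]
  refine intervalIntegral.integral_mono_on hab (Continuous.intervalIntegrable (by fun_prop) _ _)
    (onel2_int h c0 c1) (fun v hv => ?_)
  have h1 := hs v hv
  nlinarith [h1]

/-- the part up to `a` -/
private theorem onel2_left {f : ℝ → ℝ} (hf : ConcaveOn ℝ (Icc 0 1) f)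
    (hint : IntervalIntegrable f volume 0 1) {r a α β : ℝ} (hr : 0 < r) (hra : r ≤ a)
    (ha : a ≤ 1) (h1 : 1 + α ≤ 0) (h2 : 0 < 1 + α + β * r) (h3 : α + β * a ≤ 0)
    (e1 : r + α * a + β * (a ^ 2 / 2) = 0) (e2 : r ^ 2 / 2 + α * (a ^ 2 / 2) + β * (a ^ 3 / 3) = 0) :
    0 ≤ (∫ v in (0 : ℝ)..r, f v) + ∫ v in (0 : ℝ)..a, (α + β * v) * f v := by
  have hβ : 0 < β := by
    by_contra hn
    have : β * r ≤ 0 := mul_nonpos_of_nonpos_of_nonneg (not_lt.1 hn) hr.le
    linarith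
  obtain ⟨v1, hv1⟩ : ∃ v1 : ℝ, 1 + α + β * v1 = 0 := ⟨-(1 + α) / β, by field_simp; ring⟩
  have hv10 : 0 ≤ v1 := by
    by_contra hn
    have : β * v1 < 0 := mul_neg_of_pos_of_neg hβ (not_le.1 hn)
    linarith
  have hv1r : v1 < r := by
    by_contra hn
    have : β * r ≤ β * v1 := mul_le_mul_of_nonneg_left (not_lt.1 hn) hβ.le
    linarith
  have hd : 0 < r - v1 := by linarith
  obtain ⟨q, hq⟩ : ∃ q : ℝ, q * (r - v1) = f r - f v1 :=
    ⟨(f r - f v1) / (r - v1), div_mul_cancel₀ _ hd.ne'⟩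
  obtain ⟨p, hp⟩ : ∃ p : ℝ, p + q * v1 = f v1 := ⟨f v1 - q * v1, by ring⟩
  have hp' : p + q * r = f r := by linarith
  have c1 : ∀ v ∈ Icc (0 : ℝ) v1, f v ≤ p + q * v := by
    intro v hv
    have h5 := onel2_conc hf hv.1 hv.2 hv1r.le (hra.trans ha)
    have h6 : (r - v1) * f v ≤ (r - v1) * (p + q * v) := by
      rw [← hp, ← hp'] at h5
      nlinarith [h5]
    exact le_of_mul_le_mul_left h6 hd
  have c2 : ∀ v ∈ Icc v1 r, p + q * v ≤ f v := by
    intro v hv
    have h5 := onel2_conc hf hv10 hv.1 hv.2 (hra.trans ha)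
    have h6 : (r - v1) * (p + q * v) ≤ (r - v1) * f v := by
      rw [← hp, ← hp'] at h5
      nlinarith [h5]
    exact le_of_mul_le_mul_left h6 hd
  have c3 : ∀ v ∈ Icc r 1, f v ≤ p + q * v := by
    intro v hv
    have h5 := onel2_conc hf hv10 hv1r.le hv.1 hv.2
    have h6 : (r - v1) * f v ≤ (r - v1) * (p + q * v) := by
      rw [← hp, ← hp'] at h5
      nlinarith [h5]
    exact le_of_mul_le_mul_left h6 hd
  have i1 := onel2_sub hint le_rfl hr.le (hra.trans ha)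
  have i2 := onel2_sub hint hr.le hra ha
  have m1 := onel2_cmp hr.le i1 (1 + α) β p q (by
    intro v hv
    rcases le_total v v1 with h | h
    · have h5 := c1 v ⟨hv.1, h⟩
      have h6 : 1 + α + β * v ≤ 0 := by
        have := mul_le_mul_of_nonneg_left h hβ.le
        linarith
      exact mul_nonneg_of_nonpos_of_nonpos h6 (by linarith)
    · have h5 := c2 v ⟨h, hv.2⟩
      have h6 : 0 ≤ 1 + α + β * v := by
        have := mul_le_mul_of_nonneg_left h hβ.le
        linarith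
      exact mul_nonneg h6 (by linarith))
  have m2 := onel2_cmp hra i2 α β p q (by
    intro v hv
    have h5 := c3 v ⟨hv.1, hv.2.trans ha⟩
    have h6 : α + β * v ≤ 0 := by
      have := mul_le_mul_of_nonneg_left hv.2 hβ.le
      linarith
    exact mul_nonneg_of_nonpos_of_nonpos h6 (by linarith))
  have s1 : ∫ v in (0 : ℝ)..r, (1 + α + β * v) * f v =
      (∫ v in (0 : ℝ)..r, f v) + ∫ v in (0 : ℝ)..r, (α + β * v) * f v := by
    rw [← intervalIntegral.integral_add i1 (onel2_int i1 α β)]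
    refine intervalIntegral.integral_congr (fun v _ => ?_)
    ring
  have s2 : (∫ v in (0 : ℝ)..r, (α + β * v) * f v) + ∫ v in r..a, (α + β * v) * f v =
      ∫ v in (0 : ℝ)..a, (α + β * v) * f v :=
    intervalIntegral.integral_add_adjacent_intervals (onel2_int i1 α β) (onel2_int i2 α β)
  rw [s1] at m1
  have key : (1 + α) * p * (r - 0) + ((1 + α) * q + β * p) * ((r ^ 2 - 0 ^ 2) / 2) +
      β * q * ((r ^ 3 - 0 ^ 3) / 3) + (α * p * (a - r) + (α * q + β * p) * ((a ^ 2 - r ^ 2) / 2) +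
      β * q * ((a ^ 3 - r ^ 3) / 3)) = 0 := by
    linear_combination p * e1 + q * e2
  linarith

/-- the part from `a` on -/
private theorem onel2_right {f : ℝ → ℝ} (hf : ConcaveOn ℝ (Icc 0 1) f)
    (h0 : ∀ v ∈ Icc (0 : ℝ) 1, 0 ≤ f v) (hint : IntervalIntegrable f volume 0 1) {a α β : ℝ}
    (ha0 : 0 ≤ a) (ha : a < 1) (h3 : α + β * a ≤ 0) (h4 : 0 < α + β)
    (e : (α + β) / 2 = β * (1 - a) / 3) :
    0 ≤ ∫ v in a..1, (α + β * v) * f v := by
  have hβ : 0 < β := by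
    by_contra hn
    have : β * (1 - a) ≤ 0 := mul_nonpos_of_nonpos_of_nonneg (not_lt.1 hn) (by linarith)
    linarith
  obtain ⟨vz, hvz⟩ : ∃ vz : ℝ, α + β * vz = 0 := ⟨-α / β, by field_simp; ring⟩
  have hvza : a ≤ vz := by
    by_contra hn
    have : β * vz < β * a := mul_lt_mul_of_pos_left (not_le.1 hn) hβ
    linarith
  have hvz1 : vz < 1 := by
    by_contra hn
    have : β * 1 ≤ β * vz := mul_le_mul_of_nonneg_left (not_lt.1 hn) hβ.le
    linarith
  have hd : 0 < 1 - vz := by linarith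
  obtain ⟨R, hR⟩ : ∃ R : ℝ, R * (1 - vz) = f vz := ⟨f vz / (1 - vz), div_mul_cancel₀ _ hd.ne'⟩
  have m := onel2_cmp ha.le (onel2_sub hint ha0 ha.le le_rfl) α β R (-R) (by
    intro v hv
    rcases le_total v vz with h | h
    · have h5 := onel2_ratio hf h0 (ha0.trans hv.1) h hvz1.le
      have h6 : α + β * v ≤ 0 := by
        have := mul_le_mul_of_nonneg_left h hβ.le
        linarith
      have h7 : (1 - vz) * f v ≤ (1 - vz) * (R + -R * v) := by
        rw [← hR] at h5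
        nlinarith [h5]
      have h8 := le_of_mul_le_mul_left h7 hd
      exact mul_nonneg_of_nonpos_of_nonpos h6 (by linarith)
    · have h5 := onel2_ratio hf h0 (ha0.trans hvza) h hv.2
      have h6 : 0 ≤ α + β * v := by
        have := mul_le_mul_of_nonneg_left h hβ.le
        linarith
      have h7 : (1 - vz) * (R + -R * v) ≤ (1 - vz) * f v := by
        rw [← hR] at h5
        nlinarith [h5]
      have h8 := le_of_mul_le_mul_left h7 hd
      exact mul_nonneg h6 (by linarith))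
  have key : α * R * (1 - a) + (α * -R + β * R) * ((1 ^ 2 - a ^ 2) / 2) +
      β * -R * ((1 ^ 3 - a ^ 3) / 3) = 0 := by
    linear_combination R * (1 - a) ^ 2 * e
  linarith

private theorem onel2_lin {f : ℝ → ℝ} (hint : IntervalIntegrable f volume 0 1)
    (h1 : ∫ v in (0 : ℝ)..1, f v = 1) (α β : ℝ) :
    ∫ v in (0 : ℝ)..1, (α + β * v) * f v = α + β * ∫ v in (0 : ℝ)..1, v * f v := by
  have i1 : IntervalIntegrable (fun v => v * f v) volume 0 1 :=
    hint.continuousOn_mul (Continuous.continuousOn (by fun_prop))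
  have e : ∫ v in (0 : ℝ)..1, (α + β * v) * f v =
      ∫ v in (0 : ℝ)..1, (α * f v + β * (v * f v)) :=
    intervalIntegral.integral_congr (fun v _ => by ring)
  rw [e, intervalIntegral.integral_add (hint.const_mul α) (i1.const_mul β),
    intervalIntegral.integral_const_mul, intervalIntegral.integral_const_mul, h1, mul_one]

theorem one_mean_ge {f : ℝ → ℝ} (hf : ConcaveOn ℝ (Icc 0 1) f) (h0 : ∀ v ∈ Icc (0 : ℝ) 1, 0 ≤ f v)
    (hint : IntervalIntegrable f volume 0 1) (h1 : ∫ v in (0 : ℝ)..1, f v = 1) :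
    1 ≤ 3 * ∫ v in (0 : ℝ)..1, v * f v := by
  have hm := onel2_cmp (f := f) (by norm_num : (0 : ℝ) ≤ 1) hint (-1) 3 (3 / 2 * f (1 / 3))
    (-(3 / 2 * f (1 / 3))) (by
    intro v hv
    rcases le_total v (1 / 3) with h | h
    · have h5 := onel2_ratio hf h0 hv.1 h (by norm_num)
      exact mul_nonneg_of_nonpos_of_nonpos (by linarith) (by linarith)
    · have h5 := onel2_ratio hf h0 (by norm_num : (0 : ℝ) ≤ 1 / 3) h hv.2
      exact mul_nonneg (by linarith) (by linarith))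
  rw [onel2_lin hint h1] at hm
  linarith

theorem one_l2 {f : ℝ → ℝ} (hf : ConcaveOn ℝ (Icc 0 1) f) (h0 : ∀ v ∈ Icc (0 : ℝ) 1, 0 ≤ f v)
    (hint : IntervalIntegrable f volume 0 1) (h1 : ∫ v in (0 : ℝ)..1, f v = 1) {r : ℝ}
    (hr : 0 < r) (hr1 : r ≤ 1) :
    r * (2 - r) - (3 * (∫ v in (0 : ℝ)..1, v * f v) - 1) * (1 - r / 2) ^ 2 ≤
      ∫ v in (0 : ℝ)..r, f v := by
  have hm := one_mean_ge hf h0 hint h1
  have hlin := onel2_lin hint h1
  set m := ∫ v in (0 : ℝ)..1, v * f v with hmdef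
  rcases le_or_gt r (2 / 3) with hc | hc
  · -- `r ≤ 2/3`
    have h2r : 0 < 2 - r := by linarith
    obtain ⟨a, ha⟩ : ∃ a : ℝ, a * (2 - r) = 2 * r := ⟨2 * r / (2 - r), div_mul_cancel₀ _ h2r.ne'⟩
    have har : r ≤ a := by
      refine le_of_mul_le_mul_right ?_ h2r
      rw [ha]
      nlinarith
    have ha1 : a ≤ 1 := by
      refine le_of_mul_le_mul_right ?_ h2r
      rw [ha]
      linarith
    have x1 : (1 - r / 2) ^ 2 * a = r * (2 - r) / 2 := by
      linear_combination (2 - r) / 4 * ha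
    have x2 : (1 - r / 2) ^ 2 * a ^ 2 = r ^ 2 := by
      linear_combination (a * (2 - r) + 2 * r) / 4 * ha
    have l := onel2_left hf hint (r := r) (a := a) (α := -(r * (2 - r)) - (1 - r / 2) ^ 2)
      (β := 3 * (1 - r / 2) ^ 2) hr har ha1 (by nlinarith) (by
        have e : 1 + (-(r * (2 - r)) - (1 - r / 2) ^ 2) + 3 * (1 - r / 2) ^ 2 * r =
          r / 4 * (8 - 9 * r + 3 * r ^ 2) := by ring
        rw [e]
        have : 0 < 8 - 9 * r + 3 * r ^ 2 := by nlinarith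
        positivity)
      (by
        have e : -(r * (2 - r)) - (1 - r / 2) ^ 2 + 3 * (1 - r / 2) ^ 2 * a =
          (2 - r) * (3 * r - 2) / 4 := by linear_combination 3 * x1
        rw [e]
        nlinarith)
      (by linear_combination (-r) * ha - x1 + 3 / 2 * x2)
      (by linear_combination (-(r * a) / 2) * ha - x2 / 2 + a * x2)
    rcases eq_or_lt_of_le ha1 with hae | hal
    · rw [hae, hlin] at l
      linarith
    · have hr23 : r < 2 / 3 := by
        by_contra hn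
        have e : r = 2 / 3 := le_antisymm hc (not_lt.1 hn)
        rw [e] at ha
        linarith
      have rr := onel2_right hf h0 hint (a := a) (α := -(r * (2 - r)) - (1 - r / 2) ^ 2)
        (β := 3 * (1 - r / 2) ^ 2) (hr.le.trans har) hal (by
        have e : -(r * (2 - r)) - (1 - r / 2) ^ 2 + 3 * (1 - r / 2) ^ 2 * a =
          (2 - r) * (3 * r - 2) / 4 := by linear_combination 3 * x1
        rw [e]
        nlinarith) (by
        have e : -(r * (2 - r)) - (1 - r / 2) ^ 2 + 3 * (1 - r / 2) ^ 2 =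
          (2 - r) * (2 - 3 * r) / 2 := by ring
        rw [e]
        have : 0 < 2 - 3 * r := by linarith
        positivity) (by linear_combination x1)
      have i1 := onel2_int (onel2_sub hint le_rfl (hr.le.trans har) ha1)
        (-(r * (2 - r)) - (1 - r / 2) ^ 2) (3 * (1 - r / 2) ^ 2)
      have i2 := onel2_int (onel2_sub hint (hr.le.trans har) ha1 le_rfl)
        (-(r * (2 - r)) - (1 - r / 2) ^ 2) (3 * (1 - r / 2) ^ 2)
      have s := intervalIntegral.integral_add_adjacent_intervals i1 i2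
      rw [hlin] at s
      linarith
  · rcases eq_or_lt_of_le hr1 with he | hlt
    · rw [he, h1]
      linarith
    · have l := onel2_left hf hint (r := r) (a := 1) (α := -(r * (2 - r)) - 2 * r * (1 - r))
        (β := 3 * (2 * r * (1 - r))) hr hr1 le_rfl (by
          have e : 1 + (-(r * (2 - r)) - 2 * r * (1 - r)) = (1 - r) * (1 - 3 * r) := by ring
          rw [e]
          exact mul_nonpos_of_nonneg_of_nonpos (by linarith) (by linarith)) (by
          have e : 1 + (-(r * (2 - r)) - 2 * r * (1 - r)) + 3 * (2 * r * (1 - r)) * r =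
            (1 - r) * (1 - 3 * r + 6 * r ^ 2) := by ring
          rw [e]
          exact mul_pos (by linarith) (by nlinarith)) (by
          have e : -(r * (2 - r)) - 2 * r * (1 - r) + 3 * (2 * r * (1 - r)) * 1 =
            r * (2 - 3 * r) := by ring
          rw [e]
          exact mul_nonpos_of_nonneg_of_nonpos hr.le (by linarith))
        (by ring) (by ring)
      rw [hlin] at l
      have hX : 2 * r * (1 - r) ≤ (1 - r / 2) ^ 2 := by nlinarith [sq_nonneg (1 - 3 * r / 2)]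
      have h5 : (3 * m - 1) * (2 * r * (1 - r)) ≤ (3 * m - 1) * (1 - r / 2) ^ 2 :=
        mul_le_mul_of_nonneg_left hX (by linarith)
      linarith

end Pool.Agent.Lib.MP_43065d_gt
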