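import Pool.Agent.Lib.MP_43065d_gt.Pl.EdgeK
import Pool.Agent.Lib.MP_43065d_gt.Pl.EdgeC
import Pool.Agent.Lib.MP_43065d_gt.Pl.OneL2
import Pool.Agent.Lib.MP_43065d_gt.Pl.DLem

/-!
# Module EdgeJ (E3): the gain of an edge

PROOF.  `d_lemma` with `c = eC`, `h = eH`, `m = a / eW = ∫ u eF u` (`edge_fn`), `Φ r = ∫_0^r eF`: hypotheses `edge_C_pos`, `edge_C_le`, `edge_H_pos`, `one_mean_ge`, `edge_K`, `Φ 1 = 1`, `one_l2`.
-/

open MeasureTheory Set Filter Topology Metric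
open scoped ENNReal NNReal Pointwise

namespace Pool.Agent.Lib.MP_43065d_gt

variable {F L : Set E2} {x : ℝ} {n : E2} {a : ℝ}

theorem edge_J (h : PN F L x) (g : GEdge F L n a) :
    ∃ r ∈ Ioc (0 : ℝ) 1, 1 + 10 / 3 * eC F L x n a ^ 2 < eJ F L x n a r := by
  obtain ⟨hc, h0, hint, h1, hm⟩ := edge_fn h g
  have hmm := one_mean_ge hc h0 hint h1
  rw [hm] at hmm
  refine d_lemma (Φ := fun r => ∫ u in (0 : ℝ)..r, eF F n a u) (edge_C_pos h g)
    (edge_C_le h g) (edge_H_pos h g) (m := a / eW F n a) hmm (edge_K h g) h1 ?_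
  intro r hr
  have h2 := one_l2 hc h0 hint h1 hr.1 hr.2
  rw [hm] at h2
  exact h2

end Pool.Agent.Lib.MP_43065d_gt
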