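import Pool.Agent.Lib.MP_43065d_gt.Pl.PDefs

/-!
# Module OneK (lemma L1): first moment of a concave function

PROOF of `one_k` (`H > 0`, the case `H = 0` is trivial).  Put `u0 = 2H/3`, `l u = c + (g u0 - c) * u / u0`.
For `u ∈ [0,u0]` concavity (`u = (1-u/u0)*0 + (u/u0)*u0`) gives `g u ≥ (1-u/u0) g 0 + (u/u0) g u0 ≥ l u`.
For `u ∈ [u0,H]`: `u0 = (1-u0/u)*0 + (u0/u)*u`, so `g u0 ≥ (1-u0/u) g 0 + (u0/u) g u`, i.e.
`g u ≤ (u/u0) g u0 - (u/u0-1) g 0 ≤ (u/u0) g u0 - (u/u0-1) c = l u`.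
So `(u0-u) * (g u - l u) ≥ 0` on `[0,H]`; integrate.  `∫ (u0-u) l u = c H²/6` because
`∫_0^H (u0-u) = u0 H - H²/2 = H²/6` and `∫_0^H (u0-u) u = u0 H²/2 - H³/3 = 0`.
PROOF of `one_k'`: `(2/3) H m - c H²/6 = (2/3) m²/c - (c/6)(H - 2m/c)²` with `m = ∫_0^H g`.
-/

open MeasureTheory Set Filter Topology Metric
open scoped ENNReal NNReal Pointwise

namespace Pool.Agent.Lib.MP_43065d_gt

theorem one_k {H c : ℝ} {g : ℝ → ℝ} (hH : 0 ≤ H) (hg : ConcaveOn ℝ (Icc 0 H) g)
    (hint : IntervalIntegrable g volume 0 H) (hc : c ≤ g 0) :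
    ∫ u in (0 : ℝ)..H, u * g u ≤ 2 / 3 * H * (∫ u in (0 : ℝ)..H, g u) - c * H ^ 2 / 6 := by
  rcases hH.eq_or_lt with h0 | h0
  · subst h0
    simp
  set u0 : ℝ := 2 * H / 3 with hu0
  have hu0p : 0 < u0 := by positivity
  have hu0H : u0 ≤ H := by rw [hu0]; linarith
  set k : ℝ := (g u0 - c) / u0 with hk
  have hku : k * u0 = g u0 - c := by rw [hk]; field_simp
  have m0 : (0 : ℝ) ∈ Icc 0 H := ⟨le_rfl, hH⟩
  have m1 : u0 ∈ Icc 0 H := ⟨hu0p.le, hu0H⟩
  have key : ∀ u ∈ Icc 0 H, (u0 - u) * (c + k * u) ≤ (u0 - u) * g u := by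
    intro u hu
    rcases le_total u u0 with h | h
    · have hw0 : 0 ≤ u / u0 := div_nonneg hu.1 hu0p.le
      have hw1 : u / u0 ≤ 1 := (div_le_one hu0p).2 h
      have h1 := hg.2 m0 m1 (show 0 ≤ 1 - u / u0 by linarith) hw0 (by ring)
      simp only [smul_eq_mul, mul_zero, zero_add] at h1
      rw [div_mul_cancel₀ u hu0p.ne'] at h1
      have h2 : c + k * u ≤ g u := by
        have h3 : k * u = (u / u0) * (g u0 - c) := by rw [← hku]; field_simp
        rw [h3]
        nlinarith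
      exact mul_le_mul_of_nonneg_left h2 (by linarith)
    · have hup : 0 < u := lt_of_lt_of_le hu0p h
      have hw0 : 0 ≤ u0 / u := div_nonneg hu0p.le hup.le
      have hw1 : u0 / u ≤ 1 := (div_le_one hup).2 h
      have h1 := hg.2 m0 hu (show 0 ≤ 1 - u0 / u by linarith) hw0 (by ring)
      simp only [smul_eq_mul, mul_zero, zero_add] at h1
      rw [div_mul_cancel₀ u0 hup.ne'] at h1
      have h2 : g u ≤ c + k * u := by
        have h3 : u0 / u * g u ≤ g u0 - (1 - u0 / u) * c := by nlinarith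
        have h4 : u0 * g u ≤ u * g u0 - (u - u0) * c := by
          have h5 := mul_le_mul_of_nonneg_left h3 hup.le
          have e1 : u * (u0 / u * g u) = u0 * g u := by field_simp
          have e2 : u * (g u0 - (1 - u0 / u) * c) = u * g u0 - (u - u0) * c := by field_simp
          rwa [e1, e2] at h5
        have h6 : u0 * g u ≤ u0 * (c + k * u) := by
          have e3 : u0 * (c + k * u) = u0 * c + (k * u0) * u := by ring
          rw [e3, hku]
          linarith
        exact le_of_mul_le_mul_left h6 hu0p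
      nlinarith
  have hi1 : IntervalIntegrable (fun u => u * g u) volume 0 H :=
    hint.continuousOn_mul continuousOn_id
  have hi2 : IntervalIntegrable (fun u => (u0 - u) * g u) volume 0 H :=
    hint.continuousOn_mul (by fun_prop)
  have hi3 : IntervalIntegrable (fun u => (u0 - u) * (c + k * u)) volume 0 H :=
    (by fun_prop : Continuous fun u : ℝ => (u0 - u) * (c + k * u)).intervalIntegrable _ _
  have h1 := intervalIntegral.integral_mono_on hH hi3 hi2 key
  have h2 : ∫ u in (0 : ℝ)..H, (u0 - u) * (c + k * u) = c * H ^ 2 / 6 := by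
    have hd : ∀ u ∈ uIcc 0 H, HasDerivAt
        (fun u : ℝ => u0 * c * u + (k * u0 - c) * (u ^ 2 / 2) - k * (u ^ 3 / 3))
        ((u0 - u) * (c + k * u)) u := by
      intro u _
      have e1 : HasDerivAt (fun u : ℝ => u ^ 2 / 2) u u :=
        ((hasDerivAt_pow 2 u).div_const 2).congr_deriv (by norm_num)
      have e2 : HasDerivAt (fun u : ℝ => u ^ 3 / 3) (u ^ 2) u :=
        ((hasDerivAt_pow 3 u).div_const 3).congr_deriv (by norm_num)
      have e3 := (((hasDerivAt_id u).const_mul (u0 * c)).add (e1.const_mul (k * u0 - c))).sub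
        (e2.const_mul k)
      exact e3.congr_deriv (by ring)
    rw [intervalIntegral.integral_eq_sub_of_hasDerivAt hd hi3]
    simp only [hu0]
    ring
  have h3 : ∫ u in (0 : ℝ)..H, (u0 - u) * g u =
      u0 * (∫ u in (0 : ℝ)..H, g u) - ∫ u in (0 : ℝ)..H, u * g u := by
    rw [← intervalIntegral.integral_const_mul, ← intervalIntegral.integral_sub
      (hint.const_mul u0) hi1]
    refine intervalIntegral.integral_congr fun u _ => ?_
    ring
  rw [h2, h3] at h1
  have e4 : u0 = 2 / 3 * H := by rw [hu0]; ring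
  rw [e4] at h1
  linarith

theorem one_k' {H c : ℝ} {g : ℝ → ℝ} (hH : 0 ≤ H) (hg : ConcaveOn ℝ (Icc 0 H) g)
    (hint : IntervalIntegrable g volume 0 H) (hc0 : 0 < c) (hc : c ≤ g 0) :
    ∫ u in (0 : ℝ)..H, u * g u ≤ 2 / 3 * (∫ u in (0 : ℝ)..H, g u) ^ 2 / c := by
  refine (one_k hH hg hint hc).trans ?_
  set m := ∫ u in (0 : ℝ)..H, g u
  rw [le_div_iff₀ hc0]
  nlinarith [sq_nonneg (c * H - 2 * m)]

end Pool.Agent.Lib.MP_43065d_gt
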