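import Pool.Agent.Lib.MP_43065d_gt.Pl.EdgeFn
import Pool.Agent.Lib.MP_43065d_gt.Pl.OneK

/-!
# Module EdgeK (E1): height of `G` against its centroid

PROOF.  `H = a - lo n G > a > 0`, `G = F ∩ L` compact convex, `c = sec n L a = sec n G a` (`edge_secG`), `W = eW F n a`.  `one_k` for `g u = sec n G (a-u)` on `[0,H]` (concave: `sec_concave`,
`hi n G = a`), `g 0 = c`: `∫_0^H u g u = ∫_G (a - inner n y) = a x²` (`integral_sec`, `volG`, `momG`), `∫_0^H g = x²`:
`a x² ≤ (2/3) H x² - c H²/6`.  Multiply by `3/(x² W)` and insert `H = 2xW hh`, `c = 2x ch/W` (`hh = eH`, `ch = eC`):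
`3a/W ≤ 2x (2hh - 2 ch hh²)`.  The left side is positive and `2x ≤ 1`, so `3a/W ≤ 2hh - 2ch hh²`.
-/

open MeasureTheory Set Filter Topology Metric
open scoped ENNReal NNReal Pointwise

namespace Pool.Agent.Lib.MP_43065d_gt

variable {F L : Set E2} {x : ℝ} {n : E2} {a : ℝ}

theorem edge_H_pos (h : PN F L x) (g : GEdge F L n a) : 0 < eH F L x n a := by
  have hW := edge_W_pos h g
  have hlo := edge_loG h g
  have hx := h.x_pos
  have ha := g.pos
  unfold eH
  exact div_pos (by linarith) (by positivity)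

theorem edge_K (h : PN F L x) (g : GEdge F L n a) :
    3 * (a / eW F n a) ≤ 2 * eH F L x n a - 2 * eC F L x n a * eH F L x n a ^ 2 := by
  have hn := g.unit
  have hW := edge_W_pos h g
  have hlo := edge_loG h g
  have hx := h.x_pos
  have hx2 := h.x_le
  have ha := g.pos
  have hhi := edge_hiG h g
  have hcpt : IsCompact (F ∩ L) := h.cptF.inter_right h.closedL
  have hcv : Convex ℝ (F ∩ L) := h.convF.inter h.convL
  set G : Set E2 := F ∩ L with hG
  set W : ℝ := eW F n a with hWd
  set H : ℝ := a - lo n G with hH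
  have hH0 : 0 < H := by rw [hH]; linarith
  -- the concave function
  have hconc : ConcaveOn ℝ (Icc 0 H) (fun u => sec n G (a - u)) := by
    have h1 := sec_concave hn hcv hcpt
    rw [hhi] at h1
    refine ⟨convex_Icc _ _, ?_⟩
    intro u hu v hv α β hα hβ hαβ
    have hu' : a - u ∈ Icc (lo n G) a := ⟨by rw [hH] at hu; linarith [hu.2], by linarith [hu.1]⟩
    have hv' : a - v ∈ Icc (lo n G) a := ⟨by rw [hH] at hv; linarith [hv.2], by linarith [hv.1]⟩
    have h2 := h1.2 hu' hv' hα hβ hαβ
    have h3 : α • (a - u) + β • (a - v) = a - (α • u + β • v) := by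
      simp only [smul_eq_mul]
      have : a = (α + β) * a := by rw [hαβ, one_mul]
      linear_combination this.symm
    rw [h3] at h2
    exact h2
  have hint : IntervalIntegrable (fun u => sec n G (a - u)) volume 0 H :=
    ((integrable_sec hn hcpt).comp_sub_left a).intervalIntegrable
  have hc : sec n L a ≤ (fun u => sec n G (a - u)) 0 := by
    simp only [sub_zero]
    rw [edge_secG h g]
  have hk := one_k hH0.le hconc hint hc
  -- the two integrals
  have hsub : a - H = lo n G := by rw [hH]; ring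
  have e1 : ∫ u in (0 : ℝ)..H, u * sec n G (a - u) = a * x ^ 2 := by
    have e2 : ∫ u in (0 : ℝ)..H, u * sec n G (a - u) =
        ∫ s in (lo n G)..a, (a - s) * sec n G s := by
      have e3 := intervalIntegral.integral_comp_sub_left (a := 0) (b := H)
        (fun s => (a - s) * sec n G s) a
      rw [hsub, sub_zero] at e3
      rw [← e3]
      refine intervalIntegral.integral_congr fun u _ => ?_
      simp only [sub_sub_cancel]
    have e4 := integral_sec hn hcpt (φ := fun s => a - s) (by fun_prop)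
    rw [hhi] at e4
    rw [e2, ← e4]
    have hi1 : IntegrableOn (fun y : E2 => (inner ℝ n y : ℝ)) G volume :=
      (continuous_const.inner continuous_id).continuousOn.integrableOn_compact hcpt
    have hi2 : IntegrableOn (fun _ : E2 => a) G volume :=
      continuousOn_const.integrableOn_compact hcpt
    rw [integral_sub hi2 hi1, h.momG n, setIntegral_const, h.volG, smul_eq_mul]
    ring
  have e5 : ∫ u in (0 : ℝ)..H, sec n G (a - u) = x ^ 2 := by
    have e3 := intervalIntegral.integral_comp_sub_left (a := 0) (b := H) (fun s => sec n G s) a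
    rw [hsub, sub_zero] at e3
    rw [e3]
    have e4 := volume_real_sec hn hcpt
    rw [hhi, h.volG] at e4
    exact e4.symm
  rw [e1, e5] at hk
  -- algebra
  obtain ⟨hh, hhd⟩ : ∃ hh, hh = eH F L x n a := ⟨_, rfl⟩
  obtain ⟨ch, chd⟩ : ∃ ch, ch = eC F L x n a := ⟨_, rfl⟩
  obtain ⟨c, hcd⟩ : ∃ c, c = sec n L a := ⟨_, rfl⟩
  have hHh : H = 2 * x * W * hh := by
    rw [hhd]
    unfold eH
    rw [← hG, ← hWd, ← hH]
    field_simp
  have hcc : c * W = 2 * x * ch := by
    rw [chd]
    unfold eC
    rw [← hWd, ← hcd]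
    field_simp
  rw [← hhd, ← chd]
  rw [← hcd] at hk
  have hx0 : x ≠ 0 := hx.ne'
  have hW0 : W ≠ 0 := hW.ne'
  -- `3 a ≤ 2 x W (2 hh - 2 ch hh ^ 2)`
  have key : 3 * a ≤ 2 * x * W * (2 * hh - 2 * ch * hh ^ 2) := by
    have h1 : c * H ^ 2 / 6 = x ^ 2 * (2 * x * W * (2 * ch * hh ^ 2) / 3) := by
      have h2 : c * H ^ 2 = (c * W) * (4 * x ^ 2 * W * hh ^ 2) := by rw [hHh]; ring
      rw [h2, hcc]
      ring
    have h3 : 2 / 3 * H * x ^ 2 = x ^ 2 * (2 * x * W * (2 * hh) / 3) := by rw [hHh]; ring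
    rw [h1, h3] at hk
    have h4 : x ^ 2 * a ≤ x ^ 2 * (2 * x * W * (2 * hh - 2 * ch * hh ^ 2) / 3) := by
      calc x ^ 2 * a = a * x ^ 2 := mul_comm _ _
        _ ≤ _ := hk
        _ = _ := by ring
    have h5 := le_of_mul_le_mul_left h4 (by positivity)
    linarith
  have hpos : 0 < 2 * hh - 2 * ch * hh ^ 2 := by
    have h1 : 0 < 2 * x * W * (2 * hh - 2 * ch * hh ^ 2) := lt_of_lt_of_le (by positivity) key
    exact (mul_pos_iff_of_pos_left (by positivity)).1 h1
  rw [← mul_div_assoc, div_le_iff₀ hW]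
  refine key.trans ?_
  have h1 : 2 * x * W * (2 * hh - 2 * ch * hh ^ 2) =
      2 * x * ((2 * hh - 2 * ch * hh ^ 2) * W) := by ring
  rw [h1]
  exact mul_le_of_le_one_left (by positivity) (by linarith)

end Pool.Agent.Lib.MP_43065d_gt
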