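import Pool.Agent.Lib.MP_43065d_gt.Pl.SecFub
import Pool.Agent.Lib.MP_43065d_gt.Pl.IntZero

/-!
# Module SuppUniq (P4): uniqueness of the support line at an inner point of an edge

PROOF.  Let `ρ` be as in `e.edge`.  `inner n' (±ρ • rot n) ≤ 0`, so `inner n' (rot n) = 0`; with `coord` (applied to `n'`): `n' = (inner n n') • n`, so `n' = ± n`
(norm one).  `0 ∈ interior F` gives `0 < inner n y` and `0 < inner n' y` (a ball around `0` is in `F`), so `n' = n`.
-/

open MeasureTheory Set Filter Topology Metric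
open scoped ENNReal NNReal Pointwise

namespace Pool.Agent.Lib.MP_43065d_gt

theorem inner_pos_of_supp {F L : Set E2} {x : ℝ} (h : PN F L x) {n y : E2} (hn : ‖n‖ = 1)
    (hs : ∀ z ∈ F, inner ℝ n z ≤ inner ℝ n y) : 0 < inner ℝ n y := by
  obtain ⟨ε, hε, hball⟩ := Metric.isOpen_iff.1 isOpen_interior 0 (zero_intF h)
  have hmem : (ε / 2) • n ∈ F := by
    apply interior_subset
    apply hball
    rw [mem_ball_zero_iff, norm_smul, hn, mul_one, Real.norm_eq_abs, abs_of_pos (half_pos hε)]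
    exact half_lt_self hε
  have h1 := hs _ hmem
  rw [inner_smul_right, real_inner_self_eq_norm_sq, hn, one_pow, mul_one] at h1
  exact lt_of_lt_of_le (half_pos hε) h1

theorem supp_unique {F L : Set E2} {x : ℝ} (h : PN F L x) {n y n' : E2} (e : EdgeAt F L n y)
    (hn' : ‖n'‖ = 1) (hs : ∀ z ∈ F, inner ℝ n' z ≤ inner ℝ n' y) : n' = n := by
  obtain ⟨ρ, hρ, h1, h2⟩ : ∃ t : ℝ, 0 < t ∧ y + t • rot n ∈ F ∧ y - t • rot n ∈ F := by
    obtain ⟨ρ, hρ, h1, h2⟩ := e.edge
    first
    | exact ⟨ρ, hρ, h1, h2⟩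
    | exact ⟨(ρ : ℝ), by exact_mod_cast hρ, by rwa [Nat.cast_smul_eq_nsmul],
        by rwa [Nat.cast_smul_eq_nsmul]⟩
  have h3 := hs _ h1
  have h4 := hs _ h2
  rw [inner_add_right, inner_smul_right] at h3
  rw [inner_sub_right, inner_smul_right] at h4
  have h5 : inner ℝ n' (rot n) = 0 := by
    apply le_antisymm
    · by_contra hc
      have := mul_pos hρ (not_le.1 hc)
      linarith
    · by_contra hc
      have := mul_neg_of_pos_of_neg hρ (not_le.1 hc)
      linarith
  have h6 := coord e.unit n'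
  rw [real_inner_comm n' (rot n), h5, zero_smul, add_zero] at h6
  have h7 := inner_pos_of_supp h e.unit e.supp
  have h8 := inner_pos_of_supp h hn' hs
  have h9 : ‖n'‖ = |inner ℝ n n'| := by
    conv_lhs => rw [h6]
    rw [norm_smul, e.unit, mul_one, Real.norm_eq_abs]
  rw [hn'] at h9
  have h10 : 0 < inner ℝ n n' := by
    by_contra hc
    rw [h6, inner_smul_left] at h8
    have : (inner ℝ n n') * inner ℝ n y ≤ 0 :=
      mul_nonpos_of_nonpos_of_nonneg (not_lt.1 hc) h7.le
    exact absurd h8 (not_lt.2 this)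
  rw [abs_of_pos h10] at h9
  rw [h6, ← h9, one_smul]

end Pool.Agent.Lib.MP_43065d_gt
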