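import Pool.Agent.Lib.MP_43065d_gt.Pl.Straight
import Pool.Agent.Lib.MP_43065d_gt.Pl.SuppUniq

/-!
# Module EdgeOf: from `EdgeAt` to `GEdge`, exit points

PROOF of `exit_point`.  `T = {t ∈ [0,1] | y + t • (z - y) ∈ F}` is a compact interval `[0,t*]` (`F` convex compact, `y ∈ F`, `z ∉ F`), `t* < 1`, `E = y + t* • (z-y)` is in
`frontier F` (points just after are not in `F`).  `y ∈ interior L`, `z ∈ L` and `t* < 1`: `E ∈ interior L` (`Convex.add_smul_sub_mem_interior` type lemma).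
PROOF of `gedge_of_edgeAt`, `a = inner n y`: `unit`, `le` clear; `pos` is `inner_pos_of_supp`; `ex`: `y`.  `chord`: let `z ∈ L`, `inner n z = a`, `z ∉ F`.  `exit_point` (from `y`): `E = y + t • (z-y)`,
`E ∈ frontier F ∩ interior L`, and `y + s • (z-y) ∉ F` for `s > t`.  `straight`: `EdgeAt F L n' E`.  `n` supports `F` at `E` (`inner n E = a`), so `n = n'` by
`supp_unique`, and `E ± ρ • rot n ∈ F`.  `z - y` is orthogonal to `n`, so it is a nonzero multiple of `rot n` (`coord`), and `E + small • (z-y) ∈ F`, contradiction.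
`len`: for small `ρ' > 0` the points `y ± ρ' • rot n` are in `F ∩ L` (`edge`, `int`), all points of `L` on the line are in `F` (bounded), so the section of `L` at `a` contains an interval
of length `2ρ'` and has finite length.
-/

open MeasureTheory Set Filter Topology Metric
open scoped ENNReal NNReal Pointwise

namespace Pool.Agent.Lib.MP_43065d_gt

private theorem EdgeOf_seg {F : Set E2} (hF : Convex ℝ F) {E v : E2} {ρ τ : ℝ} (hρ : 0 < ρ)
    (h1 : E + ρ • v ∈ F) (h2 : E - ρ • v ∈ F) (hτ : |τ| ≤ ρ) : E + τ • v ∈ F := by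
  obtain ⟨h3, h4⟩ := abs_le.1 hτ
  have h5 := hF h1 h2 (a := (ρ + τ) / (2 * ρ)) (b := (ρ - τ) / (2 * ρ))
    (div_nonneg (by linarith) (by linarith)) (div_nonneg (by linarith) (by linarith))
    (by field_simp; ring)
  have h6 : ((ρ + τ) / (2 * ρ)) • (E + ρ • v) + ((ρ - τ) / (2 * ρ)) • (E - ρ • v) =
      E + τ • v := by
    have e1 : (ρ + τ) / (2 * ρ) + (ρ - τ) / (2 * ρ) = 1 := by field_simp; ring
    have e2 : (ρ + τ) / (2 * ρ) * ρ - (ρ - τ) / (2 * ρ) * ρ = τ := by field_simp; ring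
    calc ((ρ + τ) / (2 * ρ)) • (E + ρ • v) + ((ρ - τ) / (2 * ρ)) • (E - ρ • v)
        = ((ρ + τ) / (2 * ρ) + (ρ - τ) / (2 * ρ)) • E +
          ((ρ + τ) / (2 * ρ) * ρ - (ρ - τ) / (2 * ρ) * ρ) • v := by module
      _ = E + τ • v := by rw [e1, e2, one_smul]
  rwa [h6] at h5

theorem exit_point {F L : Set E2} {x : ℝ} (h : PN F L x) {y z : E2} (hyF : y ∈ F)
    (hyL : y ∈ interior L) (hzL : z ∈ L) (hzF : z ∉ F) :
    ∃ t : ℝ, 0 ≤ t ∧ t < 1 ∧ y + t • (z - y) ∈ frontier F ∧ y + t • (z - y) ∈ interior L ∧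
      ∀ s : ℝ, t < s → s ≤ 1 → y + s • (z - y) ∉ F := by
  have hcont : Continuous fun t : ℝ => y + t • (z - y) := by fun_prop
  have hclosed : IsClosed F := h.cptF.isClosed
  obtain ⟨T, hT⟩ : ∃ T : Set ℝ, T = Icc 0 1 ∩ (fun t : ℝ => y + t • (z - y)) ⁻¹' F := ⟨_, rfl⟩
  have hTc : IsCompact T := by
    rw [hT]
    exact isCompact_Icc.inter_right (hclosed.preimage hcont)
  have hT0 : (0 : ℝ) ∈ T := by
    rw [hT]
    refine ⟨⟨le_rfl, zero_le_one⟩, ?_⟩
    rw [mem_preimage, zero_smul, add_zero]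
    exact hyF
  have hm : sSup T ∈ T := hTc.sSup_mem ⟨0, hT0⟩
  have hle : ∀ s ∈ T, s ≤ sSup T := fun s hs => le_csSup hTc.bddAbove hs
  obtain ⟨t, ht⟩ : ∃ t : ℝ, t = sSup T := ⟨_, rfl⟩
  rw [← ht] at hm hle
  rw [hT] at hm
  have h0 : 0 ≤ t := hm.1.1
  have hF : y + t • (z - y) ∈ F := hm.2
  have h1 : t < 1 := by
    refine lt_of_le_of_ne hm.1.2 fun h1 => hzF ?_
    rw [h1, one_smul, add_sub_cancel] at hF
    exact hF
  have hnot : ∀ s : ℝ, t < s → s ≤ 1 → y + s • (z - y) ∉ F := by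
    intro s hs hs1 hsF
    have h2 : s ∈ T := by
      rw [hT]
      exact ⟨⟨h0.trans hs.le, hs1⟩, hsF⟩
    exact absurd (hle s h2) (not_le.2 hs)
  refine ⟨t, h0, h1, ?_, ?_, hnot⟩
  · rw [hclosed.frontier_eq]
    refine ⟨hF, fun hint => ?_⟩
    have h2 : ∀ᶠ s in 𝓝 t, y + s • (z - y) ∈ F :=
      hcont.continuousAt.eventually (mem_interior_iff_mem_nhds.1 hint)
    have h3 : ∀ᶠ s in 𝓝[>] t, y + s • (z - y) ∈ F := nhdsWithin_le_nhds h2
    have h4 : ∀ᶠ s in 𝓝[>] t, s ∈ Ioo t 1 := Ioo_mem_nhdsGT h1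
    obtain ⟨s, hs, hs'⟩ := (h3.and h4).exists
    exact hnot s hs'.1 hs'.2.le hs
  · have h2 := h.convL.combo_interior_closure_mem_interior hyL (subset_closure hzL)
      (a := 1 - t) (b := t) (by linarith) h0 (by ring)
    have h3 : y + t • (z - y) = (1 - t) • y + t • z := by module
    rw [h3]
    exact h2

theorem gedge_of_edgeAt {F L : Set E2} {x : ℝ} (h : PN F L x) {n y : E2} (e : EdgeAt F L n y) :
    GEdge F L n (inner ℝ n y) := by
  have hchord : ∀ z ∈ L, inner ℝ n z = inner ℝ n y → z ∈ F := by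
    intro z hz hnz
    by_contra hzF
    obtain ⟨t, ht0, ht1, hfr, hint, hnot⟩ := exit_point h e.mem e.int hz hzF
    obtain ⟨n', e'⟩ := straight h hfr hint
    have hE : inner ℝ n (y + t • (z - y)) = inner ℝ n y := by
      rw [inner_add_right, inner_smul_right, inner_sub_right, hnz, sub_self, mul_zero, add_zero]
    have hnn : n = n' := supp_unique h e' e.unit (fun w hw => by
      rw [hE]
      exact e.supp w hw)
    obtain ⟨ρ, hρ, hρ1, hρ2⟩ := e'.edge
    rw [← hnn] at hρ1 hρ2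
    have hzy : z - y = (inner ℝ (rot n) (z - y)) • rot n := by
      have h2 := coord e.unit (z - y)
      rw [inner_sub_right, hnz, sub_self, zero_smul, zero_add] at h2
      exact h2
    obtain ⟨c, hc⟩ : ∃ c : ℝ, c = inner ℝ (rot n) (z - y) := ⟨_, rfl⟩
    rw [← hc] at hzy
    have hc0 : c ≠ 0 := by
      intro h0
      rw [h0, zero_smul, sub_eq_zero] at hzy
      rw [hzy] at hzF
      exact hzF e.mem
    have hcp : 0 < |c| := abs_pos.2 hc0
    obtain ⟨δ, hδ⟩ : ∃ δ : ℝ, δ = min (1 - t) (ρ / |c|) := ⟨_, rfl⟩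
    have hδ0 : 0 < δ := by
      rw [hδ]
      exact lt_min (by linarith) (div_pos hρ hcp)
    have hδ1 : t + δ ≤ 1 := by
      have h2 : δ ≤ 1 - t := by rw [hδ]; exact min_le_left _ _
      linarith
    have hδ2 : |δ * c| ≤ ρ := by
      rw [abs_mul, abs_of_pos hδ0]
      have h2 : δ ≤ ρ / |c| := by rw [hδ]; exact min_le_right _ _
      rwa [le_div_iff₀ hcp] at h2
    have h3 := EdgeOf_seg h.convF hρ hρ1 hρ2 hδ2
    have h4 : y + (t + δ) • (z - y) = y + t • (z - y) + (δ * c) • rot n := by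
      rw [add_smul, mul_smul, ← hzy, add_assoc]
    refine hnot (t + δ) (by linarith) hδ1 ?_
    rw [h4]
    exact h3
  refine ⟨e.unit, inner_pos_of_supp h e.unit e.supp, e.supp,
    ⟨y, ⟨e.mem, interior_subset e.int⟩, rfl⟩, hchord, ?_⟩
  have hcont : Continuous fun t : ℝ => (inner ℝ n y) • n + t • rot n := by fun_prop
  have hopen : IsOpen ((fun t : ℝ => (inner ℝ n y) • n + t • rot n) ⁻¹' interior L) :=
    isOpen_interior.preimage hcont
  have hne : ((fun t : ℝ => (inner ℝ n y) • n + t • rot n) ⁻¹' interior L).Nonempty := by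
    refine ⟨inner ℝ (rot n) y, ?_⟩
    rw [mem_preimage, ← coord e.unit y]
    exact e.int
  have hpos : 0 < volume {t : ℝ | (inner ℝ n y) • n + t • rot n ∈ L} :=
    lt_of_lt_of_le (hopen.measure_pos volume hne) (measure_mono fun t ht => interior_subset (s := L) ht)
  have htop : volume {t : ℝ | (inner ℝ n y) • n + t • rot n ∈ L} ≠ ⊤ := by
    refine ne_top_of_le_ne_top (sec_ne_top e.unit h.cptF.isBounded (inner ℝ n y)) ?_
    refine measure_mono fun t ht => ?_
    exact hchord _ ht (inner_coord e.unit _ _)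
  exact ENNReal.toReal_pos hpos.ne' htop

end Pool.Agent.Lib.MP_43065d_gt
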