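import Pool.Agent.Lib.MP_43065d_gt.Pl.FamQ
import Pool.Agent.Lib.MP_43065d_gt.Pl.IntZero

/-!
# Module EqCase (section 8): the equality case

PROOF.  For `τ ∈ (1,3)` pick `z ∈ NQ F q τ`, `p_τ = τ⁻¹ • z ∈ F`, `q p_τ ≤ 1/τ`.  `F` is compact: a limit point `p` (`τ → 3`) has `p ∈ F`, `q p ≤ 1/3`.  (Or: `q` attains its minimum on `F` at `p`, `q p ≤ 1/τ` for all
`τ < 3`.)  `z = 3 • p ∈ NQ F q 3`; `(fam_q h).incl` with `e = 1`: `(1/2) • (3 • p - y) ∈ L` for all `y ∈ F`.  So `D = {(3/2) • p - (1/2) • y | y ∈ F} ⊆ L = {q ≤ 1} ⊆ F`; `volume.real D = 1/4 = volume.real L`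
(`F ∩ L = L`, `x = 1/2`), `D` closed convex with nonempty interior, `L` closed convex: `D = L` (if `z ∈ L \ D`, then the convex hull of `z` and `D` is in `L` and has larger area: `z` has positive
distance to `D`, and near `z` the hull contains an open set, `Convex.interior...`: points `(1-t) z + t w`, `w ∈ interior D`, small `t > 0`).  Centroids: for every `v`,
`0 = ∫_L inner v y = ∫_D inner v y = (1/4) (inner v ((3/2) • p) - (1/2) ∫_F inner v y) = (3/8) inner v p`, so `p = 0`: `q 0 ≤ 1/3`, and `L = -(1/2) F`: every `y` with `q y ≤ 1` is `-(1/2) • y'`,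
i.e. `(-2) • y = y' ∈ F`.
-/

open MeasureTheory Set Filter Topology Metric
open scoped ENNReal NNReal Pointwise

namespace Pool.Agent.Lib.MP_43065d_gt

private theorem eqc_vol (a : E2) (r : ℝ) (S : Set E2) :
    volume ((fun y => a + y) '' (r • S)) = ENNReal.ofReal (r ^ 2) * volume S := by
  have e : Module.finrank ℝ E2 = 2 := by simp
  have h1 : volume ((fun y => a + y) '' (r • S)) = volume (r • S) := measure_vadd volume a (r • S)
  rw [h1, Measure.addHaar_smul, e, abs_of_nonneg (sq_nonneg r)]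

private theorem eqc_mom {S : Set E2} (hc : IsCompact S) (hm : ∀ v : E2, ∫ y in S, inner ℝ v y = 0)
    (a : E2) {r : ℝ} (hr : r ≠ 0) (v : E2) :
    ∫ y in (fun y => a + y) '' (r • S), inner ℝ v y = volume.real (r • S) * inner ℝ v a := by
  have h1 : ∫ y in (fun y => a + y) '' (r • S), inner ℝ v y =
      ∫ x in r • S, inner ℝ v (a + x) :=
    (measurePreserving_add_left volume a).setIntegral_image_emb
      (MeasurableEquiv.addLeft a).measurableEmbedding (fun y => inner ℝ v y) (r • S)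
  have h2 : ∫ x in r • S, inner ℝ v x = 0 := by
    have h3 := Measure.setIntegral_comp_smul (volume : Measure E2) (fun x => inner ℝ v x) S hr
    have h4 : ∫ x in S, inner ℝ v (r • x) = 0 := by
      simp only [real_inner_smul_right]
      rw [integral_const_mul, hm v, mul_zero]
    rw [h4] at h3
    have h5 : |(r ^ Module.finrank ℝ E2)⁻¹| ≠ 0 :=
      abs_ne_zero.2 (inv_ne_zero (pow_ne_zero _ hr))
    exact (smul_eq_zero.1 h3.symm).resolve_left h5
  have hci : IntegrableOn (fun x : E2 => inner ℝ v x) (r • S) volume :=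
    (Continuous.continuousOn (by fun_prop)).integrableOn_compact (hc.smul r)
  have hca : IntegrableOn (fun _ : E2 => inner ℝ v a) (r • S) volume :=
    continuousOn_const.integrableOn_compact (hc.smul r)
  rw [h1]
  simp only [inner_add_right]
  rw [integral_add hca hci, h2, add_zero, setIntegral_const, smul_eq_mul]

theorem eq_case {F : Set E2} {q : E2 → ℝ} {x : ℝ} (h : QN F q x) (hx : x = 1 / 2)
    (hL : {y | q y ≤ 1} ⊆ F) (hne : ∀ τ : ℝ, 1 < τ → τ < 3 → (NQ F q τ).Nonempty) :
    q 0 ≤ 1 / 3 ∧ ∀ y, q y ≤ 1 → (-2 : ℝ) • y ∈ F := by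
  have hpn := h.pn
  have hFne : F.Nonempty := by
    by_contra hc
    have h1 := hpn.volF
    rw [Set.not_nonempty_iff_eq_empty.1 hc] at h1
    simp at h1
  obtain ⟨p, hpF, hpmin⟩ := hpn.cptF.exists_isMinOn hFne h.q_cont.continuousOn
  have hqp : ∀ τ : ℝ, 1 < τ → τ < 3 → τ * q p ≤ 1 := by
    intro τ h1 h3
    obtain ⟨z, hz1, hz2⟩ := hne τ h1 h3
    have h4 : q p ≤ q (τ⁻¹ • z) := hpmin hz1
    have h5 := mul_le_mul_of_nonneg_left h4 (show (0 : ℝ) ≤ τ by linarith)
    linarith
  have hq0 : 0 < q p := h.q_pos p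
  have hq3 : q p ≤ 1 / 3 := by
    by_contra hc
    rw [not_le] at hc
    have h1 := hqp 2 (by norm_num) (by norm_num)
    have h2 : 1 / q p < 3 := by
      rw [div_lt_iff₀ hq0]
      linarith
    have h3 : 2 ≤ 1 / q p := by
      rw [le_div_iff₀ hq0]
      exact h1
    have h4 := hqp ((1 / q p + 3) / 2) (by linarith) (by linarith)
    have h5 : (1 / q p + 3) / 2 * q p = (1 + 3 * q p) / 2 := by
      field_simp
    rw [h5] at h4
    linarith
  have hz3 : (3 : ℝ) • p ∈ NQ F q (1 + 2 * 1) := by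
    have e : ((1 : ℝ) + 2 * 1)⁻¹ • (3 : ℝ) • p = p := by
      rw [smul_smul]
      norm_num
    refine ⟨?_, ?_⟩
    · rw [e]
      exact hpF
    · rw [e]
      linarith
  have hsub : ∀ y ∈ F, ((1 : ℝ) + 1)⁻¹ • ((3 : ℝ) • p - (1 : ℝ) • y) ∈ {y | q y ≤ 1} :=
    (fam_q h).incl 1 zero_le_one _ hz3
  set L : Set E2 := {y | q y ≤ 1} with hLd
  set a : E2 := (3 / 2 : ℝ) • p with ha
  set D : Set E2 := (fun y => a + y) '' ((-(1 / 2) : ℝ) • F) with hD
  have hDL : D ⊆ L := by
    rintro _ ⟨_, ⟨y, hy, rfl⟩, rfl⟩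
    have h1 := hsub y hy
    have e : ((1 : ℝ) + 1)⁻¹ • ((3 : ℝ) • p - (1 : ℝ) • y) = a + (-(1 / 2) : ℝ) • y := by
      rw [ha, smul_sub, smul_smul, smul_smul, sub_eq_add_neg, ← neg_smul]
      norm_num
    rw [e] at h1
    exact h1
  have hFL : F ∩ L = L := Set.inter_eq_right.2 hL
  have hvL : volume.real L = 1 / 4 := by
    rw [← hFL, hpn.volG, hx]
    norm_num
  have hcL : IsCompact L := hpn.cptF.of_isClosed_subset hpn.closedL hL
  have hcD : IsCompact D := (hpn.cptF.smul _).image (by fun_prop)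
  have hvF : volume F = 1 := by
    rw [← ofReal_measureReal hpn.cptF.measure_lt_top.ne, hpn.volF, ENNReal.ofReal_one]
  have hvD : volume D = ENNReal.ofReal (1 / 4) := by
    rw [hD, eqc_vol, hvF, mul_one]
    norm_num
  have hvL' : volume L = ENNReal.ofReal (1 / 4) := by
    rw [← ofReal_measureReal hcL.measure_lt_top.ne, hvL]
  have hdiff : volume (L \ D) = 0 := by
    rw [measure_sdiff hDL hcD.measurableSet.nullMeasurableSet hcD.measure_lt_top.ne, hvL', hvD,
      tsub_self]
  have hLD : L ⊆ D := by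
    have h1 : interior L \ D = ∅ := by
      rw [← (isOpen_interior.sdiff hcD.isClosed).measure_eq_zero_iff volume]
      exact measure_mono_null (Set.diff_subset_diff_left interior_subset) hdiff
    have h2 : interior L ⊆ D := Set.diff_eq_empty.1 h1
    have h3 : closure (interior L) ⊆ D := closure_minimal h2 hcD.isClosed
    rw [hpn.convL.closure_interior_eq_closure_of_nonempty_interior ⟨0, zero_intL hpn⟩] at h3
    exact subset_closure.trans h3
  have hDeq : D = L := subset_antisymm hDL hLD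
  have hmom : ∀ v : E2, inner ℝ v a = 0 := by
    intro v
    have h1 := eqc_mom hpn.cptF hpn.momF a (r := -(1 / 2)) (by norm_num) v
    have h2 := hpn.momG v
    rw [hFL] at h2
    rw [← hD, hDeq, h2] at h1
    have h3 : volume.real ((-(1 / 2) : ℝ) • F) ≠ 0 := by
      have e : Module.finrank ℝ E2 = 2 := by simp
      rw [Measure.real, Measure.addHaar_smul, e, hvF, mul_one, ENNReal.toReal_ofReal (abs_nonneg _)]
      norm_num
    exact (mul_eq_zero.1 h1.symm).resolve_left h3
  have ha0 : a = 0 := inner_self_eq_zero.1 (hmom a)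
  have hp0 : p = 0 := by
    rw [ha] at ha0
    exact (smul_eq_zero.1 ha0).resolve_left (by norm_num)
  refine ⟨by rw [← hp0]; exact hq3, fun y hy => ?_⟩
  obtain ⟨_, ⟨y', hy', rfl⟩, hyy⟩ := hLD hy
  have hyy' : a + (-(1 / 2) : ℝ) • y' = y := hyy
  rw [ha0, zero_add] at hyy'
  rw [← hyy', smul_smul]
  norm_num
  exact hy'

end Pool.Agent.Lib.MP_43065d_gt
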