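import Pool.Agent.Lib.MP_43065d_gt.Pl.EdgeC

/-!
# Module Extra (section 5): the part of `N_τ` beyond the cut

PROOF.  Put `e = (τ-1)/2`, `W = eW`, `ch = eC`, `c₀ = sec n L a`, so `c₀ W = 2x ch`; `lev = a + 2e(a - W(1-ch)/2) = a + 2ea - e W (1-ch)`.  The set is
`D = {z ∈ N τ | lev < inner n z}`.  If `e = 0` (`τ = 1`): `N 1 = F ∩ L`, `lev = a`, `D = ∅`.  Let `e > 0`.
Every `z ∈ N τ` has `inner n z ≤ τ a = a + 2ea` (`hN.sub`, `g.le`).  So (`volume_eq_lintegral_sec`; `D` is measurable: compact minus closed) the volume of `D` is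
`∫⁻ s in (lev, a+2ea], vol (section of N τ at height s)`; substitution `s = a + 2ea - e W u`, `u ∈ [0, 1-ch)`: `= ∫⁻ u in (0,1-ch), ofReal (e W) * vol (section at s(u))`
(the end points do not matter).
Fix `u ∈ (0,1-ch)`, `v = W u ∈ (0,W)`.  If the section of `N τ` at `s(u)` is nonempty: for `z` in it and `y ∈ F` with `inner n y = a - v` the point `p = (1+e)⁻¹ • (z - e • y)` is in `L` (`hN.incl`, `τ = 1+2e`),
`inner n p = (a + 2ea - ev - e(a-v))/(1+e) = a`.  `sec_add` with `A = N τ` (convex by `comb`, compact), `B = F`, `T = L`, `α = (1+e)⁻¹`, `β = -e(1+e)⁻¹` (finite section of `L` at `a`: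
it is in `F`): `sec (N τ) s(u) + e sec n F (a-v) ≤ (1+e) c₀`.  Multiply by `W`: `W sec (N τ) s(u) ≤ (1+e) c₀ W - e eF u = 2x ch - e (eF u - 2x ch) ≤ 2x ch - e (phi ch u - 2x ch)`
(`edge_phi_le`).  (If the section is empty its volume is `0`.)  Multiply by `e` and integrate: this is `cost (2x) ch τ` (`(τ-1)/2 = e`).
-/

open MeasureTheory Set Filter Topology Metric
open scoped ENNReal NNReal Pointwise

namespace Pool.Agent.Lib.MP_43065d_gt

variable {F L : Set E2} {x : ℝ} {N : ℝ → Set E2} {n : E2} {a : ℝ}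

theorem fam_convex (hN : Fam F L N) {τ : ℝ} (hτ : 1 ≤ τ) : Convex ℝ (N τ) := by
  intro z hz w hw α β hα hβ hαβ
  have h := hN.comb τ τ hτ hτ z hz w hw β ⟨hβ, by linarith⟩
  have h1 : (1 - β) = α := by linarith
  rw [h1] at h
  have h2 : α * τ + β * τ = τ := by rw [← add_mul, hαβ, one_mul]
  rwa [h2] at h

/-- the bound for one section -/
private theorem extra_sec (h : PN F L x) (hN : Fam F L N) (g : GEdge F L n a) {e : ℝ} (he : 0 ≤ e)
    {u : ℝ} (hu : u ∈ Ioo (0 : ℝ) (1 - eC F L x n a))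
    (hne : ∃ p ∈ N (1 + 2 * e), inner ℝ n p = a + 2 * e * a - e * eW F n a * u) :
    eW F n a * sec n (N (1 + 2 * e)) (a + 2 * e * a - e * eW F n a * u) ≤
      2 * x * eC F L x n a - e * (phi (eC F L x n a) u - 2 * x * eC F L x n a) := by
  have hW := edge_W_pos h g
  have hC := edge_C_pos h g
  have hx := h.x_pos
  have hFne : F.Nonempty := by
    obtain ⟨z, hz, -⟩ := g.ex
    exact ⟨z, hz.1⟩
  have hlo : lo n F = a - eW F n a := by unfold eW; ring
  have hB0 : ∃ p ∈ F, inner ℝ n p = a - eW F n a * u := by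
    refine exists_height n h.convF h.cptF hFne ?_
    rw [hlo, edge_hi h g]
    constructor
    · nlinarith [hu.2]
    · nlinarith [hu.1]
  have h1e : (0 : ℝ) < 1 + e := by linarith
  have hpt : (1 + e)⁻¹ * (a + 2 * e * a - e * eW F n a * u) +
      -(e * (1 + e)⁻¹) * (a - eW F n a * u) = a := by
    field_simp
    ring
  have hT : ∀ p ∈ N (1 + 2 * e), ∀ q ∈ F, inner ℝ n p = a + 2 * e * a - e * eW F n a * u →
      inner ℝ n q = a - eW F n a * u → (1 + e)⁻¹ • p + -(e * (1 + e)⁻¹) • q ∈ L := by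
    intro p hp q hq _ _
    have h1 := hN.incl e he p hp q hq
    have h2 : (1 + e)⁻¹ • (p - e • q) = (1 + e)⁻¹ • p + -(e * (1 + e)⁻¹) • q := by
      module
    rwa [h2] at h1
  have hfin : volume {t : ℝ | ((1 + e)⁻¹ * (a + 2 * e * a - e * eW F n a * u) +
      -(e * (1 + e)⁻¹) * (a - eW F n a * u)) • n + t • rot n ∈ L} ≠ ⊤ := by
    rw [hpt]
    refine ((measure_mono ?_).trans_lt (sec_ne_top g.unit h.cptF.isBounded a).lt_top).ne
    intro t ht
    exact g.chord _ ht (inner_coord g.unit a t)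
  have key := sec_add g.unit (fam_convex hN (by linarith)) (hN.cpt _ (by linarith)) h.convF h.cptF
    hne hB0 hT hfin
  rw [hpt, abs_of_pos (inv_pos.2 h1e), abs_neg, abs_of_nonneg (mul_nonneg he (inv_pos.2 h1e).le)]
    at key
  have key2 : sec n (N (1 + 2 * e)) (a + 2 * e * a - e * eW F n a * u) +
      e * sec n F (a - eW F n a * u) ≤ (1 + e) * sec n L a := by
    have h3 : (1 + e) * ((1 + e)⁻¹ * sec n (N (1 + 2 * e)) (a + 2 * e * a - e * eW F n a * u) +
        e * (1 + e)⁻¹ * sec n F (a - eW F n a * u)) =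
        sec n (N (1 + 2 * e)) (a + 2 * e * a - e * eW F n a * u) +
          e * sec n F (a - eW F n a * u) := by
      field_simp
    rw [← h3]
    exact mul_le_mul_of_nonneg_left key h1e.le
  have hphi := edge_phi_le h g hu
  have hcw : sec n L a * eW F n a = 2 * x * eC F L x n a := by
    unfold eC
    field_simp
  have hF : eF F n a u = eW F n a * sec n F (a - eW F n a * u) := rfl
  have h4 := mul_le_mul_of_nonneg_left key2 hW.le
  have h5 : eW F n a * ((1 + e) * sec n L a) = (1 + e) * (2 * x * eC F L x n a) := by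
    rw [← hcw]
    ring
  rw [h5, mul_add] at h4
  have h6 : eW F n a * (e * sec n F (a - eW F n a * u)) = e * eF F n a u := by
    rw [hF]
    ring
  rw [h6] at h4
  have h7 := mul_le_mul_of_nonneg_left hphi he
  linarith

theorem extra_le (h : PN F L x) (hN : Fam F L N) (g : GEdge F L n a) {τ : ℝ} (hτ : 1 ≤ τ) :
    volume {z | z ∈ N τ ∧ lev F L x n a τ < inner ℝ n z} ≤ cost (2 * x) (eC F L x n a) τ := by
  have hW := edge_W_pos h g
  rcases hτ.eq_or_lt with h1 | h1
  · subst h1
    have h2 : {z | z ∈ N 1 ∧ lev F L x n a 1 < inner ℝ n z} = (∅ : Set E2) := by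
      rw [eq_empty_iff_forall_notMem]
      rintro z ⟨hz, hz2⟩
      rw [hN.one] at hz
      have h3 := g.le z hz.1
      have h4 : lev F L x n a 1 = a := by
        unfold lev
        ring
      rw [h4] at hz2
      linarith
    rw [h2, measure_empty]
    exact zero_le
  obtain ⟨e, he⟩ : ∃ e : ℝ, e = (τ - 1) / 2 := ⟨_, rfl⟩
  have he0 : 0 < e := by rw [he]; linarith
  have hτe : τ = 1 + 2 * e := by rw [he]; ring
  have hlev : lev F L x n a τ = a + 2 * e * a - e * eW F n a * (1 - eC F L x n a) := by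
    unfold lev
    rw [hτe]
    ring
  set D : Set E2 := {z | z ∈ N τ ∧ lev F L x n a τ < inner ℝ n z} with hD
  have hcont : Continuous fun y : E2 => (inner ℝ n y : ℝ) := continuous_const.inner continuous_id
  have hDm : MeasurableSet D :=
    (hN.cpt τ hτ).measurableSet.inter (isOpen_lt continuous_const hcont).measurableSet
  have hmax : ∀ z ∈ N τ, inner ℝ n z ≤ a + 2 * e * a := by
    intro z hz
    have h2 := g.le _ (hN.sub τ hτ z hz)
    rw [inner_smul_right, inv_mul_le_iff₀ (by linarith)] at h2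
    rw [hτe] at h2
    linarith
  rw [volume_eq_lintegral_sec g.unit hDm]
  set V : ℝ → ℝ≥0∞ := fun s => volume {t : ℝ | s • n + t • rot n ∈ D} with hV
  have hV0 : ∀ s, s ∉ Ioc (lev F L x n a τ) (a + 2 * e * a) → V s = 0 := by
    intro s hs
    have h2 : {t : ℝ | s • n + t • rot n ∈ D} = ∅ := by
      rw [eq_empty_iff_forall_notMem]
      rintro t ⟨ht1, ht2⟩
      rw [inner_coord g.unit] at ht2
      have h3 := hmax _ ht1
      rw [inner_coord g.unit] at h3
      exact hs ⟨ht2, h3⟩
    rw [hV]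
    show volume {t : ℝ | s • n + t • rot n ∈ D} = 0
    rw [h2, measure_empty]
  have e1 : ∫⁻ s, V s = ∫⁻ s in Ioo (lev F L x n a τ) (a + 2 * e * a), V s := by
    rw [setLIntegral_congr (Ioo_ae_eq_Ioc), ← lintegral_indicator measurableSet_Ioc]
    refine lintegral_congr fun s => ?_
    by_cases hs : s ∈ Ioc (lev F L x n a τ) (a + 2 * e * a)
    · rw [indicator_of_mem hs]
    · rw [indicator_of_notMem hs, hV0 s hs]
  have hf : ∀ u : ℝ, HasDerivWithinAt (fun u : ℝ => a + 2 * e * a - e * eW F n a * u)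
      (-(e * eW F n a)) (Ioo 0 (1 - eC F L x n a)) u := by
    intro u
    have h2 := ((hasDerivAt_id u).const_mul (e * eW F n a)).const_sub (a + 2 * e * a)
    simpa using h2.hasDerivWithinAt
  have hinj : InjOn (fun u : ℝ => a + 2 * e * a - e * eW F n a * u)
      (Ioo 0 (1 - eC F L x n a)) := by
    intro u _ v _ huv
    have h2 : e * eW F n a * u = e * eW F n a * v := by
      have : a + 2 * e * a - e * eW F n a * u = a + 2 * e * a - e * eW F n a * v := huv
      linarith
    exact mul_left_cancel₀ (mul_pos he0 hW).ne' h2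
  have himg : Ioo (lev F L x n a τ) (a + 2 * e * a) ⊆
      (fun u : ℝ => a + 2 * e * a - e * eW F n a * u) '' Ioo 0 (1 - eC F L x n a) := by
    intro s hs
    rw [hlev] at hs
    have hp := mul_pos he0 hW
    refine ⟨(a + 2 * e * a - s) / (e * eW F n a), ⟨div_pos (by linarith [hs.2]) hp, ?_⟩, ?_⟩
    · rw [div_lt_iff₀ hp]
      nlinarith [hs.1]
    · show a + 2 * e * a - e * eW F n a * ((a + 2 * e * a - s) / (e * eW F n a)) = s
      rw [mul_div_cancel₀ _ hp.ne']
      ring
  have e2 : ∫⁻ s, V s ≤ ∫⁻ u in Ioo 0 (1 - eC F L x n a),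
      ENNReal.ofReal |(-(e * eW F n a))| * V (a + 2 * e * a - e * eW F n a * u) := by
    rw [e1, ← lintegral_image_eq_lintegral_abs_deriv_mul measurableSet_Ioo
      (fun u _ => hf u) hinj]
    exact lintegral_mono_set himg
  refine e2.trans ?_
  unfold cost
  refine setLIntegral_mono' measurableSet_Ioo fun u hu => ?_
  rw [abs_neg, abs_of_pos (mul_pos he0 hW)]
  have hsub : V (a + 2 * e * a - e * eW F n a * u) ≤
      volume {t : ℝ | (a + 2 * e * a - e * eW F n a * u) • n + t • rot n ∈ N τ} :=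
    measure_mono fun t ht => ht.1
  by_cases hne : ∃ p ∈ N (1 + 2 * e), inner ℝ n p = a + 2 * e * a - e * eW F n a * u
  · have h2 := extra_sec h hN g he0.le hu hne
    rw [← hτe] at h2
    have h3 : volume {t : ℝ | (a + 2 * e * a - e * eW F n a * u) • n + t • rot n ∈ N τ} =
        ENNReal.ofReal (sec n (N τ) (a + 2 * e * a - e * eW F n a * u)) := by
      unfold sec
      rw [ofReal_measureReal (sec_ne_top g.unit (hN.cpt τ hτ).isBounded _)]
    refine (mul_le_mul_right hsub _).trans ?_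
    rw [h3, ← ENNReal.ofReal_mul (mul_pos he0 hW).le]
    refine ENNReal.ofReal_le_ofReal ?_
    rw [← he]
    have h4 := mul_le_mul_of_nonneg_left h2 he0.le
    linarith
  · have h2 : V (a + 2 * e * a - e * eW F n a * u) = 0 := by
      refine le_antisymm (hsub.trans (le_of_eq ?_)) zero_le
      have h3 : {t : ℝ | (a + 2 * e * a - e * eW F n a * u) • n + t • rot n ∈ N τ} = ∅ := by
        rw [eq_empty_iff_forall_notMem]
        intro t ht
        rw [hτe] at ht
        exact hne ⟨_, ht, inner_coord g.unit _ t⟩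
      rw [h3, measure_empty]
    rw [h2, mul_zero]
    exact zero_le

end Pool.Agent.Lib.MP_43065d_gt
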