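import Pool.Agent.Lib.MP_43065d_gt.Pl.PDefs

/-!
# Module FamQ: the family `N_τ` of `q`

`NQ F q τ = {z | τ⁻¹ • z ∈ F ∧ τ * q (τ⁻¹ • z) ≤ 1}`.
PROOF.  `cpt`: closed subset of `τ • F` (`q` continuous).  `one`, `sub`: clear.
`comb`: `s, t ≥ 1`, `z ∈ N s`, `w ∈ N t`, `m = (1-μ)s + μt ≥ 1`.  `m⁻¹ • ((1-μ) • z + μ • w) = ((1-μ)s/m) • (s⁻¹ • z) + (μt/m) • (t⁻¹ • w)`, coefficients `≥ 0` with sum `1`; so it is in `F` and
`q` of it is `≤ ((1-μ)s/m) q(s⁻¹z) + (μt/m) q(t⁻¹w) ≤ ((1-μ) + μ)/m = 1/m` (`q(s⁻¹z) ≤ 1/s`).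
`incl`: `τ = 1+2e`, `p = τ⁻¹ • z ∈ F`, `q p ≤ 1/τ ≤ 1`, `lam = (1-q p)/(1+q p)`, `l = e/(1+e) = (τ-1)/(τ+1)`; `0 ≤ l ≤ lam` (the function `(1-s)/(1+s)` is decreasing, `q p ≤ 1/τ`, value `l` at `s = 1/τ`; `q p > 0`).
`(1+e)⁻¹ • (z - e • y) = (1+l) • p - l • y` (because `(1+2e)/(1+e) = 1+l`), and this is the convex combination with weight `l/lam` (if `lam > 0`; if `lam = 0` then `l = 0` and the
point is `p`) of `p` and `(1+lam) • p - lam • y`; `q ≤ 1` at both (`key`), `q` convex.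
-/

open MeasureTheory Set Filter Topology Metric
open scoped ENNReal NNReal Pointwise

namespace Pool.Agent.Lib.MP_43065d_gt

private theorem famq_lam {s e : ℝ} (hs : 0 < s) (he : 0 ≤ e) (h : (1 + 2 * e) * s ≤ 1) :
    e / (1 + e) ≤ (1 - s) / (1 + s) := by
  rw [div_le_div_iff₀ (by linarith) (by linarith)]
  nlinarith

theorem fam_q {F : Set E2} {q : E2 → ℝ} {x : ℝ} (h : QN F q x) :
    Fam F {y | q y ≤ 1} (NQ F q) := by
  have hFc := h.pn.cptF
  have hFconv := h.pn.convF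
  refine ⟨?_, ?_, ?_, ?_, ?_⟩
  · -- compactness
    intro τ hτ
    have hτ0 : τ ≠ 0 := by linarith
    have h1 : IsClosed {z : E2 | τ * q (τ⁻¹ • z) ≤ 1} :=
      isClosed_le (continuous_const.mul (h.q_cont.comp (continuous_const_smul _)))
        continuous_const
    have h2 : IsCompact (τ • F) := hFc.smul τ
    have h3 : NQ F q τ = (τ • F) ∩ {z : E2 | τ * q (τ⁻¹ • z) ≤ 1} := by
      ext z
      constructor
      · rintro ⟨hz1, hz2⟩
        exact ⟨(Set.mem_smul_set_iff_inv_smul_mem₀ hτ0 F z).2 hz1, hz2⟩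
      · rintro ⟨hz1, hz2⟩
        exact ⟨(Set.mem_smul_set_iff_inv_smul_mem₀ hτ0 F z).1 hz1, hz2⟩
    rw [h3]
    exact h2.inter_right h1
  · ext z
    simp [NQ]
  · intro τ _ z hz
    exact hz.1
  · intro s t hs ht z hz w hw μ hμ
    obtain ⟨hμ0, hμ1⟩ := hμ
    have hs0 : 0 < s := by linarith
    have ht0 : 0 < t := by linarith
    set m := (1 - μ) * s + μ * t with hm
    have hm1 : 1 ≤ m := by
      rw [hm]; nlinarith
    have hm0 : 0 < m := by linarith
    have hα : 0 ≤ (1 - μ) * s / m := by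
      apply div_nonneg (mul_nonneg (by linarith) hs0.le) hm0.le
    have hβ : 0 ≤ μ * t / m := by
      apply div_nonneg (mul_nonneg hμ0 ht0.le) hm0.le
    have hαβ : (1 - μ) * s / m + μ * t / m = 1 := by
      rw [← add_div, ← hm, div_self hm0.ne']
    have heq : m⁻¹ • ((1 - μ) • z + μ • w) =
        ((1 - μ) * s / m) • (s⁻¹ • z) + (μ * t / m) • (t⁻¹ • w) := by
      rw [smul_add, smul_smul, smul_smul, smul_smul, smul_smul]
      congr 2
      · field_simp
      · field_simp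
    have hqz : q (s⁻¹ • z) ≤ 1 / s := by
      rw [le_div_iff₀ hs0, mul_comm]; exact hz.2
    have hqw : q (t⁻¹ • w) ≤ 1 / t := by
      rw [le_div_iff₀ ht0, mul_comm]; exact hw.2
    refine ⟨?_, ?_⟩
    · rw [heq]
      exact hFconv hz.1 hw.1 hα hβ hαβ
    · rw [heq]
      have h1 := h.q_convex.2 (mem_univ (s⁻¹ • z)) (mem_univ (t⁻¹ • w)) hα hβ hαβ
      have h2 : (1 - μ) * s / m * q (s⁻¹ • z) ≤ (1 - μ) / m := by
        calc (1 - μ) * s / m * q (s⁻¹ • z) ≤ (1 - μ) * s / m * (1 / s) :=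
              mul_le_mul_of_nonneg_left hqz hα
          _ = (1 - μ) / m := by field_simp
      have h3 : μ * t / m * q (t⁻¹ • w) ≤ μ / m := by
        calc μ * t / m * q (t⁻¹ • w) ≤ μ * t / m * (1 / t) :=
              mul_le_mul_of_nonneg_left hqw hβ
          _ = μ / m := by field_simp
      simp only [smul_eq_mul] at h1
      have h4 : q (((1 - μ) * s / m) • (s⁻¹ • z) + (μ * t / m) • (t⁻¹ • w)) ≤ 1 / m := by
        calc _ ≤ _ := h1
          _ ≤ (1 - μ) / m + μ / m := add_le_add h2 h3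
          _ = 1 / m := by rw [← add_div]; ring_nf
      calc m * q (((1 - μ) * s / m) • (s⁻¹ • z) + (μ * t / m) • (t⁻¹ • w)) ≤ m * (1 / m) :=
            mul_le_mul_of_nonneg_left h4 hm0.le
        _ = 1 := by field_simp
  · intro e he z hz y hy
    have hτ0 : (0 : ℝ) < 1 + 2 * e := by linarith
    have he0 : (0 : ℝ) < 1 + e := by linarith
    set p := (1 + 2 * e)⁻¹ • z with hp
    have hzp : z = (1 + 2 * e) • p := by
      rw [hp, smul_smul, mul_inv_cancel₀ hτ0.ne', one_smul]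
    have hpq : (1 + 2 * e) * q p ≤ 1 := hz.2
    have hq0 := h.q_pos p
    have hq1 : q p ≤ 1 := by nlinarith
    set lam := (1 - q p) / (1 + q p) with hlam
    set l := e / (1 + e) with hl
    have hl0 : 0 ≤ l := div_nonneg he he0.le
    have hlam0 : 0 ≤ lam := div_nonneg (by linarith) (by linarith)
    have hll : l ≤ lam := famq_lam hq0 he hpq
    have hkey := h.key p hq1 y hy
    have heq : (1 + e)⁻¹ • (z - e • y) = (1 + l) • p - l • y := by
      have e1 : (1 + e)⁻¹ * (1 + 2 * e) = 1 + l := by rw [hl]; field_simp; ring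
      have e2 : (1 + e)⁻¹ * e = l := by rw [hl]; field_simp
      have e3 : (1 + e)⁻¹ • (z - e • y) =
          ((1 + e)⁻¹ * (1 + 2 * e)) • p - ((1 + e)⁻¹ * e) • y := by
        rw [smul_sub, ← smul_smul (1 + e)⁻¹ (1 + 2 * e) p, ← hzp, smul_smul]
      rw [e3, e1, e2]
    change q ((1 + e)⁻¹ • (z - e • y)) ≤ 1
    rw [heq]
    rcases hlam0.eq_or_lt with h0 | h0
    · have hl00 : l = 0 := le_antisymm (h0 ▸ hll) hl0
      rw [hl00]
      simpa using hq1
    · have hθ0 : 0 ≤ l / lam := div_nonneg hl0 h0.le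
      have hθ1 : l / lam ≤ 1 := by
        rw [div_le_one h0]; exact hll
      have hcomb : (1 + l) • p - l • y =
          (1 - l / lam) • p + (l / lam) • ((1 + lam) • p - lam • y) := by
        have e1 : l / lam * lam = l := by field_simp
        clear_value p l lam
        match_scalars
        · linear_combination -e1
        · linear_combination e1
      rw [hcomb]
      have h1 := h.q_convex.2 (mem_univ p) (mem_univ ((1 + lam) • p - lam • y))
        (by linarith : 0 ≤ 1 - l / lam) hθ0 (by ring)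
      simp only [smul_eq_mul] at h1
      nlinarith

end Pool.Agent.Lib.MP_43065d_gt
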