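import Pool.Agent.Lib.MP_43065d_gt.Pl.PDefs
import Pool.Agent.Lib.MP_43065d_gt.BMk

/-!
# Module InsideN (section 8): `L ⊆ F`

PROOF of `inside_sqrt`.  `e = (τ-1)/2`.  `{z - e • y | z ∈ N τ, y ∈ F} ⊆ (1+e) • L` (`hN.incl`), `L = F ∩ L` has area `x²`, `F` has area `1`.  `bm2` for `A = N τ`, `B = -e • F` (compact convex
nonempty; `N τ` is convex by `comb`), `C = (1+e) • L`: `√(volume.real (N τ)) + e ≤ (1+e) x`, i.e. `√(..) ≤ x - e(1-x)`.
PROOF of `inside_total`.  For `τ > 1`: `volume (N τ) ≤ ofReal ((max (x - (τ-1)(1-x)/2) 0)²)` (also if empty); the integral is `x³/(3(1-x)/2) = 2x³/(3(1-x))`.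
PROOF of `inside_nonempty` (`x = 1/2`; then the bound is `((3-τ)/4)²` and `∫_1^3 ((3-τ)/4)² = 1/6`).  Suppose `N τ₀ = ∅`, `1 < τ₀ < 3`.  Then `N τ = ∅` for `τ ≥ τ₀`: otherwise `w ∈ N τ`, `z ∈ F ∩ L = N 1` (nonempty), and
`comb` with `μ = (τ₀-1)/(τ-1)` gives a point of `N τ₀`.  So the integral is `≤ ∫_1^{τ₀} ((3-τ)/4)² < 1/6`, contradiction.
-/

open MeasureTheory Set Filter Topology Metric
open scoped ENNReal NNReal Pointwise

namespace Pool.Agent.Lib.MP_43065d_gt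

variable {F L : Set E2} {x : ℝ} {N : ℝ → Set E2}

private theorem inN_smul (r : ℝ) (S : Set E2) : volume.real (r • S) = r ^ 2 * volume.real S := by
  rw [Measure.real, Measure.addHaar_smul, ENNReal.toReal_mul,
    ENNReal.toReal_ofReal (abs_nonneg _), Measure.real]
  have e : Module.finrank ℝ E2 = 2 := by simp
  rw [e, abs_of_nonneg (sq_nonneg r)]

theorem inside_sqrt (h : PN F L x) (hN : Fam F L N) (hL : L ⊆ F) {τ : ℝ} (hτ : 1 ≤ τ)
    (hne : (N τ).Nonempty) : √(volume.real (N τ)) ≤ x - (τ - 1) * ((1 - x) / 2) := by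
  set e : ℝ := (τ - 1) / 2 with he
  have he0 : 0 ≤ e := by
    rw [he]
    linarith
  have hτe : τ = 1 + 2 * e := by
    rw [he]
    ring
  have hx0 := h.x_pos
  have hFL : F ∩ L = L := Set.inter_eq_right.2 hL
  have hvL : volume.real L = x ^ 2 := by rw [← h.volG, hFL]
  have hcL : IsCompact L := h.cptF.of_isClosed_subset h.closedL hL
  have hFne : F.Nonempty := by
    by_contra hc
    have h1 := h.volF
    rw [Set.not_nonempty_iff_eq_empty.1 hc] at h1
    simp at h1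
  have hconv : Convex ℝ (N τ) := by
    intro z hz w hw a b ha hb hab
    have h1 := hN.comb τ τ hτ hτ z hz w hw b ⟨hb, by linarith⟩
    have e1 : (1 - b) * τ + b * τ = τ := by ring
    have e2 : 1 - b = a := by linarith
    rwa [e1, e2] at h1
  have hbm := bm2 hconv (h.convF.smul (-e)) (hN.cpt τ hτ) (h.cptF.smul (-e)) hne
    (hFne.smul_set (a := -e)) (C := (1 + e) • L) (by
      rintro _ ⟨z, hz, _, ⟨y, hy, rfl⟩, rfl⟩
      rw [hτe] at hz
      have h1 := hN.incl e he0 z hz y hy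
      refine ⟨_, h1, ?_⟩
      have h2 : (1 + e) ≠ 0 := by linarith
      show (1 + e) • ((1 + e)⁻¹ • (z - e • y)) = z + (-e) • y
      rw [smul_smul, mul_inv_cancel₀ h2, one_smul, neg_smul, sub_eq_add_neg])
    (hcL.smul (1 + e)).measure_lt_top.ne
  rw [inN_smul, inN_smul, h.volF, hvL, ← Real.sqrt_eq_rpow, ← Real.sqrt_eq_rpow,
    ← Real.sqrt_eq_rpow, mul_one, neg_sq, Real.sqrt_sq he0, ← mul_pow,
    Real.sqrt_sq (by positivity)] at hbm
  have e3 : x - (τ - 1) * ((1 - x) / 2) = (1 + e) * x - e := by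
    rw [he]
    ring
  rw [e3]
  linarith

private theorem inN_vol (h : PN F L x) (hN : Fam F L N) (hL : L ⊆ F) {τ : ℝ} (hτ : 1 ≤ τ) :
    volume (N τ) ≤ ENNReal.ofReal ((x - (τ - 1) * ((1 - x) / 2)) ^ 2) := by
  by_cases hne : (N τ).Nonempty
  · have h1 := inside_sqrt h hN hL hτ hne
    rw [← ofReal_measureReal (hN.cpt τ hτ).measure_lt_top.ne]
    refine ENNReal.ofReal_le_ofReal ?_
    have h2 := pow_le_pow_left₀ (Real.sqrt_nonneg _) h1 2
    rwa [Real.sq_sqrt measureReal_nonneg] at h2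
  · rw [Set.not_nonempty_iff_eq_empty.1 hne, measure_empty]
    exact bot_le

private theorem inN_empty (h : PN F L x) (hN : Fam F L N) (hL : L ⊆ F) {τ : ℝ} (hτ : 1 ≤ τ)
    (h1 : x - (τ - 1) * ((1 - x) / 2) ≤ 0) : volume (N τ) = 0 := by
  by_cases hne : (N τ).Nonempty
  · have h2 := inside_sqrt h hN hL hτ hne
    have h3 : √(volume.real (N τ)) = 0 := le_antisymm (h2.trans h1) (Real.sqrt_nonneg _)
    have h4 : volume.real (N τ) = 0 := by
      rwa [Real.sqrt_eq_zero measureReal_nonneg] at h3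
    rw [← ofReal_measureReal (hN.cpt τ hτ).measure_lt_top.ne, h4, ENNReal.ofReal_zero]
  · rw [Set.not_nonempty_iff_eq_empty.1 hne, measure_empty]

private theorem inN_int {x k T : ℝ} (hk : 0 < k) (hT : 1 ≤ T) :
    ∫⁻ τ in Ioc (1 : ℝ) T, ENNReal.ofReal ((x - (τ - 1) * k) ^ 2) =
      ENNReal.ofReal (x ^ 3 / (3 * k) - (x - (T - 1) * k) ^ 3 / (3 * k)) := by
  have hcont : Continuous fun τ : ℝ => (x - (τ - 1) * k) ^ 2 := by fun_prop
  rw [← ofReal_integral_eq_lintegral_ofReal]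
  · congr 1
    rw [← intervalIntegral.integral_of_le hT]
    have hd : ∀ τ ∈ Set.uIcc 1 T, HasDerivAt (fun τ : ℝ => -((x - (τ - 1) * k) ^ 3 / (3 * k)))
        ((x - (τ - 1) * k) ^ 2) τ := by
      intro τ _
      have h1 : HasDerivAt (fun τ : ℝ => x - (τ - 1) * k) (-k) τ := by
        have h2 := (((hasDerivAt_id τ).sub_const 1).mul_const k).const_sub x
        simpa using h2
      have h3 := ((h1.pow 3).div_const (3 * k)).neg
      have e : -(((3 : ℕ) : ℝ) * (x - (τ - 1) * k) ^ (3 - 1) * -k / (3 * k)) =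
          (x - (τ - 1) * k) ^ 2 := by
        field_simp
        norm_num
        ring
      rw [e] at h3
      exact h3
    rw [intervalIntegral.integral_eq_sub_of_hasDerivAt hd (hcont.intervalIntegrable _ _)]
    ring
  · exact (hcont.continuousOn.integrableOn_Icc (a := 1) (b := T)).mono_set Set.Ioc_subset_Icc_self
  · exact Filter.Eventually.of_forall fun τ => sq_nonneg _

theorem inside_total (h : PN F L x) (hN : Fam F L N) (hL : L ⊆ F) :
    ∫⁻ τ in Ioi (1 : ℝ), volume (N τ) ≤ ENNReal.ofReal (2 * x ^ 3 / (3 * (1 - x))) := by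
  have hx0 := h.x_pos
  have hx1 := h.x_le
  have hk : 0 < (1 - x) / 2 := by linarith
  set T : ℝ := 1 + x / ((1 - x) / 2) with hT
  have hT1 : 1 ≤ T := by
    rw [hT]
    have : 0 < x / ((1 - x) / 2) := by positivity
    linarith
  have hTk : (T - 1) * ((1 - x) / 2) = x := by
    rw [hT, add_sub_cancel_left, div_mul_cancel₀ _ hk.ne']
  rw [← Set.Ioc_union_Ioi_eq_Ioi hT1]
  refine (lintegral_union_le _ _ _).trans ?_
  have h0 : ∫⁻ τ in Ioi T, volume (N τ) = 0 := by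
    rw [setLIntegral_congr_fun (g := fun _ => 0) measurableSet_Ioi, lintegral_zero]
    intro τ hτ
    have hτ' : T < τ := hτ
    refine inN_empty h hN hL (hT1.trans hτ'.le) ?_
    have := mul_lt_mul_of_pos_right (sub_lt_sub_right hτ' 1) hk
    linarith
  rw [h0, add_zero]
  refine (setLIntegral_mono' measurableSet_Ioc fun τ hτ => inN_vol h hN hL hτ.1.le).trans ?_
  rw [inN_int hk hT1, hTk]
  refine ENNReal.ofReal_le_ofReal (le_of_eq ?_)
  have : (1 - x) ≠ 0 := by linarith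
  field_simp
  ring

theorem inside_nonempty (h : PN F L x) (hN : Fam F L N) (hL : L ⊆ F) (hx : x = 1 / 2)
    (hI : ENNReal.ofReal (1 / 6) ≤ ∫⁻ τ in Ioi (1 : ℝ), volume (N τ)) {τ : ℝ} (hτ : 1 < τ)
    (hτ3 : τ < 3) : (N τ).Nonempty := by
  by_contra hemp
  have hx0 := h.x_pos
  have hk : 0 < (1 - x) / 2 := by
    rw [hx]
    norm_num
  obtain ⟨z, hz⟩ : (F ∩ L).Nonempty := by
    by_contra hc
    have h1 := h.volG
    rw [Set.not_nonempty_iff_eq_empty.1 hc, measureReal_empty] at h1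
    have : 0 < x ^ 2 := by positivity
    linarith
  rw [← hN.one] at hz
  have hlate : ∀ σ, τ < σ → N σ = ∅ := by
    intro σ hσ
    rw [← Set.not_nonempty_iff_eq_empty]
    rintro ⟨w, hw⟩
    have hσ1 : 0 < σ - 1 := by linarith
    have h1 := hN.comb 1 σ le_rfl (by linarith) z hz w hw ((τ - 1) / (σ - 1))
      ⟨div_nonneg (by linarith) hσ1.le, (div_le_one hσ1).2 (by linarith)⟩
    have e : (1 - (τ - 1) / (σ - 1)) * 1 + (τ - 1) / (σ - 1) * σ = τ := by
      field_simp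
      ring
    rw [e] at h1
    exact hemp ⟨_, h1⟩
  have hle : ∫⁻ τ in Ioi (1 : ℝ), volume (N τ) ≤
      ENNReal.ofReal (x ^ 3 / (3 * ((1 - x) / 2)) -
        (x - (τ - 1) * ((1 - x) / 2)) ^ 3 / (3 * ((1 - x) / 2))) := by
    rw [← Set.Ioc_union_Ioi_eq_Ioi hτ.le]
    refine (lintegral_union_le _ _ _).trans ?_
    have h0 : ∫⁻ σ in Ioi τ, volume (N σ) = 0 := by
      rw [setLIntegral_congr_fun (g := fun _ => 0) measurableSet_Ioi, lintegral_zero]
      intro σ hσ
      show volume (N σ) = 0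
      rw [hlate σ hσ, measure_empty]
    rw [h0, add_zero]
    refine (setLIntegral_mono' measurableSet_Ioc fun τ hτ => inN_vol h hN hL hτ.1.le).trans ?_
    rw [inN_int hk hτ.le]
  have hlt : ENNReal.ofReal (x ^ 3 / (3 * ((1 - x) / 2)) -
      (x - (τ - 1) * ((1 - x) / 2)) ^ 3 / (3 * ((1 - x) / 2))) < ENNReal.ofReal (1 / 6) := by
    rw [ENNReal.ofReal_lt_ofReal_iff (by norm_num), hx]
    have h1 : 0 < (1 / 2 - (τ - 1) * ((1 - 1 / 2) / 2)) ^ 3 / (3 * ((1 - 1 / 2 : ℝ) / 2)) := by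
      have h2 : 0 < 1 / 2 - (τ - 1) * ((1 - 1 / 2 : ℝ) / 2) := by linarith
      positivity
    have h3 : (1 / 2 : ℝ) ^ 3 / (3 * ((1 - 1 / 2) / 2)) = 1 / 6 := by norm_num
    rw [h3]
    linarith
  exact absurd (hI.trans hle) (not_le.2 hlt)

end Pool.Agent.Lib.MP_43065d_gt
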