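import Pool.Agent.Lib.MP_43065d_gt.Pl.PDefs

/-!
# Module LayerQ: layer cake formula

PROOF.  `G = F ∩ {q ≤ 1}` compact, `q` continuous and `> 0`, so `φ = (q)⁻¹^3` is continuous, `≥ 1` on `G` and bounded (`q ≥ m > 0` on the compact `F`).  Layer cake (`MeasureTheory.lintegral_eq_lintegral_meas_le`
or `lintegral_comp_eq_lintegral_meas_le_mul`): `∫⁻_G φ = ∫⁻ u in Ioi 0, volume {y ∈ G | u ≤ φ y}`; for `u ≤ 1` the set is `G`.  For `u > 1`, `u = τ³`: `u ≤ φ y ↔ q y ≤ 1/τ`, and `τ⁻¹ • z` maps `NQ F q τ`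
onto `{y ∈ F | q y ≤ 1/τ}`, so `volume (NQ F q τ) = τ² volume {y ∈ F | q y ≤ 1/τ}` (`Measure.addHaar_smul`).  Substitution `u = τ³`, `du = 3τ² dτ`
(`lintegral_comp_eq_lintegral_meas_le_mul` with the function `τ ↦ 3τ²` applied to `1/q` avoids the substitution: `(1/q)³ - 1 = ∫_1^{1/q} 3τ² dτ`, then Tonelli:
`∫_G ((1/q)³ - 1) = ∫⁻ τ in Ioi 1, 3τ² volume {y ∈ G | τ ≤ 1/q y}`).
`NQ F q τ = ∅` for `τ > 1/m`, so the integral is finite.
-/

open MeasureTheory Set Filter Topology Metric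
open scoped ENNReal NNReal Pointwise

namespace Pool.Agent.Lib.MP_43065d_gt

theorem layer_q {F : Set E2} {q : E2 → ℝ} {x : ℝ} (h : QN F q x) :
    ∫⁻ τ in Ioi (1 : ℝ), volume (NQ F q τ) ≠ ⊤ ∧
    ∫ y in F ∩ {y | q y ≤ 1}, (q y)⁻¹ ^ 3 =
      x ^ 2 + 3 * (∫⁻ τ in Ioi (1 : ℝ), volume (NQ F q τ)).toReal := by
  set G : Set E2 := F ∩ {y | q y ≤ 1} with hG
  have hcptF := h.pn.cptF
  have hGc : IsCompact G := hcptF.inter_right h.pn.closedL
  have hGm : MeasurableSet G := hGc.measurableSet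
  have hq := h.q_pos
  have hcont : Continuous fun y : E2 => (q y)⁻¹ := h.q_cont.inv₀ fun y => (hq y).ne'
  -- the integral over `[0, 1/q]`
  have hint3 : ∀ s : ℝ, ∫ t in (0 : ℝ)..s, 3 * t ^ 2 = s ^ 3 := by
    intro s
    rw [intervalIntegral.integral_const_mul, integral_pow]
    norm_num
    ring
  have hlayer := lintegral_comp_eq_lintegral_meas_le_mul (f := fun y : E2 => (q y)⁻¹)
    (g := fun t : ℝ => 3 * t ^ 2) (volume.restrict G)
    (Eventually.of_forall fun y => (inv_pos.2 (hq y)).le) hcont.measurable.aemeasurable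
    (fun t _ => (by fun_prop : Continuous fun t : ℝ => 3 * t ^ 2).intervalIntegrable _ _)
    (Eventually.of_forall fun t => by positivity)
  simp only [hint3] at hlayer
  -- split
  have hsplit : ∫⁻ t in Ioi (0 : ℝ), volume.restrict G {y : E2 | t ≤ (q y)⁻¹} *
      ENNReal.ofReal (3 * t ^ 2) = (∫⁻ t in Ioc (0 : ℝ) 1, volume.restrict G
        {y : E2 | t ≤ (q y)⁻¹} * ENNReal.ofReal (3 * t ^ 2)) +
      ∫⁻ t in Ioi (1 : ℝ), volume.restrict G {y : E2 | t ≤ (q y)⁻¹} *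
        ENNReal.ofReal (3 * t ^ 2) := by
    rw [← Ioc_union_Ioi_eq_Ioi (zero_le_one (α := ℝ))]
    exact lintegral_union measurableSet_Ioi (Set.disjoint_left.2 fun t ht ht' =>
      absurd ht.2 (not_le.2 ht'))
  have hmeas : ∀ t : ℝ, MeasurableSet {y : E2 | t ≤ (q y)⁻¹} := fun t =>
    measurableSet_le measurable_const hcont.measurable
  have hlow : ∫⁻ t in Ioc (0 : ℝ) 1, volume.restrict G {y : E2 | t ≤ (q y)⁻¹} *
      ENNReal.ofReal (3 * t ^ 2) = volume G := by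
    have h1 : ∫⁻ t in Ioc (0 : ℝ) 1, volume.restrict G {y : E2 | t ≤ (q y)⁻¹} *
        ENNReal.ofReal (3 * t ^ 2) = ∫⁻ t in Ioc (0 : ℝ) 1, volume G *
        ENNReal.ofReal (3 * t ^ 2) := by
      refine setLIntegral_congr_fun measurableSet_Ioc fun t ht => ?_
      congr 1
      rw [Measure.restrict_apply (hmeas t)]
      congr 1
      refine Set.inter_eq_right.2 fun y hy => ?_
      have h2 : q y ≤ 1 := hy.2
      exact ht.2.trans ((one_le_inv₀ (hq y)).2 h2)
    rw [h1, lintegral_const_mul _ (by fun_prop)]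
    have h2 : ∫⁻ t in Ioc (0 : ℝ) 1, ENNReal.ofReal (3 * t ^ 2) = 1 := by
      rw [← ofReal_integral_eq_lintegral_ofReal]
      · rw [← intervalIntegral.integral_of_le zero_le_one, hint3]
        norm_num
      · exact ((by fun_prop : Continuous fun t : ℝ => 3 * t ^ 2).continuousOn.integrableOn_compact
          isCompact_Icc).mono_set Ioc_subset_Icc_self
      · exact Eventually.of_forall fun t => by positivity
    rw [h2, mul_one]
  have hhigh : ∫⁻ t in Ioi (1 : ℝ), volume.restrict G {y : E2 | t ≤ (q y)⁻¹} *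
      ENNReal.ofReal (3 * t ^ 2) = 3 * ∫⁻ t in Ioi (1 : ℝ), volume (NQ F q t) := by
    rw [← lintegral_const_mul' _ _ (by norm_num)]
    refine setLIntegral_congr_fun measurableSet_Ioi fun t ht => ?_
    have ht1 : (1 : ℝ) < t := ht
    have ht0 : (0 : ℝ) < t := by linarith
    have h1 : NQ F q t = (fun z : E2 => t⁻¹ • z) ⁻¹' (G ∩ {y : E2 | t ≤ (q y)⁻¹}) := by
      ext z
      have h3 : t * q (t⁻¹ • z) ≤ 1 ↔ t ≤ (q (t⁻¹ • z))⁻¹ := by
        rw [le_inv_comm₀ ht0 (hq _), ← one_div, le_div_iff₀ ht0, mul_comm]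
      constructor
      · rintro ⟨hz1, hz2⟩
        refine ⟨⟨hz1, ?_⟩, h3.1 hz2⟩
        have h4 := hq (t⁻¹ • z)
        show q (t⁻¹ • z) ≤ 1
        nlinarith
      · rintro ⟨⟨hz1, -⟩, hz2⟩
        exact ⟨hz1, h3.2 hz2⟩
    rw [h1, Measure.addHaar_preimage_smul _ (inv_ne_zero ht0.ne'), Measure.restrict_apply (hmeas t),
      Set.inter_comm]
    have h5 : Module.finrank ℝ E2 = 2 := by simp
    rw [h5]
    have h6 : |((t⁻¹ : ℝ) ^ 2)⁻¹| = t ^ 2 := by
      rw [inv_pow, inv_inv, abs_of_nonneg (by positivity)]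
    rw [h6, ENNReal.ofReal_mul (by norm_num)]
    have h7 : ENNReal.ofReal 3 = 3 := by norm_num
    rw [h7]
    ring
  rw [hsplit, hlow, hhigh] at hlayer
  -- finiteness
  have hint : IntegrableOn (fun y : E2 => (q y)⁻¹ ^ 3) G volume :=
    (hcont.pow 3).continuousOn.integrableOn_compact hGc
  have hnn : 0 ≤ᵐ[volume.restrict G] fun y : E2 => (q y)⁻¹ ^ 3 :=
    Eventually.of_forall fun y => by
      have := hq y
      positivity
  have heq := ofReal_integral_eq_lintegral_ofReal hint hnn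
  rw [hlayer] at heq
  have hfin : volume G + 3 * ∫⁻ t in Ioi (1 : ℝ), volume (NQ F q t) ≠ ⊤ := by
    rw [← heq]
    exact ENNReal.ofReal_ne_top
  have hX : ∫⁻ t in Ioi (1 : ℝ), volume (NQ F q t) ≠ ⊤ := by
    intro h0
    apply hfin
    rw [h0, ENNReal.mul_top (by norm_num), add_top]
  refine ⟨hX, ?_⟩
  have h8 : 0 ≤ ∫ y in G, (q y)⁻¹ ^ 3 := integral_nonneg_of_ae hnn
  have h9 := congrArg ENNReal.toReal heq
  rw [ENNReal.toReal_ofReal h8, ENNReal.toReal_add hGc.measure_lt_top.ne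
    (ENNReal.mul_ne_top (by norm_num) hX), ENNReal.toReal_mul] at h9
  rw [h9]
  have h10 := h.pn.volG
  rw [← hG] at h10
  have h11 : (volume G).toReal = x ^ 2 := h10
  rw [h11]
  norm_num

end Pool.Agent.Lib.MP_43065d_gt
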