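import Pool.Agent.Lib.MP_43065d_gt.Pl.SecAdd

/-!
# Module LineSec: a line through two boundary points

PROOF.  `interior F ≠ ∅` and `F ⊆ closure (interior F)`, so there are interior points strictly above and strictly below the line `{inner n = b}`; their segment
meets the line in an interior point `z₀` of `F`.  The set `I = {y ∈ F | inner n y = b}` is compact, convex and contained in a line.  If `y ∈ I` and
`z₀ ≠ y`, all points of the open segment from `z₀` to `y` are interior (`Convex.openSegment_interior_self_subset_interior` or similar).  `A, B ∈ I` are not interior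
points.  If `A` and `B` were on the same side of `z₀` (on the line), one of them would be in the open segment from `z₀` to the other, hence interior;
so `z₀` is strictly between `A` and `B`.  If `y ∈ I` were outside `[A,B]`, then `A` or `B` would be strictly between `z₀` and `y`, hence interior; contradiction.
So `I = [A,B]`.  `line_sec_L`: `A, B ∈ L` and convexity give `[A,B] ⊆ F ∩ L`, so both sections are `[A,B]` and have length `dist A B > 0` (`sec_eq_dist`).
-/

open MeasureTheory Set Filter Topology Metric
open scoped ENNReal NNReal Pointwise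

namespace Pool.Agent.Lib.MP_43065d_gt

private theorem on_line {n y : E2} {b : ℝ} (hn : ‖n‖ = 1) (hy : inner ℝ n y = b) :
    y = b • n + (inner ℝ (rot n) y) • rot n := by
  have h := coord hn y
  rw [hy] at h
  exact h

/-- a point of the line strictly between an interior point and a point of `F` is interior -/
private theorem between_interior {F : Set E2} (hF : Convex ℝ F) {n z y w : E2} {b : ℝ}
    (hn : ‖n‖ = 1) (hz : z ∈ interior F) (hy : y ∈ F) (hnz : inner ℝ n z = b)
    (hny : inner ℝ n y = b) (hnw : inner ℝ n w = b)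
    (h : (inner ℝ (rot n) z < inner ℝ (rot n) w ∧ inner ℝ (rot n) w < inner ℝ (rot n) y) ∨
      (inner ℝ (rot n) y < inner ℝ (rot n) w ∧ inner ℝ (rot n) w < inner ℝ (rot n) z)) :
    w ∈ interior F := by
  have hne : inner ℝ (rot n) y - inner ℝ (rot n) z ≠ 0 := by
    rcases h with h | h
    · have := h.1.trans h.2
      exact ne_of_gt (by linarith)
    · have := h.1.trans h.2
      exact ne_of_lt (by linarith)
  refine hF.openSegment_interior_self_subset_interior hz hy ?_
  refine ⟨(inner ℝ (rot n) y - inner ℝ (rot n) w) / (inner ℝ (rot n) y - inner ℝ (rot n) z),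
    (inner ℝ (rot n) w - inner ℝ (rot n) z) / (inner ℝ (rot n) y - inner ℝ (rot n) z), ?_, ?_, ?_, ?_⟩
  · rcases h with h | h
    · exact div_pos (by linarith) (by linarith)
    · exact div_pos_of_neg_of_neg (by linarith) (by linarith)
  · rcases h with h | h
    · exact div_pos (by linarith) (by linarith)
    · exact div_pos_of_neg_of_neg (by linarith) (by linarith)
  · rw [← add_div, div_eq_one_iff_eq hne]
    ring
  · have e1 := on_line hn hnz
    have e2 := on_line hn hny
    have e3 := on_line hn hnw
    generalize inner ℝ (rot n) z = p at *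
    generalize inner ℝ (rot n) y = q at *
    generalize inner ℝ (rot n) w = r at *
    rw [e1, e2, e3, smul_add, smul_add, smul_smul, smul_smul, smul_smul, smul_smul]
    have : (q - r) / (q - p) * b + (r - p) / (q - p) * b = b := by
      field_simp
      ring
    have h2 : (q - r) / (q - p) * p + (r - p) / (q - p) * q = r := by
      field_simp
      ring
    calc ((q - r) / (q - p) * b) • n + ((q - r) / (q - p) * p) • rot n +
          (((r - p) / (q - p) * b) • n + ((r - p) / (q - p) * q) • rot n)
        = ((q - r) / (q - p) * b + (r - p) / (q - p) * b) • n +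
          ((q - r) / (q - p) * p + (r - p) / (q - p) * q) • rot n := by
          rw [add_smul, add_smul]; abel
      _ = b • n + r • rot n := by rw [this, h2]

private theorem mem_segment_line {n A B y : E2} {b : ℝ} (hn : ‖n‖ = 1)
    (hnA : inner ℝ n A = b) (hnB : inner ℝ n B = b) (hny : inner ℝ n y = b)
    (h : inner ℝ (rot n) A < inner ℝ (rot n) B)
    (h1 : inner ℝ (rot n) A ≤ inner ℝ (rot n) y) (h2 : inner ℝ (rot n) y ≤ inner ℝ (rot n) B) :
    y ∈ segment ℝ A B := by
  have hpos : 0 < inner ℝ (rot n) B - inner ℝ (rot n) A := by linarith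
  refine ⟨(inner ℝ (rot n) B - inner ℝ (rot n) y) / (inner ℝ (rot n) B - inner ℝ (rot n) A),
    (inner ℝ (rot n) y - inner ℝ (rot n) A) / (inner ℝ (rot n) B - inner ℝ (rot n) A),
    div_nonneg (by linarith) hpos.le, div_nonneg (by linarith) hpos.le, ?_, ?_⟩
  · rw [← add_div, div_eq_one_iff_eq hpos.ne']
    ring
  · have e1 := on_line hn hnA
    have e2 := on_line hn hnB
    have e3 := on_line hn hny
    have hne := hpos.ne'
    generalize inner ℝ (rot n) A = p at *
    generalize inner ℝ (rot n) B = q at *
    generalize inner ℝ (rot n) y = r at *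
    rw [e1, e2, e3, smul_add, smul_add, smul_smul, smul_smul, smul_smul, smul_smul]
    have : (q - r) / (q - p) * b + (r - p) / (q - p) * b = b := by
      field_simp
      ring
    have h2 : (q - r) / (q - p) * p + (r - p) / (q - p) * q = r := by
      field_simp
      ring
    calc ((q - r) / (q - p) * b) • n + ((q - r) / (q - p) * p) • rot n +
          (((r - p) / (q - p) * b) • n + ((r - p) / (q - p) * q) • rot n)
        = ((q - r) / (q - p) * b + (r - p) / (q - p) * b) • n +
          ((q - r) / (q - p) * p + (r - p) / (q - p) * q) • rot n := by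
          rw [add_smul, add_smul]; abel
      _ = b • n + r • rot n := by rw [this, h2]

theorem line_sec {F : Set E2} (hF : Convex ℝ F) (hFc : IsCompact F) (hFi : (interior F).Nonempty)
    {n A B : E2} {b : ℝ} (hn : ‖n‖ = 1) (hA : A ∈ frontier F) (hB : B ∈ frontier F) (hAB : A ≠ B)
    (hnA : inner ℝ n A = b) (hnB : inner ℝ n B = b) (hup : ∃ y ∈ F, b < inner ℝ n y)
    (hdn : ∃ y ∈ F, inner ℝ n y < b) : {y | y ∈ F ∧ inner ℝ n y = b} = segment ℝ A B := by
  have hcl : F ⊆ closure (interior F) := by
    rw [hF.closure_interior_eq_closure_of_nonempty_interior hFi]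
    exact subset_closure
  have hcont : Continuous fun y : E2 => inner ℝ n y := continuous_const.inner continuous_id
  obtain ⟨y1, hy1, hy1b⟩ := hup
  obtain ⟨y2, hy2, hy2b⟩ := hdn
  obtain ⟨u, hu, hui⟩ := mem_closure_iff.1 (hcl hy1) {y | b < inner ℝ n y}
    (isOpen_lt continuous_const hcont) hy1b
  obtain ⟨d, hd, hdi⟩ := mem_closure_iff.1 (hcl hy2) {y | inner ℝ n y < b}
    (isOpen_lt hcont continuous_const) hy2b
  have hu' : b < inner ℝ n u := hu
  have hd' : inner ℝ n d < b := hd
  have hud : 0 < inner ℝ n u - inner ℝ n d := by linarith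
  -- the interior point of the line
  obtain ⟨z, hz, hnz⟩ : ∃ z ∈ interior F, inner ℝ n z = b := by
    refine ⟨((b - inner ℝ n d) / (inner ℝ n u - inner ℝ n d)) • u +
      ((inner ℝ n u - b) / (inner ℝ n u - inner ℝ n d)) • d,
      hF.interior hui hdi (div_nonneg (by linarith) hud.le) (div_nonneg (by linarith) hud.le) ?_, ?_⟩
    · rw [← add_div, div_eq_one_iff_eq hud.ne']
      ring
    · rw [inner_add_right, inner_smul_right, inner_smul_right]
      have := hud.ne'
      field_simp
      ring
  have hAF : A ∈ F := hFc.isClosed.frontier_subset hA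
  have hBF : B ∈ F := hFc.isClosed.frontier_subset hB
  have hAi : A ∉ interior F := hA.2
  have hBi : B ∉ interior F := hB.2
  have hτ : inner ℝ (rot n) A ≠ inner ℝ (rot n) B := by
    intro e
    apply hAB
    rw [on_line hn hnA, on_line hn hnB, e]
  have hAz : inner ℝ (rot n) A ≠ inner ℝ (rot n) z := by
    intro e
    apply hAi
    have : A = z := by rw [on_line hn hnA, on_line hn hnz, e]
    rw [this]; exact hz
  have hBz : inner ℝ (rot n) B ≠ inner ℝ (rot n) z := by
    intro e
    apply hBi
    have : B = z := by rw [on_line hn hnB, on_line hn hnz, e]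
    rw [this]; exact hz
  -- bounds
  have key : ∀ C : E2, C ∉ interior F → inner ℝ n C = b → ∀ y ∈ F, inner ℝ n y = b →
      (inner ℝ (rot n) C < inner ℝ (rot n) z → inner ℝ (rot n) C ≤ inner ℝ (rot n) y) ∧
      (inner ℝ (rot n) z < inner ℝ (rot n) C → inner ℝ (rot n) y ≤ inner ℝ (rot n) C) := by
    intro C hC hnC y hy hny
    constructor
    · intro h
      by_contra hlt
      exact hC (between_interior hF hn hz hy hnz hny hnC (Or.inr ⟨not_le.1 hlt, h⟩))
    · intro h
      by_contra hlt
      exact hC (between_interior hF hn hz hy hnz hny hnC (Or.inl ⟨h, not_le.1 hlt⟩))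
  apply Subset.antisymm
  · rintro y ⟨hy, hny⟩
    have kA := key A hAi hnA
    have kB := key B hBi hnB
    rcases lt_or_gt_of_ne hAz with h1 | h1
    · rcases lt_or_gt_of_ne hBz with h2 | h2
      · exact absurd (le_antisymm ((kA B hBF hnB).1 h1) ((kB A hAF hnA).1 h2)) hτ
      · exact mem_segment_line hn hnA hnB hny (h1.trans h2) ((kA y hy hny).1 h1)
          ((kB y hy hny).2 h2)
    · rcases lt_or_gt_of_ne hBz with h2 | h2
      · rw [segment_symm]
        exact mem_segment_line hn hnB hnA hny (h2.trans h1) ((kB y hy hny).1 h2)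
          ((kA y hy hny).2 h1)
      · exact absurd (le_antisymm ((kB A hAF hnA).2 h2) ((kA B hBF hnB).2 h1)) hτ
  · intro y hy
    refine ⟨hF.segment_subset hAF hBF hy, ?_⟩
    obtain ⟨s, t, _, _, hst, rfl⟩ := hy
    rw [inner_add_right, inner_smul_right, inner_smul_right, hnA, hnB, ← add_mul, hst, one_mul]

theorem line_sec_L {F L : Set E2} (hF : Convex ℝ F) (hFc : IsCompact F)
    (hFi : (interior F).Nonempty) (hL : Convex ℝ L)
    {n A B : E2} {b : ℝ} (hn : ‖n‖ = 1) (hA : A ∈ frontier F) (hB : B ∈ frontier F) (hAB : A ≠ B)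
    (hAL : A ∈ L) (hBL : B ∈ L)
    (hnA : inner ℝ n A = b) (hnB : inner ℝ n B = b) (hup : ∃ y ∈ F, b < inner ℝ n y)
    (hdn : ∃ y ∈ F, inner ℝ n y < b) :
    sec n F b = dist A B ∧ sec n (F ∩ L) b = dist A B := by
  have h := line_sec hF hFc hFi hn hA hB hAB hnA hnB hup hdn
  refine ⟨sec_eq_dist hn h, sec_eq_dist hn ?_⟩
  apply Subset.antisymm
  · rintro y ⟨hy, hny⟩
    rw [← h]
    exact ⟨hy.1, hny⟩
  · intro y hy
    have hy2 : y ∈ {y | y ∈ F ∧ inner ℝ n y = b} := by rw [h]; exact hy
    exact ⟨⟨hy2.1, hL.segment_subset hAL hBL hy⟩, hy2.2⟩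

end Pool.Agent.Lib.MP_43065d_gt
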