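import Pool.Agent.Lib.MP_43065d_gt.Pl.PairRatio

/-!
# Module NoThree (P5, second half): no three protruding edges

PROOF.  `u_ij = inner n_i y_i - inner n_i y_j > 0` for the six pairs.  The three points are not collinear: if `y_k = y_i + t • (y_j - y_i)` then one of the three points is a
convex combination of the other two (`t ∈ [0,1]`, `t > 1`, `t < 0`), say `y_m` of `y_i, y_j`; then `inner n_m y_m` is a convex combination of two smaller numbers.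
`pair_ratio` for `(1,2;3)`, `(2,3;1)`, `(3,1;2)`: with `X = u₁₃/u₁₂`, `Y = u₂₃/u₂₁`, `Z = u₃₁/u₃₂`:
`X + Y < 2`, `1/Y + Z < 2`, `1/Z + 1/X < 2`; the sum contradicts `X + 1/X ≥ 2` etc.
-/

open MeasureTheory Set Filter Topology Metric
open scoped ENNReal NNReal Pointwise

namespace Pool.Agent.Lib.MP_43065d_gt

private theorem nt_nc {n₁ y₁ n₂ y₂ n₃ y₃ : E2}
    (h13 : inner ℝ n₁ y₃ < inner ℝ n₁ y₁) (h12 : inner ℝ n₁ y₂ < inner ℝ n₁ y₁)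
    (h21 : inner ℝ n₂ y₁ < inner ℝ n₂ y₂) (h23 : inner ℝ n₂ y₃ < inner ℝ n₂ y₂)
    (h31 : inner ℝ n₃ y₁ < inner ℝ n₃ y₃) (h32 : inner ℝ n₃ y₂ < inner ℝ n₃ y₃) :
    ∀ t : ℝ, y₃ ≠ y₁ + t • (y₂ - y₁) := by
  intro t ht
  have e : ∀ n : E2, inner ℝ n y₃ = inner ℝ n y₁ + t * (inner ℝ n y₂ - inner ℝ n y₁) := by
    intro n
    rw [ht, inner_add_right, real_inner_smul_right, inner_sub_right]
  have e1 := e n₁
  have e2 := e n₂
  have e3 := e n₃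
  have t0 : 0 < t := by
    by_contra hc
    have : 0 ≤ -t * (inner ℝ n₁ y₁ - inner ℝ n₁ y₂) :=
      mul_nonneg (by linarith [not_lt.1 hc]) (by linarith)
    nlinarith
  have t1 : t < 1 := by
    by_contra hc
    have : 0 ≤ (t - 1) * (inner ℝ n₂ y₂ - inner ℝ n₂ y₁) :=
      mul_nonneg (by linarith [not_lt.1 hc]) (by linarith)
    nlinarith
  have h1 : 0 < (1 - t) * (inner ℝ n₃ y₃ - inner ℝ n₃ y₁) :=
    mul_pos (by linarith) (by linarith)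
  have h2 : 0 < t * (inner ℝ n₃ y₃ - inner ℝ n₃ y₂) := mul_pos t0 (by linarith)
  nlinarith

private theorem nt_amgm {a b : ℝ} (ha : 0 < a) (hb : 0 < b) : 2 ≤ a / b + b / a := by
  rw [div_add_div _ _ hb.ne' ha.ne', le_div_iff₀ (by positivity)]
  nlinarith [sq_nonneg (a - b)]

theorem no_three {F L : Set E2} {x : ℝ} (h : PN F L x) {n₁ y₁ n₂ y₂ n₃ y₃ : E2}
    (e₁ : EdgeAt F L n₁ y₁) (e₂ : EdgeAt F L n₂ y₂) (e₃ : EdgeAt F L n₃ y₃)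
    (h12 : inner ℝ n₁ y₂ < inner ℝ n₁ y₁) (h13 : inner ℝ n₁ y₃ < inner ℝ n₁ y₁)
    (h21 : inner ℝ n₂ y₁ < inner ℝ n₂ y₂) (h23 : inner ℝ n₂ y₃ < inner ℝ n₂ y₂)
    (h31 : inner ℝ n₃ y₁ < inner ℝ n₃ y₃) (h32 : inner ℝ n₃ y₂ < inner ℝ n₃ y₃) : False := by
  have m₁ : y₁ ∈ F ∩ L := ⟨e₁.mem, interior_subset e₁.int⟩
  have m₂ : y₂ ∈ F ∩ L := ⟨e₂.mem, interior_subset e₂.int⟩
  have m₃ : y₃ ∈ F ∩ L := ⟨e₃.mem, interior_subset e₃.int⟩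
  have r1 := pair_ratio h e₁ e₂ m₃ h12 h21 (nt_nc h13 h12 h21 h23 h31 h32)
  have r2 := pair_ratio h e₂ e₃ m₁ h23 h32 (nt_nc h21 h23 h32 h31 h12 h13)
  have r3 := pair_ratio h e₃ e₁ m₂ h31 h13 (nt_nc h32 h31 h13 h12 h23 h21)
  have a1 := nt_amgm (sub_pos.2 h13) (sub_pos.2 h12)
  have a2 := nt_amgm (sub_pos.2 h23) (sub_pos.2 h21)
  have a3 := nt_amgm (sub_pos.2 h31) (sub_pos.2 h32)
  linarith

end Pool.Agent.Lib.MP_43065d_gt
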