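import Pool.Agent.Lib.MP_43065d_gt.Defs

/-!
# MP_43065d_gt, planar lemma: definitions

Complete paper proof: team store `MP_43065d_planar.md`.
-/

open MeasureTheory Set Filter Topology Metric
open scoped ENNReal NNReal Pointwise

namespace Pool.Agent.Lib.MP_43065d_gt

/-- rotation by 90 degrees -/
noncomputable def rot (n : E2) : E2 := !₂[-(n 1), n 0]

/-- length of the section of `S` at height `s` in the direction `n` (for a unit vector `n`) -/
noncomputable def sec (n : E2) (S : Set E2) (s : ℝ) : ℝ :=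
  volume.real {t : ℝ | s • n + t • rot n ∈ S}

/-- maximum of the linear functional `n` on `S` -/
noncomputable def hi (n : E2) (S : Set E2) : ℝ := sSup ((fun y => inner ℝ n y) '' S)

/-- minimum of the linear functional `n` on `S` -/
noncomputable def lo (n : E2) (S : Set E2) : ℝ := sInf ((fun y => inner ℝ n y) '' S)

/-- Normalised planar configuration: `F` convex of area one with centroid `0`, `G = F ∩ L` of area
`x ^ 2 ≤ 1 / 4` with centroid `0`, and condition (C) (`cut`). -/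
structure PN (F L : Set E2) (x : ℝ) : Prop where
  convF : Convex ℝ F
  cptF : IsCompact F
  volF : volume.real F = 1
  momF : ∀ v : E2, ∫ y in F, inner ℝ v y = 0
  convL : Convex ℝ L
  closedL : IsClosed L
  x_pos : 0 < x
  x_le : x ≤ 1 / 2
  volG : volume.real (F ∩ L) = x ^ 2
  momG : ∀ v : E2, ∫ y in F ∩ L, inner ℝ v y = 0
  cut : ∀ (v : E2) (b : ℝ), ∫ y in F ∩ L, max (inner ℝ v y - b) 0 ≤
    x ^ 2 * ∫ y in F, max (inner ℝ v y - b) 0

/-- `y` is a boundary point of `F` in the interior of `L`, `n` supports `F` at `y` and `y` is in the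
relative interior of the edge of `F` with normal `n`. -/
structure EdgeAt (F L : Set E2) (n y : E2) : Prop where
  unit : ‖n‖ = 1
  mem : y ∈ F
  int : y ∈ interior L
  supp : ∀ z ∈ F, inner ℝ n z ≤ inner ℝ n y
  edge : ∃ ρ : ℝ, 0 < ρ ∧ y + ρ • rot n ∈ F ∧ y - ρ • rot n ∈ F

/-- A protruding edge: `L` leaves `F` through the line `⟪n, z⟫ = a`. -/
structure GEdge (F L : Set E2) (n : E2) (a : ℝ) : Prop where
  unit : ‖n‖ = 1
  pos : 0 < a
  le : ∀ z ∈ F, inner ℝ n z ≤ a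
  ex : ∃ z ∈ F ∩ L, inner ℝ n z = a
  chord : ∀ z ∈ L, inner ℝ n z = a → z ∈ F
  len : 0 < sec n L a

/-- The family `N_τ`, `τ ≥ 1`. -/
structure Fam (F L : Set E2) (N : ℝ → Set E2) : Prop where
  cpt : ∀ τ : ℝ, 1 ≤ τ → IsCompact (N τ)
  one : N 1 = F ∩ L
  sub : ∀ τ : ℝ, 1 ≤ τ → ∀ z ∈ N τ, τ⁻¹ • z ∈ F
  comb : ∀ s t : ℝ, 1 ≤ s → 1 ≤ t → ∀ z ∈ N s, ∀ w ∈ N t, ∀ μ ∈ Icc (0 : ℝ) 1,
    (1 - μ) • z + μ • w ∈ N ((1 - μ) * s + μ * t)
  incl : ∀ e : ℝ, 0 ≤ e → ∀ z ∈ N (1 + 2 * e), ∀ y ∈ F, (1 + e)⁻¹ • (z - e • y) ∈ L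

/-- lower bound of the normalised section function of `F` -/
noncomputable def phi (c u : ℝ) : ℝ := if u ≤ 1 / 2 then 4 * c + (2 - 8 * c) * u else 2 * (1 - u)

/-- bound for the area of the part of `N_τ` beyond the cut -/
noncomputable def cost (t c τ : ℝ) : ℝ≥0∞ :=
  ∫⁻ u in Ioo (0 : ℝ) (1 - c),
    ENNReal.ofReal ((τ - 1) / 2 * (t * c - (τ - 1) / 2 * (phi c u - t * c)))

/-- width of `F` in direction `n` (for an edge) -/
noncomputable def eW (F : Set E2) (n : E2) (a : ℝ) : ℝ := a - lo n F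

/-- normalised chord length -/
noncomputable def eC (F L : Set E2) (x : ℝ) (n : E2) (a : ℝ) : ℝ := sec n L a * eW F n a / (2 * x)

/-- normalised height of `G` -/
noncomputable def eH (F L : Set E2) (x : ℝ) (n : E2) (a : ℝ) : ℝ :=
  (a - lo n (F ∩ L)) / (2 * x * eW F n a)

/-- normalised section function of `F`, measured from the edge -/
noncomputable def eF (F : Set E2) (n : E2) (a u : ℝ) : ℝ := eW F n a * sec n F (a - eW F n a * u)

/-- the path bound, normalised -/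
noncomputable def eJ (F L : Set E2) (x : ℝ) (n : E2) (a r : ℝ) : ℝ :=
  eC F L x n a * (1 - r) + eH F L x n a / r * (∫ u in (0 : ℝ)..r, eF F n a u) +
    r / (4 * eH F L x n a)

/-- height of the cut at `τ` -/
noncomputable def lev (F L : Set E2) (x : ℝ) (n : E2) (a τ : ℝ) : ℝ :=
  a + (τ - 1) * (a - eW F n a * (1 - eC F L x n a) / 2)

/-- the cut family -/
noncomputable def Ncut (F L : Set E2) (x : ℝ) (N : ℝ → Set E2) (n₁ : E2) (a₁ : ℝ) (n₂ : E2)
    (a₂ τ : ℝ) : Set E2 :=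
  {z | z ∈ N τ ∧ inner ℝ n₁ z ≤ lev F L x n₁ a₁ τ ∧ inner ℝ n₂ z ≤ lev F L x n₂ a₂ τ}

/-- The configuration of the planar lemma (with condition (C), field `cx`; same fields as `PConfC`). -/
structure PQ (F : Set E2) (q : E2 → ℝ) : Prop where
  convex : Convex ℝ F
  isCompact : IsCompact F
  interior_nonempty : (interior F).Nonempty
  q_convex : ConvexOn ℝ univ q
  q_lip : ∃ L : ℝ≥0, LipschitzWith L q
  q_pos : ∀ y, 0 < q y
  key : ∀ x, q x ≤ 1 → ∀ y ∈ F,
    q ((1 + (1 - q x) / (1 + q x)) • x - ((1 - q x) / (1 + q x)) • y) ≤ 1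
  pos : 0 < volume.real (F ∩ {y | q y ≤ 1})
  area : 4 * volume.real (F ∩ {y | q y ≤ 1}) ≤ volume.real F
  moment : ∀ v : E2, volume.real F * ∫ y in F ∩ {y | q y ≤ 1}, inner ℝ v y =
    volume.real (F ∩ {y | q y ≤ 1}) * ∫ y in F, inner ℝ v y
  cx : ∀ (v : E2) (c : ℝ),
    volume.real F * ∫ y in F ∩ {y | q y ≤ 1}, max (inner ℝ v y + c) 0 ≤
      volume.real (F ∩ {y | q y ≤ 1}) * ∫ y in F, max (inner ℝ v y + c) 0

/-- normalised configuration with `q` -/
structure QN (F : Set E2) (q : E2 → ℝ) (x : ℝ) : Prop where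
  pn : PN F {y | q y ≤ 1} x
  q_convex : ConvexOn ℝ univ q
  q_cont : Continuous q
  q_pos : ∀ y, 0 < q y
  key : ∀ z, q z ≤ 1 → ∀ y ∈ F,
    q ((1 + (1 - q z) / (1 + q z)) • z - ((1 - q z) / (1 + q z)) • y) ≤ 1

/-- `N_τ` for the gauge `q` -/
def NQ (F : Set E2) (q : E2 → ℝ) (τ : ℝ) : Set E2 := {z | τ⁻¹ • z ∈ F ∧ τ * q (τ⁻¹ • z) ≤ 1}

end Pool.Agent.Lib.MP_43065d_gt
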