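import Pool.Agent.Lib.MP_43065d_gt.Pl.Bulge
import Pool.Agent.Lib.MP_43065d_gt.Pl.SuppUniq

/-!
# Module PairRatio (P5, first half)

PROOF.  `y₁ ≠ y₂` (by `h12`).  Let `n` be the unit vector orthogonal to `y₂ - y₁` with `inner n y₃ < β := inner n y₁ = inner n y₂` (possible: `y₃` is not on the line, change the sign of
`n`).  `H = β - inner n y₃ > 0`, `χ = dist y₁ y₂ > 0`.  `y₁, y₂` are boundary points of `F` (`supp` and `n_i ≠ 0`) and in `L`.
(1) There is a point of `F ∩ L` strictly above the line: `y₁ ± s • rot n₁ ∈ F ∩ L` for small `s > 0` (`edge`, convexity, `int`), and `inner n (rot n₁) ≠ 0` (otherwise `rot n₁` is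
parallel to `y₂ - y₁`, so `inner n₁ (y₂ - y₁) = 0`, against `h12`).
(2) Area: `χ H/2 < x² ≤ 1/4`.  `G = F ∩ L` is compact convex; `sec n G β ≥ χ` (`sec_ge_dist`), so `sec n G (β-u) ≥ χ (1-u/H)` for `0 ≤ u ≤ H` (`y₃ ∈ G` at height `β-H`, concavity), and
above the line `sec n G` is positive on a nontrivial interval (concavity, point above from (1)): `x² = volume.real G ≥ χH/2 + positive`.
(3) `no_bulge` (points above: (1), below: `y₃`): `1/4 ≤ p := volume.real {y ∈ F | β < inner n y}`.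
(4) `ρ := u₁₃/u₁₂ + u₂₃/u₂₁` with `u₁₃ = inner n₁ y₁ - inner n₁ y₃` etc.  For `v ≥ 0`: `sec n F (β+v) ≤ max (χ (1-(ρ-1)v/H)) 0`.  A point `z ∈ F` at height `β+v` is
`z = y₁ + θ (y₂-y₁) - (v/H)(y₃ - y₁)` for a real `θ` (the height of `y₁ + θ(y₂-y₁) - (v/H)(y₃-y₁)` is `β + v`, and `y₂ - y₁` spans the line direction), and the length of the section is
`χ` times the length of the set of `θ`.  `0 ≤ inner n₁ y₁ - inner n₁ z = θ u₁₂ - (v/H) u₁₃`, so `θ ≥ (v/H) u₁₃/u₁₂`; and
`0 ≤ inner n₂ y₂ - inner n₂ z`: `z - y₂ = (1-θ+v/H)(y₁-y₂) - (v/H)(y₃-y₂)`, so `1-θ+v/H ≥ (v/H) u₂₃/u₂₁`.  Hence `θ` is in an interval of length `≤ 1+v/H-ρv/H`.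
(5) If `ρ ≥ 2`: `1/4 ≤ p ≤ ∫_0^∞ max (χ(1-(ρ-1)v/H)) 0 dv = χH/(2(ρ-1)) ≤ χH/2 < 1/4`, contradiction.
-/

open MeasureTheory Set Filter Topology Metric
open scoped ENNReal NNReal Pointwise

namespace Pool.Agent.Lib.MP_43065d_gt

private theorem pr_rot_smul (c : ℝ) (a : E2) : rot (c • a) = c • rot a := by
  ext i; fin_cases i <;> simp [rot]

private theorem pr_rot_rot (a : E2) : rot (rot a) = -a := by
  ext i; fin_cases i <;> simp [rot]

private theorem pr_inner (a b : E2) : inner ℝ a b = a 0 * b 0 + a 1 * b 1 := by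
  simp [PiLp.inner_apply, Fin.sum_univ_two, mul_comm]

private theorem pr_inner_rot_rot (a b : E2) : inner ℝ (rot a) (rot b) = inner ℝ a b := by
  rw [pr_inner, pr_inner]; simp [rot]; ring

private theorem pr_coord2 {e : E2} (he : ‖e‖ = 1) (s t : ℝ) :
    inner ℝ (rot e) (s • e + t • rot e) = t := by
  rw [inner_add_right, inner_smul_right, inner_smul_right, pr_inner_rot_rot,
    real_inner_self_eq_norm_sq, he, real_inner_comm, inner_rot]
  ring

private theorem pr_lint_ftc {a b : ℝ} (hab : a ≤ b) {F f : ℝ → ℝ}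
    (hF : ∀ x ∈ Icc a b, HasDerivAt F (f x) x) (hf : ContinuousOn f (Icc a b))
    (h0 : ∀ x ∈ Icc a b, 0 ≤ f x) :
    ∫⁻ x in Ioc a b, ENNReal.ofReal (f x) = ENNReal.ofReal (F b - F a) := by
  have hi : IntervalIntegrable f volume a b := by
    apply ContinuousOn.intervalIntegrable
    rwa [uIcc_of_le hab]
  have hint : IntegrableOn f (Ioc a b) :=
    (intervalIntegrable_iff_integrableOn_Ioc_of_le hab).1 hi
  rw [← ofReal_integral_eq_lintegral_ofReal hint, ← intervalIntegral.integral_of_le hab,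
    intervalIntegral.integral_eq_sub_of_hasDerivAt (fun x hx => hF x (by rwa [uIcc_of_le hab] at hx))
      hi]
  refine (ae_restrict_iff' measurableSet_Ioc).2 (Eventually.of_forall fun x hx => ?_)
  exact h0 x (Ioc_subset_Icc_self hx)

private theorem pr_up {a b χ : ℝ} (hab : a < b) :
    ∫ s in a..b, χ * ((s - a) / (b - a)) = χ * (b - a) / 2 := by
  have hd : b - a ≠ 0 := by linarith
  rw [intervalIntegral.integral_eq_sub_of_hasDerivAt
    (f := fun s => χ * ((s - a) ^ 2 / (2 * (b - a))))]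
  · field_simp
    ring
  · intro s _
    have e1 : HasDerivAt (fun s : ℝ => s - a) 1 s := (hasDerivAt_id s).sub_const a
    have e2 : HasDerivAt (fun s : ℝ => χ * ((s - a) ^ 2 / (2 * (b - a)))) _ s :=
      ((e1.pow 2).div_const (2 * (b - a))).const_mul χ
    refine e2.congr_deriv ?_
    norm_num
    left
    field_simp
  · exact (Continuous.intervalIntegrable (by fun_prop) _ _)

private theorem pr_down {a b χ : ℝ} (hab : a < b) :
    ∫ s in a..b, χ * ((b - s) / (b - a)) = χ * (b - a) / 2 := by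
  have hd : b - a ≠ 0 := by linarith
  rw [intervalIntegral.integral_eq_sub_of_hasDerivAt
    (f := fun s => χ * (-(b - s) ^ 2 / (2 * (b - a))))]
  · field_simp
    ring
  · intro s _
    have e1 : HasDerivAt (fun s : ℝ => b - s) (-1) s := (hasDerivAt_id s).const_sub b
    have e2 : HasDerivAt (fun s : ℝ => χ * (-(b - s) ^ 2 / (2 * (b - a)))) _ s :=
      (((e1.pow 2).neg).div_const (2 * (b - a))).const_mul χ
    refine e2.congr_deriv ?_
    norm_num
    left
    field_simp
  · exact (Continuous.intervalIntegrable (by fun_prop) _ _)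

/-- support points are boundary points -/
private theorem pr_frontier {F : Set E2} {n y : E2} (hn : ‖n‖ = 1) (hy : y ∈ F)
    (hs : ∀ z ∈ F, inner ℝ n z ≤ inner ℝ n y) : y ∈ frontier F := by
  refine ⟨subset_closure hy, fun hint => ?_⟩
  obtain ⟨η, hη, hηF⟩ := Metric.isOpen_iff.1 isOpen_interior _ hint
  have h1 : y + (η / 2) • n ∈ F := by
    refine interior_subset (hηF ?_)
    rw [mem_ball, dist_eq_norm, add_sub_cancel_left, norm_smul, hn, mul_one, Real.norm_eq_abs,
      abs_of_pos (by linarith)]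
    linarith
  have h2 := hs _ h1
  rw [inner_add_right, inner_smul_right, real_inner_self_eq_norm_sq, hn] at h2
  linarith

theorem pair_ratio {F L : Set E2} {x : ℝ} (h : PN F L x) {n₁ y₁ n₂ y₂ y₃ : E2}
    (e₁ : EdgeAt F L n₁ y₁) (e₂ : EdgeAt F L n₂ y₂) (h₃ : y₃ ∈ F ∩ L)
    (h12 : inner ℝ n₁ y₂ < inner ℝ n₁ y₁) (h21 : inner ℝ n₂ y₁ < inner ℝ n₂ y₂)
    (hnc : ∀ t : ℝ, y₃ ≠ y₁ + t • (y₂ - y₁)) :
    (inner ℝ n₁ y₁ - inner ℝ n₁ y₃) / (inner ℝ n₁ y₁ - inner ℝ n₁ y₂) +
      (inner ℝ n₂ y₂ - inner ℝ n₂ y₃) / (inner ℝ n₂ y₂ - inner ℝ n₂ y₁) < 2 := by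
  have hne : y₁ ≠ y₂ := by
    rintro rfl
    exact lt_irrefl _ h12
  obtain ⟨χ, hχ⟩ : ∃ χ : ℝ, χ = ‖y₂ - y₁‖ := ⟨_, rfl⟩
  have hχ0 : 0 < χ := by rw [hχ]; exact norm_pos_iff.2 (sub_ne_zero.2 hne.symm)
  -- the normal vector `n = κ • rot (y₂ - y₁)`
  have hrD : ‖rot (y₂ - y₁)‖ = χ := by rw [norm_rot, hχ]
  have hn₀ : inner ℝ (rot (y₂ - y₁)) (y₃ - y₁) ≠ 0 := by
    intro h0
    have hunit : ‖χ⁻¹ • (y₂ - y₁)‖ = 1 := by
      rw [norm_smul, norm_inv, Real.norm_eq_abs, abs_of_pos hχ0, ← hχ, inv_mul_cancel₀ hχ0.ne']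
    have hc := coord hunit (y₃ - y₁)
    have h5 : inner ℝ (rot (χ⁻¹ • (y₂ - y₁))) (y₃ - y₁) = 0 := by
      rw [pr_rot_smul, inner_smul_left, h0, mul_zero]
    rw [h5, zero_smul, add_zero, smul_smul] at hc
    refine hnc (inner ℝ (χ⁻¹ • (y₂ - y₁)) (y₃ - y₁) * χ⁻¹) ?_
    rw [← hc]
    abel
  obtain ⟨κ, hκa, hκ⟩ : ∃ κ : ℝ, |κ| = χ⁻¹ ∧ κ * inner ℝ (rot (y₂ - y₁)) (y₃ - y₁) < 0 := by
    rcases lt_or_gt_of_ne hn₀ with h0 | h0
    · exact ⟨χ⁻¹, abs_of_pos (inv_pos.2 hχ0), mul_neg_of_pos_of_neg (inv_pos.2 hχ0) h0⟩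
    · refine ⟨-χ⁻¹, by rw [abs_neg]; exact abs_of_pos (inv_pos.2 hχ0), ?_⟩
      have := mul_pos (inv_pos.2 hχ0) h0
      linarith
  obtain ⟨n, hn⟩ : ∃ n : E2, n = κ • rot (y₂ - y₁) := ⟨_, rfl⟩
  have hn1 : ‖n‖ = 1 := by
    rw [hn, norm_smul, Real.norm_eq_abs, hκa, hrD, inv_mul_cancel₀ hχ0.ne']
  have hrotn : rot n = (-κ) • (y₂ - y₁) := by
    rw [hn, pr_rot_smul, pr_rot_rot, smul_neg, neg_smul]
  obtain ⟨β, hβ⟩ : ∃ β : ℝ, β = inner ℝ n y₁ := ⟨_, rfl⟩
  have hnD : inner ℝ n (y₂ - y₁) = 0 := by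
    rw [hn, inner_smul_left, real_inner_comm, inner_rot, mul_zero]
  have hn2 : inner ℝ n y₂ = β := by
    rw [inner_sub_right] at hnD
    rw [hβ]
    linarith
  obtain ⟨H, hH⟩ : ∃ H : ℝ, H = β - inner ℝ n y₃ := ⟨_, rfl⟩
  have hH0 : 0 < H := by
    have h1 : inner ℝ n (y₃ - y₁) < 0 := by
      rw [hn, inner_smul_left]
      exact hκ
    rw [inner_sub_right] at h1
    rw [hH, hβ]
    linarith
  have hn3 : inner ℝ n y₃ = β - H := by rw [hH]; ring
  have hy₁L : y₁ ∈ L := interior_subset e₁.int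
  have hy₂L : y₂ ∈ L := interior_subset e₂.int
  have hfr₁ := pr_frontier e₁.unit e₁.mem e₁.supp
  have hfr₂ := pr_frontier e₂.unit e₂.mem e₂.supp
  -- (1) a point above the line
  have hnr : inner ℝ n (rot n₁) ≠ 0 := by
    intro h0
    have hc := coord hn1 (rot n₁)
    rw [h0, zero_smul, zero_add, hrotn, smul_smul] at hc
    have h1 : inner ℝ n₁ (rot n₁) = 0 := inner_rot n₁
    rw [hc, inner_smul_right] at h1
    rcases mul_eq_zero.1 h1 with h2 | h2
    · rw [h2, zero_smul] at hc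
      have h3 : ‖rot n₁‖ = 0 := by rw [hc, norm_zero]
      rw [norm_rot, e₁.unit] at h3
      exact one_ne_zero h3
    · rw [inner_sub_right] at h2
      linarith
  obtain ⟨P, hPF, hPL, hPβ⟩ : ∃ P : E2, P ∈ F ∧ P ∈ L ∧ β < inner ℝ n P := by
    obtain ⟨ρ, hρ, hρ1, hρ2⟩ := e₁.edge
    obtain ⟨ε, hε, hεL⟩ := Metric.isOpen_iff.1 isOpen_interior y₁ e₁.int
    have key : ∀ σ : ℝ, |σ| = 1 → y₁ + (σ * ρ) • rot n₁ ∈ F → 0 < σ * inner ℝ n (rot n₁) →
        ∃ P : E2, P ∈ F ∧ P ∈ L ∧ β < inner ℝ n P := by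
      intro σ hσ hσF hσp
      obtain ⟨s, hs0, hsρ, hsε⟩ : ∃ s : ℝ, 0 < s ∧ s ≤ ρ ∧ s < ε :=
        ⟨min ρ (ε / 2), lt_min hρ (by linarith), min_le_left _ _,
          (min_le_right _ _).trans_lt (by linarith)⟩
      refine ⟨y₁ + (σ * s) • rot n₁, ?_, ?_, ?_⟩
      · have h1 := h.convF e₁.mem hσF (a := 1 - s / ρ) (b := s / ρ)
          (by have := (div_le_one hρ).2 hsρ; linarith) (by positivity) (by ring)
        convert h1 using 1
        rw [smul_add, ← add_assoc, ← add_smul, smul_smul]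
        have h2 : 1 - s / ρ + s / ρ = 1 := by ring
        have h3 : s / ρ * (σ * ρ) = σ * s := by field_simp
        rw [h2, h3, one_smul]
      · refine interior_subset (hεL ?_)
        rw [mem_ball, dist_eq_norm, add_sub_cancel_left, norm_smul, norm_rot, e₁.unit, mul_one,
          Real.norm_eq_abs, abs_mul, hσ, one_mul, abs_of_pos hs0]
        exact hsε
      · rw [inner_add_right, inner_smul_right, ← hβ]
        have h1 : σ * s * inner ℝ n (rot n₁) = s * (σ * inner ℝ n (rot n₁)) := by ring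
        have h2 := mul_pos hs0 hσp
        rw [h1]
        linarith
    rcases lt_or_gt_of_ne hnr with h0 | h0
    · refine key (-1) (by norm_num) ?_ (by linarith)
      have h1 : y₁ + (-1 * ρ) • rot n₁ = y₁ - ρ • rot n₁ := by
        rw [neg_one_mul, neg_smul, sub_eq_add_neg]
      rw [h1]
      exact hρ2
    · refine key 1 (by norm_num) ?_ (by linarith)
      rw [one_mul]
      exact hρ1
  -- (2) area of `G`
  have hGc : IsCompact (F ∩ L) := h.cptF.inter_right h.closedL
  have hGconv : Convex ℝ (F ∩ L) := h.convF.inter h.convL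
  have harea : χ * H / 2 < x ^ 2 := by
    obtain ⟨W, hW⟩ : ∃ W : ℝ, W = inner ℝ n P - β := ⟨_, rfl⟩
    have hW0 : 0 < W := by rw [hW]; linarith
    have hnP : inner ℝ n P = β + W := by rw [hW]; ring
    have hm1 := mem_Icc_lo_hi n hGc (y := y₁) ⟨e₁.mem, hy₁L⟩
    have hm3 := mem_Icc_lo_hi n hGc (y := y₃) h₃
    have hmP := mem_Icc_lo_hi n hGc (y := P) ⟨hPF, hPL⟩
    rw [← hβ] at hm1
    rw [hn3] at hm3
    rw [hnP] at hmP
    have hconc := sec_concave hn1 hGconv hGc
    have hχsec : χ ≤ sec n (F ∩ L) β := by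
      have h1 := sec_ge_dist hn1 hGconv hGc.isBounded (A := y₁) (B := y₂) (s := β)
        ⟨e₁.mem, hy₁L⟩ ⟨e₂.mem, hy₂L⟩ hβ.symm hn2
      rwa [dist_comm, dist_eq_norm, ← hχ] at h1
    have hlow : ∀ s ∈ Icc (β - H) β, χ * ((s - (β - H)) / (β - (β - H))) ≤
        sec n (F ∩ L) s := by
      intro s hs
      have ha : 0 ≤ (β - s) / H := div_nonneg (by linarith [hs.2]) hH0.le
      have hb : 0 ≤ (s - (β - H)) / H := div_nonneg (by linarith [hs.1]) hH0.le
      have hab : (β - s) / H + (s - (β - H)) / H = 1 := by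
        field_simp
        ring
      have h1 := hconc.2 hm3 hm1 ha hb hab
      simp only [smul_eq_mul] at h1
      have h2 : (β - s) / H * (β - H) + (s - (β - H)) / H * β = s := by
        field_simp
        ring
      rw [h2] at h1
      have h3 : β - (β - H) = H := by ring
      rw [h3]
      have h4 : 0 ≤ (β - s) / H * sec n (F ∩ L) (β - H) :=
        mul_nonneg (div_nonneg (by linarith [hs.2]) hH0.le) (sec_nonneg _ _ _)
      have h5 : 0 ≤ (s - (β - H)) / H := div_nonneg (by linarith [hs.1]) hH0.le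
      have h6 := mul_le_mul_of_nonneg_left hχsec h5
      linarith
    have hupp : ∀ s ∈ Icc β (β + W), χ * ((β + W - s) / (β + W - β)) ≤
        sec n (F ∩ L) s := by
      intro s hs
      have ha : 0 ≤ (β + W - s) / W := div_nonneg (by linarith [hs.2]) hW0.le
      have hb : 0 ≤ (s - β) / W := div_nonneg (by linarith [hs.1]) hW0.le
      have hab : (β + W - s) / W + (s - β) / W = 1 := by
        field_simp
        ring
      have h1 := hconc.2 hm1 hmP ha hb hab
      simp only [smul_eq_mul] at h1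
      have h2 : (β + W - s) / W * β + (s - β) / W * (β + W) = s := by
        field_simp
        ring
      rw [h2] at h1
      have h3 : β + W - β = W := by ring
      rw [h3]
      have h4 : 0 ≤ (s - β) / W * sec n (F ∩ L) (β + W) :=
        mul_nonneg (div_nonneg (by linarith [hs.1]) hW0.le) (sec_nonneg _ _ _)
      have h5 : 0 ≤ (β + W - s) / W := div_nonneg (by linarith [hs.2]) hW0.le
      have h6 := mul_le_mul_of_nonneg_left hχsec h5
      linarith
    have hint := integrable_sec hn1 hGc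
    have hI : ∀ a b : ℝ, IntervalIntegrable (sec n (F ∩ L)) volume a b := fun a b =>
      hint.intervalIntegrable
    rw [← h.volG, volume_real_sec hn1 hGc]
    have hmono : ∫ s in (β - H)..(β + W), sec n (F ∩ L) s ≤
        ∫ s in (lo n (F ∩ L))..(hi n (F ∩ L)), sec n (F ∩ L) s :=
      intervalIntegral.integral_mono_interval hm3.1 (by linarith) hmP.2
        (Eventually.of_forall fun s => sec_nonneg _ _ _) (hI _ _)
    refine lt_of_lt_of_le ?_ hmono
    rw [← intervalIntegral.integral_add_adjacent_intervals (hI (β - H) β) (hI β (β + W))]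
    have hA := intervalIntegral.integral_mono_on (by linarith)
      (Continuous.intervalIntegrable (by fun_prop) _ _) (hI (β - H) β) hlow
    have hB := intervalIntegral.integral_mono_on (by linarith)
      (Continuous.intervalIntegrable (by fun_prop) _ _) (hI β (β + W)) hupp
    rw [pr_up (by linarith)] at hA
    rw [pr_down (by linarith)] at hB
    have hχW : 0 < χ * W := mul_pos hχ0 hW0
    have e1 : χ * (β - (β - H)) / 2 = χ * H / 2 := by ring
    have e2 : χ * (β + W - β) / 2 = χ * W / 2 := by ring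
    rw [e1] at hA
    rw [e2] at hB
    linarith
  have hx4 : x ^ 2 ≤ 1 / 4 := by nlinarith [h.x_pos, h.x_le]
  -- (3)
  have hbulge := no_bulge h hn1 hfr₁ hfr₂ hne hy₁L hy₂L hβ.symm hn2 ⟨P, hPF, hPβ⟩
    ⟨y₃, h₃.1, by rw [hn3]; linarith⟩
  -- (4), (5)
  by_contra hcon
  rw [not_lt] at hcon
  obtain ⟨r₁, hr₁⟩ : ∃ r₁ : ℝ, r₁ = (inner ℝ n₁ y₁ - inner ℝ n₁ y₃) /
    (inner ℝ n₁ y₁ - inner ℝ n₁ y₂) := ⟨_, rfl⟩
  obtain ⟨r₂, hr₂⟩ : ∃ r₂ : ℝ, r₂ = (inner ℝ n₂ y₂ - inner ℝ n₂ y₃) /
    (inner ℝ n₂ y₂ - inner ℝ n₂ y₁) := ⟨_, rfl⟩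
  rw [← hr₁, ← hr₂] at hcon
  have hu12 : 0 < inner ℝ n₁ y₁ - inner ℝ n₁ y₂ := by linarith
  have hu21 : 0 < inner ℝ n₂ y₂ - inner ℝ n₂ y₁ := by linarith
  have hr₁' : r₁ * (inner ℝ n₁ y₁ - inner ℝ n₁ y₂) = inner ℝ n₁ y₁ - inner ℝ n₁ y₃ := by
    rw [hr₁, div_mul_cancel₀ _ hu12.ne']
  have hr₂' : r₂ * (inner ℝ n₂ y₂ - inner ℝ n₂ y₁) = inner ℝ n₂ y₂ - inner ℝ n₂ y₃ := by
    rw [hr₂, div_mul_cancel₀ _ hu21.ne']
  -- the parameter `θ`
  have hθ : ∀ z ∈ F, ∀ v : ℝ, 0 ≤ v → inner ℝ n z = β + v →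
      v / H * r₁ ≤ -κ * inner ℝ (rot n) (z - y₁ + (v / H) • (y₃ - y₁)) ∧
      -κ * inner ℝ (rot n) (z - y₁ + (v / H) • (y₃ - y₁)) ≤ 1 + v / H - v / H * r₂ := by
    intro z hz v hv hnz
    obtain ⟨θ, hθd⟩ : ∃ θ : ℝ, θ = -κ * inner ℝ (rot n) (z - y₁ + (v / H) • (y₃ - y₁)) :=
      ⟨_, rfl⟩
    rw [← hθd]
    have hw0 : inner ℝ n (z - y₁ + (v / H) • (y₃ - y₁)) = 0 := by
      rw [inner_add_right, inner_smul_right, inner_sub_right, inner_sub_right, hnz, hn3, ← hβ]
      field_simp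
      ring
    have hc := coord hn1 (z - y₁ + (v / H) • (y₃ - y₁))
    rw [hw0, zero_smul, zero_add] at hc
    have hc2 : z - y₁ + (v / H) • (y₃ - y₁) = θ • (y₂ - y₁) := by
      rw [hθd]
      calc z - y₁ + (v / H) • (y₃ - y₁) =
          inner ℝ (rot n) (z - y₁ + (v / H) • (y₃ - y₁)) • rot n := hc
        _ = inner ℝ (rot n) (z - y₁ + (v / H) • (y₃ - y₁)) • ((-κ) • (y₂ - y₁)) := by
          rw [← hrotn]
        _ = _ := by rw [smul_smul, mul_comm]
    have hz1 : z = y₁ + θ • (y₂ - y₁) - (v / H) • (y₃ - y₁) := by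
      rw [← hc2]
      abel
    constructor
    · have h1 := e₁.supp z hz
      rw [hz1, inner_sub_right, inner_add_right, inner_smul_right, inner_smul_right,
        inner_sub_right, inner_sub_right] at h1
      have h2 : v / H * r₁ * (inner ℝ n₁ y₁ - inner ℝ n₁ y₂) ≤
          θ * (inner ℝ n₁ y₁ - inner ℝ n₁ y₂) := by
        rw [mul_assoc, hr₁']
        linarith
      exact le_of_mul_le_mul_right h2 hu12
    · have h1 := e₂.supp z hz
      rw [hz1, inner_sub_right, inner_add_right, inner_smul_right, inner_smul_right,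
        inner_sub_right, inner_sub_right] at h1
      have h2 : θ * (inner ℝ n₂ y₂ - inner ℝ n₂ y₁) ≤
          (1 + v / H - v / H * r₂) * (inner ℝ n₂ y₂ - inner ℝ n₂ y₁) := by
        have h3 : (1 + v / H - v / H * r₂) * (inner ℝ n₂ y₂ - inner ℝ n₂ y₁) =
            (1 + v / H) * (inner ℝ n₂ y₂ - inner ℝ n₂ y₁) -
              v / H * (r₂ * (inner ℝ n₂ y₂ - inner ℝ n₂ y₁)) := by ring
        rw [h3, hr₂']
        linarith
      exact le_of_mul_le_mul_right h2 hu21
  have hle1 : ∀ v : ℝ, 0 ≤ v → 1 + v / H - v / H * r₂ - v / H * r₁ ≤ 1 - v / H := by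
    intro v hv
    have h1 : 0 ≤ v / H := div_nonneg hv hH0.le
    have h2 := mul_le_mul_of_nonneg_left hcon h1
    linarith
  have hS : volume.real {y : E2 | y ∈ F ∧ β < inner ℝ n y} ≤ χ * H / 2 := by
    have hSm : MeasurableSet {y : E2 | y ∈ F ∧ β < inner ℝ n y} := by
      have hcont : Continuous fun y : E2 => inner ℝ n y := by fun_prop
      exact h.cptF.isClosed.measurableSet.inter (isOpen_lt continuous_const hcont).measurableSet
    have hvol : volume {y : E2 | y ∈ F ∧ β < inner ℝ n y} ≤ ENNReal.ofReal (χ * H / 2) := by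
      rw [volume_eq_lintegral_sec hn1 hSm]
      have hb : ∀ s : ℝ, volume {t : ℝ | s • n + t • rot n ∈ {y : E2 | y ∈ F ∧ β < inner ℝ n y}} ≤
          (Ioc β (β + H)).indicator (fun s => ENNReal.ofReal (χ * ((β + H - s) / H))) s := by
        intro s
        by_cases hemp : {t : ℝ | s • n + t • rot n ∈ {y : E2 | y ∈ F ∧ β < inner ℝ n y}} = ∅
        · rw [hemp, measure_empty]
          exact bot_le
        · obtain ⟨t₀, ht₀⟩ := nonempty_iff_ne_empty.2 hemp
          have ht₀F : s • n + t₀ • rot n ∈ F := ht₀.1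
          have hsβ : β < s := by
            have h1 : β < inner ℝ n (s • n + t₀ • rot n) := ht₀.2
            rwa [inner_coord hn1] at h1
          have hv : 0 ≤ s - β := by linarith
          have hθ0 := hθ _ ht₀F (s - β) hv (by rw [inner_coord hn1]; ring)
          have hl := hle1 (s - β) hv
          have hsH : s - β ≤ H := by
            have h1 : 0 ≤ 1 - (s - β) / H := by linarith [hθ0.1, hθ0.2]
            have h2 : (s - β) / H ≤ 1 := by linarith
            exact (div_le_one hH0).1 h2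
          rw [indicator_of_mem (show s ∈ Ioc β (β + H) from ⟨hsβ, by linarith⟩)]
          refine (Real.volume_le_diam _).trans ?_
          refine Metric.ediam_le fun t ht t' ht' => ?_
          have htF : s • n + t • rot n ∈ F := ht.1
          have htF' : s • n + t' • rot n ∈ F := ht'.1
          have h1 := hθ _ htF (s - β) hv (by rw [inner_coord hn1]; ring)
          have h2 := hθ _ htF' (s - β) hv (by rw [inner_coord hn1]; ring)
          rw [edist_dist, Real.dist_eq]
          refine ENNReal.ofReal_le_ofReal ?_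
          have h3 : -κ * inner ℝ (rot n) (s • n + t • rot n - y₁ + ((s - β) / H) • (y₃ - y₁)) -
              -κ * inner ℝ (rot n) (s • n + t' • rot n - y₁ + ((s - β) / H) • (y₃ - y₁)) =
              -κ * (t - t') := by
            have hsp : ∀ τ : ℝ, inner ℝ (rot n) (s • n + τ • rot n - y₁ +
                ((s - β) / H) • (y₃ - y₁)) = τ + (inner ℝ (rot n) (((s - β) / H) • (y₃ - y₁)) -
                inner ℝ (rot n) y₁) := by
              intro τ
              rw [inner_add_right, inner_sub_right, pr_coord2 hn1]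
              ring
            rw [hsp t, hsp t']
            ring
          have h4 : |(-κ) * (t - t')| ≤ 1 - (s - β) / H := by
            rw [← h3, abs_le]
            constructor
            · linarith [h1.1, h1.2, h2.1, h2.2]
            · linarith [h1.1, h1.2, h2.1, h2.2]
          rw [abs_mul, abs_neg, hκa] at h4
          have h5 : |t - t'| ≤ χ * (1 - (s - β) / H) := by
            have h6 := mul_le_mul_of_nonneg_left h4 hχ0.le
            rwa [← mul_assoc, mul_inv_cancel₀ hχ0.ne', one_mul] at h6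
          have h6 : χ * ((β + H - s) / H) = χ * (1 - (s - β) / H) := by
            field_simp
            ring
          rw [h6]
          exact h5
      refine (lintegral_mono hb).trans ?_
      rw [lintegral_indicator measurableSet_Ioc,
        pr_lint_ftc (F := fun s => χ * (-(β + H - s) ^ 2 / (2 * H)))
          (f := fun s => χ * ((β + H - s) / H)) (by linarith)]
      · refine ENNReal.ofReal_le_ofReal (le_of_eq ?_)
        field_simp
        ring
      · intro s _
        have e1 : HasDerivAt (fun s : ℝ => β + H - s) (-1) s := (hasDerivAt_id s).const_sub _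
        have e2 : HasDerivAt (fun s : ℝ => χ * (-(β + H - s) ^ 2 / (2 * H))) _ s :=
          (((e1.pow 2).neg).div_const (2 * H)).const_mul χ
        refine e2.congr_deriv ?_
        norm_num
        left
        field_simp
      · fun_prop
      · intro s hs
        exact mul_nonneg hχ0.le (div_nonneg (by linarith [hs.2]) hH0.le)
    exact ENNReal.toReal_le_of_le_ofReal (by positivity) hvol
  linarith

end Pool.Agent.Lib.MP_43065d_gt
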