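import Pool.Agent.Lib.MP_43065d_gt.Pl.SecAdd

/-!
# Module PathB (section 4): the path bound for the area of `X - eF`

PROOF.  `a = hi n F`, `W = a - lo n F > 0`, `b = hi n X`, `k = b - lo n X > 0`.  `D = {z - e • y | z ∈ X, y ∈ F} ⊆ T` is compact and convex; it is enough to bound `volume.real D` from below.
If `e = 0` the claim is `volume.real X ≤ volume.real D` (`F` is nonempty).  Let `e > 0`.  `volume.real D = ∫ sec n D` (`volume_real_sec`, or the integral over all of `ℝ`); heights of `D` are
`b - u - e (a - v)`, `u ∈ [0,k]`, `v ∈ [0,W]`.  `sec_add` with `α = 1`, `β = -e`: (1) `sec n X (b-u) + e sec n F (a-v) ≤ sec n D (b-u-e(a-v))` for all these `u, v` (heights are attained: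
`exists_height`).
Lower part: for `t ∈ [0,1]` take `u = t k`, `v = rW(1-t)`: height `s(t) = b - ea + erW - t (k + erW)`.  Substitution `s = s(t)`:
`∫_{s(1)}^{s(0)} sec n D ≥ (k + erW) ∫_0^1 (sec n X (b-tk) + e sec n F (a - rW(1-t))) dt = (k+erW) ( volume.real X/k + (e/(rW)) ∫_0^{rW} sec n F (a-v) dv )`
`≥ volume.real X + e (rW/k) volume.real X + e (k/(rW)) ∫_0^{rW} sec n F (a-v) dv` (the term `e² ∫` is dropped).
Upper part: `u = 0`, `v ∈ [rW, W]`: heights from `s(0) = b - ea + erW` to `b - ea + eW`; `sec n D ≥ sec n X b ≥ c`; integral `≥ c e W (1-r)`.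
Sum of the two parts (disjoint height intervals, `sec n D ≥ 0` elsewhere).
-/

open MeasureTheory Set Filter Topology Metric
open scoped ENNReal NNReal Pointwise

namespace Pool.Agent.Lib.MP_43065d_gt

private theorem pathB_int {n : E2} (hn : ‖n‖ = 1) {S : Set E2} (hS : IsCompact S)
    (hle : lo n S ≤ hi n S) : ∫ s, sec n S s = volume.real S := by
  rw [volume_real_sec hn hS, intervalIntegral.integral_of_le hle, ← integral_Icc_eq_integral_Ioc]
  exact (setIntegral_eq_integral_of_forall_compl_eq_zero fun s hs => sec_out hn hS hs).symm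

private theorem pathB_le {n : E2} (hn : ‖n‖ = 1) {S : Set E2} (hS : IsCompact S)
    (hle : lo n S ≤ hi n S) {x y : ℝ} (hxy : x ≤ y) :
    ∫ s in x..y, sec n S s ≤ volume.real S := by
  rw [← pathB_int hn hS hle, intervalIntegral.integral_of_le hxy]
  exact setIntegral_le_integral (integrable_sec hn hS)
    (Eventually.of_forall fun s => sec_nonneg n S s)

private theorem pathB_comp {f : ℝ → ℝ} (hf : Integrable f) (d : ℝ) {c : ℝ} (hc : c ≠ 0) :
    Integrable fun t => f (d - c * t) :=
  (hf.comp_sub_left d).comp_mul_left' hc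

theorem path_bound {n : E2} (hn : ‖n‖ = 1) {F X T : Set E2} (hF : Convex ℝ F) (hFc : IsCompact F)
    (hX : Convex ℝ X) (hXc : IsCompact X) (hFW : lo n F < hi n F) (hXW : lo n X < hi n X)
    {c r e : ℝ} (hc0 : 0 ≤ c) (hc : c ≤ sec n X (hi n X)) (hr : 0 < r) (hr1 : r ≤ 1) (he : 0 ≤ e)
    (hT : ∀ z ∈ X, ∀ y ∈ F, z - e • y ∈ T) (hTf : volume T ≠ ⊤) :
    volume.real X + e * (c * (hi n F - lo n F) * (1 - r) +
      (hi n X - lo n X) / (r * (hi n F - lo n F)) *
        (∫ v in (0 : ℝ)..(r * (hi n F - lo n F)), sec n F (hi n F - v)) +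
      r * (hi n F - lo n F) / (hi n X - lo n X) * volume.real X) ≤ volume.real T := by
  have hFne : F.Nonempty := by
    rw [nonempty_iff_ne_empty]
    rintro rfl
    simp [lo, hi] at hFW
  have hXne : X.Nonempty := by
    rw [nonempty_iff_ne_empty]
    rintro rfl
    simp [lo, hi] at hXW
  obtain ⟨y0, hy0⟩ := hFne
  obtain ⟨z0, hz0⟩ := hXne
  obtain ⟨a, ha⟩ : ∃ a, a = hi n F := ⟨_, rfl⟩
  obtain ⟨b, hb⟩ : ∃ b, b = hi n X := ⟨_, rfl⟩
  obtain ⟨W, hW⟩ : ∃ W, W = hi n F - lo n F := ⟨_, rfl⟩
  obtain ⟨k, hk⟩ : ∃ k, k = hi n X - lo n X := ⟨_, rfl⟩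
  have hW0 : 0 < W := by rw [hW]; linarith
  have hk0 : 0 < k := by rw [hk]; linarith
  rw [← hW, ← hk, ← ha]
  rw [← hb] at hc
  obtain ⟨J, hJ⟩ : ∃ J, J = ∫ v in (0 : ℝ)..(r * W), sec n F (a - v) := ⟨_, rfl⟩
  rw [← hJ]
  have hrW : 0 < r * W := mul_pos hr hW0
  have hJ0 : 0 ≤ J := by
    rw [hJ]
    exact intervalIntegral.integral_nonneg hrW.le fun v _ => sec_nonneg _ _ _
  -- the case `e = 0`
  rcases he.eq_or_lt with rfl | he0
  · have h1 : X ⊆ T := by
      intro z hz
      have := hT z hz y0 hy0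
      rwa [zero_smul, sub_zero] at this
    have h2 := measureReal_mono h1 hTf
    linarith
  -- the set `D`
  obtain ⟨D, hD⟩ : ∃ D : Set E2, D = (fun p : E2 × E2 => p.1 - e • p.2) '' (X ×ˢ F) := ⟨_, rfl⟩
  have hDc : IsCompact D := by
    rw [hD]
    exact (hXc.prod hFc).image (by fun_prop)
  have hDT : D ⊆ T := by
    rw [hD]
    rintro _ ⟨⟨z, y⟩, ⟨hz, hy⟩, rfl⟩
    exact hT z hz y hy
  have hDm : ∀ z ∈ X, ∀ y ∈ F, z - e • y ∈ D := by
    intro z hz y hy
    rw [hD]
    exact ⟨(z, y), ⟨hz, hy⟩, rfl⟩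
  have hDle : lo n D ≤ hi n D := by
    have h1 := mem_Icc_lo_hi n hDc (hDm z0 hz0 y0 hy0)
    exact h1.1.trans h1.2
  refine le_trans ?_ (measureReal_mono hDT hTf)
  -- (1)
  have key : ∀ u ∈ Icc 0 k, ∀ v ∈ Icc 0 W,
      sec n X (b - u) + e * sec n F (a - v) ≤ sec n D (b - u - e * (a - v)) := by
    intro u hu v hv
    have h1 : b - u ∈ Icc (lo n X) (hi n X) := by
      rw [hb]
      constructor
      · have := hu.2; linarith
      · have := hu.1; linarith
    have h2 : a - v ∈ Icc (lo n F) (hi n F) := by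
      rw [ha]
      constructor
      · have := hv.2; linarith
      · have := hv.1; linarith
    have h3 := sec_add hn hX hXc hF hFc (T := D) (s := b - u) (t := a - v) (α := 1) (β := -e)
      (exists_height n hX hXc ⟨z0, hz0⟩ h1) (exists_height n hF hFc ⟨y0, hy0⟩ h2) (by
        intro p hp q hq _ _
        have h4 := hDm p hp q hq
        rwa [one_smul, neg_smul, ← sub_eq_add_neg]) (sec_ne_top hn hDc.isBounded _)
    have h4 : 1 * (b - u) + -e * (a - v) = b - u - e * (a - v) := by ring
    rw [h4, abs_one, one_mul, abs_neg, abs_of_pos he0] at h3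
    exact h3
  obtain ⟨s0, hs0⟩ : ∃ s0, s0 = b - e * a + e * (r * W) := ⟨_, rfl⟩
  obtain ⟨m, hm⟩ : ∃ m, m = k + e * (r * W) := ⟨_, rfl⟩
  have hm0 : 0 < m := by rw [hm]; positivity
  obtain ⟨s1, hs1⟩ : ∃ s1, s1 = b - e * a + e * W := ⟨_, rfl⟩
  have hs01 : s0 ≤ s1 := by
    rw [hs0, hs1]
    have : r * W ≤ W := mul_le_of_le_one_left hW0.le hr1
    nlinarith
  have hI := integrable_sec hn hDc
  have hsplit : ∫ s in (s0 - m)..s1, sec n D s =
      (∫ s in (s0 - m)..s0, sec n D s) + ∫ s in s0..s1, sec n D s :=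
    (intervalIntegral.integral_add_adjacent_intervals hI.intervalIntegrable
      hI.intervalIntegrable).symm
  refine le_trans ?_ (pathB_le hn hDc hDle (x := s0 - m) (y := s1) (by linarith))
  rw [hsplit]
  -- the lower part
  have hlow : m * (volume.real X / k + e * (J / (r * W))) ≤ ∫ s in (s0 - m)..s0, sec n D s := by
    have h1 : ∫ s in (s0 - m)..s0, sec n D s = m * ∫ t in (0 : ℝ)..1, sec n D (s0 - m * t) := by
      rw [intervalIntegral.integral_comp_sub_mul _ hm0.ne', mul_one, mul_zero, sub_zero,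
        smul_eq_mul, ← mul_assoc, mul_inv_cancel₀ hm0.ne', one_mul]
    rw [h1]
    refine mul_le_mul_of_nonneg_left ?_ hm0.le
    have h2 : volume.real X / k = ∫ t in (0 : ℝ)..1, sec n X (b - k * t) := by
      rw [intervalIntegral.integral_comp_sub_mul _ hk0.ne', mul_one, mul_zero, sub_zero,
        smul_eq_mul, volume_real_sec hn hXc, div_eq_inv_mul]
      have e1 : b - k = lo n X := by
        rw [hb, hk]
        ring
      rw [e1, hb]
    have h3 : J / (r * W) = ∫ t in (0 : ℝ)..1, sec n F ((a - r * W) - (-(r * W)) * t) := by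
      have h4 : ∀ t : ℝ, sec n F ((a - r * W) - (-(r * W)) * t) =
          (fun t => sec n F (a - r * W * t)) (1 - t) := by
        intro t
        dsimp only
        congr 1
        ring
      rw [intervalIntegral.integral_congr fun t _ => h4 t,
        intervalIntegral.integral_comp_sub_left (fun t => sec n F (a - r * W * t)) 1]
      have h5 := intervalIntegral.integral_comp_mul_left (a := (0 : ℝ)) (b := 1)
        (fun v => sec n F (a - v)) hrW.ne'
      rw [sub_self, sub_zero, h5, mul_zero, mul_one, ← hJ, smul_eq_mul, div_eq_inv_mul]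
    have i1 : Integrable fun t => sec n X (b - k * t) :=
      pathB_comp (integrable_sec hn hXc) b hk0.ne'
    have i2 : Integrable fun t => sec n F ((a - r * W) - (-(r * W)) * t) :=
      pathB_comp (integrable_sec hn hFc) _ (neg_ne_zero.2 hrW.ne')
    have i3 : Integrable fun t => sec n D (s0 - m * t) := pathB_comp hI s0 hm0.ne'
    rw [h2, h3, ← intervalIntegral.integral_const_mul, ← intervalIntegral.integral_add
      i1.intervalIntegrable (i2.const_mul e).intervalIntegrable]
    refine intervalIntegral.integral_mono_on zero_le_one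
      (i1.add (i2.const_mul e)).intervalIntegrable i3.intervalIntegrable ?_
    intro t ht
    have h6 := key (k * t) ⟨mul_nonneg hk0.le ht.1, mul_le_of_le_one_right hk0.le ht.2⟩
      (r * W * (1 - t)) ⟨mul_nonneg hrW.le (by linarith [ht.2]), by
        have h7 : r * W ≤ W := mul_le_of_le_one_left hW0.le hr1
        have h8 : r * W * (1 - t) ≤ r * W := mul_le_of_le_one_right hrW.le (by linarith [ht.1])
        linarith⟩
    have e1 : a - r * W - -(r * W) * t = a - r * W * (1 - t) := by ring
    have e2 : s0 - m * t = b - k * t - e * (a - r * W * (1 - t)) := by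
      rw [hs0, hm]
      ring
    rw [e1, e2]
    exact h6
  -- the upper part
  have hupp : c * (s1 - s0) ≤ ∫ s in s0..s1, sec n D s := by
    have h1 : c * (s1 - s0) = ∫ _ in s0..s1, c := by
      rw [intervalIntegral.integral_const, smul_eq_mul, mul_comm]
    rw [h1]
    refine intervalIntegral.integral_mono_on hs01 intervalIntegrable_const
      hI.intervalIntegrable ?_
    intro s hs
    obtain ⟨v, hv⟩ : ∃ v, v = (s - b + e * a) / e := ⟨_, rfl⟩
    have hve : e * v = s - b + e * a := by
      rw [hv]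
      field_simp
    have hv0 : 0 ≤ v := by
      have h2 : e * (r * W) ≤ e * v := by
        rw [hve]
        have := hs.1
        linarith
      have h3 := le_of_mul_le_mul_left h2 he0
      linarith
    have hv1 : v ≤ W := by
      have h2 : e * v ≤ e * W := by
        rw [hve]
        have := hs.2
        linarith
      exact le_of_mul_le_mul_left h2 he0
    have h4 := key 0 ⟨le_rfl, hk0.le⟩ v ⟨hv0, hv1⟩
    have e1 : b - 0 - e * (a - v) = s := by linarith
    rw [e1, sub_zero] at h4
    have h5 : 0 ≤ e * sec n F (a - v) := mul_nonneg he0.le (sec_nonneg _ _ _)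
    linarith
  refine le_trans ?_ (add_le_add hlow hupp)
  have h7 : s1 - s0 = e * W * (1 - r) := by rw [hs0, hs1]; ring
  rw [h7, hm]
  have h8 : 0 ≤ e * (e * J) := by positivity
  have h9 : (k + e * (r * W)) * (volume.real X / k + e * (J / (r * W))) +
      c * (e * W * (1 - r)) = volume.real X + e * (c * W * (1 - r) +
        k / (r * W) * J + r * W / k * volume.real X) + e * (e * J) := by
    field_simp
    ring
  rw [h9]
  linarith

end Pool.Agent.Lib.MP_43065d_gt
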