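import Pool.Agent.Lib.MP_43065d_gt.Pl.PDefs

/-!
# Module PolyG (lemma L6): a polynomial inequality

`k = 10c/3`, `g = 2(2h-1)((1-h+h²)-k(1+h)) + c(1-k)² + 4h³c(1+k)`.
PROOF.  In powers of `h`: `g = a3 h³ - a2 h² + a1 h - a0` with `a3 = 4(1+c+ck)`, `a2 = 6+4k`, `a1 = 6-2k`, `a0 = (1-k)(2-c+ck)`.
Case `c ≤ 139/1000`: then `k ≤ .4634`, `k²+6k-3 ≤ 0`, so `h² - (1+k)h + (1-k) ≥ 0` for every `h` (discriminant), and the other terms are positive.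
General identity: for every `h0`, `g h = g h0 + g'(h0)(h-h0) + (h-h0)²(a3 h + 2 h0 a3 - a2)`, `g'(h0) = 3a3 h0² - 2 a2 h0 + a1`.  For `h ≥ 1/2` the last
bracket is `≥ M = a3/2 + 2 h0 a3 - a2`.
Case `c ∈ [139/1000, 1/4]`, `h0 = 13/20`: `M ≥ .8`, `g(h0) ≥ .14`; `g'(h0)` decreases from `.966` to `-.407`; if `g'(h0) ≥ 0` then
`g h ≥ g h0 - .15 g'(h0) ≥ .12 > 0` (`h - h0 ≥ -.15`); if `g'(h0) < 0`: `g h ≥ g h0 - g'(h0)²/(4M) ≥ .14 - .05 > 0`.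
Case `c ∈ [1/4, 1/2]`, `h0 = 4/5`: `M ≥ 2.9`, `0 ≤ g'(h0) ≤ .61`, `g h0 ≥ .05`; more precisely `g h0 > g'(h0)²/(4M)` for all these `c` (polynomial
inequality in `c`; minimum of `g` over `h` is `.0502` at `c = .345`, `h = .79`).
(Any other proof, e.g. `nlinarith` on subintervals of `c`, is fine.)
-/

open MeasureTheory Set Filter Topology Metric
open scoped ENNReal NNReal Pointwise

namespace Pool.Agent.Lib.MP_43065d_gt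

private theorem pg_DA {c : ℝ} (h1 : (1 / 4) ≤ c) (h2 : c ≤ (1 / 2)) :
    0 < (-4356 / 625 : ℝ) + (66288 / 625 : ℝ) * c + (-265896 / 625 : ℝ) * c ^ 2 + (254576 / 375 : ℝ) * c ^ 3 + (-578272 / 675 : ℝ) * c ^ 4 + (11200 / 9 : ℝ) * c ^ 5 := by
  have e1 : 0 ≤ c - (1 / 4) := sub_nonneg.2 h1
  have e2 : 0 ≤ (1 / 2) - c := sub_nonneg.2 h2
  linarith [pow_nonneg e2 5, mul_nonneg e1 (pow_nonneg e2 4),
    mul_nonneg (pow_nonneg e1 2) (pow_nonneg e2 3), mul_nonneg (pow_nonneg e1 3) (pow_nonneg e2 2),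
    mul_nonneg (pow_nonneg e1 4) e2, pow_nonneg e1 5]

private theorem pg_caseA {c h : ℝ} (h1 : (1 / 4) ≤ c) (h2 : c ≤ (1 / 2)) (hh : 1 / 2 ≤ h) :
    0 < 2 * (2 * h - 1) * ((1 - h + h ^ 2) - 10 * c / 3 * (1 + h)) + c * (1 - 10 * c / 3) ^ 2 +
      4 * h ^ 3 * c * (1 + 10 * c / 3) := by
  have hD := pg_DA h1 h2
  have hM : 0 < (12 / 5 : ℝ) + (-74 / 15 : ℝ) * c + (28 / 1 : ℝ) * c ^ 2 := by
    nlinarith [h1, h2, mul_nonneg (sub_nonneg.2 h1) (sub_nonneg.2 h2)]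
  set M := (12 / 5 : ℝ) + (-74 / 15 : ℝ) * c + (28 / 1 : ℝ) * c ^ 2 with hMdef
  have ha : 0 ≤ M * (4 * (1 + c + c * (10 * c / 3))) * (h - 1 / 2) * (h - 4 / 5) ^ 2 := by
    have : 0 ≤ c := le_trans (by norm_num) h1
    have h3 : 0 ≤ h - 1 / 2 := sub_nonneg.2 hh
    positivity
  have key : 4 * M * (2 * (2 * h - 1) * ((1 - h + h ^ 2) - 10 * c / 3 * (1 + h)) +
      c * (1 - 10 * c / 3) ^ 2 + 4 * h ^ 3 * c * (1 + 10 * c / 3)) =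
      ((-4356 / 625 : ℝ) + (66288 / 625 : ℝ) * c + (-265896 / 625 : ℝ) * c ^ 2 + (254576 / 375 : ℝ) * c ^ 3 + (-578272 / 675 : ℝ) * c ^ 4 + (11200 / 9 : ℝ) * c ^ 5) + (2 * M * (h - 4 / 5) + ((102 / 25 : ℝ) + (-508 / 25 : ℝ) * c + (128 / 5 : ℝ) * c ^ 2)) ^ 2 +
      4 * (M * (4 * (1 + c + c * (10 * c / 3))) * (h - 1 / 2) * (h - 4 / 5) ^ 2) := by
    rw [hMdef]
    ring
  have h5 : 0 < 4 * M * (2 * (2 * h - 1) * ((1 - h + h ^ 2) - 10 * c / 3 * (1 + h)) +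
      c * (1 - 10 * c / 3) ^ 2 + 4 * h ^ 3 * c * (1 + 10 * c / 3)) := by
    rw [key]
    positivity
  exact pos_of_mul_pos_right h5 (by positivity)

private theorem pg_DB {c : ℝ} (h1 : (139 / 1000) ≤ c) (h2 : c ≤ (1 / 4)) :
    0 < (-5041 / 625 : ℝ) + (66918 / 625 : ℝ) * c + (-777443 / 1875 : ℝ) * c ^ 2 + (745508 / 1125 : ℝ) * c ^ 3 + (-574492 / 675 : ℝ) * c ^ 4 + (30400 / 27 : ℝ) * c ^ 5 := by
  have e1 : 0 ≤ c - (139 / 1000) := sub_nonneg.2 h1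
  have e2 : 0 ≤ (1 / 4) - c := sub_nonneg.2 h2
  linarith [pow_nonneg e2 5, mul_nonneg e1 (pow_nonneg e2 4),
    mul_nonneg (pow_nonneg e1 2) (pow_nonneg e2 3), mul_nonneg (pow_nonneg e1 3) (pow_nonneg e2 2),
    mul_nonneg (pow_nonneg e1 4) e2, pow_nonneg e1 5]

private theorem pg_caseB {c h : ℝ} (h1 : (139 / 1000) ≤ c) (h2 : c ≤ (1 / 4)) (hh : 1 / 2 ≤ h) :
    0 < 2 * (2 * h - 1) * ((1 - h + h ^ 2) - 10 * c / 3 * (1 + h)) + c * (1 - 10 * c / 3) ^ 2 +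
      4 * h ^ 3 * c * (1 + 10 * c / 3) := by
  have hD := pg_DB h1 h2
  have hM : 0 < (8 / 5 : ℝ) + (-86 / 15 : ℝ) * c + (76 / 3 : ℝ) * c ^ 2 := by
    nlinarith [h1, h2, mul_nonneg (sub_nonneg.2 h1) (sub_nonneg.2 h2)]
  set M := (8 / 5 : ℝ) + (-86 / 15 : ℝ) * c + (76 / 3 : ℝ) * c ^ 2 with hMdef
  have ha : 0 ≤ M * (4 * (1 + c + c * (10 * c / 3))) * (h - 1 / 2) * (h - 7 / 10) ^ 2 := by
    have : 0 ≤ c := le_trans (by norm_num) h1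
    have h3 : 0 ≤ h - 1 / 2 := sub_nonneg.2 hh
    positivity
  have key : 4 * M * (2 * (2 * h - 1) * ((1 - h + h ^ 2) - 10 * c / 3 * (1 + h)) +
      c * (1 - 10 * c / 3) ^ 2 + 4 * h ^ 3 * c * (1 + 10 * c / 3)) =
      ((-5041 / 625 : ℝ) + (66918 / 625 : ℝ) * c + (-777443 / 1875 : ℝ) * c ^ 2 + (745508 / 1125 : ℝ) * c ^ 3 + (-574492 / 675 : ℝ) * c ^ 4 + (30400 / 27 : ℝ) * c ^ 5) + (2 * M * (h - 7 / 10) + ((87 / 25 : ℝ) + (-1459 / 75 : ℝ) * c + (98 / 5 : ℝ) * c ^ 2)) ^ 2 +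
      4 * (M * (4 * (1 + c + c * (10 * c / 3))) * (h - 1 / 2) * (h - 7 / 10) ^ 2) := by
    rw [hMdef]
    ring
  have h5 : 0 < 4 * M * (2 * (2 * h - 1) * ((1 - h + h ^ 2) - 10 * c / 3 * (1 + h)) +
      c * (1 - 10 * c / 3) ^ 2 + 4 * h ^ 3 * c * (1 + 10 * c / 3)) := by
    rw [key]
    positivity
  exact pos_of_mul_pos_right h5 (by positivity)

theorem polyG_pos {c h : ℝ} (hc : 0 < c) (hc' : c ≤ 1 / 2) (hh : 1 / 2 ≤ h) :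
    0 < 2 * (2 * h - 1) * ((1 - h + h ^ 2) - 10 * c / 3 * (1 + h)) + c * (1 - 10 * c / 3) ^ 2 +
      4 * h ^ 3 * c * (1 + 10 * c / 3) := by
  rcases le_total c (139 / 1000) with h1 | h1
  · have h2 : 0 ≤ (1 - h + h ^ 2) - 10 * c / 3 * (1 + h) := by
      nlinarith [sq_nonneg (h - (1 + 10 * c / 3) / 2), mul_nonneg hc.le (sub_nonneg.2 h1)]
    have h3 : 0 ≤ 2 * (2 * h - 1) * ((1 - h + h ^ 2) - 10 * c / 3 * (1 + h)) :=
      mul_nonneg (by linarith) h2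
    have h4 : 0 < 4 * h ^ 3 * c * (1 + 10 * c / 3) := by
      have : 0 < h := by linarith
      positivity
    have h5 : 0 ≤ c * (1 - 10 * c / 3) ^ 2 := by positivity
    linarith
  · rcases le_total c (1 / 4) with h2 | h2
    · exact pg_caseB h1 h2 hh
    · exact pg_caseA h2 hc' hh

end Pool.Agent.Lib.MP_43065d_gt
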