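import Pool.Agent.Lib.MP_43065d_gt.Pl.TotalP
import Pool.Agent.Lib.MP_43065d_gt.Pl.InsideN
import Pool.Agent.Lib.MP_43065d_gt.Pl.LayerQ
import Pool.Agent.Lib.MP_43065d_gt.Pl.EqCase

/-!
# Module QMain: the planar lemma, normalised

PROOF.  `I = ∫⁻ τ in Ioi 1, volume (NQ F q τ)`.  `layer_q`: the integral is `x² + 3 I.toReal`.  If `L = {q ≤ 1}` is not contained in `F`: `I < ofReal (2/3 x²)` (`total_protrude`), strict inequality.
If `L ⊆ F`: `I ≤ ofReal (2x³/(3(1-x))) ≤ ofReal (2/3 x²)` (`x ≤ 1-x`).  So the integral is `≤ 3x²`.  Equality with `x = 1/2`: then `L ⊆ F` and `I = ofReal (1/6)`; `inside_nonempty`, `eq_case`.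
-/

open MeasureTheory Set Filter Topology Metric
open scoped ENNReal NNReal Pointwise

namespace Pool.Agent.Lib.MP_43065d_gt

theorem q_main {F : Set E2} {q : E2 → ℝ} {x : ℝ} (h : QN F q x) :
    ∫ y in F ∩ {y | q y ≤ 1}, (q y)⁻¹ ^ 3 ≤ 3 * x ^ 2 ∧
    (x = 1 / 2 → ∫ y in F ∩ {y | q y ≤ 1}, (q y)⁻¹ ^ 3 = 3 * x ^ 2 →
      q 0 ≤ 1 / 3 ∧ ∀ y, q y ≤ 1 → (-2 : ℝ) • y ∈ F) := by
  obtain ⟨hfin, hint⟩ := layer_q h
  have hN := fam_q h
  have hx0 := h.pn.x_pos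
  have hx1 := h.pn.x_le
  by_cases hL : {y | q y ≤ 1} ⊆ F
  · have h1 := inside_total h.pn hN hL
    have h0 : 0 ≤ 2 * x ^ 3 / (3 * (1 - x)) :=
      div_nonneg (by positivity) (by linarith)
    have h2 : (∫⁻ τ in Ioi (1 : ℝ), volume (NQ F q τ)).toReal ≤ 2 * x ^ 3 / (3 * (1 - x)) :=
      ENNReal.toReal_le_of_le_ofReal h0 h1
    have h3 : 2 * x ^ 3 / (3 * (1 - x)) ≤ 2 / 3 * x ^ 2 := by
      rw [div_le_iff₀ (by linarith)]
      have h5 : 0 ≤ x ^ 2 * (1 - 2 * x) := mul_nonneg (sq_nonneg x) (by linarith)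
      nlinarith
    refine ⟨by rw [hint]; linarith, ?_⟩
    intro hx he
    have h4 : (∫⁻ τ in Ioi (1 : ℝ), volume (NQ F q τ)).toReal = 1 / 6 := by
      rw [hint] at he
      have h6 : x ^ 2 = 1 / 4 := by
        rw [hx]
        norm_num
      rw [h6] at he
      linarith
    refine eq_case h hx hL ?_
    intro τ h5 h6
    refine inside_nonempty h.pn hN hL hx ?_ h5 h6
    rw [← h4, ENNReal.ofReal_toReal hfin]
  · have h1 := total_protrude h.pn hN hL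
    have h2 : (∫⁻ τ in Ioi (1 : ℝ), volume (NQ F q τ)).toReal < 2 / 3 * x ^ 2 := by
      have h3 := (ENNReal.toReal_lt_toReal hfin ENNReal.ofReal_ne_top).2 h1
      rwa [ENNReal.toReal_ofReal (by positivity)] at h3
    refine ⟨by rw [hint]; linarith, ?_⟩
    intro hx he
    rw [hint] at he
    exfalso
    linarith

end Pool.Agent.Lib.MP_43065d_gt
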