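import Pool.Agent.Lib.MP_43065d_gt.Pl.PDefs

/-!
# Module SecFub: orthonormal coordinates and Fubini

PROOF.  For a unit vector `n`, `rot n` is a unit vector orthogonal to `n`, and the linear map `(s,t) ↦ s • n + t • rot n` from `ℝ × ℝ` to `E2` is measure
preserving: it is the composition of the standard measure preserving equivalences `ℝ × ℝ ≃ (Fin 2 → ℝ)` (`MeasurableEquiv.finTwoArrow`,
`volume_preserving_finTwoArrow`), `(Fin 2 → ℝ) ≃ EuclideanSpace ℝ (Fin 2)` (`EuclideanSpace.volume_preserving_symm_measurableEquiv_toLp` /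
`PiLp.volume_preserving_toLp`) and a linear isometry of `E2` (`LinearIsometryEquiv.measurePreserving`; rotation matrix with columns `n`, `rot n`; e.g. the
isometry given by the orthonormal basis `n, rot n`: `OrthonormalBasis.measurePreserving_repr`, or `OrthonormalBasis.measurePreserving_repr_symm`).
Then `lintegral_sec` is `MeasurePreserving.lintegral_comp` (indicator of `S` times `φ`) and Tonelli `lintegral_prod`, because
`inner n (s • n + t • rot n) = s`.  `measurable_sec_vol`: `measurable_measure_prodMk_left`.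
-/

open MeasureTheory Set Filter Topology Metric
open scoped ENNReal NNReal Pointwise

namespace Pool.Agent.Lib.MP_43065d_gt

private theorem rot_zero (n : E2) : rot n 0 = -(n 1) := rfl
private theorem rot_one (n : E2) : rot n 1 = n 0 := rfl

private theorem inner_two (x y : E2) : inner ℝ x y = x 0 * y 0 + x 1 * y 1 := by
  rw [PiLp.inner_apply, Fin.sum_univ_two]
  simp [mul_comm]

theorem norm_rot (n : E2) : ‖rot n‖ = ‖n‖ := by
  rw [EuclideanSpace.norm_eq, EuclideanSpace.norm_eq, Fin.sum_univ_two, Fin.sum_univ_two, rot_zero,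
    rot_one, norm_neg, add_comm]

theorem inner_rot (n : E2) : inner ℝ n (rot n) = 0 := by
  rw [inner_two, rot_zero, rot_one]
  ring

private theorem norm_sq_two {n : E2} (hn : ‖n‖ = 1) : n 0 * n 0 + n 1 * n 1 = 1 := by
  rw [← inner_two, real_inner_self_eq_norm_sq, hn]
  norm_num

theorem inner_coord {n : E2} (hn : ‖n‖ = 1) (s t : ℝ) : inner ℝ n (s • n + t • rot n) = s := by
  rw [inner_add_right, inner_smul_right, inner_smul_right, inner_rot, real_inner_self_eq_norm_sq, hn]
  ring

theorem coord {n : E2} (hn : ‖n‖ = 1) (y : E2) :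
    y = (inner ℝ n y) • n + (inner ℝ (rot n) y) • rot n := by
  have h := norm_sq_two hn
  ext i
  fin_cases i
  · show y 0 = inner ℝ n y * n 0 + inner ℝ (rot n) y * rot n 0
    rw [inner_two, inner_two, rot_zero, rot_one]
    linear_combination (-(y 0)) * h
  · show y 1 = inner ℝ n y * n 1 + inner ℝ (rot n) y * rot n 1
    rw [inner_two, inner_two, rot_zero, rot_one]
    linear_combination (-(y 1)) * h

private theorem continuous_T (n : E2) : Continuous fun p : ℝ × ℝ => p.1 • n + p.2 • rot n := by
  fun_prop

private theorem mp_T {n : E2} (hn : ‖n‖ = 1) :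
    MeasurePreserving (fun p : ℝ × ℝ => p.1 • n + p.2 • rot n) volume volume := by
  have hon : Orthonormal ℝ ![n, rot n] := by
    rw [orthonormal_iff_ite]
    intro i j
    fin_cases i <;> fin_cases j
    · show inner ℝ n n = 1
      rw [real_inner_self_eq_norm_sq, hn]; norm_num
    · show inner ℝ n (rot n) = 0
      exact inner_rot n
    · show inner ℝ (rot n) n = 0
      rw [real_inner_comm]; exact inner_rot n
    · show inner ℝ (rot n) (rot n) = 1
      rw [real_inner_self_eq_norm_sq, norm_rot, hn]; norm_num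
  have hsp : ⊤ ≤ Submodule.span ℝ (Set.range ![n, rot n]) := by
    intro y _
    rw [coord hn y]
    refine Submodule.add_mem _ (Submodule.smul_mem _ _ (Submodule.subset_span ⟨0, rfl⟩))
      (Submodule.smul_mem _ _ (Submodule.subset_span ⟨1, rfl⟩))
  let b : OrthonormalBasis (Fin 2) ℝ E2 := OrthonormalBasis.mk hon hsp
  have h1 : MeasurePreserving (MeasurableEquiv.finTwoArrow (α := ℝ)).symm volume volume :=
    (volume_preserving_finTwoArrow ℝ).symm
  have h2 := (PiLp.volume_preserving_toLp (Fin 2)).comp h1
  have h3 := b.measurePreserving_repr_symm.comp h2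
  have e : (fun p : ℝ × ℝ => p.1 • n + p.2 • rot n) =
      (b.repr.symm ∘ (WithLp.toLp 2 ∘ (MeasurableEquiv.finTwoArrow (α := ℝ)).symm)) := by
    funext p
    have hb : (b.repr.symm (WithLp.toLp 2 ((MeasurableEquiv.finTwoArrow (α := ℝ)).symm p)) : E2) =
        ∑ i, ((MeasurableEquiv.finTwoArrow (α := ℝ)).symm p) i • b i := by
      rw [← OrthonormalBasis.sum_repr_symm]
    rw [Function.comp_apply, Function.comp_apply, hb, Fin.sum_univ_two]
    have b0 : b 0 = n := by
      show (OrthonormalBasis.mk hon hsp) 0 = n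
      rw [OrthonormalBasis.coe_mk]; rfl
    have b1 : b 1 = rot n := by
      show (OrthonormalBasis.mk hon hsp) 1 = rot n
      rw [OrthonormalBasis.coe_mk]; rfl
    rw [b0, b1]
    rfl
  rw [e]
  exact h3

theorem measurable_sec_vol (n : E2) {S : Set E2} (hS : MeasurableSet S) :
    Measurable fun s : ℝ => volume {t : ℝ | s • n + t • rot n ∈ S} := by
  have h : MeasurableSet ((fun p : ℝ × ℝ => p.1 • n + p.2 • rot n) ⁻¹' S) :=
    (continuous_T n).measurable hS
  exact measurable_measure_prodMk_left h

theorem lintegral_sec {n : E2} (hn : ‖n‖ = 1) {S : Set E2} (hS : MeasurableSet S) {φ : ℝ → ℝ≥0∞}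
    (hφ : Measurable φ) :
    ∫⁻ y in S, φ (inner ℝ n y) = ∫⁻ s, φ s * volume {t : ℝ | s • n + t • rot n ∈ S} := by
  have hT := mp_T hn
  have hmn : Measurable fun y : E2 => φ (inner ℝ n y) := by
    refine hφ.comp ?_
    exact (continuous_const.inner continuous_id).measurable
  have hTS : MeasurableSet ((fun p : ℝ × ℝ => p.1 • n + p.2 • rot n) ⁻¹' S) :=
    (continuous_T n).measurable hS
  rw [← lintegral_indicator hS]
  rw [← hT.lintegral_comp (hmn.indicator hS)]
  have hm2 : Measurable fun p : ℝ × ℝ =>
      S.indicator (fun y => φ (inner ℝ n y)) (p.1 • n + p.2 • rot n) :=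
    (hmn.indicator hS).comp hT.measurable
  rw [Measure.volume_eq_prod, lintegral_prod _ hm2.aemeasurable]
  refine lintegral_congr fun s => ?_
  have hms : MeasurableSet {t : ℝ | s • n + t • rot n ∈ S} :=
    measurable_prodMk_left hTS
  have e : (fun t : ℝ => S.indicator (fun y => φ (inner ℝ n y)) ((s, t).1 • n + (s, t).2 • rot n)) =
      {t : ℝ | s • n + t • rot n ∈ S}.indicator fun _ => φ s := by
    funext t
    by_cases h : s • n + t • rot n ∈ S
    · rw [Set.indicator_of_mem h, Set.indicator_of_mem (show t ∈ {t : ℝ | s • n + t • rot n ∈ S} from h),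
        inner_coord hn]
    · rw [Set.indicator_of_notMem h,
        Set.indicator_of_notMem (show t ∉ {t : ℝ | s • n + t • rot n ∈ S} from h)]
  rw [e, lintegral_indicator hms, setLIntegral_const]

theorem volume_eq_lintegral_sec {n : E2} (hn : ‖n‖ = 1) {S : Set E2} (hS : MeasurableSet S) :
    volume S = ∫⁻ s : ℝ, volume {t : ℝ | s • n + t • rot n ∈ S} := by
  have h := lintegral_sec hn hS (φ := fun _ => 1) measurable_const
  simpa using h

end Pool.Agent.Lib.MP_43065d_gt
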