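import Pool.Agent.Lib.MP_43065d_gt.Pl.SecFub

/-!
# Module SecInt: sections of compact sets, integrals

PROOF.  `hi`, `lo` are maximum and minimum of a continuous function on a compact set (`IsCompact.exists_isMaxOn` etc.).
`sec_ne_top`: the section is contained in a bounded interval (`|t| = |inner (rot n) y| ≤ ‖y‖ ≤ R`).  `sec_out`: outside `[lo,hi]` the section is empty
(`inner_coord`).  `integrable_sec`, `integral_sec`: from `lintegral_sec` (apply it to the positive and negative parts of `φ`, or use the measure preserving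
map and `integral_prod`); the functions are bounded with compact support, `sec n S s = (volume {..}).toReal`.  For empty `S` both sides are `0`
(`sInf ∅ = sSup ∅ = 0`).  `volume_real_sec` is `integral_sec` with `φ = 1`.
-/

open MeasureTheory Set Filter Topology Metric
open scoped ENNReal NNReal Pointwise

namespace Pool.Agent.Lib.MP_43065d_gt

private theorem secInt_cont (n : E2) : Continuous fun y : E2 => (inner ℝ n y : ℝ) :=
  continuous_const.inner continuous_id

private theorem secInt_cpt (n : E2) {S : Set E2} (hS : IsCompact S) :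
    IsCompact ((fun y : E2 => (inner ℝ n y : ℝ)) '' S) :=
  hS.image (secInt_cont n)

theorem mem_Icc_lo_hi (n : E2) {S : Set E2} (hS : IsCompact S) {y : E2} (hy : y ∈ S) :
    inner ℝ n y ∈ Icc (lo n S) (hi n S) := by
  have h := secInt_cpt n hS
  exact ⟨csInf_le h.bddBelow ⟨y, hy, rfl⟩, le_csSup h.bddAbove ⟨y, hy, rfl⟩⟩

theorem exists_hi (n : E2) {S : Set E2} (hS : IsCompact S) (hne : S.Nonempty) :
    ∃ y ∈ S, inner ℝ n y = hi n S :=
  (secInt_cpt n hS).sSup_mem (hne.image _)

theorem exists_lo (n : E2) {S : Set E2} (hS : IsCompact S) (hne : S.Nonempty) :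
    ∃ y ∈ S, inner ℝ n y = lo n S :=
  (secInt_cpt n hS).sInf_mem (hne.image _)

private theorem secInt_rot {n : E2} (hn : ‖n‖ = 1) (s t : ℝ) :
    inner ℝ (rot n) (s • n + t • rot n) = t := by
  rw [inner_add_right, inner_smul_right, inner_smul_right, real_inner_comm, inner_rot,
    real_inner_self_eq_norm_sq, norm_rot, hn]
  ring

theorem sec_ne_top {n : E2} (hn : ‖n‖ = 1) {S : Set E2} (hS : Bornology.IsBounded S) (s : ℝ) :
    volume {t : ℝ | s • n + t • rot n ∈ S} ≠ ⊤ := by
  obtain ⟨R, hR⟩ := hS.subset_closedBall 0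
  have h : {t : ℝ | s • n + t • rot n ∈ S} ⊆ Icc (-R) R := by
    intro t ht
    have h1 : ‖s • n + t • rot n‖ ≤ R := by
      have := hR ht
      rwa [mem_closedBall_zero_iff] at this
    have h2 : |t| ≤ R := by
      calc |t| = |inner ℝ (rot n) (s • n + t • rot n)| := by rw [secInt_rot hn]
        _ ≤ ‖rot n‖ * ‖s • n + t • rot n‖ := abs_real_inner_le_norm _ _
        _ = ‖s • n + t • rot n‖ := by rw [norm_rot, hn, one_mul]
        _ ≤ R := h1
    exact abs_le.1 h2
  exact ((measure_mono h).trans_lt measure_Icc_lt_top).ne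

theorem sec_nonneg (n : E2) (S : Set E2) (s : ℝ) : 0 ≤ sec n S s := measureReal_nonneg

theorem sec_mono {n : E2} (hn : ‖n‖ = 1) {S T : Set E2} (hT : Bornology.IsBounded T) (h : S ⊆ T)
    (s : ℝ) : sec n S s ≤ sec n T s :=
  measureReal_mono (fun _ ht => h ht) (sec_ne_top hn hT s)

theorem sec_congr {n : E2} (hn : ‖n‖ = 1) {S T : Set E2} {s : ℝ}
    (h : ∀ y : E2, inner ℝ n y = s → (y ∈ S ↔ y ∈ T)) : sec n S s = sec n T s := by
  unfold sec
  congr 1
  ext t
  exact h _ (inner_coord hn s t)

theorem sec_out {n : E2} (hn : ‖n‖ = 1) {S : Set E2} (hS : IsCompact S) {s : ℝ}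
    (hs : s ∉ Icc (lo n S) (hi n S)) : sec n S s = 0 := by
  unfold sec
  have h : {t : ℝ | s • n + t • rot n ∈ S} = ∅ := by
    rw [eq_empty_iff_forall_notMem]
    intro t ht
    apply hs
    have := mem_Icc_lo_hi n hS ht
    rwa [inner_coord hn] at this
  rw [h, measureReal_empty]

theorem integrable_sec {n : E2} (hn : ‖n‖ = 1) {S : Set E2} (hS : IsCompact S) :
    Integrable (sec n S) := by
  have h1 : ∫⁻ s : ℝ, volume {t : ℝ | s • n + t • rot n ∈ S} ≠ ⊤ := by
    rw [← volume_eq_lintegral_sec hn hS.measurableSet]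
    exact hS.measure_lt_top.ne
  exact integrable_toReal_of_lintegral_ne_top
    (measurable_sec_vol n hS.measurableSet).aemeasurable h1

private theorem secInt_map {n : E2} (hn : ‖n‖ = 1) {S : Set E2} (hS : IsCompact S) :
    Measure.map (fun y : E2 => (inner ℝ n y : ℝ)) (volume.restrict S) =
      (volume : Measure ℝ).withDensity fun s => volume {t : ℝ | s • n + t • rot n ∈ S} := by
  ext A hA
  have hm : Measurable fun y : E2 => (inner ℝ n y : ℝ) := (secInt_cont n).measurable
  rw [Measure.map_apply hm hA, withDensity_apply _ hA]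
  have h := lintegral_sec hn hS.measurableSet (φ := A.indicator fun _ => 1)
    (measurable_const.indicator hA)
  have h1 : ∫⁻ y in S, A.indicator (fun _ => (1 : ℝ≥0∞)) (inner ℝ n y) =
      (volume.restrict S) ((fun y : E2 => (inner ℝ n y : ℝ)) ⁻¹' A) := by
    rw [← lintegral_indicator_one (hm hA)]
    rfl
  rw [← h1, h, ← lintegral_indicator hA]
  refine lintegral_congr fun s => ?_
  by_cases hs : s ∈ A
  · simp [hs]
  · simp [hs]

theorem integral_sec {n : E2} (hn : ‖n‖ = 1) {S : Set E2} (hS : IsCompact S) {φ : ℝ → ℝ}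
    (hφ : Continuous φ) :
    ∫ y in S, φ (inner ℝ n y) = ∫ s in (lo n S)..(hi n S), φ s * sec n S s := by
  rcases S.eq_empty_or_nonempty with rfl | hne
  · simp [lo, hi]
  · have hle : lo n S ≤ hi n S := by
      obtain ⟨y, hy⟩ := hne
      have := mem_Icc_lo_hi n hS hy
      exact this.1.trans this.2
    have hm : Measurable fun y : E2 => (inner ℝ n y : ℝ) := (secInt_cont n).measurable
    have h1 : ∫ y in S, φ (inner ℝ n y) =
        ∫ s, φ s ∂(Measure.map (fun y : E2 => (inner ℝ n y : ℝ)) (volume.restrict S)) :=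
      (integral_map hm.aemeasurable hφ.aestronglyMeasurable).symm
    rw [h1, secInt_map hn hS, integral_withDensity_eq_integral_toReal_smul
      (measurable_sec_vol n hS.measurableSet)
      (Filter.Eventually.of_forall fun s => (sec_ne_top hn hS.isBounded s).lt_top),
      intervalIntegral.integral_of_le hle, ← integral_Icc_eq_integral_Ioc,
      setIntegral_eq_integral_of_forall_compl_eq_zero]
    · refine integral_congr_ae (Filter.Eventually.of_forall fun s => ?_)
      show (volume {t : ℝ | s • n + t • rot n ∈ S}).toReal • φ s = φ s * sec n S s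
      rw [smul_eq_mul, mul_comm]
      rfl
    · intro s hs
      rw [sec_out hn hS hs, mul_zero]

theorem volume_real_sec {n : E2} (hn : ‖n‖ = 1) {S : Set E2} (hS : IsCompact S) :
    volume.real S = ∫ s in (lo n S)..(hi n S), sec n S s := by
  have h := integral_sec hn hS (φ := fun _ => 1) continuous_const
  simp only [one_mul] at h
  rw [← h]
  simp

end Pool.Agent.Lib.MP_43065d_gt
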