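import Pool.Agent.Lib.MP_43065d_gt.Pl.EdgeFn

/-!
# Module Sliver: area of `L` cut slightly beyond the edges

PROOF.  `S = {z ∈ L | inner n₁ z ≤ a₁ + δ₁ ∧ inner n₂ z ≤ a₂ + δ₂} ⊆ (F ∩ L) ∪ S₁ ∪ S₂`, `S_j = {z ∈ L | a_j < inner n_j z ≤ a_j + δ_j}` (if `inner n_j z ≤ a_j` for both `j` then `z ∈ F`, `hcap`).
`S_j`: `0 ∈ L`, `L` convex: for `z ∈ L` with `inner n_j z = a_j + s`, `s > 0`, the point `(a_j/(a_j+s)) • z` is in `L` at height `a_j`; so the section of `L` at height `a_j+s` is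
contained in `(1+s/a_j) •` (section at `a_j`) and has length `≤ (1+s/a_j) sec n_j L a_j` (the section of `L` at `a_j` is in `F`, bounded).  `volume_eq_lintegral_sec` (measurable: `L` closed):
`volume S_j ≤ ∫_0^{δ_j} ofReal ((1+s/a_j) c_j) ds = ofReal (c_j (δ_j + δ_j²/(2a_j)))`.
-/

open MeasureTheory Set Filter Topology Metric
open scoped ENNReal NNReal Pointwise

namespace Pool.Agent.Lib.MP_43065d_gt

private theorem sliver_sec {F L : Set E2} {x : ℝ} (h : PN F L x) {n : E2} {a : ℝ}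
    (g : GEdge F L n a) :
    volume {t : ℝ | a • n + t • rot n ∈ L} = ENNReal.ofReal (sec n L a) := by
  have hsub : {t : ℝ | a • n + t • rot n ∈ L} ⊆ {t : ℝ | a • n + t • rot n ∈ F} := by
    intro t ht
    exact g.chord _ ht (inner_coord g.unit a t)
  have hfin : volume {t : ℝ | a • n + t • rot n ∈ L} ≠ ⊤ :=
    ((measure_mono hsub).trans_lt (sec_ne_top g.unit h.cptF.isBounded a).lt_top).ne
  unfold sec Measure.real
  rw [ENNReal.ofReal_toReal hfin]

private theorem sliver_le {F L : Set E2} {x : ℝ} (h : PN F L x) {n : E2} {a : ℝ}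
    (g : GEdge F L n a) {s : ℝ} (hs : a < s) :
    volume {t : ℝ | s • n + t • rot n ∈ L} ≤ ENNReal.ofReal (s / a) * ENNReal.ofReal (sec n L a) := by
  have ha := g.pos
  have hs0 : 0 < s := ha.trans hs
  have h0 : (0 : E2) ∈ L := interior_subset (zero_intL h)
  have hsub : {t : ℝ | s • n + t • rot n ∈ L} ⊆
      (fun t => (a / s) * t) ⁻¹' {t : ℝ | a • n + t • rot n ∈ L} := by
    intro t ht
    have h1 : (a / s) • (s • n + t • rot n) ∈ L := by
      refine h.convL.smul_mem_of_zero_mem h0 ht ⟨by positivity, ?_⟩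
      rw [div_le_one hs0]
      exact hs.le
    rw [smul_add, smul_smul, smul_smul, div_mul_cancel₀ a hs0.ne'] at h1
    exact h1
  refine (measure_mono hsub).trans ?_
  rw [Real.volume_preimage_mul_left (by positivity), sliver_sec h g, inv_div,
    abs_of_pos (by positivity)]

private theorem sliver_vol {F L : Set E2} {x : ℝ} (h : PN F L x) {n : E2} {a : ℝ}
    (g : GEdge F L n a) {δ : ℝ} (hδ : 0 ≤ δ) :
    volume {z | z ∈ L ∧ a < inner ℝ n z ∧ inner ℝ n z ≤ a + δ} ≤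
      ENNReal.ofReal (sec n L a * (δ + δ ^ 2 / (2 * a))) := by
  have ha := g.pos
  have hc : 0 ≤ sec n L a := g.len.le
  have hcont : Continuous fun z : E2 => (inner ℝ n z : ℝ) := continuous_const.inner continuous_id
  have hmeas : MeasurableSet {z | z ∈ L ∧ a < inner ℝ n z ∧ inner ℝ n z ≤ a + δ} :=
    h.closedL.measurableSet.inter ((measurableSet_lt measurable_const hcont.measurable).inter
      (measurableSet_le hcont.measurable measurable_const))
  rw [volume_eq_lintegral_sec g.unit hmeas]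
  have hle : ∀ s : ℝ, volume {t : ℝ | s • n + t • rot n ∈
      {z | z ∈ L ∧ a < inner ℝ n z ∧ inner ℝ n z ≤ a + δ}} ≤
      (Ioc a (a + δ)).indicator
        (fun s => ENNReal.ofReal (s / a) * ENNReal.ofReal (sec n L a)) s := by
    intro s
    by_cases hs : s ∈ Ioc a (a + δ)
    · rw [indicator_of_mem hs]
      refine (measure_mono ?_).trans (sliver_le h g hs.1)
      intro t ht
      exact ht.1
    · rw [indicator_of_notMem hs]
      have : {t : ℝ | s • n + t • rot n ∈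
          {z | z ∈ L ∧ a < inner ℝ n z ∧ inner ℝ n z ≤ a + δ}} = ∅ := by
        rw [eq_empty_iff_forall_notMem]
        rintro t ⟨-, h1, h2⟩
        rw [inner_coord g.unit] at h1 h2
        exact hs ⟨h1, h2⟩
      rw [this, measure_empty]
  refine (lintegral_mono hle).trans ?_
  rw [lintegral_indicator measurableSet_Ioc, lintegral_mul_const _ (by fun_prop)]
  have hint : ∫⁻ s in Ioc a (a + δ), ENNReal.ofReal (s / a) =
      ENNReal.ofReal (δ + δ ^ 2 / (2 * a)) := by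
    rw [← ofReal_integral_eq_lintegral_ofReal]
    · congr 1
      rw [← intervalIntegral.integral_of_le (by linarith), intervalIntegral.integral_div,
        integral_id]
      field_simp
      ring
    · exact (continuous_id.div_const a).integrableOn_Icc.mono_set Ioc_subset_Icc_self
    · filter_upwards [ae_restrict_mem measurableSet_Ioc] with s hs
      exact div_nonneg (ha.trans hs.1).le ha.le
  rw [hint, ← ENNReal.ofReal_mul (by positivity), mul_comm]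

theorem sliver {F L : Set E2} {x : ℝ} (h : PN F L x) {n₁ : E2} {a₁ : ℝ} {n₂ : E2} {a₂ : ℝ}
    (g₁ : GEdge F L n₁ a₁) (g₂ : GEdge F L n₂ a₂)
    (hcap : ∀ z ∈ L, inner ℝ n₁ z ≤ a₁ → inner ℝ n₂ z ≤ a₂ → z ∈ F) {δ₁ δ₂ : ℝ} (h₁ : 0 ≤ δ₁)
    (h₂ : 0 ≤ δ₂) :
    volume {z | z ∈ L ∧ inner ℝ n₁ z ≤ a₁ + δ₁ ∧ inner ℝ n₂ z ≤ a₂ + δ₂} ≠ ⊤ ∧
    volume.real {z | z ∈ L ∧ inner ℝ n₁ z ≤ a₁ + δ₁ ∧ inner ℝ n₂ z ≤ a₂ + δ₂} ≤
      x ^ 2 + sec n₁ L a₁ * (δ₁ + δ₁ ^ 2 / (2 * a₁)) +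
        sec n₂ L a₂ * (δ₂ + δ₂ ^ 2 / (2 * a₂)) := by
  have hG : volume (F ∩ L) = ENNReal.ofReal (x ^ 2) := by
    rw [← h.volG]
    unfold Measure.real
    rw [ENNReal.ofReal_toReal]
    exact ((measure_mono inter_subset_left).trans_lt h.cptF.measure_lt_top).ne
  have p1 : 0 ≤ sec n₁ L a₁ * (δ₁ + δ₁ ^ 2 / (2 * a₁)) := by
    have := g₁.pos
    have := g₁.len
    positivity
  have p2 : 0 ≤ sec n₂ L a₂ * (δ₂ + δ₂ ^ 2 / (2 * a₂)) := by
    have := g₂.pos
    have := g₂.len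
    positivity
  have hsub : {z | z ∈ L ∧ inner ℝ n₁ z ≤ a₁ + δ₁ ∧ inner ℝ n₂ z ≤ a₂ + δ₂} ⊆
      ((F ∩ L) ∪ {z | z ∈ L ∧ a₁ < inner ℝ n₁ z ∧ inner ℝ n₁ z ≤ a₁ + δ₁}) ∪
        {z | z ∈ L ∧ a₂ < inner ℝ n₂ z ∧ inner ℝ n₂ z ≤ a₂ + δ₂} := by
    rintro z ⟨hz, hz1, hz2⟩
    by_cases c1 : a₁ < inner ℝ n₁ z
    · exact Or.inl (Or.inr ⟨hz, c1, hz1⟩)
    by_cases c2 : a₂ < inner ℝ n₂ z
    · exact Or.inr ⟨hz, c2, hz2⟩
    · exact Or.inl (Or.inl ⟨hcap z hz (not_lt.1 c1) (not_lt.1 c2), hz⟩)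
  have hle : volume {z | z ∈ L ∧ inner ℝ n₁ z ≤ a₁ + δ₁ ∧ inner ℝ n₂ z ≤ a₂ + δ₂} ≤
      ENNReal.ofReal (x ^ 2 + sec n₁ L a₁ * (δ₁ + δ₁ ^ 2 / (2 * a₁)) +
        sec n₂ L a₂ * (δ₂ + δ₂ ^ 2 / (2 * a₂))) := by
    refine (measure_mono hsub).trans ((measure_union_le _ _).trans ?_)
    rw [ENNReal.ofReal_add (by positivity) p2, ENNReal.ofReal_add (by positivity) p1]
    refine add_le_add ((measure_union_le _ _).trans ?_) (sliver_vol h g₂ h₂)
    exact add_le_add hG.le (sliver_vol h g₁ h₁)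
  refine ⟨(hle.trans_lt ENNReal.ofReal_lt_top).ne, ?_⟩
  exact ENNReal.toReal_le_of_le_ofReal (by positivity) hle

end Pool.Agent.Lib.MP_43065d_gt
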