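import Pool.Agent.Lib.MP_43065d_gt.Pl.Sliver
import Pool.Agent.Lib.MP_43065d_gt.Pl.PathB
import Pool.Agent.Lib.MP_43065d_gt.Pl.EdgeC
import Pool.Agent.Lib.MP_43065d_gt.BMk

/-!
# Module SlopeA (section 6): Brunn-Minkowski plus path bound for `(1-μ)G + μY`

PROOF.  `G = F ∩ L`, `Y = Ncut .. τ` (nonempty compact convex), `e = μ(τ-1)/2 > 0`, `τ' = 1 + μ(τ-1) = 1 + 2e`, `X = {(1-μ) • g + μ • z | g ∈ G, z ∈ Y}` (compact convex).
(1) `X ⊆ N τ'` (`hN.comb` with `s = 1`, `hN.one`; `(1-μ)*1 + μ τ = τ'`).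
(2) for `z ∈ X`, `inner n_j z ≤ (1-μ) a_j + μ lev_j τ = lev_j τ' = a_j + 2e (a_j - W_j(1-ch_j)/2)`.
(3) for `z ∈ X`, `y ∈ F`: `p = (1+e)⁻¹ • (z - e • y) ∈ L` (`hN.incl`), and `inner n_j (z - e • y) ≤ a_j + 2e a_j - e W_j (1-ch_j) + e (W_j - a_j) = (1+e) a_j + e W_j ch_j` because
`- inner n_j y ≤ - lo n_j F = W_j - a_j`.  So `inner n_j p ≤ a_j + d_j`, `d_j = e k_j/(1+e)`, `k_j = W_j ch_j`.
(4) So `{z - e • y} ⊆ T := (1+e) • S`, `S` the set of `sliver` with `δ_j = d_j`; `volume.real T = (1+e)² volume.real S` (`Measure.addHaar_smul`, `finrank = 2`).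
(5) Brunn-Minkowski `bm2` for `(1-μ) • G` and `μ • Y`: `√(volume.real X) ≥ (1-μ) x + μ y`, `y = √(volume.real Y)` (`volume.real (t • A) = t² volume.real A`), so
`volume.real X ≥ ((1-μ)x+μy)²`.
(6) `hi n₁ X = (1-μ) a₁ + μ hi n₁ Y`, `lo n₁ X = (1-μ) lo n₁ G + μ lo n₁ Y`, so `hi n₁ X - lo n₁ X = (1-μ) H + μ hY > 0`.  Top chord: `sec n₁ X (hi n₁ X) ≥ (1-μ) sec n₁ G a₁ = (1-μ) c₁` (`sec_add` with
`A = G` at height `a₁`, `B = Y` at height `hi n₁ Y`, `α = 1-μ`, `β = μ`).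
(7) `path_bound` (direction `n₁`, `c = (1-μ)c₁`, `hi n₁ F = a₁`, `hi - lo = W₁`, `edge_int` for the integral) with (4), (5): the claim (the coefficient of `volume.real X` is positive).
-/

open MeasureTheory Set Filter Topology Metric
open scoped ENNReal NNReal Pointwise

namespace Pool.Agent.Lib.MP_43065d_gt

private theorem sla_mem {A B : Set E2} {α β : ℝ} {p : E2} (hp : p ∈ α • A + β • B) :
    ∃ g ∈ A, ∃ z ∈ B, p = α • g + β • z := by
  obtain ⟨_, ⟨g, hg, rfl⟩, _, ⟨z, hz, rfl⟩, rfl⟩ := hp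
  exact ⟨g, hg, z, hz, rfl⟩

private theorem sla_mk {A B : Set E2} {α β : ℝ} {g z : E2} (hg : g ∈ A) (hz : z ∈ B) :
    α • g + β • z ∈ α • A + β • B :=
  Set.add_mem_add (Set.smul_mem_smul_set hg) (Set.smul_mem_smul_set hz)

private theorem sla_inner (n g z : E2) (α β : ℝ) :
    inner ℝ n (α • g + β • z) = α * inner ℝ n g + β * inner ℝ n z := by
  rw [inner_add_right, inner_smul_right, inner_smul_right]

private theorem sla_cpt {A B : Set E2} (hA : IsCompact A) (hB : IsCompact B) (α β : ℝ) :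
    IsCompact (α • A + β • B) := (hA.smul α).add (hB.smul β)

private theorem sla_hi (n : E2) {A B : Set E2} (hA : IsCompact A) (hB : IsCompact B)
    (hA0 : A.Nonempty) (hB0 : B.Nonempty) {α β : ℝ} (hα : 0 ≤ α) (hβ : 0 ≤ β) :
    hi n (α • A + β • B) = α * hi n A + β * hi n B := by
  have hX := sla_cpt hA hB α β
  obtain ⟨g0, hg0, hg1⟩ := exists_hi n hA hA0
  obtain ⟨z0, hz0, hz1⟩ := exists_hi n hB hB0
  apply le_antisymm
  · obtain ⟨p, hp, hpn⟩ := exists_hi n hX ⟨_, sla_mk hg0 hz0⟩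
    rw [← hpn]
    obtain ⟨g, hg, z, hz, rfl⟩ := sla_mem hp
    rw [sla_inner]
    exact add_le_add (mul_le_mul_of_nonneg_left (mem_Icc_lo_hi n hA hg).2 hα)
      (mul_le_mul_of_nonneg_left (mem_Icc_lo_hi n hB hz).2 hβ)
  · have h := (mem_Icc_lo_hi n hX (sla_mk (α := α) (β := β) hg0 hz0)).2
    rw [sla_inner, hg1, hz1] at h
    exact h

private theorem sla_lo (n : E2) {A B : Set E2} (hA : IsCompact A) (hB : IsCompact B)
    (hA0 : A.Nonempty) (hB0 : B.Nonempty) {α β : ℝ} (hα : 0 ≤ α) (hβ : 0 ≤ β) :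
    lo n (α • A + β • B) = α * lo n A + β * lo n B := by
  have hX := sla_cpt hA hB α β
  obtain ⟨g0, hg0, hg1⟩ := exists_lo n hA hA0
  obtain ⟨z0, hz0, hz1⟩ := exists_lo n hB hB0
  apply le_antisymm
  · have h := (mem_Icc_lo_hi n hX (sla_mk (α := α) (β := β) hg0 hz0)).1
    rw [sla_inner, hg1, hz1] at h
    exact h
  · obtain ⟨p, hp, hpn⟩ := exists_lo n hX ⟨_, sla_mk hg0 hz0⟩
    rw [← hpn]
    obtain ⟨g, hg, z, hz, rfl⟩ := sla_mem hp
    rw [sla_inner]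
    exact add_le_add (mul_le_mul_of_nonneg_left (mem_Icc_lo_hi n hA hg).1 hα)
      (mul_le_mul_of_nonneg_left (mem_Icc_lo_hi n hB hz).1 hβ)

private theorem sla_vol {t : ℝ} (ht : 0 ≤ t) (A : Set E2) :
    volume.real (t • A) = t ^ 2 * volume.real A := by
  unfold Measure.real
  rw [Measure.addHaar_smul_of_nonneg volume ht, finrank_euclideanSpace_fin, ENNReal.toReal_mul,
    ENNReal.toReal_ofReal (pow_nonneg ht 2)]

private theorem sla_fin {t : ℝ} (ht : 0 ≤ t) {A : Set E2} (hA : volume A ≠ ⊤) :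
    volume (t • A) ≠ ⊤ := by
  rw [Measure.addHaar_smul_of_nonneg volume ht]
  exact ENNReal.mul_ne_top ENNReal.ofReal_ne_top hA

private theorem sla_bm {A B : Set E2} (hA : Convex ℝ A) (hB : Convex ℝ B) (hAc : IsCompact A)
    (hBc : IsCompact B) (hA0 : A.Nonempty) (hB0 : B.Nonempty) {α β : ℝ} (hα : 0 ≤ α)
    (hβ : 0 ≤ β) : (α * √(volume.real A) + β * √(volume.real B)) ^ 2 ≤
      volume.real (α • A + β • B) := by
  have h := bm2 (hA.smul α) (hB.smul β) (hAc.smul α) (hBc.smul β) hA0.smul_set hB0.smul_set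
    (C := α • A + β • B) subset_rfl (sla_cpt hAc hBc α β).measure_lt_top.ne
  rw [← Real.sqrt_eq_rpow, ← Real.sqrt_eq_rpow, ← Real.sqrt_eq_rpow, sla_vol hα, sla_vol hβ,
    Real.sqrt_mul (sq_nonneg _), Real.sqrt_mul (sq_nonneg _), Real.sqrt_sq hα,
    Real.sqrt_sq hβ] at h
  have h0 : 0 ≤ α * √(volume.real A) + β * √(volume.real B) := by positivity
  calc (α * √(volume.real A) + β * √(volume.real B)) ^ 2 ≤ √(volume.real (α • A + β • B)) ^ 2 :=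
        pow_le_pow_left₀ h0 h 2
    _ = volume.real (α • A + β • B) := Real.sq_sqrt measureReal_nonneg

theorem slope_a {F L : Set E2} {x : ℝ} {N : ℝ → Set E2} (h : PN F L x) (hN : Fam F L N)
    {n₁ : E2} {a₁ : ℝ} {n₂ : E2} {a₂ : ℝ} (g₁ : GEdge F L n₁ a₁) (g₂ : GEdge F L n₂ a₂)
    (hcap : ∀ z ∈ L, inner ℝ n₁ z ≤ a₁ → inner ℝ n₂ z ≤ a₂ → z ∈ F) {τ : ℝ} (hτ : 1 < τ)
    (hY : (Ncut F L x N n₁ a₁ n₂ a₂ τ).Nonempty) {r : ℝ} (hr : 0 < r) (hr1 : r ≤ 1) {μ : ℝ}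
    (hμ : μ ∈ Ioo (0 : ℝ) 1) :
    ((1 - μ) * x + μ * √(volume.real (Ncut F L x N n₁ a₁ n₂ a₂ τ))) ^ 2 +
      μ * (τ - 1) / 2 * ((1 - μ) * (sec n₁ L a₁ * eW F n₁ a₁ * (1 - r)) +
        ((1 - μ) * (a₁ - lo n₁ (F ∩ L)) +
          μ * (hi n₁ (Ncut F L x N n₁ a₁ n₂ a₂ τ) - lo n₁ (Ncut F L x N n₁ a₁ n₂ a₂ τ))) *
          ((∫ u in (0 : ℝ)..r, eF F n₁ a₁ u) / (r * eW F n₁ a₁)) +
        r * eW F n₁ a₁ / ((1 - μ) * (a₁ - lo n₁ (F ∩ L)) +
          μ * (hi n₁ (Ncut F L x N n₁ a₁ n₂ a₂ τ) - lo n₁ (Ncut F L x N n₁ a₁ n₂ a₂ τ))) *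
          ((1 - μ) * x + μ * √(volume.real (Ncut F L x N n₁ a₁ n₂ a₂ τ))) ^ 2) ≤
      (1 + μ * (τ - 1) / 2) ^ 2 * (x ^ 2 +
        sec n₁ L a₁ * (μ * (τ - 1) / 2 * (eW F n₁ a₁ * eC F L x n₁ a₁) / (1 + μ * (τ - 1) / 2) +
          (μ * (τ - 1) / 2 * (eW F n₁ a₁ * eC F L x n₁ a₁) / (1 + μ * (τ - 1) / 2)) ^ 2 /
            (2 * a₁)) +
        sec n₂ L a₂ * (μ * (τ - 1) / 2 * (eW F n₂ a₂ * eC F L x n₂ a₂) / (1 + μ * (τ - 1) / 2) +
          (μ * (τ - 1) / 2 * (eW F n₂ a₂ * eC F L x n₂ a₂) / (1 + μ * (τ - 1) / 2)) ^ 2 /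
            (2 * a₂))) := by
  obtain ⟨e, he⟩ : ∃ e : ℝ, e = μ * (τ - 1) / 2 := ⟨_, rfl⟩
  rw [← he]
  have hμ0 := hμ.1
  have hμ1 := hμ.2
  have he0 : 0 < e := by
    rw [he]
    have : 0 < τ - 1 := by linarith
    positivity
  have h1μ : 0 < 1 - μ := by linarith
  have h1e : 0 < 1 + e := by linarith
  set Y := Ncut F L x N n₁ a₁ n₂ a₂ τ with hYd
  set G := F ∩ L with hGd
  -- `G` and `Y` are compact and convex
  have hGc : IsCompact G := h.cptF.inter_right h.closedL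
  have hGv : Convex ℝ G := h.convF.inter h.convL
  have hG0 : G.Nonempty := by
    obtain ⟨z, hz, -⟩ := g₁.ex
    exact ⟨z, hz⟩
  have hcont : ∀ n : E2, Continuous fun y : E2 => (inner ℝ n y : ℝ) := fun n =>
    continuous_const.inner continuous_id
  have hhalf : ∀ (n : E2) (b : ℝ), Convex ℝ {y : E2 | inner ℝ n y ≤ b} := by
    intro n b p hp q hq α β hα hβ hαβ
    show inner ℝ n (α • p + β • q) ≤ b
    rw [sla_inner]
    have h1 : inner ℝ n p ≤ b := hp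
    have h2 : inner ℝ n q ≤ b := hq
    calc α * inner ℝ n p + β * inner ℝ n q ≤ α * b + β * b :=
          add_le_add (mul_le_mul_of_nonneg_left h1 hα) (mul_le_mul_of_nonneg_left h2 hβ)
      _ = b := by rw [← add_mul, hαβ, one_mul]
  have hNv : Convex ℝ (N τ) := by
    intro z hz w hw α β hα hβ hαβ
    have h1 := hN.comb τ τ hτ.le hτ.le z hz w hw β ⟨hβ, by linarith⟩
    have h2 : (1 - β) = α := by linarith
    rw [h2] at h1
    have h3 : α * τ + β * τ = τ := by rw [← add_mul, hαβ, one_mul]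
    rwa [h3] at h1
  have hYeq : Y = N τ ∩ ({y : E2 | inner ℝ n₁ y ≤ lev F L x n₁ a₁ τ} ∩
      {y : E2 | inner ℝ n₂ y ≤ lev F L x n₂ a₂ τ}) := rfl
  have hYc : IsCompact Y := by
    rw [hYeq]
    exact (hN.cpt τ hτ.le).inter_right ((isClosed_le (hcont n₁) continuous_const).inter
      (isClosed_le (hcont n₂) continuous_const))
  have hYv : Convex ℝ Y := by
    rw [hYeq]
    exact hNv.inter ((hhalf _ _).inter (hhalf _ _))
  -- edge data
  have hW₁ := edge_W_pos h g₁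
  have hW₂ := edge_W_pos h g₂
  have hC₁ := edge_C_pos h g₁
  have hC₂ := edge_C_pos h g₂
  have hk : ∀ {n : E2} {a : ℝ}, GEdge F L n a → (∀ z ∈ Y, inner ℝ n z ≤ lev F L x n a τ) →
      ∀ z ∈ (1 - μ) • G + μ • Y, ∀ y ∈ F,
        inner ℝ n ((1 + e)⁻¹ • (z - e • y)) ≤ a + e * (eW F n a * eC F L x n a) / (1 + e) := by
    intro n a g hlev z hz y hy
    obtain ⟨p, hp, q, hq, rfl⟩ := sla_mem hz
    have h1 := g.le p hp.1
    have h2 := hlev q hq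
    have h3 := (mem_Icc_lo_hi n h.cptF hy).1
    have h4 : lo n F = a - eW F n a := by unfold eW; ring
    rw [h4] at h3
    rw [inner_smul_right, inner_sub_right, sla_inner, inner_smul_right, inv_mul_le_iff₀ h1e]
    have h5 : (1 + e) * (a + e * (eW F n a * eC F L x n a) / (1 + e)) =
        (1 + e) * a + e * (eW F n a * eC F L x n a) := by
      field_simp
    rw [h5]
    have h6 : lev F L x n a τ = a + (τ - 1) * (a - eW F n a * (1 - eC F L x n a) / 2) := rfl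
    rw [h6] at h2
    have h7 := mul_le_mul_of_nonneg_left h1 h1μ.le
    have h8 := mul_le_mul_of_nonneg_left h2 hμ0.le
    have h9 := mul_le_mul_of_nonneg_left h3 he0.le
    have h10 : μ * (a + (τ - 1) * (a - eW F n a * (1 - eC F L x n a) / 2)) =
        μ * a + 2 * e * (a - eW F n a * (1 - eC F L x n a) / 2) := by
      rw [he]
      ring
    rw [h10] at h8
    linarith
  set d₁ := e * (eW F n₁ a₁ * eC F L x n₁ a₁) / (1 + e) with hd₁
  set d₂ := e * (eW F n₂ a₂ * eC F L x n₂ a₂) / (1 + e) with hd₂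
  have hd₁0 : 0 ≤ d₁ := by positivity
  have hd₂0 : 0 ≤ d₂ := by positivity
  obtain ⟨hSf, hSv⟩ := sliver h g₁ g₂ hcap hd₁0 hd₂0
  set S : Set E2 := {z | z ∈ L ∧ inner ℝ n₁ z ≤ a₁ + d₁ ∧ inner ℝ n₂ z ≤ a₂ + d₂} with hSd
  -- the set `X`
  set X : Set E2 := (1 - μ) • G + μ • Y with hXd
  have hXc : IsCompact X := sla_cpt hGc hYc _ _
  have hXv : Convex ℝ X := (hGv.smul _).add (hYv.smul _)
  have hXN : ∀ z ∈ X, z ∈ N (1 + 2 * e) := by
    intro z hz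
    obtain ⟨p, hp, q, hq, rfl⟩ := sla_mem hz
    have h1 := hN.comb 1 τ le_rfl hτ.le p (by rw [hN.one]; exact hp) q hq.1 μ ⟨hμ0.le, hμ1.le⟩
    have h2 : (1 - μ) * 1 + μ * τ = 1 + 2 * e := by
      rw [he]
      ring
    rwa [h2] at h1
  have hT : ∀ z ∈ X, ∀ y ∈ F, z - e • y ∈ (1 + e) • S := by
    intro z hz y hy
    refine ⟨(1 + e)⁻¹ • (z - e • y), ⟨hN.incl e he0.le z (hXN z hz) y hy,
      hk g₁ (fun q hq => hq.2.1) z hz y hy, hk g₂ (fun q hq => hq.2.2) z hz y hy⟩, ?_⟩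
    show (1 + e) • (1 + e)⁻¹ • (z - e • y) = z - e • y
    rw [smul_smul, mul_inv_cancel₀ h1e.ne', one_smul]
  have hTf : volume ((1 + e) • S) ≠ ⊤ := sla_fin h1e.le hSf
  have hTv : volume.real ((1 + e) • S) = (1 + e) ^ 2 * volume.real S := sla_vol h1e.le S
  -- Brunn-Minkowski
  have hBM := sla_bm hGv hYv hGc hYc hG0 hY h1μ.le hμ0.le
  rw [h.volG, Real.sqrt_sq h.x_pos.le] at hBM
  -- heights
  have hhiX : hi n₁ X = (1 - μ) * a₁ + μ * hi n₁ Y := by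
    rw [hXd, sla_hi n₁ hGc hYc hG0 hY h1μ.le hμ0.le, edge_hiG h g₁]
  have hloX : lo n₁ X = (1 - μ) * lo n₁ G + μ * lo n₁ Y := by
    rw [hXd, sla_lo n₁ hGc hYc hG0 hY h1μ.le hμ0.le]
  have hloG := edge_loG h g₁
  have hYlh : lo n₁ Y ≤ hi n₁ Y := by
    obtain ⟨y, hy⟩ := hY
    have h1 := mem_Icc_lo_hi n₁ hYc hy
    exact h1.1.trans h1.2
  have hK : hi n₁ X - lo n₁ X = (1 - μ) * (a₁ - lo n₁ G) + μ * (hi n₁ Y - lo n₁ Y) := by
    rw [hhiX, hloX]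
    ring
  have hK0 : 0 < (1 - μ) * (a₁ - lo n₁ G) + μ * (hi n₁ Y - lo n₁ Y) := by
    have h1 : 0 < a₁ - lo n₁ G := by linarith [g₁.pos]
    have h2 : 0 ≤ hi n₁ Y - lo n₁ Y := by linarith
    have h3 := mul_pos h1μ h1
    have h4 := mul_nonneg hμ0.le h2
    linarith
  have hXW : lo n₁ X < hi n₁ X := by
    rw [← hK] at hK0
    linarith
  have hc0 : 0 ≤ (1 - μ) * sec n₁ L a₁ := mul_nonneg h1μ.le (sec_nonneg _ _ _)
  have hc : (1 - μ) * sec n₁ L a₁ ≤ sec n₁ X (hi n₁ X) := by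
    have h1 := sec_add g₁.unit hGv hGc hYv hYc (T := X) (α := 1 - μ) (β := μ) (s := a₁)
      (t := hi n₁ Y) (by
        obtain ⟨z, hz, hz2⟩ := g₁.ex
        exact ⟨z, hz, hz2⟩) (exists_hi n₁ hYc hY) (fun p hp q hq _ _ => sla_mk hp hq)
      (sec_ne_top g₁.unit hXc.isBounded _)
    rw [← hhiX, abs_of_pos h1μ, abs_of_pos hμ0] at h1
    have h2 : sec n₁ G a₁ = sec n₁ L a₁ := edge_secG h g₁
    rw [h2] at h1
    have h3 := mul_nonneg hμ0.le (sec_nonneg n₁ Y (hi n₁ Y))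
    linarith
  have hFlh : lo n₁ F < hi n₁ F := by
    rw [edge_hi h g₁]
    unfold eW at hW₁
    linarith
  have hpb := path_bound g₁.unit h.convF h.cptF hXv hXc hFlh hXW hc0 hc hr hr1 he0.le hT hTf
  have hWeq : hi n₁ F - lo n₁ F = eW F n₁ a₁ := by
    rw [edge_hi h g₁]
    rfl
  rw [hWeq, edge_hi h g₁, ← edge_int h g₁ r, hTv, hK] at hpb
  refine le_trans ?_ (hpb.trans (mul_le_mul_of_nonneg_left hSv (sq_nonneg _)))
  set M := ((1 - μ) * x + μ * √(volume.real Y)) ^ 2 with hM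
  set K := (1 - μ) * (a₁ - lo n₁ G) + μ * (hi n₁ Y - lo n₁ Y) with hKd
  have h1 : r * eW F n₁ a₁ / K * M ≤ r * eW F n₁ a₁ / K * volume.real X :=
    mul_le_mul_of_nonneg_left hBM (by positivity)
  have h2 : K * ((∫ u in (0 : ℝ)..r, eF F n₁ a₁ u) / (r * eW F n₁ a₁)) =
      K / (r * eW F n₁ a₁) * ∫ u in (0 : ℝ)..r, eF F n₁ a₁ u := by
    ring
  rw [h2]
  have h3 : (1 - μ) * (sec n₁ L a₁ * eW F n₁ a₁ * (1 - r)) =
      (1 - μ) * sec n₁ L a₁ * eW F n₁ a₁ * (1 - r) := by ring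
  rw [h3]
  refine add_le_add hBM (mul_le_mul_of_nonneg_left ?_ he0.le)
  linarith

end Pool.Agent.Lib.MP_43065d_gt
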