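import Pool.Agent.Lib.MP_43065d_gt.Pl.PDefs

/-!
# Module SlopeLim: a first order limit (pure real analysis)

PROOF.  The difference `D μ = right - left` is `≥ 0` on `(0,1)`, `D 0 = 0`, and `D` is differentiable at `0` (rational function of `μ` with
nonzero denominators near `0`: `1+e > 0`, `(1-μ)H+μ hY > 0`), so `D'(0) ≥ 0`.  With `e = μT/2`:
left'(0) `= -2x(x-y) + (T/2)(P + H Q + R/H * x²)`; right'(0) `= T x² + (T/2)(c₁k₁ + c₂k₂)` (`(1+e)²` has derivative `T`; `e k/(1+e)` has derivative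
`T k/2`; its square has derivative `0`).
Alternative without derivatives: divide by `μ` and let `μ → 0` in an explicit rational inequality.
-/

open MeasureTheory Set Filter Topology Metric
open scoped ENNReal NNReal Pointwise

namespace Pool.Agent.Lib.MP_43065d_gt

theorem slope_limit {x y T H hY P Q R c₁ k₁ a₁ c₂ k₂ a₂ : ℝ} (hT : 0 < T) (hH : 0 < H)
    (hY0 : 0 ≤ hY) (ha₁ : 0 < a₁) (ha₂ : 0 < a₂)
    (hyp : ∀ μ ∈ Ioo (0 : ℝ) 1, ((1 - μ) * x + μ * y) ^ 2 + μ * T / 2 * ((1 - μ) * P +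
      ((1 - μ) * H + μ * hY) * Q + R / ((1 - μ) * H + μ * hY) * ((1 - μ) * x + μ * y) ^ 2) ≤
      (1 + μ * T / 2) ^ 2 * (x ^ 2 +
        c₁ * (μ * T / 2 * k₁ / (1 + μ * T / 2) + (μ * T / 2 * k₁ / (1 + μ * T / 2)) ^ 2 / (2 * a₁)) +
        c₂ * (μ * T / 2 * k₂ / (1 + μ * T / 2) +
          (μ * T / 2 * k₂ / (1 + μ * T / 2)) ^ 2 / (2 * a₂)))) :
    -2 * x * (x - y) + T / 2 * (P + H * Q + R / H * x ^ 2) ≤
      T * x ^ 2 + T / 2 * (c₁ * k₁ + c₂ * k₂) := by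
  let f : ℝ → ℝ := fun μ => (y - x) * (2 * x + μ * (y - x)) + T / 2 * ((1 - μ) * P +
    ((1 - μ) * H + μ * hY) * Q + R / ((1 - μ) * H + μ * hY) * ((1 - μ) * x + μ * y) ^ 2)
  let g : ℝ → ℝ := fun μ => T / 2 * (2 + μ * T / 2) * x ^ 2 +
    c₁ * (T / 2) * (k₁ * (1 + μ * T / 2) + μ * T / 2 * k₁ ^ 2 / (2 * a₁)) +
    c₂ * (T / 2) * (k₂ * (1 + μ * T / 2) + μ * T / 2 * k₂ ^ 2 / (2 * a₂))
  have hfc : ContinuousAt f 0 := by
    have h1 : ContinuousAt (fun μ : ℝ => R / ((1 - μ) * H + μ * hY)) 0 := by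
      refine ContinuousAt.div continuousAt_const (by fun_prop) ?_
      simpa using hH.ne'
    have h2 : ContinuousAt (fun μ : ℝ => R / ((1 - μ) * H + μ * hY) *
        ((1 - μ) * x + μ * y) ^ 2) 0 := h1.mul (by fun_prop)
    have h3 : ContinuousAt (fun μ : ℝ => (1 - μ) * P + ((1 - μ) * H + μ * hY) * Q) 0 := by
      fun_prop
    have h4 : ContinuousAt (fun μ : ℝ => (y - x) * (2 * x + μ * (y - x))) 0 := by fun_prop
    exact h4.add (continuousAt_const.mul (h3.add h2))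
  have hgc : ContinuousAt g 0 := by
    have : Continuous g := by
      simp only [g]
      fun_prop
    exact this.continuousAt
  have hle : ∀ μ ∈ Ioo (0 : ℝ) 1, f μ ≤ g μ := by
    intro μ hμ
    have h1 := hyp μ hμ
    have hμ0 : 0 < μ := hμ.1
    have hd : 0 < 1 + μ * T / 2 := by positivity
    obtain ⟨d, hdd⟩ : ∃ d, d = 1 + μ * T / 2 := ⟨_, rfl⟩
    have hd0 : d ≠ 0 := by rw [hdd]; exact hd.ne'
    have key : ∀ c k a : ℝ, 0 < a → d ^ 2 * (c * (μ * T / 2 * k / d +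
        (μ * T / 2 * k / d) ^ 2 / (2 * a))) =
        μ * (c * (T / 2) * (k * d + μ * T / 2 * k ^ 2 / (2 * a))) := by
      intro c k a ha
      field_simp
    have h2 : (1 + μ * T / 2) ^ 2 * (x ^ 2 +
        c₁ * (μ * T / 2 * k₁ / (1 + μ * T / 2) + (μ * T / 2 * k₁ / (1 + μ * T / 2)) ^ 2 / (2 * a₁)) +
        c₂ * (μ * T / 2 * k₂ / (1 + μ * T / 2) +
          (μ * T / 2 * k₂ / (1 + μ * T / 2)) ^ 2 / (2 * a₂))) = x ^ 2 + μ * g μ := by
      simp only [g]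
      rw [← hdd, mul_add, mul_add, key c₁ k₁ a₁ ha₁, key c₂ k₂ a₂ ha₂]
      have h3 : d ^ 2 * x ^ 2 = x ^ 2 + μ * (T / 2 * (2 + μ * T / 2) * x ^ 2) := by
        rw [hdd]; ring
      rw [h3]
      ring
    have h4 : ((1 - μ) * x + μ * y) ^ 2 + μ * T / 2 * ((1 - μ) * P +
      ((1 - μ) * H + μ * hY) * Q + R / ((1 - μ) * H + μ * hY) * ((1 - μ) * x + μ * y) ^ 2) =
        x ^ 2 + μ * f μ := by
      simp only [f]
      ring
    rw [h2, h4] at h1
    exact le_of_mul_le_mul_left (by linarith) hμ0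
  have hev : ∀ᶠ μ in 𝓝[>] (0 : ℝ), f μ ≤ g μ := by
    filter_upwards [Ioo_mem_nhdsGT (show (0 : ℝ) < 1 by norm_num)] with μ hμ
    exact hle μ hμ
  have hlim : f 0 ≤ g 0 :=
    le_of_tendsto_of_tendsto (hfc.tendsto.mono_left nhdsWithin_le_nhds)
      (hgc.tendsto.mono_left nhdsWithin_le_nhds) hev
  have hf0 : f 0 = -2 * x * (x - y) + T / 2 * (P + H * Q + R / H * x ^ 2) := by
    simp only [f]
    simp only [sub_zero, one_mul, zero_mul, add_zero]
    ring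
  have hg0 : g 0 = T * x ^ 2 + T / 2 * (c₁ * k₁ + c₂ * k₂) := by
    simp only [g]
    simp only [zero_mul, zero_div, add_zero, mul_one]
    ring
  rw [hf0, hg0] at hlim
  exact hlim

end Pool.Agent.Lib.MP_43065d_gt
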