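import Pool.Agent.Lib.MP_43065d_gt.Pl.SlopeA
import Pool.Agent.Lib.MP_43065d_gt.Pl.SlopeLim
import Pool.Agent.Lib.MP_43065d_gt.Pl.EdgeK

/-!
# Module SlopeB (section 6): the slope inequality

PROOF.  `slope_limit` with `T = τ-1`, `H = a₁ - lo n₁ G > 0`, `hY = hi n₁ Y - lo n₁ Y ≥ 0`, `P = c₁W₁(1-r)`, `Q = I/(rW₁)`, `R = rW₁`, `k_j = W_j ch_j`; hypothesis `slope_a`.
With `c₁ W₁ = 2x ch₁`, `H = 2x W₁ hh` (`hh = eH`): `P + H Q + R/H x² = 2x (ch₁(1-r) + (hh/r) I + r/(4hh)) = 2x eJ r` and `c_j k_j = c_j W_j ch_j = 2x ch_j²`.  So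
`-2x(x-y) + (T/2) 2x eJ ≤ T x² + (T/2) 2x (ch₁²+ch₂²)`; divide by `2x`: `y ≤ x - T (eJ - x - ch₁² - ch₂²)/2`.
`slope'`: the same for the second edge (`Ncut` is symmetric in the two edges: set equality with the conditions exchanged).
-/

open MeasureTheory Set Filter Topology Metric
open scoped ENNReal NNReal Pointwise

namespace Pool.Agent.Lib.MP_43065d_gt

variable {F L : Set E2} {x : ℝ} {N : ℝ → Set E2} {n₁ : E2} {a₁ : ℝ} {n₂ : E2} {a₂ : ℝ}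

private theorem ncut_compact {F L : Set E2} {x : ℝ} {N : ℝ → Set E2} {n₁ : E2} {a₁ : ℝ} {n₂ : E2}
    {a₂ τ : ℝ} (hc : IsCompact (N τ)) : IsCompact (Ncut F L x N n₁ a₁ n₂ a₂ τ) := by
  have h0 : ∀ (n : E2) (b : ℝ), IsClosed {z : E2 | (inner ℝ n z : ℝ) ≤ b} := fun n b =>
    isClosed_le (continuous_const.inner continuous_id) continuous_const
  exact hc.inter_right ((h0 n₁ _).inter (h0 n₂ _))

theorem slope_one (h : PN F L x) (hN : Fam F L N) (g₁ : GEdge F L n₁ a₁) (g₂ : GEdge F L n₂ a₂)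
    (hcap : ∀ z ∈ L, inner ℝ n₁ z ≤ a₁ → inner ℝ n₂ z ≤ a₂ → z ∈ F) {τ : ℝ} (hτ : 1 < τ)
    (hY : (Ncut F L x N n₁ a₁ n₂ a₂ τ).Nonempty) {r : ℝ} (hr : 0 < r) (hr1 : r ≤ 1) :
    √(volume.real (Ncut F L x N n₁ a₁ n₂ a₂ τ)) ≤
      x - (τ - 1) * ((eJ F L x n₁ a₁ r - x - eC F L x n₁ a₁ ^ 2 - eC F L x n₂ a₂ ^ 2) / 2) := by
  have hx := h.x_pos
  have hW := edge_W_pos h g₁
  have hHh := edge_H_pos h g₁
  have hlo := edge_loG h g₁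
  have ha := g₁.pos
  have hc1 : sec n₁ L a₁ * eW F n₁ a₁ = 2 * x * eC F L x n₁ a₁ := by
    unfold eC
    field_simp
  have hc2 : sec n₂ L a₂ * eW F n₂ a₂ = 2 * x * eC F L x n₂ a₂ := by
    unfold eC
    field_simp
  have hH : a₁ - lo n₁ (F ∩ L) = 2 * x * eW F n₁ a₁ * eH F L x n₁ a₁ := by
    unfold eH
    field_simp
  have hY0 : 0 ≤ hi n₁ (Ncut F L x N n₁ a₁ n₂ a₂ τ) - lo n₁ (Ncut F L x N n₁ a₁ n₂ a₂ τ) := by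
    obtain ⟨z, hz⟩ := hY
    have h1 := mem_Icc_lo_hi n₁ (ncut_compact (F := F) (L := L) (x := x) (n₁ := n₁) (a₁ := a₁)
      (n₂ := n₂) (a₂ := a₂) (hN.cpt τ hτ.le)) hz
    linarith [h1.1, h1.2]
  have hlim := slope_limit (x := x) (y := √(volume.real (Ncut F L x N n₁ a₁ n₂ a₂ τ)))
    (T := τ - 1) (H := a₁ - lo n₁ (F ∩ L))
    (hY := hi n₁ (Ncut F L x N n₁ a₁ n₂ a₂ τ) - lo n₁ (Ncut F L x N n₁ a₁ n₂ a₂ τ))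
    (P := sec n₁ L a₁ * eW F n₁ a₁ * (1 - r))
    (Q := (∫ u in (0 : ℝ)..r, eF F n₁ a₁ u) / (r * eW F n₁ a₁)) (R := r * eW F n₁ a₁)
    (c₁ := sec n₁ L a₁) (k₁ := eW F n₁ a₁ * eC F L x n₁ a₁) (a₁ := a₁)
    (c₂ := sec n₂ L a₂) (k₂ := eW F n₂ a₂ * eC F L x n₂ a₂) (a₂ := a₂)
    (by linarith) (by linarith) hY0 ha g₂.pos
    (fun μ hμ => slope_a h hN g₁ g₂ hcap hτ hY hr hr1 hμ)
  obtain ⟨I, hI⟩ : ∃ I, I = ∫ u in (0 : ℝ)..r, eF F n₁ a₁ u := ⟨_, rfl⟩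
  obtain ⟨y, hy⟩ : ∃ y, y = √(volume.real (Ncut F L x N n₁ a₁ n₂ a₂ τ)) := ⟨_, rfl⟩
  have hJ : eJ F L x n₁ a₁ r = eC F L x n₁ a₁ * (1 - r) + eH F L x n₁ a₁ / r * I +
      r / (4 * eH F L x n₁ a₁) := by rw [hI]; rfl
  rw [hJ]
  rw [← hI, ← hy] at hlim
  rw [← hy]
  obtain ⟨W, hWd⟩ : ∃ W, W = eW F n₁ a₁ := ⟨_, rfl⟩
  obtain ⟨hh, hhd⟩ : ∃ hh, hh = eH F L x n₁ a₁ := ⟨_, rfl⟩
  obtain ⟨ch, chd⟩ : ∃ ch, ch = eC F L x n₁ a₁ := ⟨_, rfl⟩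
  obtain ⟨ch', chd'⟩ : ∃ ch', ch' = eC F L x n₂ a₂ := ⟨_, rfl⟩
  rw [hH] at hlim
  rw [← mul_assoc (sec n₁ L a₁), ← mul_assoc (sec n₂ L a₂), hc1, hc2] at hlim
  rw [← hWd] at hlim hW
  rw [← hhd] at hlim hHh
  rw [← chd, ← chd'] at hlim
  rw [← hhd, ← chd, ← chd']
  have hr0 : r ≠ 0 := hr.ne'
  have hW0 : W ≠ 0 := hW.ne'
  have hx0 : x ≠ 0 := hx.ne'
  have hh0 : hh ≠ 0 := hHh.ne'
  have e1 : 2 * x * W * hh * (I / (r * W)) = 2 * x * (hh / r * I) := by field_simp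
  have e2 : r * W / (2 * x * W * hh) * x ^ 2 = 2 * x * (r / (4 * hh)) := by
    field_simp
    ring
  rw [e1, e2] at hlim
  have hlim2 : 2 * x * y ≤ 2 * x * (x - (τ - 1) * ((ch * (1 - r) + hh / r * I + r / (4 * hh) - x -
      ch ^ 2 - ch' ^ 2) / 2)) := by linarith [hlim]
  exact le_of_mul_le_mul_left hlim2 (by positivity)

theorem slope_two (h : PN F L x) (hN : Fam F L N) (g₁ : GEdge F L n₁ a₁) (g₂ : GEdge F L n₂ a₂)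
    (hcap : ∀ z ∈ L, inner ℝ n₁ z ≤ a₁ → inner ℝ n₂ z ≤ a₂ → z ∈ F) {τ : ℝ} (hτ : 1 < τ)
    (hY : (Ncut F L x N n₁ a₁ n₂ a₂ τ).Nonempty) {r : ℝ} (hr : 0 < r) (hr1 : r ≤ 1) :
    √(volume.real (Ncut F L x N n₁ a₁ n₂ a₂ τ)) ≤
      x - (τ - 1) * ((eJ F L x n₂ a₂ r - x - eC F L x n₁ a₁ ^ 2 - eC F L x n₂ a₂ ^ 2) / 2) := by
  have h1 : Ncut F L x N n₁ a₁ n₂ a₂ τ = Ncut F L x N n₂ a₂ n₁ a₁ τ := by
    ext z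
    exact ⟨fun hz => ⟨hz.1, hz.2.2, hz.2.1⟩, fun hz => ⟨hz.1, hz.2.2, hz.2.1⟩⟩
  rw [h1] at hY ⊢
  have h2 := slope_one h hN g₂ g₁ (fun z hz hz1 hz2 => hcap z hz hz2 hz1) hτ hY hr hr1
  have h3 : eJ F L x n₂ a₂ r - x - eC F L x n₁ a₁ ^ 2 - eC F L x n₂ a₂ ^ 2 =
      eJ F L x n₂ a₂ r - x - eC F L x n₂ a₂ ^ 2 - eC F L x n₁ a₁ ^ 2 := by ring
  rw [h3]
  exact h2

end Pool.Agent.Lib.MP_43065d_gt
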