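import Pool.Agent.Lib.MP_43065d_gt.Pl.Bulge

/-!
# Module Straight (P3): the boundary of `F` is straight near points of `frontier F ∩ interior L`

PROOF.  `0 ∈ interior F`: choose `r₀ > 0` with `closedBall 0 r₀ ⊆ F` and `R` with `F ⊆ closedBall 0 R`.  `e = y/‖y‖` (unit; `y ≠ 0` as `0` is interior).
Coordinates `z = s • e + t • rot e` (`coord`).  For `|t| ≤ r₀` put `b t = sSup {s | s • e + t • rot e ∈ F}` (attained; the set contains `0`).  `A t = b t • e + t • rot e ∈ F`, and
`A t ∈ frontier F` (points with larger `s` are not in `F`).  `b 0 = ‖y‖` (since `y ∈ frontier F` and `0` is interior, `λ y ∉ F` for `λ > 1`: otherwise `y` would be in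
the open segment from the interior point `0` to a point of `F`).  For `0 < |t| ≤ r₀`: `b t ≥ b 0 (1-|t|/r₀)` (segment from `y` to `± r₀ • rot e ∈ F`), and
`b 0 ≥ (r₀/(r₀+|t|)) b t` (segment from `A t` to `∓ r₀ • rot e`), so `|b t - b 0| ≤ b 0 |t|/r₀`, `A t → y`.  As `y ∈ interior L` there is
`t₀ ∈ (0, r₀]` with `A (±t₀) ∈ L` and `t₀ < 1/(8R)` (take `R ≥ 1`).
Let `n` be the unit vector orthogonal to `A t₀ - A (-t₀)` with `inner n e > 0` (the difference has `rot e` coordinate `2t₀ ≠ 0`), `β = inner n (A t₀) = inner n (A (-t₀))`; `β > 0`: the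
line meets `{t = 0}` at `s = (b t₀ + b (-t₀))/2 > 0`.  So `0 ∈ F` is strictly below.
Suppose some `z ∈ F` has `inner n z > β`.  Every point `w = s • e + t • rot e ∈ F` with `inner n w > β` has `|t| ≤ t₀` (if `t > t₀`, the point of the segment from `A (-t₀)` to `w`
with coordinate `t₀` is in `F` and strictly above the line, so above `A t₀`, contradiction to the maximality of `b t₀`; same for `t < -t₀`) and `0 ≤ s ≤ R` (the line has `s ≥ 0` on
`|t| ≤ t₀`).  So the area of `{y ∈ F | β < inner n y}` is at most `2 t₀ R < 1/4` (in the coordinates `e, rot e`: `volume_eq_lintegral_sec` or a rectangle), which contradicts `no_bulge`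
(`A = A t₀`, `B = A (-t₀)`).
So `inner n z ≤ β` on `F`.  `y` is on the line: `inner n y ≤ β`; and concavity gives `b 0 ≥ (b t₀ + b (-t₀))/2`, i.e. `inner n y ≥ β`.  Hence
`inner n y = β`, `y` is strictly between `A (-t₀)` and `A t₀`, and both `y ± ρ • rot n ∈ F` for a small `ρ > 0` (`rot n` is parallel to the line).
-/

open MeasureTheory Set Filter Topology Metric
open scoped ENNReal NNReal Pointwise

namespace Pool.Agent.Lib.MP_43065d_gt

private theorem st_rot_add (a b : E2) : rot (a + b) = rot a + rot b := by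
  ext i; fin_cases i <;> simp [rot]; ring

private theorem st_rot_smul (c : ℝ) (a : E2) : rot (c • a) = c • rot a := by
  ext i; fin_cases i <;> simp [rot]

private theorem st_rot_rot (a : E2) : rot (rot a) = -a := by
  ext i; fin_cases i <;> simp [rot]

private theorem st_inner (a b : E2) : inner ℝ a b = a 0 * b 0 + a 1 * b 1 := by
  simp [PiLp.inner_apply, Fin.sum_univ_two, mul_comm]

private theorem st_inner_rot_rot (a b : E2) : inner ℝ (rot a) (rot b) = inner ℝ a b := by
  rw [st_inner, st_inner]; simp [rot]; ring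

private theorem st_coord2 {e : E2} (he : ‖e‖ = 1) (s t : ℝ) :
    inner ℝ (rot e) (s • e + t • rot e) = t := by
  rw [inner_add_right, inner_smul_right, inner_smul_right, st_inner_rot_rot,
    real_inner_self_eq_norm_sq, he, real_inner_comm, inner_rot]
  ring

/-- area of a rectangle -/
private theorem st_rect {e : E2} (he : ‖e‖ = 1) {R t₀ : ℝ} (hR : 0 ≤ R) (ht : 0 ≤ t₀) {S : Set E2}
    (hS : ∀ z ∈ S, |inner ℝ e z| ≤ R ∧ |inner ℝ (rot e) z| ≤ t₀) :
    volume.real S ≤ 4 * R * t₀ := by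
  obtain ⟨Q, hQ⟩ : ∃ Q : Set E2, Q = {z | |inner ℝ e z| ≤ R ∧ |inner ℝ (rot e) z| ≤ t₀} := ⟨_, rfl⟩
  have hSQ : S ⊆ Q := fun z hz => by rw [hQ]; exact hS z hz
  have hQm : MeasurableSet Q := by
    rw [hQ]
    have h1 : IsClosed {z : E2 | |inner ℝ e z| ≤ R ∧ |inner ℝ (rot e) z| ≤ t₀} := by
      refine IsClosed.and ?_ ?_
      · exact isClosed_le (by fun_prop) continuous_const
      · exact isClosed_le (by fun_prop) continuous_const
    exact h1.measurableSet
  have hvol : volume Q ≤ ENNReal.ofReal (4 * R * t₀) := by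
    rw [volume_eq_lintegral_sec he hQm]
    have hb : ∀ s : ℝ, volume {t : ℝ | s • e + t • rot e ∈ Q} ≤
        (Icc (-R) R).indicator (fun _ => ENNReal.ofReal (2 * t₀)) s := by
      intro s
      by_cases hs : s ∈ Icc (-R) R
      · rw [indicator_of_mem hs]
        have h2 : {t : ℝ | s • e + t • rot e ∈ Q} ⊆ Icc (-t₀) t₀ := by
          intro t htQ
          have h3 : s • e + t • rot e ∈ Q := htQ
          rw [hQ] at h3
          have h4 := h3.2
          rw [st_coord2 he] at h4
          exact abs_le.1 h4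
        refine (measure_mono h2).trans ?_
        rw [Real.volume_Icc]
        exact ENNReal.ofReal_le_ofReal (by linarith)
      · rw [indicator_of_notMem hs]
        have h2 : {t : ℝ | s • e + t • rot e ∈ Q} = ∅ := by
          rw [eq_empty_iff_forall_notMem]
          intro t htQ
          have h3 : s • e + t • rot e ∈ Q := htQ
          rw [hQ] at h3
          have h4 := h3.1
          rw [inner_coord he] at h4
          exact hs (abs_le.1 h4)
        rw [h2, measure_empty]
    refine (lintegral_mono hb).trans ?_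
    rw [lintegral_indicator_const measurableSet_Icc, Real.volume_Icc,
      ← ENNReal.ofReal_mul (by linarith)]
    exact ENNReal.ofReal_le_ofReal (by nlinarith)
  have h1 : volume S ≤ ENNReal.ofReal (4 * R * t₀) := (measure_mono hSQ).trans hvol
  exact ENNReal.toReal_le_of_le_ofReal (by positivity) h1

/-- points beyond a frontier point on a ray from `0` are not in `F` -/
private theorem st_ray {F : Set E2} (hF : Convex ℝ F) (h0 : (0 : E2) ∈ interior F) {y : E2}
    (hy : y ∈ frontier F) {c : ℝ} (hc : 1 < c) : c • y ∉ F := by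
  intro hcy
  have h1 : openSegment ℝ (0 : E2) (c • y) ⊆ interior F :=
    hF.openSegment_interior_self_subset_interior h0 hcy
  have hc0 : 0 < c := by linarith
  have h2 : y ∈ openSegment ℝ (0 : E2) (c • y) := by
    refine ⟨1 - c⁻¹, c⁻¹, ?_, by positivity, by ring, ?_⟩
    · have : c⁻¹ < 1 := inv_lt_one_of_one_lt₀ hc
      linarith
    · rw [smul_zero, zero_add, smul_smul, inv_mul_cancel₀ hc0.ne', one_smul]
  exact hy.2 (h1 h2)

private theorem st_top {F : Set E2} (hF : Convex ℝ F) (hFc : IsCompact F) {r₀ : ℝ} (hr₀ : 0 < r₀)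
    (hball : closedBall (0 : E2) r₀ ⊆ F) {e : E2} (he : ‖e‖ = 1) {Y : ℝ} (hY : 0 < Y)
    (hYF : Y • e ∈ F) (hmax : ∀ s : ℝ, s • e ∈ F → s ≤ Y) {t : ℝ} (ht : |t| ≤ r₀) (ht0 : t ≠ 0) :
    ∃ b : ℝ, b • e + t • rot e ∈ F ∧ (∀ s : ℝ, s • e + t • rot e ∈ F → s ≤ b) ∧
      Y * (1 - |t| / r₀) ≤ b ∧ b ≤ Y * (1 + |t| / r₀) := by
  have hcl : IsClosed {s : ℝ | s • e + t • rot e ∈ F} := by
    have : Continuous fun s : ℝ => s • e + t • rot e := by fun_prop
    exact hFc.isClosed.preimage this
  obtain ⟨R, hR⟩ := hFc.isBounded.subset_closedBall (0 : E2)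
  have hbd : {s : ℝ | s • e + t • rot e ∈ F} ⊆ Icc (-R) R := by
    intro s hs
    have h1 : s • e + t • rot e ∈ F := hs
    have h2 := hR h1
    rw [mem_closedBall_zero_iff] at h2
    have h3 : |inner ℝ e (s • e + t • rot e)| ≤ ‖e‖ * ‖s • e + t • rot e‖ :=
      abs_real_inner_le_norm _ _
    rw [inner_coord he, he, one_mul] at h3
    exact abs_le.1 (h3.trans h2)
  have hK : IsCompact {s : ℝ | s • e + t • rot e ∈ F} := isCompact_Icc.of_isClosed_subset hcl hbd
  have ht1 : |t| / r₀ ≤ 1 := (div_le_one hr₀).2 ht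
  have htpos : 0 < |t| := abs_pos.2 ht0
  have hne' : (Y * (1 - |t| / r₀)) • e + t • rot e ∈ F := by
    have h1 : (t / |t| * r₀) • rot e ∈ F := by
      refine hball ?_
      rw [mem_closedBall_zero_iff, norm_smul, norm_rot, he, mul_one, Real.norm_eq_abs, abs_mul,
        abs_div, abs_abs, div_self htpos.ne', one_mul, abs_of_pos hr₀]
    have h2 := hF hYF h1 (a := 1 - |t| / r₀) (b := |t| / r₀) (by linarith) (by positivity) (by ring)
    convert h2 using 1
    rw [smul_smul, smul_smul]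
    congr 2
    · ring
    · field_simp
  obtain ⟨b, hb⟩ := hK.exists_isGreatest ⟨_, hne'⟩
  refine ⟨b, hb.1, fun s hs => hb.2 hs, hb.2 hne', ?_⟩
  -- upper bound
  have h1 : (-(t / |t|) * r₀) • rot e ∈ F := by
    refine hball ?_
    rw [mem_closedBall_zero_iff, norm_smul, norm_rot, he, mul_one, Real.norm_eq_abs, abs_mul,
      abs_neg, abs_div, abs_abs, div_self htpos.ne', one_mul, abs_of_pos hr₀]
  have hbF : b • e + t • rot e ∈ F := hb.1
  have hden : 0 < r₀ + |t| := by linarith
  have h2 := hF hbF h1 (a := r₀ / (r₀ + |t|)) (b := |t| / (r₀ + |t|)) (by positivity)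
    (by positivity) (by field_simp)
  have h3 : (r₀ / (r₀ + |t|)) • (b • e + t • rot e) + (|t| / (r₀ + |t|)) • (-(t / |t|) * r₀) • rot e
      = (r₀ / (r₀ + |t|) * b) • e := by
    rw [smul_add, smul_smul, smul_smul, smul_smul, add_assoc, ← add_smul]
    have h4 : r₀ / (r₀ + |t|) * t + |t| / (r₀ + |t|) * (-(t / |t|) * r₀) = 0 := by
      field_simp
      ring
    rw [h4, zero_smul, add_zero]
  rw [h3] at h2
  have h4 := hmax _ h2
  rw [div_mul_eq_mul_div, div_le_iff₀ hden] at h4
  have h5 : Y * (1 + |t| / r₀) = Y * (r₀ + |t|) / r₀ := by field_simp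
  rw [h5, le_div_iff₀ hr₀]
  linarith

theorem straight {F L : Set E2} {x : ℝ} (h : PN F L x) {y : E2} (hy : y ∈ frontier F)
    (hyL : y ∈ interior L) : ∃ n : E2, EdgeAt F L n y := by
  have h0 := zero_intF h
  obtain ⟨r₀, hr₀, hball⟩ := Metric.nhds_basis_closedBall.mem_iff.1 (mem_interior_iff_mem_nhds.1 h0)
  obtain ⟨R', hR'⟩ := h.cptF.isBounded.subset_closedBall (0 : E2)
  obtain ⟨R, hR1, hR⟩ : ∃ R : ℝ, 1 ≤ R ∧ F ⊆ closedBall (0 : E2) R :=
    ⟨max R' 1, le_max_right _ _, hR'.trans (closedBall_subset_closedBall (le_max_left _ _))⟩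
  have hyF : y ∈ F := by
    have h1 := frontier_subset_closure hy
    rwa [h.cptF.isClosed.closure_eq] at h1
  have hy0 : y ≠ 0 := by
    rintro rfl
    exact hy.2 h0
  obtain ⟨Y, hYd⟩ : ∃ Y : ℝ, Y = ‖y‖ := ⟨_, rfl⟩
  have hY : 0 < Y := by rw [hYd]; exact norm_pos_iff.2 hy0
  obtain ⟨e, hed⟩ : ∃ e : E2, e = Y⁻¹ • y := ⟨_, rfl⟩
  have he : ‖e‖ = 1 := by
    rw [hed, norm_smul, norm_inv, Real.norm_eq_abs, abs_of_pos hY, ← hYd,
      inv_mul_cancel₀ hY.ne']
  have hYe : Y • e = y := by rw [hed, smul_smul, mul_inv_cancel₀ hY.ne', one_smul]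
  have hmax : ∀ s : ℝ, s • e ∈ F → s ≤ Y := by
    intro s hs
    by_contra hlt
    rw [not_le] at hlt
    have h1 : s • e = (s / Y) • y := by rw [hed, smul_smul]; rfl
    rw [h1] at hs
    exact st_ray h.convF h0 hy ((one_lt_div hY).2 hlt) hs
  obtain ⟨ε, hε, hεL⟩ := Metric.isOpen_iff.1 isOpen_interior y hyL
  have hεL' : ball y ε ⊆ L := hεL.trans interior_subset
  -- choice of `t₀`
  obtain ⟨t₀, ht₀, ht₀r, ht₀ε, ht₀R⟩ : ∃ t₀ : ℝ, 0 < t₀ ∧ t₀ < r₀ ∧ t₀ * (Y / r₀ + 1) < ε ∧
      4 * R * t₀ < 1 / 4 := by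
    have hc1 : 0 < Y / r₀ + 1 := by positivity
    refine ⟨min (r₀ / 2) (min (ε / (Y / r₀ + 1) / 2) (1 / (32 * R))), ?_, ?_, ?_, ?_⟩
    · have : 0 < R := by linarith
      positivity
    · exact (min_le_left _ _).trans_lt (by linarith)
    · have h1 : min (r₀ / 2) (min (ε / (Y / r₀ + 1) / 2) (1 / (32 * R))) ≤
          ε / (Y / r₀ + 1) / 2 := (min_le_right _ _).trans (min_le_left _ _)
      calc _ ≤ ε / (Y / r₀ + 1) / 2 * (Y / r₀ + 1) := mul_le_mul_of_nonneg_right h1 hc1.le
        _ = ε / 2 := by field_simp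
        _ < ε := by linarith
    · have h1 : min (r₀ / 2) (min (ε / (Y / r₀ + 1) / 2) (1 / (32 * R))) ≤ 1 / (32 * R) :=
        (min_le_right _ _).trans (min_le_right _ _)
      calc 4 * R * _ ≤ 4 * R * (1 / (32 * R)) := mul_le_mul_of_nonneg_left h1 (by linarith)
        _ = 1 / 8 := by
          have : R ≠ 0 := by linarith
          field_simp
          norm_num
        _ < 1 / 4 := by norm_num
  have habs : |t₀| = t₀ := abs_of_pos ht₀
  have habs' : |-t₀| = t₀ := by rw [abs_neg, habs]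
  obtain ⟨bp, hbpF, hbpmax, hbplo, hbphi⟩ := st_top h.convF h.cptF hr₀ hball he hY
    (by rw [hYe]; exact hyF) hmax (t := t₀) (by rw [habs]; exact ht₀r.le) ht₀.ne'
  obtain ⟨bm, hbmF, hbmmax, hbmlo, hbmhi⟩ := st_top h.convF h.cptF hr₀ hball he hY
    (by rw [hYe]; exact hyF) hmax (t := -t₀) (by rw [habs']; exact ht₀r.le)
    (neg_ne_zero.2 ht₀.ne')
  rw [habs] at hbplo hbphi
  rw [habs'] at hbmlo hbmhi
  have hpos : 0 < Y * (1 - t₀ / r₀) := by
    have : t₀ / r₀ < 1 := (div_lt_one hr₀).2 ht₀r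
    exact mul_pos hY (by linarith)
  have hbp : 0 < bp := hpos.trans_le hbplo
  have hbm : 0 < bm := hpos.trans_le hbmlo
  -- near `y`
  have hnear : ∀ (b t : ℝ), |t| = t₀ → Y * (1 - t₀ / r₀) ≤ b → b ≤ Y * (1 + t₀ / r₀) →
      b • e + t • rot e ∈ L := by
    intro b t ht hb1 hb2
    refine hεL' ?_
    rw [mem_ball, dist_eq_norm, ← hYe]
    have h1 : b • e + t • rot e - Y • e = (b - Y) • e + t • rot e := by
      rw [sub_smul]; abel
    rw [h1]
    have h2 : |b - Y| ≤ Y * (t₀ / r₀) := by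
      rw [abs_le]
      constructor <;> nlinarith
    calc ‖(b - Y) • e + t • rot e‖ ≤ ‖(b - Y) • e‖ + ‖t • rot e‖ := norm_add_le _ _
      _ = |b - Y| + t₀ := by
        rw [norm_smul, norm_smul, norm_rot, he, mul_one, mul_one, Real.norm_eq_abs,
          Real.norm_eq_abs, ht]
      _ ≤ Y * (t₀ / r₀) + t₀ := by linarith
      _ = t₀ * (Y / r₀ + 1) := by ring
      _ < ε := ht₀ε
  obtain ⟨A, hA⟩ : ∃ A : E2, A = bp • e + t₀ • rot e := ⟨_, rfl⟩
  obtain ⟨B, hB⟩ : ∃ B : E2, B = bm • e + (-t₀) • rot e := ⟨_, rfl⟩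
  have hAF : A ∈ F := by rw [hA]; exact hbpF
  have hBF : B ∈ F := by rw [hB]; exact hbmF
  have hAL : A ∈ L := by rw [hA]; exact hnear _ _ habs hbplo hbphi
  have hBL : B ∈ L := by rw [hB]; exact hnear _ _ habs' hbmlo hbmhi
  have hfr : ∀ (b t : ℝ), b • e + t • rot e ∈ F → (∀ s : ℝ, s • e + t • rot e ∈ F → s ≤ b) →
      b • e + t • rot e ∈ frontier F := by
    intro b t hb hbm
    refine ⟨subset_closure hb, fun hint => ?_⟩
    obtain ⟨η, hη, hηF⟩ := Metric.isOpen_iff.1 isOpen_interior _ hint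
    have h1 : (b + η / 2) • e + t • rot e ∈ F := by
      refine interior_subset (hηF ?_)
      rw [mem_ball, dist_eq_norm]
      have h2 : (b + η / 2) • e + t • rot e - (b • e + t • rot e) = (η / 2) • e := by
        rw [add_smul]; abel
      rw [h2, norm_smul, he, mul_one, Real.norm_eq_abs, abs_of_pos (by linarith)]
      linarith
    have h3 := hbm _ h1
    linarith
  have hAfr : A ∈ frontier F := by rw [hA]; exact hfr _ _ hbpF hbpmax
  have hBfr : B ∈ frontier F := by rw [hB]; exact hfr _ _ hbmF hbmmax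
  -- coordinates
  have hsA : inner ℝ e A = bp := by rw [hA, inner_coord he]
  have htA : inner ℝ (rot e) A = t₀ := by rw [hA, st_coord2 he]
  have hsB : inner ℝ e B = bm := by rw [hB, inner_coord he]
  have htB : inner ℝ (rot e) B = -t₀ := by rw [hB, st_coord2 he]
  have hABne : A ≠ B := by
    intro hAB
    rw [hAB, htB] at htA
    linarith
  -- the normal vector
  obtain ⟨N, hN⟩ : ∃ N : ℝ, N = ‖A - B‖ := ⟨_, rfl⟩
  have hN0 : 0 < N := by rw [hN]; exact norm_pos_iff.2 (sub_ne_zero.2 hABne)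
  obtain ⟨n, hn⟩ : ∃ n : E2, n = (-N⁻¹) • rot (A - B) := ⟨_, rfl⟩
  have hn1 : ‖n‖ = 1 := by
    rw [hn, norm_smul, norm_rot, norm_neg, norm_inv, Real.norm_eq_abs, abs_of_pos hN0, ← hN,
      inv_mul_cancel₀ hN0.ne']
  have hrotn : rot n = N⁻¹ • (A - B) := by
    rw [hn, st_rot_smul, st_rot_rot, neg_smul, smul_neg, neg_neg]
  have hAB : A - B = (bp - bm) • e + (2 * t₀) • rot e := by
    rw [hA, hB, sub_smul, two_mul, add_smul, neg_smul]
    abel
  have hnin : ∀ z : E2, inner ℝ n z = N⁻¹ * (2 * t₀ * inner ℝ e z - (bp - bm) *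
      inner ℝ (rot e) z) := by
    intro z
    rw [hn, hAB, st_rot_add, st_rot_smul, st_rot_smul, st_rot_rot, inner_smul_left,
      inner_add_left, inner_smul_left, inner_smul_left, inner_neg_left]
    simp only [RCLike.conj_to_real]
    ring
  obtain ⟨β, hβ⟩ : ∃ β : ℝ, β = N⁻¹ * (t₀ * (bp + bm)) := ⟨_, rfl⟩
  have hnA : inner ℝ n A = β := by rw [hnin, hsA, htA, hβ]; ring
  have hnB : inner ℝ n B = β := by rw [hnin, hsB, htB, hβ]; ring
  have hNinv : 0 < N⁻¹ := inv_pos.2 hN0
  have hβ0 : 0 < β := by rw [hβ]; positivity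
  -- no points above the line
  have hle : ∀ z ∈ F, inner ℝ n z ≤ β := by
    by_contra hcon
    push Not at hcon
    obtain ⟨z, hz, hzβ⟩ := hcon
    have hbulge := no_bulge h hn1 hAfr hBfr hABne hAL hBL hnA hnB ⟨z, hz, hzβ⟩
      ⟨0, interior_subset h0, by rw [inner_zero_right]; exact hβ0⟩
    have hrect : volume.real {w : E2 | w ∈ F ∧ β < inner ℝ n w} ≤ 4 * R * t₀ := by
      refine st_rect he (by linarith) ht₀.le fun w hw => ?_
      obtain ⟨hwF, hwβ⟩ := hw
      obtain ⟨s, hs⟩ : ∃ s : ℝ, s = inner ℝ e w := ⟨_, rfl⟩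
      obtain ⟨t, ht⟩ : ∃ t : ℝ, t = inner ℝ (rot e) w := ⟨_, rfl⟩
      have hwc : w = s • e + t • rot e := by rw [hs, ht]; exact coord he w
      constructor
      · have h2 := hR hwF
        rw [mem_closedBall_zero_iff] at h2
        have h3 : |inner ℝ e w| ≤ ‖e‖ * ‖w‖ := abs_real_inner_le_norm _ _
        rw [he, one_mul] at h3
        exact h3.trans h2
      · rw [← ht]
        rw [hnin, ← hs, ← ht, hβ] at hwβ
        have hψ : t₀ * (bp + bm) < 2 * t₀ * s - (bp - bm) * t := lt_of_mul_lt_mul_left hwβ hNinv.le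
        rw [abs_le]
        constructor
        · by_contra hlt
          rw [not_le] at hlt
          -- segment from `A` to `w`
          have hd : 0 < t₀ - t := by linarith
          obtain ⟨μ, hμ⟩ : ∃ μ : ℝ, μ = 2 * t₀ / (t₀ - t) := ⟨_, rfl⟩
          have hμ0 : 0 < μ := by rw [hμ]; positivity
          have hμ1 : μ ≤ 1 := by
            rw [hμ, div_le_one hd]
            linarith
          have hμt : μ * (t₀ - t) = 2 * t₀ := by rw [hμ]; field_simp
          have hP := h.convF hAF hwF (a := 1 - μ) (b := μ) (by linarith) hμ0.le (by ring)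
          have hPe : (1 - μ) • A + μ • w = ((1 - μ) * bp + μ * s) • e + (-t₀) • rot e := by
            rw [hA, hwc, smul_add, smul_add, smul_smul, smul_smul, smul_smul, smul_smul]
            have h4 : -t₀ = (1 - μ) * t₀ + μ * t := by linarith
            rw [add_smul, h4, add_smul]
            abel
          rw [hPe] at hP
          have h5 := hbmmax _ hP
          -- `2 t₀ s > t₀ (bp + bm) + (bp - bm) t`
          have h6 : μ * (t₀ * (bp + bm)) < μ * (2 * t₀ * s - (bp - bm) * t) :=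
            mul_lt_mul_of_pos_left hψ hμ0
          have h7 : μ * t = μ * t₀ - 2 * t₀ := by linarith
          have h8 : t₀ * bm < t₀ * ((1 - μ) * bp + μ * s) := by nlinarith
          have h9 := lt_of_mul_lt_mul_left h8 ht₀.le
          linarith
        · by_contra hlt
          rw [not_le] at hlt
          have hd : 0 < t + t₀ := by linarith
          obtain ⟨μ, hμ⟩ : ∃ μ : ℝ, μ = 2 * t₀ / (t + t₀) := ⟨_, rfl⟩
          have hμ0 : 0 < μ := by rw [hμ]; positivity
          have hμ1 : μ ≤ 1 := by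
            rw [hμ, div_le_one hd]
            linarith
          have hμt : μ * (t + t₀) = 2 * t₀ := by rw [hμ]; field_simp
          have hP := h.convF hBF hwF (a := 1 - μ) (b := μ) (by linarith) hμ0.le (by ring)
          have hPe : (1 - μ) • B + μ • w = ((1 - μ) * bm + μ * s) • e + t₀ • rot e := by
            rw [hB, hwc, smul_add, smul_add, smul_smul, smul_smul, smul_smul, smul_smul]
            have h4 : t₀ = (1 - μ) * (-t₀) + μ * t := by linarith
            have h4' : t₀ • rot e = ((1 - μ) * (-t₀) + μ * t) • rot e := by rw [← h4]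
            rw [add_smul, h4', add_smul]
            abel
          rw [hPe] at hP
          have h5 := hbpmax _ hP
          have h6 : μ * (t₀ * (bp + bm)) < μ * (2 * t₀ * s - (bp - bm) * t) :=
            mul_lt_mul_of_pos_left hψ hμ0
          have h7 : μ * t = 2 * t₀ - μ * t₀ := by linarith
          have h8 : t₀ * bp < t₀ * ((1 - μ) * bm + μ * s) := by nlinarith
          have h9 := lt_of_mul_lt_mul_left h8 ht₀.le
          linarith
    linarith
  -- `y` is the midpoint
  have hmid : ((bp + bm) / 2) • e ∈ F := by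
    have h1 := h.convF hAF hBF (a := 1 / 2) (b := 1 / 2) (by norm_num) (by norm_num) (by norm_num)
    have h2 : (1 / 2 : ℝ) • A + (1 / 2 : ℝ) • B = ((bp + bm) / 2) • e := by
      rw [hA, hB, smul_add, smul_add, smul_smul, smul_smul, smul_smul, smul_smul]
      have h3 : (1 / 2 : ℝ) * -t₀ = -(1 / 2 * t₀) := by ring
      rw [h3, neg_smul]
      have h4 : ((bp + bm) / 2) = 1 / 2 * bp + 1 / 2 * bm := by ring
      rw [h4, add_smul]
      abel
    rwa [h2] at h1
  have hmid1 := hmax _ hmid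
  have hye : inner ℝ e y = Y := by
    rw [← hYe, inner_smul_right, real_inner_self_eq_norm_sq, he]
    ring
  have hyt : inner ℝ (rot e) y = 0 := by
    rw [← hYe, inner_smul_right, real_inner_comm, inner_rot, mul_zero]
  have hyβ : inner ℝ n y ≤ β := hle y hyF
  rw [hnin, hye, hyt, hβ] at hyβ
  have h1 : 2 * t₀ * Y - (bp - bm) * 0 ≤ t₀ * (bp + bm) := le_of_mul_le_mul_left hyβ hNinv
  have hYeq : Y = (bp + bm) / 2 := by
    refine le_antisymm ?_ hmid1
    have h2 : t₀ * Y ≤ t₀ * ((bp + bm) / 2) := by linarith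
    exact le_of_mul_le_mul_left h2 ht₀
  have hyn : inner ℝ n y = β := by
    rw [hnin, hye, hyt, hβ, hYeq]
    ring
  have hy2 : y = (1 / 2 : ℝ) • (A + B) := by
    rw [← hYe, hYeq, hA, hB]
    have h3 : bp • e + t₀ • rot e + (bm • e + (-t₀) • rot e) = (bp + bm) • e := by
      rw [neg_smul, add_smul]
      abel
    rw [h3, smul_smul]
    congr 1
    ring
  refine ⟨n, hn1, hyF, hyL, fun z hz => by rw [hyn]; exact hle z hz, N / 2, by positivity, ?_, ?_⟩
  · have h3 : y + (N / 2) • rot n = A := by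
      rw [hrotn, smul_smul, hy2]
      have h4 : N / 2 * N⁻¹ = 1 / 2 := by field_simp
      rw [h4, ← smul_add]
      have h5 : A + B + (A - B) = (2 : ℝ) • A := by rw [two_smul]; abel
      rw [h5, smul_smul]
      norm_num
    rw [h3]
    exact hAF
  · have h3 : y - (N / 2) • rot n = B := by
      rw [hrotn, smul_smul, hy2]
      have h4 : N / 2 * N⁻¹ = 1 / 2 := by field_simp
      rw [h4, ← smul_sub]
      have h5 : A + B - (A - B) = (2 : ℝ) • B := by rw [two_smul]; abel
      rw [h5, smul_smul]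
      norm_num
    rw [h3]
    exact hBF

end Pool.Agent.Lib.MP_43065d_gt
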