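import Pool.Agent.Lib.MP_43065d_gt.Pl.EdgeOf
import Pool.Agent.Lib.MP_43065d_gt.Pl.NoThree

/-!
# Module TwoEdges (P6): at most two protruding edges

PROOF.  `V = frontier F ∩ interior L`.  Pick `z₀ ∈ L \ F`; `exit_point` from `0` (`0 ∈ interior L`, `0 ∈ F`) gives a point `y₁ ∈ V`; `straight`: `EdgeAt F L n₁ y₁`.
Case 1: all points of `V` satisfy `inner n₁ y = inner n₁ y₁`.  Take `n₂ = n₁`, `a₂ = a₁`.
Case 2: there is `y₂ ∈ V` with `inner n₁ y₂ < inner n₁ y₁`; `EdgeAt F L n₂ y₂`.  Then every `y₃ ∈ V` is on one of the two lines: otherwise `inner n₁ y₃ < a₁`,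
`inner n₂ y₃ < a₂`, `EdgeAt F L n₃ y₃`; and `inner n₂ y₁ < a₂` (if equal, `n₂` supports `F` at `y₁`, `n₂ = n₁` by `supp_unique`, and then
`a₁ = inner n₁ y₁ = inner n₂ y₁ = a₂ = inner n₁ y₂`, contradiction), in the same way `inner n₃ y₁ < a₃`, `inner n₃ y₂ < a₃`; `no_three`.
In both cases: let `z ∈ L`, `inner n_i z ≤ a_i` (`i = 1,2`) and suppose `z ∉ F`.  `exit_point` from `0`: `E = t • z ∈ V`, `t < 1`, and `inner n_i E = a_i` for some `i`, so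
`a_i = t * inner n_i z ≤ t * a_i` (if `t ≥ 0`), impossible because `a_i > 0` (`gedge_of_edgeAt`), `t < 1`.
-/

open MeasureTheory Set Filter Topology Metric
open scoped ENNReal NNReal Pointwise

namespace Pool.Agent.Lib.MP_43065d_gt

private theorem twoEdges_strict {F L : Set E2} {x : ℝ} (h : PN F L x) {n y m z : E2}
    (e : EdgeAt F L n y) (e' : EdgeAt F L m z) (hlt : inner ℝ n z < inner ℝ n y) :
    inner ℝ m y < inner ℝ m z := by
  refine lt_of_le_of_ne (e'.supp y e.mem) fun heq => ?_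
  have hm : m = n := supp_unique h e e'.unit fun w hw => by
    rw [heq]
    exact e'.supp w hw
  subst hm
  exact absurd heq (ne_of_gt hlt)

private theorem twoEdges_fin {F L : Set E2} {x : ℝ} (h : PN F L x) {n₁ n₂ : E2} {a₁ a₂ : ℝ}
    (g₁ : GEdge F L n₁ a₁) (g₂ : GEdge F L n₂ a₂)
    (hV : ∀ y ∈ frontier F, y ∈ interior L → inner ℝ n₁ y = a₁ ∨ inner ℝ n₂ y = a₂) :
    ∀ z ∈ L, inner ℝ n₁ z ≤ a₁ → inner ℝ n₂ z ≤ a₂ → z ∈ F := by
  intro z hz h1 h2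
  by_contra hzF
  obtain ⟨t, ht0, ht1, hE, hEL, -⟩ :=
    exit_point h (interior_subset (zero_intF h)) (zero_intL h) hz hzF
  have hE' : (0 : E2) + t • (z - 0) = t • z := by rw [zero_add, sub_zero]
  rw [hE'] at hE hEL
  rcases hV _ hE hEL with h3 | h3
  · rw [inner_smul_right] at h3
    have h4 : t * inner ℝ n₁ z ≤ t * a₁ := mul_le_mul_of_nonneg_left h1 ht0
    have h5 : t * a₁ < 1 * a₁ := mul_lt_mul_of_pos_right ht1 g₁.pos
    linarith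
  · rw [inner_smul_right] at h3
    have h4 : t * inner ℝ n₂ z ≤ t * a₂ := mul_le_mul_of_nonneg_left h2 ht0
    have h5 : t * a₂ < 1 * a₂ := mul_lt_mul_of_pos_right ht1 g₂.pos
    linarith

theorem two_edges {F L : Set E2} {x : ℝ} (h : PN F L x) (hL : ¬ L ⊆ F) :
    ∃ (n₁ : E2) (a₁ : ℝ) (n₂ : E2) (a₂ : ℝ), GEdge F L n₁ a₁ ∧ GEdge F L n₂ a₂ ∧
      ∀ z ∈ L, inner ℝ n₁ z ≤ a₁ → inner ℝ n₂ z ≤ a₂ → z ∈ F := by
  obtain ⟨z₀, hz₀, hz₀F⟩ := Set.not_subset.1 hL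
  obtain ⟨t, -, -, hE, hEL, -⟩ :=
    exit_point h (interior_subset (zero_intF h)) (zero_intL h) hz₀ hz₀F
  obtain ⟨n₁, e₁⟩ := straight h hE hEL
  set y₁ := (0 : E2) + t • (z₀ - 0) with hy₁
  by_cases hall : ∀ y ∈ frontier F, y ∈ interior L → inner ℝ n₁ y = inner ℝ n₁ y₁
  · refine ⟨n₁, inner ℝ n₁ y₁, n₁, inner ℝ n₁ y₁, gedge_of_edgeAt h e₁, gedge_of_edgeAt h e₁, ?_⟩
    exact twoEdges_fin h (gedge_of_edgeAt h e₁) (gedge_of_edgeAt h e₁)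
      fun y hy hy' => Or.inl (hall y hy hy')
  · push Not at hall
    obtain ⟨y₂, hy₂, hy₂L, hne⟩ := hall
    obtain ⟨n₂, e₂⟩ := straight h hy₂ hy₂L
    have h12 : inner ℝ n₁ y₂ < inner ℝ n₁ y₁ := lt_of_le_of_ne (e₁.supp y₂ e₂.mem) hne
    have h21 := twoEdges_strict h e₁ e₂ h12
    refine ⟨n₁, inner ℝ n₁ y₁, n₂, inner ℝ n₂ y₂, gedge_of_edgeAt h e₁, gedge_of_edgeAt h e₂, ?_⟩
    refine twoEdges_fin h (gedge_of_edgeAt h e₁) (gedge_of_edgeAt h e₂) fun y hy hy' => ?_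
    by_contra hcon
    push Not at hcon
    obtain ⟨n₃, e₃⟩ := straight h hy hy'
    have h13 : inner ℝ n₁ y < inner ℝ n₁ y₁ := lt_of_le_of_ne (e₁.supp y e₃.mem) hcon.1
    have h23 : inner ℝ n₂ y < inner ℝ n₂ y₂ := lt_of_le_of_ne (e₂.supp y e₃.mem) hcon.2
    exact no_three h e₁ e₂ e₃ h12 h13 h21 h23 (twoEdges_strict h e₁ e₃ h13)
      (twoEdges_strict h e₂ e₃ h23)

end Pool.Agent.Lib.MP_43065d_gt
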