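import Pool.Agent.Lib.MP_43065d_gt.Pl.SlopeB
import Pool.Agent.Lib.MP_43065d_gt.Pl.Extra
import Pool.Agent.Lib.MP_43065d_gt.Pl.EdgeJ
import Pool.Agent.Lib.MP_43065d_gt.Pl.CostInt
import Pool.Agent.Lib.MP_43065d_gt.Pl.Arith
import Pool.Agent.Lib.MP_43065d_gt.Pl.TwoEdges

/-!
# Module TotalP (section 7): the integral when `L` protrudes

PROOF.  `two_edges`: `n₁, a₁, n₂, a₂`.  `edge_J`: `r_i` with `J_i := eJ .. r_i > 1 + (10/3) ch_i²`.  `K_i = (J_i - x - 2ch_i²)/2 > 0` and `x³/(3K_i) + 2E_i < (2/3)x²`,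
`E_i = (2x)³ch_i²(2-3ch_i)/(9(1-ch_i))` (`arith`, `edge_C_pos`, `edge_C_le`).  `K = (K₁+K₂)/2`.  For `τ > 1`: if `Y = Ncut .. τ` is nonempty, the average of `slope_one` (`r₁`) and
`slope_two` (`r₂`) is `√(volume.real Y) ≤ x - (τ-1) K`, so `volume Y ≤ ofReal ((max (x - (τ-1)K) 0)^2)`; true also if `Y = ∅`.
`N τ ⊆ Ncut .. τ ∪ {lev₁ < inner n₁} ∪ {lev₂ < inner n₂}`, so (`extra_le`) `volume (N τ) ≤ ofReal ((max (x-(τ-1)K) 0)^2) + cost (2x) ch₁ τ + cost (2x) ch₂ τ`.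
Integrate over `τ ∈ (1,∞)` (all three functions are measurable: `measurable_cost`): `∫ (max (x-(τ-1)K) 0)² = x³/(3K)`, `cost_integral` with `t = 2x ≤ 1`.  Total
`≤ ofReal (x³/(3K) + E₁ + E₂) < ofReal ((2/3)x²)` by `arith_two`.
-/

open MeasureTheory Set Filter Topology Metric
open scoped ENNReal NNReal Pointwise

namespace Pool.Agent.Lib.MP_43065d_gt

private theorem total_lint_ftc {a b : ℝ} (hab : a ≤ b) {F f : ℝ → ℝ}
    (hF : ∀ x ∈ Icc a b, HasDerivAt F (f x) x) (hf : ContinuousOn f (Icc a b))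
    (h0 : ∀ x ∈ Icc a b, 0 ≤ f x) :
    ∫⁻ x in Ioc a b, ENNReal.ofReal (f x) = ENNReal.ofReal (F b - F a) := by
  have hi : IntervalIntegrable f volume a b := by
    apply ContinuousOn.intervalIntegrable
    rwa [uIcc_of_le hab]
  have hint : IntegrableOn f (Ioc a b) :=
    (intervalIntegrable_iff_integrableOn_Ioc_of_le hab).1 hi
  rw [← ofReal_integral_eq_lintegral_ofReal hint, ← intervalIntegral.integral_of_le hab,
    intervalIntegral.integral_eq_sub_of_hasDerivAt (fun x hx => hF x (by rwa [uIcc_of_le hab] at hx))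
      hi]
  refine (ae_restrict_iff' measurableSet_Ioc).2 (Eventually.of_forall fun x hx => ?_)
  exact h0 x (Ioc_subset_Icc_self hx)

theorem integral_ramp {x K : ℝ} (hx : 0 < x) (hK : 0 < K) :
    ∫⁻ τ in Ioi (1 : ℝ), ENNReal.ofReal (max (x - (τ - 1) * K) 0 ^ 2) =
      ENNReal.ofReal (x ^ 3 / (3 * K)) := by
  have hxK : 0 < x / K := div_pos hx hK
  have hsplit : Ioi (1 : ℝ) = Ioc 1 (1 + x / K) ∪ Ioi (1 + x / K) := by
    rw [Ioc_union_Ioi_eq_Ioi (by linarith)]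
  rw [hsplit, lintegral_union measurableSet_Ioi Set.Ioc_disjoint_Ioi_same]
  have h2 : ∫⁻ τ in Ioi (1 + x / K), ENNReal.ofReal (max (x - (τ - 1) * K) 0 ^ 2) = 0 := by
    rw [setLIntegral_congr_fun (g := fun _ => 0) measurableSet_Ioi]
    · simp
    · intro τ hτ
      have hτ' : 1 + x / K < τ := hτ
      have h3 : x / K < τ - 1 := by linarith
      have h4 : x < (τ - 1) * K := by rwa [div_lt_iff₀ hK] at h3
      have h5 : max (x - (τ - 1) * K) 0 = 0 := max_eq_right (by linarith)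
      simp only [h5]
      simp
  have h1 : ∫⁻ τ in Ioc (1 : ℝ) (1 + x / K), ENNReal.ofReal (max (x - (τ - 1) * K) 0 ^ 2) =
      ENNReal.ofReal ((fun τ => -(x - (τ - 1) * K) ^ 3 / (3 * K)) (1 + x / K) -
        (fun τ => -(x - (τ - 1) * K) ^ 3 / (3 * K)) 1) := by
    rw [← total_lint_ftc (F := fun τ => -(x - (τ - 1) * K) ^ 3 / (3 * K))
      (f := fun τ => (x - (τ - 1) * K) ^ 2) (by linarith)]
    · refine setLIntegral_congr_fun measurableSet_Ioc fun τ hτ => ?_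
      have h3 : τ - 1 ≤ x / K := by linarith [hτ.2]
      have h4 : (τ - 1) * K ≤ x := by rwa [le_div_iff₀ hK] at h3
      have h5 : max (x - (τ - 1) * K) 0 = x - (τ - 1) * K := max_eq_left (by linarith)
      simp only [h5]
    · intro τ _
      have e1 : HasDerivAt (fun τ : ℝ => τ - 1) 1 τ := (hasDerivAt_id τ).sub_const 1
      have e2 : HasDerivAt (fun τ : ℝ => x - (τ - 1) * K) (-(1 * K)) τ :=
        (e1.mul_const K).const_sub x
      have e3 : HasDerivAt (fun τ : ℝ => -(x - (τ - 1) * K) ^ 3 / (3 * K)) _ τ :=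
        ((e2.pow 3).neg).div_const (3 * K)
      refine e3.congr_deriv ?_
      field_simp
      norm_num
      ring
    · fun_prop
    · intro τ _
      positivity
  rw [h1, h2, add_zero]
  congr 1
  simp only
  field_simp
  ring

theorem total_protrude {F L : Set E2} {x : ℝ} {N : ℝ → Set E2} (h : PN F L x) (hN : Fam F L N)
    (hL : ¬ L ⊆ F) : ∫⁻ τ in Ioi (1 : ℝ), volume (N τ) < ENNReal.ofReal (2 / 3 * x ^ 2) := by
  obtain ⟨n₁, a₁, n₂, a₂, g₁, g₂, hcap⟩ := two_edges h hL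
  obtain ⟨r₁, hr₁, hJ₁⟩ := edge_J h g₁
  obtain ⟨r₂, hr₂, hJ₂⟩ := edge_J h g₂
  have hx := h.x_pos
  have hx' := h.x_le
  set c₁ := eC F L x n₁ a₁ with hc₁
  set c₂ := eC F L x n₂ a₂ with hc₂
  have c₁p : 0 < c₁ := edge_C_pos h g₁
  have c₂p : 0 < c₂ := edge_C_pos h g₂
  have c₁l : c₁ ≤ 1 / 2 := edge_C_le h g₁
  have c₂l : c₂ ≤ 1 / 2 := edge_C_le h g₂
  obtain ⟨k₁, b₁⟩ := arith hx hx' c₁p c₁l hJ₁
  obtain ⟨k₂, b₂⟩ := arith hx hx' c₂p c₂l hJ₂
  set K₁ := (eJ F L x n₁ a₁ r₁ - x - 2 * c₁ ^ 2) / 2 with hK₁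
  set K₂ := (eJ F L x n₂ a₂ r₂ - x - 2 * c₂ ^ 2) / 2 with hK₂
  set E₁ := (2 * x) ^ 3 * c₁ ^ 2 * (2 - 3 * c₁) / (9 * (1 - c₁)) with hE₁
  set E₂ := (2 * x) ^ 3 * c₂ ^ 2 * (2 - 3 * c₂) / (9 * (1 - c₂)) with hE₂
  have hlt := arith_two hx k₁ k₂ b₁ b₂
  set K := (K₁ + K₂) / 2 with hK
  have hK0 : 0 < K := by rw [hK]; linarith
  have hE₁0 : 0 ≤ E₁ := by
    rw [hE₁]
    exact div_nonneg (mul_nonneg (by positivity) (by linarith)) (by linarith)
  have hE₂0 : 0 ≤ E₂ := by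
    rw [hE₂]
    exact div_nonneg (mul_nonneg (by positivity) (by linarith)) (by linarith)
  have hY : ∀ τ : ℝ, 1 < τ → volume (Ncut F L x N n₁ a₁ n₂ a₂ τ) ≤
      ENNReal.ofReal (max (x - (τ - 1) * K) 0 ^ 2) := by
    intro τ hτ
    rcases Set.eq_empty_or_nonempty (Ncut F L x N n₁ a₁ n₂ a₂ τ) with he | hne
    · rw [he, measure_empty]
      exact zero_le
    · have s1 := slope_one h hN g₁ g₂ hcap hτ hne hr₁.1 hr₁.2
      have s2 := slope_two h hN g₁ g₂ hcap hτ hne hr₂.1 hr₂.2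
      rw [← hc₁, ← hc₂] at s1 s2
      have s3 : √(volume.real (Ncut F L x N n₁ a₁ n₂ a₂ τ)) ≤ x - (τ - 1) * K := by
        have e1 : x - (τ - 1) * K =
            ((x - (τ - 1) * ((eJ F L x n₁ a₁ r₁ - x - c₁ ^ 2 - c₂ ^ 2) / 2)) +
            (x - (τ - 1) * ((eJ F L x n₂ a₂ r₂ - x - c₁ ^ 2 - c₂ ^ 2) / 2))) / 2 := by
          rw [hK, hK₁, hK₂]
          ring
        rw [e1]
        linarith
      have hfin : volume (Ncut F L x N n₁ a₁ n₂ a₂ τ) ≠ ⊤ := by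
        refine ne_top_of_le_ne_top (hN.cpt τ hτ.le).measure_lt_top.ne (measure_mono ?_)
        intro z hz
        exact hz.1
      rw [← ENNReal.ofReal_toReal hfin]
      refine ENNReal.ofReal_le_ofReal ?_
      have s4 : (volume (Ncut F L x N n₁ a₁ n₂ a₂ τ)).toReal =
          √(volume.real (Ncut F L x N n₁ a₁ n₂ a₂ τ)) ^ 2 := by
        rw [Real.sq_sqrt measureReal_nonneg]
        rfl
      rw [s4]
      exact pow_le_pow_left₀ (Real.sqrt_nonneg _) (s3.trans (le_max_left _ _)) 2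
  have hpt : ∀ τ ∈ Ioi (1 : ℝ), volume (N τ) ≤
      ENNReal.ofReal (max (x - (τ - 1) * K) 0 ^ 2) + cost (2 * x) c₁ τ + cost (2 * x) c₂ τ := by
    intro τ hτ
    have hτ' : 1 < τ := hτ
    have hsub : N τ ⊆ (Ncut F L x N n₁ a₁ n₂ a₂ τ ∪
        {z | z ∈ N τ ∧ lev F L x n₁ a₁ τ < inner ℝ n₁ z}) ∪
        {z | z ∈ N τ ∧ lev F L x n₂ a₂ τ < inner ℝ n₂ z} := by
      intro z hz
      rcases le_or_gt (inner ℝ n₁ z) (lev F L x n₁ a₁ τ) with h1 | h1
      · rcases le_or_gt (inner ℝ n₂ z) (lev F L x n₂ a₂ τ) with h2 | h2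
        · exact Or.inl (Or.inl ⟨hz, h1, h2⟩)
        · exact Or.inr ⟨hz, h2⟩
      · exact Or.inl (Or.inr ⟨hz, h1⟩)
    refine (measure_mono hsub).trans ((measure_union_le _ _).trans ?_)
    refine add_le_add ((measure_union_le _ _).trans (add_le_add (hY τ hτ') ?_)) ?_
    · exact extra_le h hN g₁ hτ'.le
    · exact extra_le h hN g₂ hτ'.le
  have hm1 : Measurable fun τ : ℝ => ENNReal.ofReal (max (x - (τ - 1) * K) 0 ^ 2) := by
    fun_prop
  have hm2 : Measurable (cost (2 * x) c₁) := measurable_cost _ _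
  have hm3 : Measurable (cost (2 * x) c₂) := measurable_cost _ _
  calc ∫⁻ τ in Ioi (1 : ℝ), volume (N τ)
      ≤ ∫⁻ τ in Ioi (1 : ℝ), (ENNReal.ofReal (max (x - (τ - 1) * K) 0 ^ 2) +
          cost (2 * x) c₁ τ + cost (2 * x) c₂ τ) :=
        setLIntegral_mono' measurableSet_Ioi hpt
    _ = ENNReal.ofReal (x ^ 3 / (3 * K)) + (∫⁻ τ in Ioi (1 : ℝ), cost (2 * x) c₁ τ) +
          (∫⁻ τ in Ioi (1 : ℝ), cost (2 * x) c₂ τ) := by
        rw [lintegral_add_right _ hm3, lintegral_add_right _ hm2, integral_ramp hx hK0]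
    _ ≤ ENNReal.ofReal (x ^ 3 / (3 * K)) + ENNReal.ofReal E₁ + ENNReal.ofReal E₂ := by
        refine add_le_add (add_le_add le_rfl ?_) ?_
        · exact cost_integral c₁p c₁l (by linarith) (by linarith)
        · exact cost_integral c₂p c₂l (by linarith) (by linarith)
    _ = ENNReal.ofReal (x ^ 3 / (3 * K) + (E₁ + E₂)) := by
        rw [← ENNReal.ofReal_add (by positivity) hE₁0, ← ENNReal.ofReal_add (by positivity) hE₂0,
          add_assoc]
    _ < ENNReal.ofReal (2 / 3 * x ^ 2) := by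
        rw [ENNReal.ofReal_lt_ofReal_iff (by positivity)]
        exact hlt

end Pool.Agent.Lib.MP_43065d_gt
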